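import Pool.Agent.Helper43.SubAUX2

/-!
# Subspace theorem project, module AUX: the auxiliary polynomial
-/

set_option autoImplicit false

namespace Pool.Agent.Helper43.Sub

open Pool.Agent.Helper10.Sub
open MvPolynomial Finset

/-! ### Siegel's lemma for systems with few equations -/

section siegel

attribute [local instance] Matrix.seminormedAddCommGroup

theorem siegel_half {α β : Type*} [Fintype α] [Fintype β] (A : α → β → ℤ) (H : ℕ) (hH : 1 ≤ H)
    (hA : ∀ i j, |A i j| ≤ H) (h2 : 2 * Fintype.card α ≤ Fintype.card β)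
    (hβ : 0 < Fintype.card β) :
    ∃ t : β → ℤ, t ≠ 0 ∧ (∀ i, ∑ j, A i j * t j = 0) ∧ ∀ j, |t j| ≤ Fintype.card β * H := by
  rcases Nat.eq_zero_or_pos (Fintype.card α) with hα | hα
  · have : IsEmpty α := Fintype.card_eq_zero_iff.1 hα
    obtain ⟨j0⟩ : Nonempty β := Fintype.card_pos_iff.1 hβ
    refine ⟨fun _ => 1, fun h => one_ne_zero (congrFun h j0), fun i => isEmptyElim i, fun j => ?_⟩
    rw [abs_one]
    have : 1 ≤ Fintype.card β * H := Nat.mul_pos hβ hH
    exact_mod_cast this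
  · obtain ⟨t, ht0, ht1, ht2⟩ := Int.Matrix.exists_ne_zero_int_vec_norm_le
      (Matrix.of A) (by omega) hα
    refine ⟨t, ht0, fun i => ?_, fun j => ?_⟩
    · have := congrFun ht1 i
      simpa [Matrix.mulVec, dotProduct] using this
    · have hn : (0 : ℝ) < Fintype.card β := by exact_mod_cast hβ
      have hm : (0 : ℝ) < Fintype.card α := by exact_mod_cast hα
      have h2' : 2 * (Fintype.card α : ℝ) ≤ Fintype.card β := by exact_mod_cast h2
      have hnm : ‖Matrix.of A‖ ≤ H := by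
        rw [Matrix.norm_le_iff (by positivity)]
        intro i j
        rw [Int.norm_eq_abs]
        have := hA i j
        exact_mod_cast this
      have hb1 : (1 : ℝ) ≤ Fintype.card β * max 1 ‖Matrix.of A‖ := by
        have h3 : (1 : ℝ) ≤ Fintype.card β := by exact_mod_cast hβ
        have h4 : (1 : ℝ) ≤ max 1 ‖Matrix.of A‖ := le_max_left _ _
        nlinarith
      have he : (Fintype.card α : ℝ) / (Fintype.card β - Fintype.card α) ≤ 1 := by
        rw [div_le_one (by linarith)]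
        linarith
      have h5 : ‖t‖ ≤ Fintype.card β * H := by
        calc ‖t‖ ≤ _ := ht2
          _ ≤ (Fintype.card β * max 1 ‖Matrix.of A‖) ^ (1 : ℝ) :=
              Real.rpow_le_rpow_of_exponent_le hb1 he
          _ = Fintype.card β * max 1 ‖Matrix.of A‖ := Real.rpow_one _
          _ ≤ Fintype.card β * H := by
              apply mul_le_mul_of_nonneg_left _ hn.le
              exact max_le (by exact_mod_cast hH) hnm
      have h6 := (norm_le_pi_norm t j).trans h5
      rw [Int.norm_eq_abs] at h6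
      exact_mod_cast h6

end siegel

section main

variable {ι : Type} [Fintype ι] [DecidableEq ι]

/-- a family of exponents as a finitely supported function -/
noncomputable def toF {b : ℕ} (J : Fin b → ι → ℕ) : (Fin b × ι) →₀ ℕ :=
  Finsupp.equivFunOnFinite.symm fun q => J q.1 q.2

@[simp] theorem toF_apply {b : ℕ} (J : Fin b → ι → ℕ) (q : Fin b × ι) : toF J q = J q.1 q.2 := rfl

theorem toF_injective {b : ℕ} : Function.Injective (toF : (Fin b → ι → ℕ) → (Fin b × ι) →₀ ℕ) := by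
  intro J J' h
  funext a i
  have := DFunLike.congr_fun h (a, i)
  simpa using this

theorem exists_toF {b : ℕ} (E : (Fin b × ι) →₀ ℕ) : ∃ J, E = toF J :=
  ⟨fun h i => E (h, i), by ext q; rfl⟩

/-- the polynomial with given coefficients -/
noncomputable def polyOf {b : ℕ} (r : Fin b → ℕ) (c : (Fin b → ι → ℕ) → ℤ) :
    MvPolynomial (Fin b × ι) ℤ :=
  ∑ e ∈ exps ι r, monomial (toF e) (c e)

theorem coeff_polyOf {b : ℕ} (r : Fin b → ℕ) (c : (Fin b → ι → ℕ) → ℤ) (J : Fin b → ι → ℕ) :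
    coeff (toF J) (polyOf r c) = if J ∈ exps ι r then c J else 0 := by
  classical
  unfold polyOf
  rw [coeff_sum]
  simp only [coeff_monomial]
  split_ifs with hJ
  · rw [Finset.sum_eq_single J]
    · rw [if_pos rfl]
    · intro e _ he
      rw [if_neg fun h => he (toF_injective h)]
    · intro h; exact absurd hJ h
  · apply Finset.sum_eq_zero
    intro e he
    rw [if_neg]
    intro h
    exact hJ (toF_injective h ▸ he)

theorem linSub_monomial {b : ℕ} {F : Type*} [Field F] (M : Matrix ι ι F) (e : Fin b → ι → ℕ)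
    (a : ℤ) : linSub M (monomial (toF e) a) = C (a : F) * ∏ q, lf M q ^ (e q.1 q.2) := by
  unfold linSub
  rw [aeval_monomial, Finsupp.prod_fintype _ _ (by simp)]
  congr 1

/-- The coefficients of `linSub M P` are controlled by integer linear forms. -/
theorem field_lemma {F : Type*} [Field F] [Algebra ℚ F] (M : Matrix ι ι F)
    (hM : ∀ i j, IsAlgebraic ℚ (M i j)) :
    ∃ D C : ℕ, 1 ≤ C ∧ ∀ (b : ℕ) (r : Fin b → ℕ), 1 ≤ ∑ h, r h →
      ∃ Z : (Fin b → ι → ℕ) → (Fin b → ι → ℕ) → Fin D → ℤ,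
        (∀ e ∈ exps ι r, ∀ J t, |Z e J t| ≤ C ^ (∑ h, r h)) ∧
        ∀ c : (Fin b → ι → ℕ) → ℤ,
          (∀ J, J ∉ exps ι r → coeff (toF J) (linSub M (polyOf r c)) = 0) ∧
          (∀ J, (∀ t, ∑ e ∈ exps ι r, c e * Z e J t = 0) →
            coeff (toF J) (linSub M (polyOf r c)) = 0) := by
  classical
  have hchar : CharZero F := algebraRat.charZero F
  obtain ⟨D, v, D0, C1, hD0, hC1, hD1, hone, hrep⟩ :=
    alg_struct (fun q : ι × ι => M q.1 q.2) fun q => hM q.1 q.2
  have hD0' : (D0 : F) ≠ 0 := by exact_mod_cast hD0.ne'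
  refine ⟨D, (Fintype.card ι * D * C1) * C1 + 1, by omega, fun b r hr => ?_⟩
  set R := ∑ h, r h with hR
  set n := Fintype.card ι
  -- the coefficients of the products of linear forms
  have hlev : ∀ e ∈ exps ι r, Lev v D0 ((n * D * C1) ^ R * C1) R r
      (∏ q : Fin b × ι, lf M q ^ (e q.1 q.2)) := by
    intro e he
    have h1 := Lev.prod M (fun i j s => hrep (i, j) s) hone (fun q : Fin b × ι => e q.1 q.2)
      Finset.univ
    have h2 : ∑ q : Fin b × ι, e q.1 q.2 = R := by
      rw [Fintype.sum_prod_type, hR]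
      exact Finset.sum_congr rfl fun h _ => mem_exps.1 he h
    have h3 : ∑ q : Fin b × ι, (Pi.single q.1 (e q.1 q.2) : Fin b → ℕ) = r := by
      funext h
      rw [Finset.sum_apply, Fintype.sum_prod_type, Finset.sum_eq_single h]
      · rw [← mem_exps.1 he h]
        exact Finset.sum_congr rfl fun i _ => by simp
      · intro h' _ hne
        apply Finset.sum_eq_zero
        intro i _
        simp [hne.symm]
      · intro hh; exact absurd (Finset.mem_univ _) hh
    rw [h2, h3] at h1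
    exact h1
  have hbd : (n * D * C1) ^ R * C1 ≤ ((n * D * C1) * C1 + 1) ^ R := by
    calc (n * D * C1) ^ R * C1 ≤ (n * D * C1) ^ R * C1 ^ R :=
          Nat.mul_le_mul_left _ (Nat.le_self_pow (by omega) _)
      _ = ((n * D * C1) * C1) ^ R := (mul_pow _ _ _).symm
      _ ≤ _ := Nat.pow_le_pow_left (by omega) _
  have hZ : ∀ (e J : Fin b → ι → ℕ), ∃ z : Fin D → ℤ, e ∈ exps ι r →
      (D0 : F) ^ R * coeff (toF J) (∏ q : Fin b × ι, lf M q ^ (e q.1 q.2)) =
        ∑ t, (z t : F) * v t ∧ ∀ t, |z t| ≤ (((n * D * C1) ^ R * C1 : ℕ) : ℤ) := by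
    intro e J
    by_cases he : e ∈ exps ι r
    · obtain ⟨z, h1, h2⟩ := (hlev e he).1 (toF J)
      exact ⟨z, fun _ => ⟨h1, h2⟩⟩
    · exact ⟨0, fun h => absurd h he⟩
  choose Z hZ using hZ
  have hcoeff : ∀ (c : (Fin b → ι → ℕ) → ℤ) (J : Fin b → ι → ℕ),
      coeff (toF J) (linSub M (polyOf r c)) =
        ∑ e ∈ exps ι r, (c e : F) * coeff (toF J) (∏ q : Fin b × ι, lf M q ^ (e q.1 q.2)) := by
    intro c J
    unfold polyOf
    have : linSub M (∑ e ∈ exps ι r, monomial (toF e) (c e)) =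
        ∑ e ∈ exps ι r, linSub M (monomial (toF e) (c e)) := by
      unfold linSub
      rw [map_sum]
    rw [this, coeff_sum]
    refine Finset.sum_congr rfl fun e _ => ?_
    rw [linSub_monomial, coeff_C_mul]
  refine ⟨Z, ?_, fun c => ⟨?_, ?_⟩⟩
  · intro e he J t
    refine ((hZ e J he).2 t).trans ?_
    exact_mod_cast hbd
  · intro J hJ
    rw [hcoeff]
    apply Finset.sum_eq_zero
    intro e he
    by_cases h0 : coeff (toF J) (∏ q : Fin b × ι, lf M q ^ (e q.1 q.2)) = 0
    · rw [h0, mul_zero]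
    · exact absurd (mem_exps.2 fun h => (hlev e he).2 (toF J) h0 h) hJ
  · intro J hJ
    have h1 : (D0 : F) ^ R * coeff (toF J) (linSub M (polyOf r c)) = 0 := by
      rw [hcoeff, Finset.mul_sum]
      calc ∑ e ∈ exps ι r, (D0 : F) ^ R * ((c e : F) *
              coeff (toF J) (∏ q : Fin b × ι, lf M q ^ (e q.1 q.2))) =
            ∑ e ∈ exps ι r, ∑ t, ((c e * Z e J t : ℤ) : F) * v t := by
            refine Finset.sum_congr rfl fun e he => ?_
            rw [mul_left_comm, (hZ e J he).1, Finset.mul_sum]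
            refine Finset.sum_congr rfl fun t _ => ?_
            push_cast
            ring
        _ = ∑ t, ((∑ e ∈ exps ι r, c e * Z e J t : ℤ) : F) * v t := by
            rw [Finset.sum_comm]
            refine Finset.sum_congr rfl fun t _ => ?_
            rw [← Finset.sum_mul]
            push_cast
            rfl
        _ = 0 := by
            apply Finset.sum_eq_zero
            intro t _
            rw [hJ t]
            simp
    exact (mul_eq_zero.1 h1).resolve_left (pow_ne_zero _ hD0')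

variable {T : Type} [Fintype T] {p : T → ℕ} [∀ t, Fact (p t).Prime]

/-- **AUX**: the auxiliary polynomial (Siegel's lemma and the index theorem). -/
theorem aux (S : Sys ι T p) (hι : 1 ≤ Fintype.card ι) (ε : ℝ) (hε : 0 < ε) :
    ∃ b0 : ℕ, ∀ b : ℕ, b0 ≤ b → ∃ K : ℝ, 1 ≤ K ∧ ∀ r : Fin b → ℕ, (∀ h, 1 ≤ r h) →
    ∃ P : MvPolynomial (Fin b × ι) ℤ, P ≠ 0 ∧ (∀ e ∈ P.support, ∀ h, ∑ i, e (h, i) = r h) ∧
      (∀ e, |((P.coeff e : ℤ) : ℝ)| ≤ K ^ (∑ h, r h)) ∧
      (∀ e ∈ (linSub S.A⁻¹ P).support, ∀ i,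
        |(∑ h, (e (h, i) : ℝ) / r h) - b / Fintype.card ι| ≤ ε * b) ∧
      (∀ t, ∀ e ∈ (linSub (S.A' t)⁻¹ P).support, ∀ i,
        |(∑ h, (e (h, i) : ℝ) / r h) - b / Fintype.card ι| ≤ ε * b) := by
  classical
  obtain ⟨D1, C1, hC1, h1⟩ := field_lemma (S.A⁻¹) (inv_isAlgebraic S.algA)
  have hT := fun t => field_lemma ((S.A' t)⁻¹) (inv_isAlgebraic (S.algA' t))
  choose D2 C2 hC2 h2 using hT
  set n := Fintype.card ι with hn
  have hn0 : (0 : ℝ) < n := by exact_mod_cast hι
  -- number of equations per bad exponent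
  let 𝒟 : ℕ := Fintype.card (Fin D1 ⊕ (Σ t, Fin (D2 t)))
  obtain ⟨b0, hb0⟩ := exists_nat_ge (2 * (𝒟 : ℝ) * n / ε ^ 2)
  let H : ℕ := C1 + ∑ t, C2 t
  have hH1 : C1 ≤ H := Nat.le_add_right _ _
  have hH2 : ∀ t, C2 t ≤ H := fun t =>
    (Finset.single_le_sum (f := C2) (fun _ _ => Nat.zero_le _) (Finset.mem_univ t)).trans
      (Nat.le_add_left _ _)
  have hHpos : 1 ≤ H := hC1.trans hH1
  refine ⟨b0 + 1, fun b hb => ⟨(2 ^ n * H : ℕ), ?_, fun r hr => ?_⟩⟩
  · have : 1 ≤ 2 ^ n * H := Nat.mul_pos (by positivity) hHpos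
    exact_mod_cast this
  have hb1 : 1 ≤ b := by omega
  have hbr : (0 : ℝ) < b := by exact_mod_cast hb1
  have hR1 : 1 ≤ ∑ h, r h := by
    have := Finset.single_le_sum (f := r) (fun _ _ => Nat.zero_le _)
      (Finset.mem_univ (⟨0, hb1⟩ : Fin b))
    exact (hr _).trans this
  obtain ⟨Z1, hZ1, hZ1'⟩ := h1 b r hR1
  have h2' := fun t => h2 t b r hR1
  choose Z2 hZ2 hZ2' using h2'
  set R := ∑ h, r h with hR
  -- the system of equations
  let α := (↥(badExps ι r ε)) × (Fin D1 ⊕ (Σ t, Fin (D2 t)))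
  let β := ↥(exps ι r)
  let A : α → β → ℤ := fun a e => match a with
    | (J, Sum.inl t) => Z1 e.1 J.1 t
    | (J, Sum.inr ⟨t, s⟩) => Z2 t e.1 J.1 s
  have hA : ∀ a e, |A a e| ≤ ((H ^ R : ℕ) : ℤ) := by
    rintro ⟨J, t | ⟨t, s⟩⟩ e
    · refine (hZ1 e.1 e.2 J.1 t).trans ?_
      exact_mod_cast Nat.pow_le_pow_left hH1 R
    · refine (hZ2 t e.1 e.2 J.1 s).trans ?_
      exact_mod_cast Nat.pow_le_pow_left (hH2 t) R
  have hcard : 2 * Fintype.card α ≤ Fintype.card β := by
    have e1 : Fintype.card α = (badExps ι r ε).card * 𝒟 := by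
      simp only [α, Fintype.card_prod, Fintype.card_coe, 𝒟]
    have e2 : Fintype.card β = (exps ι r).card := Fintype.card_coe _
    rw [e1, e2]
    have h3 := card_badExps (ι := ι) r hr hε
    have h4 : 2 * (𝒟 : ℝ) * n ≤ ε ^ 2 * b := by
      have h5 : (b0 : ℝ) ≤ b := by exact_mod_cast (show b0 ≤ b by omega)
      rw [div_le_iff₀ (by positivity)] at hb0
      calc 2 * (𝒟 : ℝ) * n ≤ b0 * ε ^ 2 := hb0
        _ ≤ b * ε ^ 2 := mul_le_mul_of_nonneg_right h5 (by positivity)
        _ = ε ^ 2 * b := mul_comm _ _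
    have h6 : ((badExps ι r ε).card : ℝ) * (2 * 𝒟 * n) ≤ n * (exps ι r).card :=
      (mul_le_mul_of_nonneg_left h4 (by positivity)).trans h3
    have h7 : (2 * ((badExps ι r ε).card * 𝒟) : ℝ) ≤ (exps ι r).card := by
      have : (n : ℝ) * (2 * ((badExps ι r ε).card * 𝒟)) ≤ n * (exps ι r).card := by
        calc (n : ℝ) * (2 * ((badExps ι r ε).card * 𝒟)) =
            ((badExps ι r ε).card : ℝ) * (2 * 𝒟 * n) := by ring
          _ ≤ _ := h6
      exact le_of_mul_le_mul_left this hn0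
    exact_mod_cast h7
  have hβ : 0 < Fintype.card β := by
    rw [Fintype.card_coe]
    exact Finset.card_pos.2 (exps_nonempty r hι)
  obtain ⟨t, ht0, ht1, ht2⟩ := siegel_half A (H ^ R) (Nat.one_le_pow _ _ hHpos) hA hcard hβ
  -- the polynomial
  let c : (Fin b → ι → ℕ) → ℤ := fun e => if he : e ∈ exps ι r then t ⟨e, he⟩ else 0
  have hc : ∀ e : β, c e.1 = t e := fun e => by
    simp only [c]
    rw [dif_pos e.2]
  have hsum : ∀ f : (Fin b → ι → ℕ) → ℤ, ∑ e ∈ exps ι r, c e * f e = ∑ e : β, f e.1 * t e := by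
    intro f
    rw [← Finset.sum_coe_sort (exps ι r) (fun e => c e * f e)]
    refine Finset.sum_congr rfl fun e _ => ?_
    rw [hc, mul_comm]
  have key : ∀ (E : (Fin b × ι) →₀ ℕ) (J : Fin b → ι → ℕ), E = toF J → J ∈ exps ι r →
      J ∉ badExps ι r ε → ∀ i, |(∑ h, (E (h, i) : ℝ) / r h) - b / n| ≤ ε * b := by
    rintro E J rfl hJ1 hJ2 i
    by_contra hcon
    push Not at hcon
    exact hJ2 (Finset.mem_filter.2 ⟨hJ1, i, hcon⟩)
  refine ⟨polyOf r c, ?_, ?_, ?_, ?_, ?_⟩
  · -- nonzero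
    intro h0
    apply ht0
    funext e
    have h3 := coeff_polyOf r c e.1
    rw [h0, coeff_zero, if_pos e.2, hc] at h3
    exact h3.symm
  · intro E hE h
    obtain ⟨J, rfl⟩ := exists_toF E
    rw [mem_support_iff, coeff_polyOf] at hE
    split_ifs at hE with hJ
    · exact mem_exps.1 hJ h
    · exact absurd rfl hE
  · intro E
    obtain ⟨J, rfl⟩ := exists_toF E
    rw [coeff_polyOf]
    split_ifs with hJ
    · have h3 : |c J| ≤ (exps ι r).card * (H ^ R : ℕ) := by
        have := ht2 ⟨J, hJ⟩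
        rw [← hc ⟨J, hJ⟩, Fintype.card_coe] at this
        exact this
      have h4 : |((c J : ℤ) : ℝ)| ≤ (exps ι r).card * (H ^ R : ℕ) := by exact_mod_cast h3
      refine h4.trans ?_
      have h5 : (exps ι r).card * H ^ R ≤ (2 ^ n * H) ^ R := by
        rw [mul_pow]
        exact Nat.mul_le_mul_right _ (card_exps_le r)
      exact_mod_cast h5
    · simp
      positivity
  · intro E hE
    obtain ⟨J, rfl⟩ := exists_toF E
    rw [mem_support_iff] at hE
    have hJ1 : J ∈ exps ι r := by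
      by_contra hcon
      exact hE ((hZ1' c).1 J hcon)
    refine key _ J rfl hJ1 ?_
    intro hJ2
    apply hE
    apply (hZ1' c).2 J
    intro s
    rw [hsum]
    exact ht1 (⟨J, hJ2⟩, Sum.inl s)
  · intro t' E hE
    obtain ⟨J, rfl⟩ := exists_toF E
    rw [mem_support_iff] at hE
    have hJ1 : J ∈ exps ι r := by
      by_contra hcon
      exact hE ((hZ2' t' c).1 J hcon)
    refine key _ J rfl hJ1 ?_
    intro hJ2
    apply hE
    apply (hZ2' t' c).2 J
    intro s
    rw [hsum]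
    exact ht1 (⟨J, hJ2⟩, Sum.inr ⟨t', s⟩)

end main

end Pool.Agent.Helper43.Sub
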