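import Mathlib
import Pool.Agent.Helper10.Sub.Defs
import Pool.Agent.Helper10.Sub.AppDefs

set_option autoImplicit false

namespace Pool.Agent.Helper43.Sub

open Pool.Agent.Helper10.Sub MvPolynomial

/-- BASISSEL -/
theorem basisSel {k : Type} [Field k] {L : Type} [Field L] [Algebra k L] {Y I : Type} [Fintype Y]
    [Fintype I] [DecidableEq I]
    (V : Submodule k (Y → k)) (M : ℕ) (hVM : Module.finrank k V = M) (v : I → Y → L)
    (s t : Finset I) (hst : s ⊆ t)
    (hs : ∀ c : I → L, (∀ y ∈ V, ∑ i ∈ s, c i * ∑ l, v i l * algebraMap k L (y l) = 0) →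
      ∀ i ∈ s, c i = 0)
    (hspan : ∀ m : Y, ∃ c : I → L, ∀ y ∈ V, algebraMap k L (y m) =
      ∑ i ∈ t, c i * ∑ l, v i l * algebraMap k L (y l)) :
    ∃ e : Fin M → I, Function.Injective e ∧ (∀ i ∈ s, i ∈ Set.range e) ∧ (∀ j, e j ∈ t) ∧
      ∀ c : Fin M → L, (∀ y ∈ V, ∑ j, c j * ∑ l, v (e j) l * algebraMap k L (y l) = 0) →
        c = 0 := by
  classical
  -- a basis of V
  let b : Module.Basis (Fin M) k V := Module.finBasisOfFinrankEq k V hVM
  -- the values on the basis
  let ψ : I → (Fin M → L) := fun i j => ∑ l, v i l * algebraMap k L ((b j : Y → k) l)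
  -- every vector of V is a combination of the basis
  have hexp : ∀ (y : Y → k) (hy : y ∈ V), ∀ l, algebraMap k L (y l) =
      ∑ j, algebraMap k L (b.repr ⟨y, hy⟩ j) * algebraMap k L ((b j : Y → k) l) := by
    intro y hy l
    have h1 := congrArg (fun z : V => (z : Y → k) l) (b.sum_repr ⟨y, hy⟩)
    simp only [Submodule.coe_sum, Submodule.coe_smul, Finset.sum_apply, Pi.smul_apply,
      smul_eq_mul] at h1
    rw [← h1, map_sum]
    refine Finset.sum_congr rfl fun j _ => ?_
    rw [map_mul]
  -- criterion
  have hcrit : ∀ (S : Finset I) (c : I → L), (∑ i ∈ S, c i • ψ i = 0) →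
      ∀ y ∈ V, ∑ i ∈ S, c i * ∑ l, v i l * algebraMap k L (y l) = 0 := by
    intro S c hc y hy
    have h2 : ∀ i, ∑ l, v i l * algebraMap k L (y l) =
        ∑ j, algebraMap k L (b.repr ⟨y, hy⟩ j) * ψ i j := by
      intro i
      calc ∑ l, v i l * algebraMap k L (y l)
          = ∑ l, ∑ j, v i l * (algebraMap k L (b.repr ⟨y, hy⟩ j) *
              algebraMap k L ((b j : Y → k) l)) := by
            refine Finset.sum_congr rfl fun l _ => ?_
            rw [hexp y hy l, Finset.mul_sum]
        _ = ∑ j, ∑ l, v i l * (algebraMap k L (b.repr ⟨y, hy⟩ j) *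
              algebraMap k L ((b j : Y → k) l)) := Finset.sum_comm
        _ = _ := by
            refine Finset.sum_congr rfl fun j _ => ?_
            simp only [ψ, Finset.mul_sum]
            refine Finset.sum_congr rfl fun l _ => ?_
            ring
    calc ∑ i ∈ S, c i * ∑ l, v i l * algebraMap k L (y l)
        = ∑ i ∈ S, ∑ j, algebraMap k L (b.repr ⟨y, hy⟩ j) * (c i * ψ i j) := by
          refine Finset.sum_congr rfl fun i _ => ?_
          rw [h2 i, Finset.mul_sum]
          refine Finset.sum_congr rfl fun j _ => ?_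
          ring
      _ = ∑ j, ∑ i ∈ S, algebraMap k L (b.repr ⟨y, hy⟩ j) * (c i * ψ i j) := Finset.sum_comm
      _ = ∑ j, algebraMap k L (b.repr ⟨y, hy⟩ j) * (∑ i ∈ S, c i • ψ i) j := by
          refine Finset.sum_congr rfl fun j _ => ?_
          rw [← Finset.mul_sum]
          simp [Finset.sum_apply]
      _ = 0 := by rw [hc]; simp
  -- linear independence on s
  have hli : LinearIndepOn L ψ (s : Set I) := by
    rw [linearIndepOn_finset_iff]
    intro c hc i hi
    exact hs c (hcrit s c hc) i hi
  have hst' : (s : Set I) ⊆ (t : Set I) := by exact_mod_cast hst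
  -- spanning
  have htop : Submodule.span L (ψ '' (t : Set I)) = ⊤ := by
    -- coordinate vectors
    have hκ : ∀ m : Y, (fun j => algebraMap k L ((b j : Y → k) m)) ∈
        Submodule.span L (ψ '' (t : Set I)) := by
      intro m
      obtain ⟨c, hc⟩ := hspan m
      have h3 : (fun j => algebraMap k L ((b j : Y → k) m)) = ∑ i ∈ t, c i • ψ i := by
        funext j
        rw [hc (b j) (b j).2]
        simp [Finset.sum_apply, ψ]
      rw [h3]
      exact Submodule.sum_mem _ fun i hi => Submodule.smul_mem _ _
        (Submodule.subset_span ⟨i, by exact_mod_cast hi, rfl⟩)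
    rw [eq_top_iff, ← (Pi.basisFun L (Fin M)).span_eq, Submodule.span_le]
    rintro _ ⟨j₀, rfl⟩
    obtain ⟨g, hg⟩ := LinearMap.exists_extend (b.coord j₀)
    have h4 : (Pi.basisFun L (Fin M)) j₀ =
        ∑ m, algebraMap k L (g (Pi.single m 1)) • (fun j => algebraMap k L ((b j : Y → k) m)) := by
      funext j
      have h5 : g (b j : Y → k) = b.coord j₀ (b j) := by
        rw [← hg]; rfl
      have h6 : g (b j : Y → k) = ∑ m, g (Pi.single m 1) * (b j : Y → k) m := by
        conv_lhs => rw [← Finset.univ_sum_single (b j : Y → k)]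
        rw [map_sum]
        refine Finset.sum_congr rfl fun m _ => ?_
        have : (Pi.single m ((b j : Y → k) m) : Y → k) = ((b j : Y → k) m) • Pi.single m 1 := by
          rw [← Pi.single_smul]; simp
        rw [this, map_smul, smul_eq_mul, mul_comm]
      simp only [Finset.sum_apply, Pi.smul_apply, smul_eq_mul]
      simp_rw [← map_mul]
      rw [← map_sum, ← h6, h5]
      simp only [Pi.basisFun_apply, Module.Basis.coord_apply, Module.Basis.repr_self]
      rw [Finsupp.single_apply, Pi.single_apply]
      by_cases hj : j = j₀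
      · subst hj; simp
      · rw [if_neg hj, if_neg hj]; simp
    rw [h4]
    exact Submodule.sum_mem _ fun m _ => Submodule.smul_mem _ _ (hκ m)
  -- the basis
  let B : Set I := hli.extend hst'
  have hB1 : (s : Set I) ⊆ B := hli.subset_extend hst'
  have hB2 : B ⊆ t := hli.extend_subset hst'
  have hB3 : LinearIndepOn L ψ B := hli.linearIndepOn_extend hst'
  have hB4 : Submodule.span L (ψ '' B) = ⊤ := by
    rw [hli.span_image_extend_eq_span_image hst', htop]
  let bb : Module.Basis B L (Fin M → L) := Module.Basis.mk (v := fun i : B => ψ i) hB3 (by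
    rw [← hB4]
    apply Submodule.span_mono
    rintro _ ⟨i, hi, rfl⟩
    exact ⟨⟨i, hi⟩, rfl⟩)
  have hcard : Fintype.card B = M := by
    have := Module.finrank_eq_card_basis bb
    rw [Module.finrank_fin_fun] at this
    exact this.symm
  let eq : Fin M ≃ B := (Fintype.equivFinOfCardEq hcard).symm
  refine ⟨fun j => (eq j : I), ?_, ?_, ?_, ?_⟩
  · intro i j h
    exact eq.injective (Subtype.ext h)
  · intro i hi
    refine ⟨eq.symm ⟨i, hB1 (by exact_mod_cast hi)⟩, ?_⟩
    simp
  · intro j
    have := hB2 (eq j).2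
    exact_mod_cast this
  · intro c hc
    have h7 : ∑ j, c j • ψ (eq j) = 0 := by
      funext j'
      have := hc (b j') (b j').2
      simpa [Finset.sum_apply, ψ] using this
    have h8 : LinearIndependent L (fun j : Fin M => ψ (eq j)) := by
      have : LinearIndependent L (fun i : B => ψ i) := hB3
      exact this.comp _ eq.injective
    rw [Fintype.linearIndependent_iff] at h8
    funext j
    exact h8 c h7 j

end Pool.Agent.Helper43.Sub
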