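import Mathlib
import Pool.Agent.Helper10.Sub.Defs
import Pool.Agent.Helper10.Sub.AppDefs

set_option autoImplicit false

namespace Pool.Agent.Helper43.Sub

open Pool.Agent.Helper10.Sub MvPolynomial

section DIM

/-- The linear form with coefficient vector `c`. -/
noncomputable def lform {k : Type} [Field k] {σ : Type} [Fintype σ] :
    (σ → k) →ₗ[k] MvPolynomial σ k :=
  Fintype.linearCombination k (fun i => (X i : MvPolynomial σ k))

theorem lform_apply {k : Type} [Field k] {σ : Type} [Fintype σ] (c : σ → k) :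
    lform c = ∑ i, C (c i) * X i := by
  unfold lform
  rw [Fintype.linearCombination_apply]
  refine Finset.sum_congr rfl fun i _ => ?_
  rw [MvPolynomial.smul_eq_C_mul]

theorem lform_single {k : Type} [Field k] {σ : Type} [Fintype σ] [DecidableEq σ] (i : σ) :
    lform (Pi.single i (1 : k)) = X i := by
  rw [lform_apply, Finset.sum_eq_single i]
  · simp
  · intro j _ hj
    simp [hj]
  · intro h; exact absurd (Finset.mem_univ i) h

theorem aeval_lform {k : Type} [Field k] {σ τ : Type} [Fintype σ] [Fintype τ] [DecidableEq σ]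
    (D : (σ → k) →ₗ[k] (τ → k)) (c : σ → k) :
    aeval (fun i => (lform (D (Pi.single i 1)) : MvPolynomial τ k)) (lform c) = lform (D c) := by
  rw [lform_apply, map_sum]
  have h : D c = ∑ i, c i • D (Pi.single i 1) := by
    conv_lhs => rw [← Finset.univ_sum_single c]
    rw [map_sum]
    refine Finset.sum_congr rfl fun m _ => ?_
    have : (Pi.single m (c m) : σ → k) = (c m) • Pi.single m 1 := by
      rw [← Pi.single_smul]; simp
    rw [this, map_smul]
  rw [h, map_sum]
  refine Finset.sum_congr rfl fun i _ => ?_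
  rw [map_mul, aeval_X, map_smul, MvPolynomial.smul_eq_C_mul, aeval_C]
  rfl

/-- DIM -/
theorem dimPart {k : Type} [Field k] {N : ℕ} (P : Ideal (MvPolynomial (Fin (N + 1)) k))
    (_hP : P.IsPrime) (hdim : ringKrullDim (MvPolynomial (Fin (N + 1)) k ⧸ P) = 3)
    (Λ : Submodule k (Fin (N + 1) → k))
    (hΛ : ∀ c, c ∈ Λ ↔ (∑ i, C (c i) * X i : MvPolynomial (Fin (N + 1)) k) ∈ P) :
    Module.finrank k Λ + 3 ≤ N + 1 ∧
    (Module.finrank k Λ + 3 = N + 1 → P = Ideal.span {f | ∃ c ∈ Λ, f = ∑ i, C (c i) * X i}) := by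
  classical
  set Q := Ideal.span {f : MvPolynomial (Fin (N + 1)) k | ∃ c ∈ Λ, f = ∑ i, C (c i) * X i} with hQ
  have hQP : Q ≤ P := by
    rw [hQ, Ideal.span_le]
    rintro _ ⟨c, hc, rfl⟩
    exact (hΛ c).1 hc
  have hQmem : ∀ c ∈ Λ, lform c ∈ Q := by
    intro c hc
    rw [lform_apply]
    exact Ideal.subset_span ⟨c, hc, rfl⟩
  obtain ⟨m, hm⟩ : ∃ m, m = Module.finrank k ((Fin (N + 1) → k) ⧸ Λ) := ⟨_, rfl⟩
  have hmN : m + Module.finrank k Λ = N + 1 := by
    have := Submodule.finrank_quotient_add_finrank Λ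
    rw [Module.finrank_fin_fun] at this
    omega
  -- the linear map with kernel Λ
  let E : ((Fin (N + 1) → k) ⧸ Λ) ≃ₗ[k] (Fin m → k) :=
    LinearEquiv.ofFinrankEq _ _ (by rw [Module.finrank_fin_fun]; exact hm.symm)
  let D : (Fin (N + 1) → k) →ₗ[k] (Fin m → k) := E.toLinearMap ∘ₗ Λ.mkQ
  have hDsurj : Function.Surjective D := by
    intro y
    obtain ⟨x, hx⟩ := Submodule.mkQ_surjective Λ (E.symm y)
    exact ⟨x, by simp [D, hx]⟩
  have hDker : ∀ x, D x = 0 → x ∈ Λ := by
    intro x hx
    have : Λ.mkQ x = 0 := by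
      apply E.injective
      rw [map_zero]; exact hx
    rwa [Submodule.mkQ_apply, Submodule.Quotient.mk_eq_zero] at this
  obtain ⟨S, hS⟩ := D.exists_rightInverse_of_surjective (LinearMap.range_eq_top.2 hDsurj)
  have hDS : ∀ y, D (S y) = y := fun y => by
    have := congrArg (fun f : (Fin m → k) →ₗ[k] (Fin m → k) => f y) hS
    simpa using this
  let α : MvPolynomial (Fin m) k →ₐ[k] MvPolynomial (Fin (N + 1)) k :=
    aeval (fun j => lform (S (Pi.single j 1)))
  let β : MvPolynomial (Fin (N + 1)) k →ₐ[k] MvPolynomial (Fin m) k :=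
    aeval (fun i => lform (D (Pi.single i 1)))
  have hαβ : ∀ f, f - α (β f) ∈ Q := by
    intro f
    induction f using MvPolynomial.induction_on with
    | C a =>
      have h1 : β (C a) = C a := by simp [β]
      have h2 : α (C a) = C a := by simp [α]
      rw [h1, h2, sub_self]; exact Q.zero_mem
    | add p q hp hq =>
      have : p + q - α (β (p + q)) = (p - α (β p)) + (q - α (β q)) := by
        rw [map_add, map_add]; ring
      rw [this]; exact Q.add_mem hp hq
    | mul_X p i hp =>
      have hX : X i - α (β (X i)) ∈ Q := by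
        have h1 : β (X i) = lform (D (Pi.single i 1)) := by simp [β]
        have h2 : α (lform (D (Pi.single i 1))) = lform (S (D (Pi.single i 1))) :=
          aeval_lform S _
        rw [h1, h2, ← lform_single (k := k) i, ← map_sub]
        apply hQmem
        apply hDker
        rw [map_sub, hDS, sub_self]
      have : p * X i - α (β (p * X i)) = (p - α (β p)) * X i + α (β p) * (X i - α (β (X i))) := by
        rw [map_mul, map_mul]; ring
      rw [this]
      exact Q.add_mem (Q.mul_mem_right _ hp) (Q.mul_mem_left _ hX)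
  let π := (Ideal.Quotient.mk P)
  let φ : MvPolynomial (Fin m) k →+* (MvPolynomial (Fin (N + 1)) k ⧸ P) := π.comp α.toRingHom
  have hφ : Function.Surjective φ := by
    intro y
    obtain ⟨f, rfl⟩ := Ideal.Quotient.mk_surjective y
    refine ⟨β f, ?_⟩
    have h3 : f - α (β f) ∈ P := hQP (hαβ f)
    exact (Ideal.Quotient.eq.2 h3).symm
  have hdimm : ringKrullDim (MvPolynomial (Fin m) k) = m := by
    rw [MvPolynomial.ringKrullDim_of_isNoetherianRing, ringKrullDim_eq_zero_of_field]
    simp
  have hm3 : 3 ≤ m := by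
    have h4 := ringKrullDim_le_of_surjective φ hφ
    rw [hdim, hdimm] at h4
    exact_mod_cast h4
  refine ⟨by omega, ?_⟩
  intro heq
  have hm3' : m = 3 := by omega
  have hinj : ∀ q, φ q = 0 → q = 0 := by
    intro q hq
    by_contra hne
    have h5 := ringKrullDim_succ_le_of_surjective φ hφ (r := q)
      (mem_nonZeroDivisors_of_ne_zero hne) hq
    rw [hdim, hdimm, hm3'] at h5
    have h6 : ((3 : WithBot ℕ∞) + 1) ≤ 3 := by exact_mod_cast h5
    exact absurd h6 (by decide)
  apply le_antisymm _ hQP
  intro f hf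
  have h7 : φ (β f) = 0 := by
    have h3 : f - α (β f) ∈ P := hQP (hαβ f)
    have h8 : α (β f) ∈ P := by
      have := P.sub_mem hf h3
      simpa using this
    exact Ideal.Quotient.eq_zero_iff_mem.2 h8
  have h9 := hinj _ h7
  have := hαβ f
  rw [h9, map_zero, sub_zero] at this
  exact this

end DIM

end Pool.Agent.Helper43.Sub
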