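import Mathlib

set_option autoImplicit false
open Topology Set

namespace Pool.Agent.Helper43.CpCond

/-- The two-torus. -/
abbrev M := UnitAddCircle × UnitAddCircle

/-- The irrational line. -/
noncomputable def io (a : ℝ) : M :=
  ((a : UnitAddCircle), ((Real.sqrt 2 * a : ℝ) : UnitAddCircle))

theorem io_cont : Continuous io := by
  unfold io
  apply Continuous.prodMk
  · exact AddCircle.continuous_mk' 1
  · exact (AddCircle.continuous_mk' 1).comp (continuous_const.mul continuous_id)

theorem coe_eq_iff (x y : ℝ) : (x : UnitAddCircle) = (y : UnitAddCircle) ↔ ∃ n : ℤ, x = y + n := by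
  rw [QuotientAddGroup.eq_iff_sub_mem, AddSubgroup.mem_zmultiples_iff]
  constructor
  · rintro ⟨n, hn⟩
    refine ⟨n, ?_⟩
    simp at hn
    linarith
  · rintro ⟨n, hn⟩
    refine ⟨n, ?_⟩
    simp
    linarith

theorem io_inj : Function.Injective io := by
  intro a b h
  unfold io at h
  rw [Prod.mk.injEq, coe_eq_iff, coe_eq_iff] at h
  obtain ⟨⟨n, hn⟩, ⟨m, hm⟩⟩ := h
  have h1 : Real.sqrt 2 * n = m := by
    rw [hn] at hm
    linarith
  have hirr : Irrational (Real.sqrt 2) := irrational_sqrt_two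
  have hn0 : n = 0 := by
    by_contra hne
    apply hirr
    refine ⟨(m : ℚ) / n, ?_⟩
    have : (n : ℝ) ≠ 0 := by exact_mod_cast hne
    push_cast
    field_simp
    linarith
  rw [hn0] at hn
  simpa using hn

theorem io_add_int (a : ℝ) (n : ℤ) :
    io (a + n) = io a + (0, n • ((Real.sqrt 2 : ℝ) : UnitAddCircle)) := by
  unfold io
  ext
  · simp only [Prod.fst_add, add_zero]
    rw [coe_eq_iff]
    exact ⟨n, rfl⟩
  · simp only [Prod.snd_add]
    rw [← AddCircle.coe_zsmul, ← AddCircle.coe_add]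
    congr 1
    simp
    ring

theorem dense_zs : DenseRange (fun n : ℤ => n • ((Real.sqrt 2 : ℝ) : UnitAddCircle)) := by
  apply AddCircle.denseRange_zsmul_coe_iff.2
  simpa using irrational_sqrt_two

/-- vertical approximations -/
theorem exists_vertical (a s : ℝ) (V : Set M) (hV : IsOpen V)
    (h : io a + (0, (s : UnitAddCircle)) ∈ V) : ∃ a' : ℝ, io a' ∈ V := by
  have hc : Continuous (fun t : UnitAddCircle => io a + (0, t)) := by fun_prop
  have hO : IsOpen ((fun t : UnitAddCircle => io a + (0, t)) ⁻¹' V) := hV.preimage hc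
  obtain ⟨n, hn⟩ := dense_zs.exists_mem_open hO ⟨_, h⟩
  refine ⟨a + n, ?_⟩
  rw [io_add_int]
  exact hn

theorem exists_not_mem (a δ : ℝ) (hδ : 0 < δ) :
    ∃ s : ℝ, 0 < s ∧ s < δ ∧ io a + (0, (s : UnitAddCircle)) ∉ range io := by
  have hcount : (range (fun p : ℤ × ℤ => Real.sqrt 2 * p.1 + p.2)).Countable := countable_range _
  have hne : ¬ (Ioo 0 δ ⊆ range (fun p : ℤ × ℤ => Real.sqrt 2 * p.1 + p.2)) := by
    intro h
    have h2 := hcount.mono h
    exact (Cardinal.Real.Ioo_countable_iff.1 h2).not_gt hδ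
  rw [Set.not_subset] at hne
  obtain ⟨s, hs, hs'⟩ := hne
  refine ⟨s, hs.1, hs.2, ?_⟩
  rintro ⟨b, hb⟩
  apply hs'
  unfold io at hb
  simp only [Prod.mk_add_mk, Prod.mk.injEq, add_zero] at hb
  rw [← AddCircle.coe_add, coe_eq_iff, coe_eq_iff] at hb
  obtain ⟨⟨n, hn⟩, ⟨m, hm⟩⟩ := hb
  refine ⟨(n, -m), ?_⟩
  simp only
  push_cast
  rw [hn] at hm
  linarith


/-- compact pieces of the line -/
noncomputable def K (k : ℕ) : Set M := io '' Icc (-(k:ℝ)) k

theorem K_compact (k : ℕ) : IsCompact (K k) := isCompact_Icc.image io_cont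

theorem K_closed (k : ℕ) : IsClosed (K k) := (K_compact k).isClosed

theorem K_nonempty (k : ℕ) : (K k).Nonempty := ⟨io 0, 0, by simp, rfl⟩

theorem io_mem_K (k : ℕ) (a : ℝ) : io a ∈ K k ↔ |a| ≤ k := by
  unfold K
  rw [io_inj.mem_set_image, mem_Icc, abs_le]

theorem K_mono {k l : ℕ} (h : k ≤ l) : K k ⊆ K l := by
  apply image_mono
  apply Icc_subset_Icc
  · simpa using h
  · exact_mod_cast h

/-- distance to the piece -/
noncomputable def D (k : ℕ) (z : M) : ℝ := Metric.infDist z (K k)

theorem D_cont (k : ℕ) : Continuous (D k) := Metric.continuous_infDist_pt _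

theorem D_nonneg (k : ℕ) (z : M) : 0 ≤ D k z := Metric.infDist_nonneg

theorem D_eq_zero (k : ℕ) (z : M) : D k z = 0 ↔ z ∈ K k :=
  ((K_closed k).mem_iff_infDist_zero (K_nonempty k)).symm

theorem D_pos (k : ℕ) (z : M) : 0 < D k z ↔ z ∉ K k := by
  rw [← D_eq_zero]
  exact (D_nonneg k z).lt_iff_ne.trans ne_comm

theorem D_io_pos (k : ℕ) (a : ℝ) : 0 < D k (io a) ↔ (k:ℝ) < |a| := by
  rw [D_pos, io_mem_K, not_le]

/-- damping factor, vanishing at the ends of the piece -/
noncomputable def R (k : ℕ) (z : M) : ℝ := min 1 (dist z (io k)) * min 1 (dist z (io (-k)))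

theorem R_cont (k : ℕ) : Continuous (R k) := by
  unfold R
  fun_prop

theorem R_nonneg (k : ℕ) (z : M) : 0 ≤ R k z := by
  unfold R
  positivity

theorem R_le_one (k : ℕ) (z : M) : R k z ≤ 1 := by
  unfold R
  calc _ ≤ (1:ℝ) * 1 := by
        apply mul_le_mul (min_le_left _ _) (min_le_left _ _) (by positivity) (by norm_num)
    _ = 1 := by norm_num

theorem R_eq_zero (k : ℕ) (a : ℝ) (h : |a| = k) : R k (io a) = 0 := by
  unfold R
  rcases abs_choice a with h' | h'
  · rw [h'] at h
    subst h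
    simp
  · rw [h'] at h
    have : a = -k := by linarith
    subst this
    simp

theorem R_pos (k : ℕ) (a : ℝ) (h : |a| < k) : 0 < R k (io a) := by
  unfold R
  have h1 : 0 < dist (io a) (io k) := by
    rw [dist_pos]
    intro h2
    rw [io_inj h2] at h
    simp at h
  have h2 : 0 < dist (io a) (io (-k)) := by
    rw [dist_pos]
    intro h2
    rw [io_inj h2] at h
    simp at h
  positivity

/-- Locally the distance functions coincide. -/
theorem D_eventually (k l : ℕ) (hkl : k ≤ l) (a : ℝ) (ha : |a| < k) :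
    ∀ᶠ z in 𝓝 (io a), D k z = D l z := by
  -- the rest of the line
  set K' : Set M := io '' (Icc (-(l:ℝ)) (-k) ∪ Icc (k:ℝ) l) with hK'
  have hK'c : IsClosed K' :=
    ((isCompact_Icc.union isCompact_Icc).image io_cont).isClosed
  have hnot : io a ∉ K' := by
    rw [hK', io_inj.mem_set_image]
    rintro (h | h)
    · have := h.2
      rw [abs_lt] at ha
      linarith
    · have := h.1
      rw [abs_lt] at ha
      linarith
  have hKl : K l ⊆ K k ∪ K' := by
    rintro _ ⟨b, hb, rfl⟩
    by_cases h : |b| ≤ k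
    · left
      rwa [io_mem_K]
    · right
      refine ⟨b, ?_, rfl⟩
      rw [not_le, lt_abs] at h
      rcases h with h | h
      · right
        exact ⟨h.le, hb.2⟩
      · left
        exact ⟨hb.1, by linarith⟩
  obtain ⟨δ, hδ, hball⟩ := Metric.isOpen_iff.1 hK'c.isOpen_compl (io a) hnot
  filter_upwards [Metric.ball_mem_nhds (io a) (half_pos hδ)] with z hz
  rw [Metric.mem_ball] at hz
  apply le_antisymm
  · -- D k z ≤ D l z
    unfold D
    rw [Metric.infDist_eq_iInf (s := K l)]
    have : Nonempty (K l) := (K_nonempty l).to_subtype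
    apply le_ciInf
    rintro ⟨w, hw⟩
    rcases hKl hw with hw' | hw'
    · exact Metric.infDist_le_dist_of_mem hw'
    · have h1 : δ ≤ dist (io a) w := by
        by_contra h
        rw [not_le, dist_comm] at h
        exact hball h hw'
      have h2 : Metric.infDist z (K k) ≤ dist z (io a) :=
        Metric.infDist_le_dist_of_mem ((io_mem_K k a).2 ha.le)
      have h3 : dist (io a) w ≤ dist z (io a) + dist z w := by
        rw [dist_comm z (io a)]
        exact dist_triangle _ _ _
      simp only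
      linarith
  · exact Metric.infDist_le_infDist_of_subset (K_mono hkl) (K_nonempty k)

/-- Small values of the distance are attained arbitrarily close to the line. -/
theorem exists_D_eq (L : ℕ) (a : ℝ) (ha : |a| ≤ L) (B : Set M) (hB : B ∈ 𝓝 (io a)) :
    ∃ d : ℝ, 0 < d ∧ ∀ v : ℝ, 0 < v → v < d →
      ∃ s : ℝ, io a + (0, (s : UnitAddCircle)) ∈ B ∧
        D L (io a + (0, (s : UnitAddCircle))) = v := by
  set p : ℝ → M := fun s => io a + (0, (s : UnitAddCircle)) with hp
  have hpc : Continuous p := by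
    rw [hp]
    have : Continuous (fun s : ℝ => (s : UnitAddCircle)) := AddCircle.continuous_mk' 1
    fun_prop
  have hp0 : p 0 = io a := by
    simp [hp]
  have hpB : p ⁻¹' B ∈ 𝓝 (0:ℝ) := by
    apply hpc.continuousAt
    rw [hp0]
    exact hB
  obtain ⟨δ, hδ, hball⟩ := Metric.mem_nhds_iff.1 hpB
  obtain ⟨s₁, hs0, hsδ, hs⟩ := exists_not_mem a δ hδ
  have hs' : p s₁ ∉ K L := by
    intro h
    apply hs
    obtain ⟨b, -, hb⟩ := h
    exact ⟨b, hb⟩
  refine ⟨D L (p s₁), (D_pos L _).2 hs', ?_⟩
  intro v hv0 hv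
  have hD0 : D L (p 0) = 0 := by
    rw [hp0, D_eq_zero, io_mem_K]
    exact ha
  have hcont : ContinuousOn (fun s => D L (p s)) (Icc 0 s₁) :=
    ((D_cont L).comp hpc).continuousOn
  have := intermediate_value_Icc hs0.le hcont
  have hvmem : v ∈ Icc (D L (p 0)) (D L (p s₁)) := by
    rw [hD0]
    exact ⟨hv0.le, hv.le⟩
  obtain ⟨s, hs, hsv⟩ := this hvmem
  refine ⟨s, ?_, hsv⟩
  apply hball
  rw [Metric.mem_ball, Real.dist_eq, sub_zero, abs_of_nonneg hs.1]
  exact lt_of_le_of_lt hs.2 hsδ


/-- A sequence in `C(ℝ, ℝ)` all of whose tails are dense for the pointwise topology. -/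
theorem exists_seq : ∃ x : ℕ → ℝ → ℝ, ∀ (F : Finset ℝ) (b : ℝ → ℝ) (ε : ℝ), 0 < ε →
    ∀ T : ℕ, ∃ n : ℕ, T < n ∧ ∀ i ∈ F, |x n i - b i| < ε := by
  refine ⟨fun n => TopologicalSpace.denseSeq C(ℝ, ℝ) (Nat.unpair n).1, ?_⟩
  intro F b ε hε T
  have hO : IsOpen {f : C(ℝ, ℝ) | ∀ i ∈ F, |f i - b i| < ε} := by
    have : {f : C(ℝ, ℝ) | ∀ i ∈ F, |f i - b i| < ε} =
        ⋂ i ∈ F, {f : C(ℝ, ℝ) | |f i - b i| < ε} := by
      ext f
      simp
    rw [this]
    apply isOpen_biInter_finset
    intro i _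
    have hc : Continuous (fun f : C(ℝ, ℝ) => |f i - b i|) := by fun_prop
    exact isOpen_lt hc continuous_const
  have hne : {f : C(ℝ, ℝ) | ∀ i ∈ F, |f i - b i| < ε}.Nonempty := by
    obtain ⟨g, hg⟩ := ContinuousMap.exists_restrict_eq (Y := ℝ) (s := (F : Set ℝ))
      F.finite_toSet.isClosed (⟨fun i => b i, continuous_of_discreteTopology⟩)
    refine ⟨g, ?_⟩
    intro i hi
    have h1 : g i = b i := congrArg (fun h => h ⟨i, hi⟩) hg
    rw [h1]
    simpa using hε
  obtain ⟨m, hm⟩ := (TopologicalSpace.denseRange_denseSeq C(ℝ, ℝ)).exists_mem_open hO hne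
  refine ⟨Nat.pair m (T+1), ?_, ?_⟩
  · have := Nat.right_le_pair m (T+1)
    omega
  · simp only [Nat.unpair_pair]
    exact hm

/-- The sequence is interpolated by continuous functions of a real variable. -/
theorem exists_path : ∃ γ : ℝ → ℝ → ℝ, (∀ i, Continuous (γ i)) ∧
    ∀ (F : Finset ℝ) (b : ℝ → ℝ) (ε : ℝ), 0 < ε →
    ∀ T : ℕ, ∃ n : ℕ, T < n ∧ ∀ i ∈ F, |γ i n - b i| < ε := by
  obtain ⟨x, hx⟩ := exists_seq
  have hT : ∀ i : ℝ, ∃ g : C(ℝ, ℝ), ∀ n : ℕ, g n = x n i := by
    intro i
    obtain ⟨g, hg⟩ := ContinuousMap.exists_extension (Y := ℝ) Nat.isClosedEmbedding_coe_real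
      (⟨fun n => x n i, continuous_of_discreteTopology⟩)
    refine ⟨g, ?_⟩
    intro n
    have := congrArg (fun h => h n) hg
    simpa using this
  choose g hg using hT
  refine ⟨fun i => g i, fun i => (g i).continuous, ?_⟩
  intro F b ε hε T
  obtain ⟨n, hn, h⟩ := hx F b ε hε T
  refine ⟨n, hn, ?_⟩
  intro i hi
  simp only [hg i n]
  exact h i hi

/-- The path functions. -/
noncomputable def γ : ℝ → ℝ → ℝ := exists_path.choose

theorem γ_cont (i : ℝ) : Continuous (γ i) := exists_path.choose_spec.1 i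

theorem γ_dense (F : Finset ℝ) (b : ℝ → ℝ) (ε : ℝ) (hε : 0 < ε) (T : ℕ) :
    ∃ n : ℕ, T < n ∧ ∀ i ∈ F, |γ i n - b i| < ε :=
  exists_path.choose_spec.2 F b ε hε T

open Classical in
/-- coordinate functions -/
noncomputable def w (i : ℝ) (k : ℕ) (a : ℝ) (b : ℝ → ℝ) : ℝ :=
  R k (io a) * Real.arctan (if |a| ≤ k then b i else γ i (1 / D k (io a)))

theorem arctan_abs_le (x : ℝ) : |Real.arctan x| ≤ 2 := by
  rw [abs_le]
  have h1 := Real.neg_pi_div_two_lt_arctan x
  have h2 := Real.arctan_lt_pi_div_two x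
  have h3 := Real.pi_lt_d2
  constructor <;> linarith

theorem w_abs_le (i : ℝ) (k : ℕ) (a : ℝ) (b : ℝ → ℝ) : |w i k a b| ≤ 2 * R k (io a) := by
  unfold w
  rw [abs_mul, abs_of_nonneg (R_nonneg _ _), mul_comm]
  exact mul_le_mul_of_nonneg_right (arctan_abs_le _) (R_nonneg _ _)

theorem w_cont (i : ℝ) (k : ℕ) : Continuous (fun p : ℝ × (ℝ → ℝ) => w i k p.1 p.2) := by
  rw [continuous_iff_continuousAt]
  rintro ⟨a, b⟩
  rcases lt_trichotomy |a| k with h | h | h
  · -- inside
    have hev : (fun p : ℝ × (ℝ → ℝ) => R k (io p.1) * Real.arctan (p.2 i)) =ᶠ[𝓝 (a, b)]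
        (fun p : ℝ × (ℝ → ℝ) => w i k p.1 p.2) := by
      have : ∀ᶠ p : ℝ × (ℝ → ℝ) in 𝓝 (a, b), |p.1| < k := by
        apply (continuous_fst.abs.tendsto (a, b)).eventually_lt_const
        exact h
      filter_upwards [this] with p hp
      unfold w
      rw [if_pos hp.le]
    refine ContinuousAt.congr ?_ hev
    apply Continuous.continuousAt
    have h1 := R_cont k
    have h2 := io_cont
    fun_prop
  · -- boundary
    have h0 : w i k a b = 0 := by
      have := w_abs_le i k a b
      rw [R_eq_zero k a h] at this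
      simpa using this
    unfold ContinuousAt
    simp only
    rw [h0]
    apply squeeze_zero_norm (a := fun p : ℝ × (ℝ → ℝ) => 2 * R k (io p.1))
    · intro p
      exact w_abs_le i k p.1 p.2
    · have hc : Continuous (fun p : ℝ × (ℝ → ℝ) => 2 * R k (io p.1)) := by
        have h1 := R_cont k
        have h2 := io_cont
        fun_prop
      have := hc.tendsto (a, b)
      simp only [R_eq_zero k a h, mul_zero] at this
      exact this
  · -- outside
    have hev : (fun p : ℝ × (ℝ → ℝ) => R k (io p.1) * Real.arctan (γ i (1 / D k (io p.1))))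
        =ᶠ[𝓝 (a, b)] (fun p : ℝ × (ℝ → ℝ) => w i k p.1 p.2) := by
      have : ∀ᶠ p : ℝ × (ℝ → ℝ) in 𝓝 (a, b), (k:ℝ) < |p.1| := by
        apply (continuous_fst.abs.tendsto (a, b)).eventually_const_lt
        exact h
      filter_upwards [this] with p hp
      unfold w
      rw [if_neg (not_le.2 hp)]
    refine ContinuousAt.congr ?_ hev
    have hD : D k (io a) ≠ 0 := ((D_io_pos k a).2 h).ne'
    have h1 : ContinuousAt (fun p : ℝ × (ℝ → ℝ) => 1 / D k (io p.1)) (a, b) := by
      apply ContinuousAt.div continuousAt_const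
      · exact ((D_cont k).comp (io_cont.comp continuous_fst)).continuousAt
      · exact hD
    have h2 : ContinuousAt (fun p : ℝ × (ℝ → ℝ) => γ i (1 / D k (io p.1))) (a, b) :=
      ContinuousAt.comp (g := γ i) (γ_cont i).continuousAt h1
    have h3 : ContinuousAt (fun p : ℝ × (ℝ → ℝ) => Real.arctan (γ i (1 / D k (io p.1)))) (a, b) :=
      ContinuousAt.comp (g := Real.arctan) Real.continuous_arctan.continuousAt h2
    apply ContinuousAt.mul _ h3
    exact ((R_cont k).comp (io_cont.comp continuous_fst)).continuousAt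

theorem arctan_lip (x y : ℝ) : |Real.arctan x - Real.arctan y| ≤ |x - y| := by
  have := Convex.norm_image_sub_le_of_norm_deriv_le (𝕜 := ℝ) (f := Real.arctan) (C := 1)
    (s := Set.univ) (x := y) (y := x)
    (fun z _ => Real.differentiableAt_arctan z) ?_ convex_univ trivial trivial
  · simpa [Real.norm_eq_abs] using this
  · intro z _
    rw [Real.deriv_arctan]
    simp only [one_div, norm_inv, Real.norm_eq_abs]
    rw [abs_of_pos (by positivity)]
    apply inv_le_one_of_one_le₀
    nlinarith [sq_nonneg z]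

/-- eventual closeness for the indices `k ≤ |a|`. -/
theorem eventually_outer (a : ℝ) (b : ℝ → ℝ) (i : ℝ) (k : ℕ) (hk : (k:ℝ) ≤ |a|) (ε : ℝ)
    (hε : 0 < ε) :
    ∀ᶠ z in 𝓝 (io a), ∀ a' b', io a' = z → |w i k a' b' - w i k a b| < ε := by
  rcases eq_or_lt_of_le hk with h | h
  · have h0 : w i k a b = 0 := by
      have := w_abs_le i k a b
      rw [R_eq_zero k a h.symm] at this
      simpa using this
    have hc : Continuous (fun z => 2 * R k z) := continuous_const.mul (R_cont k)
    have hlt : 2 * R k (io a) < ε := by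
      rw [R_eq_zero k a h.symm]
      simpa using hε
    filter_upwards [(hc.tendsto (io a)).eventually_lt_const hlt] with z hz a' b' ha'
    rw [h0, sub_zero]
    subst ha'
    exact lt_of_le_of_lt (w_abs_le i k a' b') hz
  · have hD : 0 < D k (io a) := (D_io_pos k a).2 h
    have hc : ContinuousAt (fun z => R k z * Real.arctan (γ i (1 / D k z))) (io a) := by
      apply ContinuousAt.mul (R_cont k).continuousAt
      have h1 : ContinuousAt (fun z => 1 / D k z) (io a) :=
        ContinuousAt.div continuousAt_const (D_cont k).continuousAt hD.ne'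
      have h2 : ContinuousAt (fun z => γ i (1 / D k z)) (io a) :=
        ContinuousAt.comp (g := γ i) (γ_cont i).continuousAt h1
      exact ContinuousAt.comp (g := Real.arctan) Real.continuous_arctan.continuousAt h2
    have h1 := Metric.tendsto_nhds.1 hc ε hε
    have h2 := ((D_cont k).tendsto (io a)).eventually_const_lt hD
    filter_upwards [h1, h2] with z hz1 hz2 a' b' ha'
    subst ha'
    have hk' := (D_io_pos k a').1 hz2
    unfold w
    rw [if_neg (not_le.2 hk'), if_neg (not_le.2 h)]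
    rw [Real.dist_eq] at hz1
    exact hz1

/-- The main approximation property. -/
theorem main_approx (a : ℝ) (b : ℝ → ℝ) (F : Finset ℝ) (L : ℕ) (ε : ℝ) (hε : 0 < ε)
    (B : Set M) (hB : B ∈ 𝓝 (io a)) :
    ∃ V : Set M, IsOpen V ∧ V ⊆ B ∧ (∃ a', io a' ∈ V) ∧
      ∀ a' b', io a' ∈ V → ∀ i ∈ F, ∀ k ≤ L, |w i k a' b' - w i k a b| < ε := by
  -- enlarge `L`
  obtain ⟨L', hLL', haL'⟩ : ∃ L' : ℕ, L ≤ L' ∧ |a| < L' := by
    obtain ⟨n, hn⟩ := exists_nat_gt |a|
    refine ⟨max L n, le_max_left _ _, lt_of_lt_of_le hn ?_⟩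
    exact_mod_cast le_max_right L n
  -- eventual conditions
  have ev1 : ∀ᶠ z in 𝓝 (io a), ∀ i ∈ F, ∀ k ∈ Finset.range (L + 1), (k:ℝ) ≤ |a| →
      ∀ a' b', io a' = z → |w i k a' b' - w i k a b| < ε := by
    rw [Filter.eventually_all_finset]
    intro i _
    rw [Filter.eventually_all_finset]
    intro k _
    by_cases hk : (k:ℝ) ≤ |a|
    · filter_upwards [eventually_outer a b i k hk ε hε] with z hz _
      exact hz
    · exact Filter.Eventually.of_forall (fun z h => absurd h hk)
  have ev2 : ∀ᶠ z in 𝓝 (io a), ∀ k ∈ Finset.range (L + 1), |R k z - R k (io a)| < ε / 4 := by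
    rw [Filter.eventually_all_finset]
    intro k _
    have := Metric.tendsto_nhds.1 ((R_cont k).tendsto (io a)) (ε / 4) (by positivity)
    filter_upwards [this] with z hz
    rwa [Real.dist_eq] at hz
  have ev3 : ∀ᶠ z in 𝓝 (io a), ∀ k ∈ Finset.range (L + 1), |a| < (k:ℝ) → D k z = D L' z := by
    rw [Filter.eventually_all_finset]
    intro k hk
    by_cases h : |a| < k
    · have hkL : k ≤ L' := by
        have := Finset.mem_range.1 hk
        omega
      filter_upwards [D_eventually k L' hkL a h] with z hz _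
      exact hz
    · exact Filter.Eventually.of_forall (fun z h' => absurd h' h)
  set B' : Set M := interior {z | z ∈ B ∧ (∀ i ∈ F, ∀ k ∈ Finset.range (L + 1), (k:ℝ) ≤ |a| →
      ∀ a' b', io a' = z → |w i k a' b' - w i k a b| < ε) ∧
      (∀ k ∈ Finset.range (L + 1), |R k z - R k (io a)| < ε / 4) ∧
      (∀ k ∈ Finset.range (L + 1), |a| < (k:ℝ) → D k z = D L' z)} with hB'
  have hB'open : IsOpen B' := isOpen_interior
  have hB'mem : B' ∈ 𝓝 (io a) := by
    rw [hB', interior_mem_nhds]
    have hB2 : ∀ᶠ z in 𝓝 (io a), z ∈ B := hB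
    filter_upwards [hB2, ev1, ev2, ev3] with z h0 h1 h2 h3
    exact ⟨h0, h1, h2, h3⟩
  obtain ⟨d, hd, hval⟩ := exists_D_eq L' a haL'.le B' hB'mem
  obtain ⟨T, hT⟩ := exists_nat_gt (1 / d)
  obtain ⟨n, hTn, hn⟩ := γ_dense F b (ε / 4) (by positivity) T
  have hnpos : (0:ℝ) < n := by
    have : 0 < n := by omega
    exact_mod_cast this
  have hnd : 1 / (n:ℝ) < d := by
    rw [div_lt_iff₀ hnpos]
    rw [div_lt_iff₀ hd] at hT
    have : (T:ℝ) < n := by exact_mod_cast hTn
    nlinarith
  obtain ⟨s, hsB, hsD⟩ := hval (1 / n) (by positivity) hnd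
  -- the open set
  set U : Set M := {z | 0 < D L' z} with hU
  have hUopen : IsOpen U := isOpen_lt continuous_const (D_cont L')
  set W : Set M := U ∩ (fun z => fun i : F => γ i (1 / D L' z)) ⁻¹'
      {y | ∀ i : F, |y i - b i| < ε / 4} with hW
  have hWopen : IsOpen W := by
    apply ContinuousOn.isOpen_inter_preimage _ hUopen
    · have : {y : F → ℝ | ∀ i : F, |y i - b i| < ε / 4} =
          ⋂ i : F, {y : F → ℝ | |y i - b i| < ε / 4} := by
        ext y
        simp
      rw [this]
      apply isOpen_iInter_of_finite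
      intro i
      have hc : Continuous (fun y : F → ℝ => |y i - b i|) := by fun_prop
      exact isOpen_lt hc continuous_const
    · rw [continuousOn_pi]
      intro i
      apply (γ_cont i).comp_continuousOn
      apply ContinuousOn.div continuousOn_const (D_cont L').continuousOn
      intro z hz
      exact (ne_of_gt hz)
  refine ⟨B' ∩ W, hB'open.inter hWopen, ?_, ?_, ?_⟩
  · intro z hz
    exact (interior_subset hz.1).1
  · apply exists_vertical a s _ (hB'open.inter hWopen)
    refine ⟨hsB, ?_, ?_⟩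
    · show 0 < D L' _
      rw [hsD]
      positivity
    · intro i
      simp only [hsD, one_div_one_div]
      exact hn i i.2
  · intro a' b' hV i hi k hk
    obtain ⟨hVB, hVU, hVW⟩ := hV
    obtain ⟨-, h1, h2, h3⟩ := interior_subset hVB
    have hkr : k ∈ Finset.range (L + 1) := Finset.mem_range.2 (by omega)
    by_cases hka : (k:ℝ) ≤ |a|
    · exact h1 i hi k hkr hka a' b' rfl
    · rw [not_le] at hka
      have hD1 : D k (io a') = D L' (io a') := h3 k hkr hka
      have hR1 := h2 k hkr
      have hpos : 0 < D k (io a') := by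
        rw [hD1]
        exact hVU
      have hka' := (D_io_pos k a').1 hpos
      unfold w
      rw [if_neg (not_le.2 hka'), if_pos hka.le, hD1]
      have hγ : |γ i (1 / D L' (io a')) - b i| < ε / 4 := hVW ⟨i, hi⟩
      have e1 : R k (io a') * Real.arctan (γ i (1 / D L' (io a'))) -
          R k (io a) * Real.arctan (b i) =
          (R k (io a') - R k (io a)) * Real.arctan (γ i (1 / D L' (io a'))) +
          R k (io a) * (Real.arctan (γ i (1 / D L' (io a'))) - Real.arctan (b i)) := by ring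
      rw [e1]
      calc _ ≤ |(R k (io a') - R k (io a)) * Real.arctan (γ i (1 / D L' (io a')))| +
          |R k (io a) * (Real.arctan (γ i (1 / D L' (io a'))) - Real.arctan (b i))| :=
            abs_add_le _ _
        _ ≤ ε / 4 * 2 + 1 * (ε / 4) := by
            rw [abs_mul, abs_mul]
            apply add_le_add
            · exact mul_le_mul hR1.le (arctan_abs_le _) (abs_nonneg _) (by positivity)
            · apply mul_le_mul _ _ (abs_nonneg _) (by norm_num)
              · rw [abs_of_nonneg (R_nonneg _ _)]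
                exact R_le_one _ _
              · exact (arctan_lip _ _).trans hγ.le
        _ < ε := by linarith


/-- The injection of `ℝ^(Option ℝ)` into a Tychonoff space. -/
noncomputable def E (f : Option ℝ → ℝ) : M × (ℝ × ℕ → ℝ) :=
  (io (f none), fun q => w q.1 q.2 (f none) (fun i => f (some i)))

theorem E_cont : Continuous E := by
  unfold E
  apply Continuous.prodMk
  · exact io_cont.comp (continuous_apply none)
  · apply continuous_pi
    rintro ⟨i, k⟩
    have h1 : Continuous (fun f : Option ℝ → ℝ => ((f none, fun i => f (some i)) : ℝ × (ℝ → ℝ))) := by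
      apply Continuous.prodMk (continuous_apply none)
      apply continuous_pi
      intro i
      exact continuous_apply (some i)
    have h2 := (w_cont i k).comp h1
    simpa only [Function.comp_def] using h2

theorem E_inj : Function.Injective E := by
  intro f f' h
  unfold E at h
  rw [Prod.mk.injEq] at h
  obtain ⟨h1, h2⟩ := h
  have h0 : f none = f' none := io_inj h1
  funext x
  rcases x with _ | i
  · exact h0
  · obtain ⟨k, hk⟩ := exists_nat_gt |f none|
    have h3 := congrFun h2 (i, k)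
    simp only at h3
    unfold w at h3
    rw [← h0, if_pos hk.le, if_pos hk.le] at h3
    have h4 := mul_left_cancel₀ (R_pos k _ hk).ne' h3
    exact Real.arctan_injective h4

/-- The target space of the condensation. -/
abbrev Y : Type := range E

/-- Basic open subsets of the target space coming from the torus. -/
def PB (V : Set M) : Set Y := {y | y.1.1 ∈ V}

theorem PB_open (V : Set M) (hV : IsOpen V) : IsOpen (PB V) :=
  hV.preimage (continuous_fst.comp continuous_subtype_val)

theorem pi_base (U : Set Y) (hU : IsOpen U) (hne : U.Nonempty) :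
    ∃ V : Set M, V ∈ TopologicalSpace.countableBasis M ∧ (PB V).Nonempty ∧ PB V ⊆ U := by
  obtain ⟨⟨_, ⟨f, rfl⟩⟩, hfU⟩ := hne
  obtain ⟨O, hO, rfl⟩ := isOpen_induced_iff.1 hU
  have hfO : E f ∈ O := hfU
  obtain ⟨B, C, hB, hC, hfB, hfC, hBC⟩ := isOpen_prod_iff.1 hO _ _ hfO
  obtain ⟨I, u, hu, huC⟩ := isOpen_pi_iff.1 hC _ hfC
  -- a uniform ε
  have hε : ∃ ε : ℝ, 0 < ε ∧ ∀ q ∈ I, ∀ y : ℝ,
      |y - w q.1 q.2 (f none) (fun i => f (some i))| < ε → y ∈ u q := by
    have hq : ∀ q ∈ I, ∃ ε : ℝ, 0 < ε ∧ ∀ y : ℝ,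
        |y - w q.1 q.2 (f none) (fun i => f (some i))| < ε → y ∈ u q := by
      intro q hq
      obtain ⟨ε, hε, hb⟩ := Metric.isOpen_iff.1 (hu q hq).1 _ (hu q hq).2
      refine ⟨ε, hε, ?_⟩
      intro y hy
      apply hb
      rw [Metric.mem_ball, Real.dist_eq]
      exact hy
    choose! ε hε hε' using hq
    rcases I.eq_empty_or_nonempty with rfl | hI
    · exact ⟨1, one_pos, by simp⟩
    · refine ⟨I.inf' hI ε, ?_, ?_⟩
      · rw [Finset.lt_inf'_iff]
        exact hε
      · intro q hq y hy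
        apply hε' q hq y
        exact lt_of_lt_of_le hy (Finset.inf'_le _ hq)
  obtain ⟨ε, hε, hεu⟩ := hε
  obtain ⟨V, hV, hVB, ⟨a', ha'⟩, happ⟩ := main_approx (f none) (fun i => f (some i))
    (I.image Prod.fst) (I.sup Prod.snd) ε hε B (hB.mem_nhds hfB)
  -- shrink to a basic open set
  obtain ⟨V', hV', haV', hV'V⟩ :=
    (TopologicalSpace.isBasis_countableBasis M).exists_subset_of_mem_open ha' hV
  refine ⟨V', hV', ?_, ?_⟩
  · refine ⟨⟨E (fun x => match x with | none => a' | some _ => 0), mem_range_self _⟩, ?_⟩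
    exact haV'
  · rintro ⟨_, ⟨f', rfl⟩⟩ hf'
    have hf'V : io (f' none) ∈ V := hV'V hf'
    show E f' ∈ O
    apply hBC
    refine ⟨hVB hf'V, ?_⟩
    apply huC
    intro q hq
    have h1 := happ (f' none) (fun i => f' (some i)) hf'V q.1
      (Finset.mem_image_of_mem _ hq) q.2 (Finset.le_sup (f := Prod.snd) hq)
    exact hεu q hq _ h1


/-- The whole statement: a nonseparable Tychonoff (even discrete) space whose function space
condenses onto a Tychonoff space of countable pi-weight. -/
theorem exists_condensation :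
    ∃ (Y : Type) (τ : TopologicalSpace Y), T35Space Y ∧
      ∃ e : (Option ℝ → ℝ) → Y, Function.Bijective e ∧ Continuous e ∧
        ∃ B : Set (Set Y), B.Countable ∧ (∀ P ∈ B, IsOpen P ∧ P.Nonempty) ∧
          ∀ U : Set Y, IsOpen U → U.Nonempty → ∃ P ∈ B, P ⊆ U := by
  refine ⟨Y, inferInstance, inferInstance, rangeFactorization E, ?_, ?_, ?_⟩
  · refine ⟨?_, rangeFactorization_surjective⟩
    intro f f' h
    exact E_inj (congrArg Subtype.val h)
  · exact E_cont.subtype_mk _
  · refine ⟨(PB '' TopologicalSpace.countableBasis M) ∩ {P | P.Nonempty}, ?_, ?_, ?_⟩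
    · exact ((TopologicalSpace.countable_countableBasis M).image PB).mono inter_subset_left
    · rintro _ ⟨⟨V, hV, rfl⟩, hne⟩
      exact ⟨PB_open V (TopologicalSpace.isOpen_of_mem_countableBasis hV), hne⟩
    · intro U hU hne
      obtain ⟨V, hV, hVne, hVU⟩ := pi_base U hU hne
      exact ⟨PB V, ⟨⟨V, hV, rfl⟩, hVne⟩, hVU⟩

end Pool.Agent.Helper43.CpCond
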