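import Pool.Agent.Helper43.CpCond

/-!
# Condensations of `C_p(X)` onto spaces of countable pi-weight: exact characterisation

For a Tychonoff space `X` the space `C_p(X)` condenses onto a Tychonoff space of countable
pi-weight if and only if `X` has a dense subset of cardinality at most the continuum.
-/

set_option autoImplicit false
open Topology Set

universe u

namespace Pool.Agent.Helper43.CpCond

section forward

variable {X : Type u} [TopologicalSpace X]

/-- the map `f ↦ (io (f x₀), w ..)` for a dense set `D` injected into the line by `j` -/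
noncomputable def EC (D : Set X) (j : D → ℝ) (x₀ : X) (f : C(X, ℝ)) : M × (D × ℕ → ℝ) :=
  (io (f x₀), fun q => w (j q.1) q.2 (f x₀) (fun _ => f q.1))

theorem EC_cont (D : Set X) (j : D → ℝ) (x₀ : X) :
    @Continuous C(X, ℝ) (M × (D × ℕ → ℝ))
      (TopologicalSpace.induced (fun f : C(X, ℝ) => (⇑f : X → ℝ)) Pi.topologicalSpace) _
      (EC D j x₀) := by
  let _ : TopologicalSpace C(X, ℝ) :=
    TopologicalSpace.induced (fun f : C(X, ℝ) => (⇑f : X → ℝ)) Pi.topologicalSpace
  have hev : ∀ x : X, Continuous fun f : C(X, ℝ) => f x := fun x =>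
    (continuous_apply x).comp continuous_induced_dom
  unfold EC
  apply Continuous.prodMk
  · exact io_cont.comp (hev x₀)
  · apply continuous_pi
    rintro ⟨i, k⟩
    have h1 : Continuous (fun f : C(X, ℝ) => ((f x₀, fun _ => f i) : ℝ × (ℝ → ℝ))) := by
      apply Continuous.prodMk (hev x₀)
      apply continuous_pi
      intro _
      exact hev i
    have h2 := (w_cont (j i) k).comp h1
    simpa only [Function.comp_def] using h2

theorem EC_inj (D : Set X) (hD : Dense D) (j : D → ℝ) (x₀ : X) :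
    Function.Injective (EC D j x₀) := by
  intro f f' h
  unfold EC at h
  rw [Prod.mk.injEq] at h
  obtain ⟨h1, h2⟩ := h
  have h0 : f x₀ = f' x₀ := io_inj h1
  apply DFunLike.coe_injective
  refine Continuous.ext_on hD f.continuous f'.continuous ?_
  intro d hd
  obtain ⟨k, hk⟩ := exists_nat_gt |f x₀|
  have h3 := congrFun h2 (⟨d, hd⟩, k)
  simp only at h3
  unfold w at h3
  rw [← h0, if_pos hk.le, if_pos hk.le] at h3
  have h4 := mul_left_cancel₀ (R_pos k _ hk).ne' h3
  exact Real.arctan_injective h4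

/-- Basic open subsets of the target space coming from the torus. -/
def PC (D : Set X) (j : D → ℝ) (x₀ : X) (V : Set M) : Set (range (EC D j x₀)) :=
  {y | y.1.1 ∈ V}

theorem PC_open (D : Set X) (j : D → ℝ) (x₀ : X) (V : Set M) (hV : IsOpen V) :
    IsOpen (PC D j x₀ V) :=
  hV.preimage (continuous_fst.comp continuous_subtype_val)

theorem pi_baseC (D : Set X) (j : D → ℝ) (hj : Function.Injective j) (x₀ : X)
    (U : Set (range (EC D j x₀))) (hU : IsOpen U) (hne : U.Nonempty) :
    ∃ V : Set M, V ∈ TopologicalSpace.countableBasis M ∧ (PC D j x₀ V).Nonempty ∧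
      PC D j x₀ V ⊆ U := by
  classical
  obtain ⟨⟨_, ⟨f, rfl⟩⟩, hfU⟩ := hne
  obtain ⟨O, hO, rfl⟩ := isOpen_induced_iff.1 hU
  have hfO : EC D j x₀ f ∈ O := hfU
  obtain ⟨B, C, hB, hC, hfB, hfC, hBC⟩ := isOpen_prod_iff.1 hO _ _ hfO
  obtain ⟨I, u, hu, huC⟩ := isOpen_pi_iff.1 hC _ hfC
  -- a uniform ε
  have hε : ∃ ε : ℝ, 0 < ε ∧ ∀ q ∈ I, ∀ y : ℝ,
      |y - w (j q.1) q.2 (f x₀) (fun _ => f q.1)| < ε → y ∈ u q := by
    have hq : ∀ q ∈ I, ∃ ε : ℝ, 0 < ε ∧ ∀ y : ℝ,
        |y - w (j q.1) q.2 (f x₀) (fun _ => f q.1)| < ε → y ∈ u q := by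
      intro q hq
      obtain ⟨ε, hε, hb⟩ := Metric.isOpen_iff.1 (hu q hq).1 _ (hu q hq).2
      refine ⟨ε, hε, ?_⟩
      intro y hy
      apply hb
      rw [Metric.mem_ball, Real.dist_eq]
      exact hy
    choose! ε hε hε' using hq
    rcases I.eq_empty_or_nonempty with rfl | hI
    · exact ⟨1, one_pos, by simp⟩
    · refine ⟨I.inf' hI ε, ?_, ?_⟩
      · rw [Finset.lt_inf'_iff]
        exact hε
      · intro q hq y hy
        apply hε' q hq y
        exact lt_of_lt_of_le hy (Finset.inf'_le _ hq)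
  obtain ⟨ε, hε, hεu⟩ := hε
  -- the function with the values of `f` at the points `j d`
  obtain ⟨b, hb⟩ : ∃ b : ℝ → ℝ, ∀ d : D, b (j d) = f d :=
    ⟨Function.extend j (fun d => f d) 0, fun d => hj.extend_apply _ _ d⟩
  have hwb : ∀ (d : D) (k : ℕ), w (j d) k (f x₀) (fun _ => f d) = w (j d) k (f x₀) b := by
    intro d k
    unfold w
    rw [hb]
  obtain ⟨V, hV, hVB, ⟨a', ha'⟩, happ⟩ := main_approx (f x₀) b
    (I.image fun q => j q.1) (I.sup Prod.snd) ε hε B (hB.mem_nhds hfB)
  -- shrink to a basic open set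
  obtain ⟨V', hV', haV', hV'V⟩ :=
    (TopologicalSpace.isBasis_countableBasis M).exists_subset_of_mem_open ha' hV
  refine ⟨V', hV', ?_, ?_⟩
  · refine ⟨⟨EC D j x₀ (ContinuousMap.const X a'), mem_range_self _⟩, ?_⟩
    exact haV'
  · rintro ⟨_, ⟨f', rfl⟩⟩ hf'
    have hf'V : io (f' x₀) ∈ V := hV'V hf'
    show EC D j x₀ f' ∈ O
    apply hBC
    refine ⟨hVB hf'V, ?_⟩
    apply huC
    intro q hq
    have h1 := happ (f' x₀) (fun _ => f' q.1) hf'V (j q.1)
      (Finset.mem_image_of_mem (fun q : D × ℕ => j q.1) hq) q.2 (Finset.le_sup (f := Prod.snd) hq)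
    rw [← hwb] at h1
    exact hεu q hq _ h1

theorem cont_rangeFact {Z W : Type*} (_ : TopologicalSpace Z) [TopologicalSpace W] (e : Z → W)
    (h : Continuous e) : Continuous (rangeFactorization e) := h.subtype_mk _

/-- If `X` has a dense subset of cardinality at most the continuum, then `C_p(X)` condenses. -/
theorem condenses_of_dense (D : Set X) (hD : Dense D) (hc : Cardinal.mk D ≤ Cardinal.continuum) :
    ∃ (Y : Type u) (τ : TopologicalSpace Y), T35Space Y ∧
      ∃ g : C(X, ℝ) → Y, Function.Bijective g ∧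
        @Continuous C(X, ℝ) Y
          (TopologicalSpace.induced (fun f : C(X, ℝ) => (⇑f : X → ℝ)) Pi.topologicalSpace)
          τ g ∧
        ∃ B : Set (Set Y), B.Countable ∧ (∀ P ∈ B, IsOpen P ∧ P.Nonempty) ∧
          ∀ U : Set Y, IsOpen U → U.Nonempty → ∃ P ∈ B, P ⊆ U := by
  obtain ⟨j, hj⟩ : ∃ j : D → ℝ, Function.Injective j := by
    have h1 : Cardinal.lift.{0} (Cardinal.mk D) ≤ Cardinal.lift.{u} (Cardinal.mk ℝ) := by
      rw [Cardinal.mk_real, Cardinal.lift_continuum, Cardinal.lift_uzero]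
      exact hc
    obtain ⟨j⟩ := Cardinal.lift_mk_le'.1 h1
    exact ⟨j, j.injective⟩
  rcases isEmpty_or_nonempty X with hX | ⟨⟨x₀⟩⟩
  · refine ⟨PUnit.{u + 1}, inferInstance, inferInstance, fun _ => PUnit.unit, ?_, ?_, {univ},
      countable_singleton _, ?_, ?_⟩
    · constructor
      · intro f f' _
        ext x
        exact hX.elim x
      · intro y
        exact ⟨0, rfl⟩
    · exact @continuous_const _ _ (_) _ _
    · intro P hP
      rw [mem_singleton_iff.1 hP]
      exact ⟨isOpen_univ, univ_nonempty⟩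
    · intro U _ hU
      refine ⟨univ, mem_singleton _, ?_⟩
      intro y _
      obtain ⟨z, hz⟩ := hU
      exact hz
  · refine ⟨range (EC D j x₀), inferInstance, inferInstance, rangeFactorization (EC D j x₀),
      ?_, ?_, ?_⟩
    · refine ⟨?_, rangeFactorization_surjective⟩
      intro f f' h
      exact EC_inj D hD j x₀ (congrArg Subtype.val h)
    · exact cont_rangeFact _ _ (EC_cont D j x₀)
    · refine ⟨(PC D j x₀ '' TopologicalSpace.countableBasis M) ∩ {P | P.Nonempty}, ?_, ?_, ?_⟩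
      · exact ((TopologicalSpace.countable_countableBasis M).image _).mono inter_subset_left
      · rintro _ ⟨⟨V, hV, rfl⟩, hne⟩
        exact ⟨PC_open D j x₀ V (TopologicalSpace.isOpen_of_mem_countableBasis hV), hne⟩
      · intro U hU hne
        obtain ⟨V, hV, hVne, hVU⟩ := pi_baseC D j hj x₀ U hU hne
        exact ⟨PC D j x₀ V, ⟨⟨V, hV, rfl⟩, hVne⟩, hVU⟩

end forward

section backward

variable {Y : Type u} [TopologicalSpace Y] [T2Space Y]

/-- the regular open set belonging to a family of members of the pi-base -/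
def WS (S : Set (Set Y)) : Set Y := interior (closure (⋃₀ S))

/-- In a Hausdorff space with a pi-base `B` every point is the intersection of the sets `WS S`,
`S ⊆ B`, which contain it. -/
theorem exists_WS (B : Set (Set Y)) (hB : ∀ P ∈ B, IsOpen P ∧ P.Nonempty)
    (hB2 : ∀ U : Set Y, IsOpen U → U.Nonempty → ∃ P ∈ B, P ⊆ U) (y₀ y : Y) (hy : y ≠ y₀) :
    ∃ S : Set (Set Y), S ⊆ B ∧ y₀ ∈ WS S ∧ y ∉ WS S := by
  obtain ⟨O, O', hO, hO', hyO, hyO', hdisj⟩ := t2_separation hy.symm
  have hcl : y ∉ closure O := by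
    intro h
    have h2 := mem_closure_iff.1 h O' hO' hyO'
    exact h2.ne_empty (by rw [inter_comm]; exact hdisj.inter_eq)
  refine ⟨{P | P ∈ B ∧ P ⊆ O}, fun P hP => hP.1, ?_, ?_⟩
  · have hsub : O ⊆ closure (⋃₀ {P | P ∈ B ∧ P ⊆ O}) := by
      intro z hz
      rw [mem_closure_iff]
      intro N hN hzN
      obtain ⟨P, hP, hPN⟩ := hB2 (N ∩ O) (hN.inter hO) ⟨z, hzN, hz⟩
      obtain ⟨t, ht⟩ := (hB P hP).2
      exact ⟨t, (hPN ht).1, P, ⟨hP, fun s hs => (hPN hs).2⟩, ht⟩
    exact interior_maximal hsub hO hyO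
  · intro h
    apply hcl
    have h2 : y ∈ closure (⋃₀ {P | P ∈ B ∧ P ⊆ O}) := interior_subset h
    exact closure_mono (sUnion_subset fun P hP => hP.2) h2

variable {X : Type u} [TopologicalSpace X] [T35Space X]

/-- If `C_p(X)` has a continuous injection into a Hausdorff space of countable pi-weight, then `X`
has a dense subset of cardinality at most the continuum. -/
theorem dense_of_condenses (g : C(X, ℝ) → Y) (hg : Function.Injective g)
    (hgc : @Continuous C(X, ℝ) Y
      (TopologicalSpace.induced (fun f : C(X, ℝ) => (⇑f : X → ℝ)) Pi.topologicalSpace) _ g)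
    (B : Set (Set Y)) (hBc : B.Countable) (hB : ∀ P ∈ B, IsOpen P ∧ P.Nonempty)
    (hB2 : ∀ U : Set Y, IsOpen U → U.Nonempty → ∃ P ∈ B, P ⊆ U) :
    ∃ D : Set X, Dense D ∧ Cardinal.mk D ≤ Cardinal.continuum := by
  classical
  -- a finite set of points for every family
  have hF : ∀ S : Set B, ∃ F : Finset X, g 0 ∈ WS (Subtype.val '' S) →
      ∀ f : C(X, ℝ), (∀ x ∈ F, f x = 0) → g f ∈ WS (Subtype.val '' S) := by
    intro S
    by_cases h0 : g 0 ∈ WS (Subtype.val '' S)
    · have hO : @IsOpen C(X, ℝ)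
          (TopologicalSpace.induced (fun f : C(X, ℝ) => (⇑f : X → ℝ)) Pi.topologicalSpace)
          (g ⁻¹' WS (Subtype.val '' S)) :=
        @IsOpen.preimage _ _ (_) _ _ hgc _ isOpen_interior
      obtain ⟨O, hO1, hO2⟩ := isOpen_induced_iff.1 hO
      have h1 : (fun _ : X => (0 : ℝ)) ∈ O := by
        have : (0 : C(X, ℝ)) ∈ (fun f : C(X, ℝ) => (⇑f : X → ℝ)) ⁻¹' O := by
          rw [hO2]
          exact h0
        exact this
      obtain ⟨F, u, hu, huO⟩ := isOpen_pi_iff.1 hO1 _ h1
      refine ⟨F, fun _ f hf => ?_⟩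
      have h2 : f ∈ (fun f : C(X, ℝ) => (⇑f : X → ℝ)) ⁻¹' O := by
        apply huO
        intro x hx
        show f x ∈ u x
        rw [hf x hx]
        exact (hu x hx).2
      rw [hO2] at h2
      exact h2
    · exact ⟨∅, fun h => absurd h h0⟩
  choose F hF using hF
  refine ⟨⋃ S : Set B, (F S : Set X), ?_, ?_⟩
  · by_contra hnd
    rw [dense_iff_closure_eq, ← ne_eq, ne_univ_iff_exists_notMem] at hnd
    obtain ⟨x, hx⟩ := hnd
    obtain ⟨φ, hφ, hφ0, hφ1⟩ := CompletelyRegularSpace.completely_regular x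
      (closure (⋃ S : Set B, (F S : Set X))) isClosed_closure hx
    -- the function `1 - φ`
    obtain ⟨f, hf⟩ : ∃ f : C(X, ℝ), ∀ t, f t = 1 - (φ t : ℝ) :=
      ⟨⟨fun t => 1 - (φ t : ℝ), by fun_prop⟩, fun t => rfl⟩
    have hf0 : f ≠ 0 := by
      intro h
      have h1 : f x = 0 := by rw [h]; rfl
      rw [hf, hφ0] at h1
      simp at h1
    have hgf : g f ≠ g 0 := fun h => hf0 (hg h)
    obtain ⟨S, hSB, hS0, hSf⟩ := exists_WS B hB hB2 (g 0) (g f) hgf
    obtain ⟨S', rfl⟩ : ∃ S' : Set B, Subtype.val '' S' = S :=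
      ⟨Subtype.val ⁻¹' S, by rw [Subtype.image_preimage_coe, inter_eq_right.2 hSB]⟩
    apply hSf
    apply hF S' hS0
    intro t ht
    have h2 : t ∈ closure (⋃ S : Set B, (F S : Set X)) :=
      subset_closure (mem_iUnion.2 ⟨S', ht⟩)
    rw [hf, hφ1 h2]
    simp
  · have h1 : Cardinal.mk (Set B) ≤ Cardinal.continuum := by
      rw [Cardinal.mk_set, ← Cardinal.two_power_aleph0]
      exact Cardinal.power_le_power_left two_ne_zero hBc.le_aleph0
    refine (Cardinal.mk_iUnion_le _).trans ?_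
    refine (mul_le_mul' h1 (ciSup_le' fun S => ?_)).trans
      (Cardinal.continuum_mul_self).le
    exact ((F S).finite_toSet.lt_aleph0.trans Cardinal.aleph0_lt_continuum).le

end backward

end Pool.Agent.Helper43.CpCond
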