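import Mathlib

set_option autoImplicit false

/-!
A graph on 12 vertices in which every induced cycle is odd and which has `K_{3,3}` as an induced
minor: the finite check.
-/

namespace Pool.Agent.Helper43.K33

/-- adjacency masks -/
def mask : Fin 12 → ℕ := ![
  2^1+2^2+2^3+2^5, 2^0+2^2+2^8, 2^0+2^1+2^3+2^10, 2^0+2^2+2^6, 2^5+2^10+2^11, 2^4+2^0+2^7,
  2^7+2^8+2^9+2^3, 2^6+2^8+2^9+2^5, 2^9+2^6+2^7+2^1, 2^8+2^6+2^7+2^11, 2^2+2^4, 2^4+2^9]

/-- adjacency -/
def adjB (v w : Fin 12) : Bool := (mask v).testBit w

theorem adjB_symm : ∀ v w, adjB v w = adjB w v := by decide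
theorem adjB_irr : ∀ v, adjB v v = false := by decide

/-- number of elements of the set `M` adjacent to `v` -/
def dg (M : ℕ) (v : Fin 12) : ℕ := (Finset.univ.filter (fun w : Fin 12 => adjB v w && M.testBit w)).card

def reg (M : ℕ) : Prop := ∀ v : Fin 12, M.testBit v = true → dg M v = 2
instance (M : ℕ) : Decidable (reg M) := by unfold reg; infer_instance
def trif (M : ℕ) : Prop := ∀ v : Fin 12, M.testBit v = true → ∀ w : Fin 12, M.testBit w = true →
  adjB v w = true → ∀ u : Fin 12, M.testBit u = true → adjB v u = true → adjB w u = false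
instance (M : ℕ) : Decidable (trif M) := by unfold trif; infer_instance
def nonem (M : ℕ) : Prop := ∃ v : Fin 12, M.testBit v = true
instance (M : ℕ) : Decidable (nonem M) := by unfold nonem; infer_instance
def oddc (M : ℕ) : Prop := (Finset.univ.filter (fun w : Fin 12 => M.testBit w = true)).card % 2 = 1
instance (M : ℕ) : Decidable (oddc M) := by unfold oddc; infer_instance
def whl (M : ℕ) : Prop := ∀ c : Fin 12, M.testBit c = false → dg M c < 3 ∨ dg M c % 2 = 1
instance (M : ℕ) : Decidable (whl M) := by unfold whl; infer_instance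
def good (M : ℕ) : Prop := reg M → trif M → nonem M → oddc M ∧ whl M
instance (M : ℕ) : Decidable (good M) := by unfold good; infer_instance

theorem all_good : ∀ a b : Fin 64, good (64 * a + b) := by decide +kernel

theorem good_of_lt (M : ℕ) (hM : M < 4096) : good M := by
  have h := all_good ⟨M / 64, by omega⟩ ⟨M % 64, Nat.mod_lt _ (by norm_num)⟩
  have e : 64 * (M / 64) + M % 64 = M := Nat.div_add_mod M 64
  simp only [e] at h
  exact h

end Pool.Agent.Helper43.K33
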