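import Mathlib
import Pool.Agent.Helper43.K33Comp

set_option autoImplicit false

namespace Pool.Agent.Helper43.K33

/-- the graph -/
def GG : SimpleGraph (Fin 12) where
  Adj v w := adjB v w = true
  symm := ⟨fun v w h => by rw [adjB_symm]; exact h⟩
  loopless := ⟨fun v h => by rw [adjB_irr] at h; exact Bool.noConfusion h⟩

theorem GG_adj (v w : Fin 12) : GG.Adj v w ↔ adjB v w = true := Iff.rfl

instance : DecidableRel GG.Adj := fun v w => decidable_of_iff _ (GG_adj v w).symm

theorem msucc (m i : ℕ) (h : i < m) : (i + 1) % m = if i + 1 = m then 0 else i + 1 := by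
  split_ifs with h1
  · rw [h1, Nat.mod_self]
  · exact Nat.mod_eq_of_lt (by omega)

/-- the bits of the range of a map -/
noncomputable def bits {m : ℕ} (f : Fin m → Fin 12) : ℕ :=
  Nat.ofBits (fun v : Fin 12 => decide (v ∈ Finset.univ.image f))

theorem bits_lt {m : ℕ} (f : Fin m → Fin 12) : bits f < 4096 := by
  unfold bits
  exact lt_of_lt_of_eq (Nat.ofBits_lt_two_pow _) (by norm_num)

theorem bits_test {m : ℕ} (f : Fin m → Fin 12) (v : Fin 12) :
    (bits f).testBit v = decide (v ∈ Finset.univ.image f) := by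
  unfold bits
  rw [Nat.testBit_ofBits_lt _ _ v.2]

theorem bits_true {m : ℕ} (f : Fin m → Fin 12) (v : Fin 12) :
    (bits f).testBit v = true ↔ ∃ i, f i = v := by
  rw [bits_test]
  simp

theorem bits_false {m : ℕ} (f : Fin m → Fin 12) (v : Fin 12) :
    (bits f).testBit v = false ↔ ∀ i, f i ≠ v := by
  rw [bits_test]
  simp

theorem dg_eq {m : ℕ} (f : Fin m → Fin 12) (hf : Function.Injective f) (c : Fin 12) :
    dg (bits f) c = (Finset.univ.filter (fun i : Fin m => GG.Adj c (f i))).card := by
  unfold dg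
  symm
  apply Finset.card_bij (fun i _ => f i)
  · intro i hi
    rw [Finset.mem_filter] at hi ⊢
    refine ⟨Finset.mem_univ _, ?_⟩
    rw [Bool.and_eq_true]
    exact ⟨hi.2, (bits_true f _).2 ⟨i, rfl⟩⟩
  · intro i _ j _ h
    exact hf h
  · intro w hw
    rw [Finset.mem_filter, Bool.and_eq_true, bits_true] at hw
    obtain ⟨-, h1, i, rfl⟩ := hw
    exact ⟨i, by rw [Finset.mem_filter]; exact ⟨Finset.mem_univ _, h1⟩, rfl⟩

/-- Every hole of the graph is odd, and it is not the rim of an even wheel. -/
theorem hole_facts {m : ℕ} (f : Fin m → Fin 12) (hm : 4 ≤ m) (hinj : Function.Injective f)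
    (hadj : ∀ i j : Fin m, GG.Adj (f i) (f j) ↔
            (((i : ℕ) + 1) % m = (j : ℕ) ∨ ((j : ℕ) + 1) % m = (i : ℕ))) :
    m % 2 = 1 ∧ ∀ c, (∀ i, f i ≠ c) →
      (Finset.univ.filter (fun i : Fin m => GG.Adj c (f i))).card < 3 ∨
      (Finset.univ.filter (fun i : Fin m => GG.Adj c (f i))).card % 2 = 1 := by
  have hadj' : ∀ i j : Fin m, GG.Adj (f i) (f j) ↔
      ((if (i : ℕ) + 1 = m then 0 else (i : ℕ) + 1) = (j : ℕ) ∨
        (if (j : ℕ) + 1 = m then 0 else (j : ℕ) + 1) = (i : ℕ)) := by
    intro i j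
    rw [hadj, msucc m i i.2, msucc m j j.2]
  have hg := good_of_lt (bits f) (bits_lt f)
  have hreg : reg (bits f) := by
    intro v hv
    obtain ⟨i, rfl⟩ := (bits_true f v).1 hv
    rw [dg_eq f hinj]
    have : (Finset.univ.filter (fun j : Fin m => GG.Adj (f i) (f j))) =
        {⟨if (i : ℕ) + 1 = m then 0 else (i : ℕ) + 1, by split_ifs <;> omega⟩,
          ⟨if (i : ℕ) = 0 then m - 1 else (i : ℕ) - 1, by split_ifs <;> omega⟩} := by
      ext j
      rw [Finset.mem_filter, hadj', Finset.mem_insert, Finset.mem_singleton, Fin.ext_iff, Fin.ext_iff]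
      simp only [Finset.mem_univ, true_and]
      have := i.2
      have := j.2
      split_ifs <;> omega
    rw [this]
    apply Finset.card_pair
    intro h
    rw [Fin.ext_iff] at h
    simp only at h
    have := i.2
    split_ifs at h <;> omega
  have htri : trif (bits f) := by
    intro v hv w hw h1 u hu h2
    obtain ⟨i, rfl⟩ := (bits_true f v).1 hv
    obtain ⟨j, rfl⟩ := (bits_true f w).1 hw
    obtain ⟨k, rfl⟩ := (bits_true f u).1 hu
    rw [Bool.eq_false_iff]
    intro h3
    have e1 := (hadj' i j).1 h1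
    have e2 := (hadj' i k).1 h2
    have e3 := (hadj' j k).1 h3
    have := i.2
    have := j.2
    have := k.2
    split_ifs at e1 e2 e3 <;> omega
  have hne : nonem (bits f) := ⟨f ⟨0, by omega⟩, (bits_true f _).2 ⟨_, rfl⟩⟩
  obtain ⟨ho, hw⟩ := hg hreg htri hne
  constructor
  · unfold oddc at ho
    have : (Finset.univ.filter (fun w : Fin 12 => (bits f).testBit w = true)) = Finset.univ.image f := by
      ext w
      rw [Finset.mem_filter, bits_true, Finset.mem_image]
      simp
    rw [this, Finset.card_image_of_injective _ hinj, Finset.card_univ, Fintype.card_fin] at ho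
    exact ho
  · intro c hc
    have := hw c ((bits_false f c).2 hc)
    rw [dg_eq f hinj] at this
    exact this

theorem no_theta : ¬ ∃ (P : Fin 3 → ℕ → Fin 12) (l : Fin 3 → ℕ),
          (∀ i, 2 ≤ l i) ∧
          (∀ i j, P i 0 = P j 0 ∧ P i (l i) = P j (l j)) ∧
          (∀ i s t, s ≤ l i → t ≤ l i → P i s = P i t → s = t) ∧
          (∀ i s t, s ≤ l i → t ≤ l i →
            (GG.Adj (P i s) (P i t) ↔ (s + 1 = t ∨ t + 1 = s))) ∧
          (∀ i j s t, i ≠ j → 0 < s → s < l i → 0 < t → t < l j →
            P i s ≠ P j t ∧ ¬ GG.Adj (P i s) (P j t)) := by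
  rintro ⟨P, l, hl, hend, hinj, hadj, hdisj⟩
  have key : ∀ i j, i ≠ j → (l i + l j) % 2 = 1 := by
    intro i j hij
    have hli := hl i
    have hlj := hl j
    have h0 := (hend i j).1
    have h1 := (hend i j).2
    -- mixed facts
    have mixne : ∀ s t, s ≤ l i → 0 < t → t < l j → P i s ≠ P j t := by
      intro s t hs ht ht'
      rcases Nat.eq_zero_or_pos s with rfl | hs0
      · rw [h0]
        intro h
        have := hinj j 0 t (by omega) (by omega) h
        omega
      · rcases Nat.lt_or_ge s (l i) with hs1 | hs1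
        · exact (hdisj i j s t hij hs0 hs1 ht ht').1
        · have : s = l i := by omega
          subst this
          rw [h1]
          intro h
          have := hinj j _ _ (by omega) (by omega) h
          omega
    have mixadj : ∀ s t, s ≤ l i → 0 < t → t < l j →
        (GG.Adj (P i s) (P j t) ↔ ((s = 0 ∧ t = 1) ∨ (s = l i ∧ t + 1 = l j))) := by
      intro s t hs ht ht'
      rcases Nat.eq_zero_or_pos s with rfl | hs0
      · rw [h0, hadj j 0 t (by omega) (by omega)]
        omega
      · rcases Nat.lt_or_ge s (l i) with hs1 | hs1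
        · have := (hdisj i j s t hij hs0 hs1 ht ht').2
          constructor
          · intro h; exact absurd h this
          · intro h; omega
        · have : s = l i := by omega
          subst this
          rw [h1, hadj j _ t (by omega) (by omega)]
          omega
    let f : Fin (l i + l j) → Fin 12 := fun k => if (k : ℕ) ≤ l i then P i k else P j (l i + l j - k)
    have hf : ∀ k : Fin (l i + l j), f k = if (k : ℕ) ≤ l i then P i k else P j (l i + l j - k) := fun k => rfl
    refine (hole_facts f (by omega) ?_ ?_).1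
    · intro k k' h
      rw [hf, hf] at h
      have hk := k.2
      have hk' := k'.2
      apply Fin.ext
      split_ifs at h with c1 c2 c2
      · exact hinj i _ _ c1 c2 h
      · exact absurd h (mixne _ _ c1 (by omega) (by omega))
      · exact absurd h.symm (mixne _ _ c2 (by omega) (by omega))
      · have := hinj j _ _ (by omega) (by omega) h
        omega
    · intro k k'
      have hk := k.2
      have hk' := k'.2
      rw [msucc _ _ hk, msucc _ _ hk', hf, hf]
      by_cases c1 : (k : ℕ) ≤ l i
      · by_cases c2 : (k' : ℕ) ≤ l i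
        · rw [if_pos c1, if_pos c2, hadj i _ _ c1 c2]
          split_ifs <;> omega
        · rw [if_pos c1, if_neg c2, mixadj _ _ c1 (by omega) (by omega)]
          split_ifs <;> omega
      · by_cases c2 : (k' : ℕ) ≤ l i
        · rw [if_neg c1, if_pos c2, GG.adj_comm, mixadj _ _ c2 (by omega) (by omega)]
          split_ifs <;> omega
        · rw [if_neg c1, if_neg c2, hadj j _ _ (by omega) (by omega)]
          split_ifs <;> omega
  have k1 := key 0 1 (by decide)
  have k2 := key 0 2 (by decide)
  have k3 := key 1 2 (by decide)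
  omega

theorem no_prism : ¬ ∃ (P : Fin 3 → ℕ → Fin 12) (l : Fin 3 → ℕ),
          (∀ i, 1 ≤ l i) ∧
          (∀ i j s t, s ≤ l i → t ≤ l j → P i s = P j t → (i = j ∧ s = t)) ∧
          (∀ i j s t, s ≤ l i → t ≤ l j →
            (GG.Adj (P i s) (P j t) ↔
              ((i = j ∧ (s + 1 = t ∨ t + 1 = s)) ∨
               (i ≠ j ∧ ((s = 0 ∧ t = 0) ∨ (s = l i ∧ t = l j)))))) := by
  rintro ⟨P, l, hl, hinj, hadj⟩
  have key : ∀ i j, i ≠ j → (l i + l j + 2) % 2 = 1 := by
    intro i j hij
    have hli := hl i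
    have hlj := hl j
    have same : ∀ a s t, s ≤ l a → t ≤ l a → (GG.Adj (P a s) (P a t) ↔ (s + 1 = t ∨ t + 1 = s)) := by
      intro a s t hs ht
      rw [hadj a a s t hs ht]
      simp
    have diff : ∀ s t, s ≤ l i → t ≤ l j → (GG.Adj (P i s) (P j t) ↔ ((s = 0 ∧ t = 0) ∨ (s = l i ∧ t = l j))) := by
      intro s t hs ht
      rw [hadj i j s t hs ht]
      simp [hij]
    let f : Fin (l i + l j + 2) → Fin 12 :=
      fun k => if (k : ℕ) ≤ l i then P i k else P j (l i + l j + 1 - k)
    have hf : ∀ k : Fin (l i + l j + 2), f k = if (k : ℕ) ≤ l i then P i k else P j (l i + l j + 1 - k) := fun k => rfl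
    refine (hole_facts f (by omega) ?_ ?_).1
    · intro k k' h
      rw [hf, hf] at h
      have hk := k.2
      have hk' := k'.2
      apply Fin.ext
      split_ifs at h with c1 c2 c2
      · exact (hinj i i _ _ c1 c2 h).2
      · exact absurd (hinj i j _ _ c1 (by omega) h).1 hij
      · exact absurd (hinj j i _ _ (by omega) c2 h).1.symm hij
      · have := (hinj j j _ _ (by omega) (by omega) h).2
        omega
    · intro k k'
      have hk := k.2
      have hk' := k'.2
      rw [msucc _ _ hk, msucc _ _ hk', hf, hf]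
      by_cases c1 : (k : ℕ) ≤ l i
      · by_cases c2 : (k' : ℕ) ≤ l i
        · rw [if_pos c1, if_pos c2, same i _ _ c1 c2]
          split_ifs <;> omega
        · rw [if_pos c1, if_neg c2, diff _ _ c1 (by omega)]
          split_ifs <;> omega
      · by_cases c2 : (k' : ℕ) ≤ l i
        · rw [if_neg c1, if_pos c2, GG.adj_comm, diff _ _ c2 (by omega)]
          split_ifs <;> omega
        · rw [if_neg c1, if_neg c2, same j _ _ (by omega) (by omega)]
          split_ifs <;> omega
  have k1 := key 0 1 (by decide)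
  have k2 := key 0 2 (by decide)
  have k3 := key 1 2 (by decide)
  omega

theorem no_wheel : ¬ ∃ (m : ℕ) (f : Fin m → Fin 12) (c : Fin 12),
          4 ≤ m ∧ Function.Injective f ∧
          (∀ i j : Fin m, GG.Adj (f i) (f j) ↔
            (((i : ℕ) + 1) % m = (j : ℕ) ∨ ((j : ℕ) + 1) % m = (i : ℕ))) ∧
          (∀ i, f i ≠ c) ∧
          3 ≤ Nat.card {i : Fin m // GG.Adj c (f i)} ∧
          Even (Nat.card {i : Fin m // GG.Adj c (f i)}) := by
  rintro ⟨m, f, c, hm, hinj, hadj, hc, h3, hev⟩
  have h := (hole_facts f hm hinj hadj).2 c hc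
  have e : Nat.card {i : Fin m // GG.Adj c (f i)} =
      (Finset.univ.filter (fun i : Fin m => GG.Adj c (f i))).card := by
    rw [Nat.card_eq_fintype_card, Fintype.card_subtype]
  rw [e] at h3 hev
  rw [Nat.even_iff] at hev
  omega

/-- the branch sets -/
def bs : Fin 3 ⊕ Fin 3 → Fin 12 → Bool
  | Sum.inl 0, v => v = 0 ∨ v = 1
  | Sum.inl 1, v => v = 4 ∨ v = 10 ∨ v = 11
  | Sum.inl 2, v => v = 6 ∨ v = 7
  | Sum.inr 0, v => v = 2 ∨ v = 3
  | Sum.inr 1, v => v = 5
  | Sum.inr 2, v => v = 8 ∨ v = 9

/-- roots of the branch sets -/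
def rt : Fin 3 ⊕ Fin 3 → Fin 12
  | Sum.inl 0 => 0
  | Sum.inl 1 => 4
  | Sum.inl 2 => 6
  | Sum.inr 0 => 2
  | Sum.inr 1 => 5
  | Sum.inr 2 => 8

theorem rt_mem : ∀ x, bs x (rt x) = true := by decide

theorem rt_adj : ∀ x v, bs x v = true → v = rt x ∨ adjB (rt x) v = true := by decide

theorem bs_disj : ∀ x y, x ≠ y → ∀ v, bs x v = true → bs y v = true → False := by decide

theorem bs_adj : ∀ x y, x ≠ y → ((∃ u, bs x u = true ∧ ∃ v, bs y v = true ∧ adjB u v = true) ↔
    ((x.isLeft = true ∧ y.isRight = true) ∨ (x.isRight = true ∧ y.isLeft = true))) := by decide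

theorem has_minor : ∃ B : Fin 3 ⊕ Fin 3 → Set (Fin 12),
          (∀ x, (GG.induce (B x)).Connected) ∧
          (∀ x y, x ≠ y → Disjoint (B x) (B y)) ∧
          (∀ x y, x ≠ y →
            ((∃ u ∈ B x, ∃ v ∈ B y, GG.Adj u v) ↔
              (completeBipartiteGraph (Fin 3) (Fin 3)).Adj x y)) := by
  refine ⟨fun x => {v | bs x v = true}, ?_, ?_, ?_⟩
  · intro x
    rw [SimpleGraph.connected_iff_exists_forall_reachable]
    refine ⟨⟨rt x, rt_mem x⟩, ?_⟩
    rintro ⟨v, hv⟩
    rcases rt_adj x v hv with h | h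
    · subst h
      exact SimpleGraph.Reachable.refl _
    · apply SimpleGraph.Adj.reachable
      exact h
  · intro x y hxy
    rw [Set.disjoint_left]
    intro v hv hv'
    exact bs_disj x y hxy v hv hv'
  · intro x y hxy
    have := bs_adj x y hxy
    simp only [completeBipartiteGraph_adj]
    rw [← this]
    constructor
    · rintro ⟨u, hu, v, hv, h⟩
      exact ⟨u, hu, v, hv, h⟩
    · rintro ⟨u, hu, v, hv, h⟩
      exact ⟨u, hu, v, hv, h⟩

end Pool.Agent.Helper43.K33
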