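import Mathlib
import Pool.Agent.Helper51.LinDefs

set_option autoImplicit false

open Polynomial
open scoped Pointwise

namespace Pool.Agent.Helper43.LinB2

section split

variable {A Ω : Type} [CommRing A] [Field Ω] [Algebra A Ω] [IsAlgClosed Ω]

theorem splits_integralClosure (p : (integralClosure A Ω)[X]) (hp : p.Monic) :
    ∃ s : Multiset (integralClosure A Ω), p = (s.map (fun a => X - C a)).prod := by
  have hinj : Function.Injective (algebraMap (integralClosure A Ω) Ω) :=
    Subtype.val_injective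
  set q := p.map (algebraMap (integralClosure A Ω) Ω) with hq
  have hqm : q.Monic := hp.map _
  have hsplit : q.Splits := IsAlgClosed.splits q
  have hprod : q = (q.roots.map (fun a => X - C a)).prod := by
    have := hsplit.eq_prod_roots
    rw [hqm.leadingCoeff, C_1, one_mul] at this
    exact this
  have hint : ∀ r ∈ q.roots, ∃ b : integralClosure A Ω, algebraMap (integralClosure A Ω) Ω b = r := by
    intro r hr
    have h1 : IsIntegral (integralClosure A Ω) r := by
      refine ⟨p, hp, ?_⟩
      have h2 := (mem_roots'.1 hr).2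
      rw [IsRoot.def, hq, eval_map] at h2
      exact h2
    have h3 : IsIntegral A r := isIntegral_trans (A := integralClosure A Ω) r h1
    exact ⟨⟨r, h3⟩, rfl⟩
  classical
  let g : Ω → integralClosure A Ω := fun r =>
    if h : ∃ b : integralClosure A Ω, algebraMap (integralClosure A Ω) Ω b = r then h.choose else 0
  have hg : ∀ r ∈ q.roots, algebraMap (integralClosure A Ω) Ω (g r) = r := by
    intro r hr
    have h := hint r hr
    simp only [g, dif_pos h]
    exact h.choose_spec
  have hs : (q.roots.map g).map (algebraMap (integralClosure A Ω) Ω) = q.roots := by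
    rw [Multiset.map_map]
    conv_rhs => rw [← Multiset.map_id q.roots]
    exact Multiset.map_congr rfl hg
  refine ⟨q.roots.map g, ?_⟩
  apply Polynomial.map_injective _ hinj
  rw [← hq, Polynomial.map_multiset_prod, Multiset.map_map]
  conv_lhs => rw [hprod, ← hs]
  rw [Multiset.map_map, Multiset.map_map, Multiset.map_map]
  congr 1
  apply Multiset.map_congr rfl
  intro b _
  simp

end split

section point

variable {A B : Type} [CommRing A] [Algebra ℂ A] [CommRing B] [IsDomain B] [Algebra ℂ B] [Algebra A B]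
  [IsScalarTower ℂ A B] [Algebra.IsIntegral A B]

/-- extension of a point -/
theorem exists_point (hinj : Function.Injective (algebraMap A B)) (e : A →ₐ[ℂ] ℂ) :
    ∃ φ : B →ₐ[ℂ] ℂ, ∀ a, φ (algebraMap A B a) = e a := by
  have hprime : (RingHom.ker e).IsPrime := RingHom.ker_isPrime e
  obtain ⟨Q, hQ, hQc⟩ := Ideal.exists_ideal_over_prime_of_isIntegral_of_isDomain (S := B) (RingHom.ker e) (by
    rw [(RingHom.injective_iff_ker_eq_bot _).1 hinj]
    exact bot_le)
  have hmemQ : ∀ a : A, algebraMap A B a - algebraMap ℂ B (e a) ∈ Q := by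
    intro a
    have h1 : a - algebraMap ℂ A (e a) ∈ RingHom.ker e := by
      rw [RingHom.mem_ker, map_sub, AlgHom.commutes]
      simp
    rw [← hQc, Ideal.mem_comap, map_sub, ← IsScalarTower.algebraMap_apply] at h1
    exact h1
  have : Algebra.IsIntegral ℂ (B ⧸ Q) := by
    constructor
    intro x
    obtain ⟨b, rfl⟩ := Ideal.Quotient.mk_surjective x
    obtain ⟨p, hp, hpb⟩ := Algebra.IsIntegral.isIntegral (R := A) b
    refine ⟨p.map (e : A →+* ℂ), hp.map _, ?_⟩
    rw [eval₂_map]
    have h2 : (algebraMap ℂ (B ⧸ Q)).comp (e : A →+* ℂ) = (Ideal.Quotient.mk Q).comp (algebraMap A B) := by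
      ext a
      have := hmemQ a
      rw [← Ideal.Quotient.eq_zero_iff_mem, map_sub, sub_eq_zero] at this
      exact this.symm
    rw [h2, ← Polynomial.hom_eval₂, hpb, map_zero]
  have hbij := IsAlgClosed.algebraMap_bijective_of_isIntegral (k := ℂ) (K := B ⧸ Q)
  let eq : ℂ ≃ₐ[ℂ] (B ⧸ Q) := AlgEquiv.ofBijective (Algebra.ofId ℂ (B ⧸ Q)) hbij
  refine ⟨(eq.symm : (B ⧸ Q) →ₐ[ℂ] ℂ).comp (Ideal.Quotient.mkₐ ℂ Q), ?_⟩
  intro a
  have h3 := hmemQ a
  rw [← Ideal.Quotient.eq_zero_iff_mem, map_sub, sub_eq_zero] at h3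
  show eq.symm (Ideal.Quotient.mk Q (algebraMap A B a)) = e a
  rw [h3, AlgEquiv.symm_apply_eq]
  rfl

/-- enough points -/
theorem exists_point_ne (hinj : Function.Injective (algebraMap A B))
    (hA : ∀ a : A, a ≠ 0 → ∃ e : A →ₐ[ℂ] ℂ, e a ≠ 0) (b : B) (hb : b ≠ 0) :
    ∃ φ : B →ₐ[ℂ] ℂ, φ b ≠ 0 := by
  have : Nontrivial A := by
    refine ⟨0, 1, fun h => ?_⟩
    have := congrArg (algebraMap A B) h
    simp at this
  have h1 := Ideal.comap_ne_bot_of_integral_mem (R := A) (I := Ideal.span {b}) hb
    (Ideal.mem_span_singleton_self b) (Algebra.IsIntegral.isIntegral b)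
  obtain ⟨a, ha, ha0⟩ := Submodule.exists_mem_ne_zero_of_ne_bot h1
  obtain ⟨e, he⟩ := hA a ha0
  obtain ⟨φ, hφ⟩ := exists_point hinj e
  refine ⟨φ, fun h => he ?_⟩
  rw [← hφ a]
  obtain ⟨c, hc⟩ := Ideal.mem_span_singleton'.1 ha
  rw [← hc, map_mul, h, mul_zero]

end point

section heights

variable {A K Ω : Type} [CommRing A] [Field K] [Field Ω] [Algebra A K] [Algebra K Ω] [Algebra A Ω]
  [IsScalarTower A K Ω]

theorem tower_L (L : IntermediateField K Ω) : IsScalarTower A L Ω :=
  IsScalarTower.of_algebraMap_eq (fun _ => rfl)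

/-- the map from the integral closure in a subfield -/
def jmap (L : IntermediateField K Ω) : integralClosure A L →+* integralClosure A Ω :=
  RingHom.codRestrict ((algebraMap L Ω).comp (algebraMap (integralClosure A L) L)) (integralClosure A Ω).toSubring
    (by
      intro x
      have h1 : IsIntegral A (x : L) := x.2
      have := tower_L (A := A) L
      exact h1.map (IsScalarTower.toAlgHom A L Ω))

theorem jmap_coe (L : IntermediateField K Ω) (x : integralClosure A L) :
    (jmap L x : Ω) = ((x : L) : Ω) := rfl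

theorem jmap_injective (L : IntermediateField K Ω) : Function.Injective (jmap (A := A) L) := by
  intro x y h
  have : ((x : L) : Ω) = ((y : L) : Ω) := by
    rw [← jmap_coe, ← jmap_coe, h]
  exact Subtype.ext (Subtype.ext this)

variable (K) in
/-- The height lemma. -/
theorem height_lemma [IsDomain A] [IsIntegrallyClosed A] [IsNoetherianRing A] [IsFractionRing A K]
    [CharZero K] [Algebra.IsAlgebraic K Ω] (M : Ideal (integralClosure A Ω)) [M.IsPrime] (S : Finset (integralClosure A Ω))
    (hS : ∀ s ∈ S, s ∈ M) :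
    ∃ P : Ideal (integralClosure A Ω), P.IsPrime ∧ P ≤ M ∧ (∀ s ∈ S, s ∈ P) ∧
      (P.comap (algebraMap A (integralClosure A Ω))).height ≤ S.card := by
  classical
  -- the finite extension
  let L : IntermediateField K Ω := IntermediateField.adjoin K ((fun s : integralClosure A Ω => (s : Ω)) '' (S : Set (integralClosure A Ω)))
  have hfin : FiniteDimensional K L := by
    apply IntermediateField.finiteDimensional_adjoin
    rintro _ ⟨s, _, rfl⟩
    exact Algebra.IsIntegral.isIntegral _
  have tow := tower_L (A := A) L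
  let B' := integralClosure A L
  have : IsNoetherianRing B' := integralClosure.isNoetherianRing (K := K) (A := A) (L := L)
  have : IsIntegrallyClosed B' := integralClosure.isIntegrallyClosedOfFiniteExtension K
  let _ : Algebra B' (integralClosure A Ω) := (jmap L).toAlgebra
  have hj : algebraMap B' (integralClosure A Ω) = jmap L := rfl
  have : IsScalarTower A B' (integralClosure A Ω) := by
    apply IsScalarTower.of_algebraMap_eq
    intro a
    rw [hj]
    apply Subtype.ext
    rw [jmap_coe]
    rfl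
  have : FaithfulSMul B' (integralClosure A Ω) := by
    rw [faithfulSMul_iff_algebraMap_injective]
    exact jmap_injective L
  have : FaithfulSMul A B' := by
    rw [faithfulSMul_iff_algebraMap_injective]
    intro x y h
    have h1 : algebraMap A L x = algebraMap A L y := by
      have := congrArg (fun z : B' => (z : L)) h
      exact this
    have h2 : algebraMap A K x = algebraMap A K y := by
      apply (algebraMap K L).injective
      rw [← IsScalarTower.algebraMap_apply, ← IsScalarTower.algebraMap_apply]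
      exact h1
    exact IsFractionRing.injective A K h2
  have : Algebra.IsIntegral B' (integralClosure A Ω) := by
    constructor
    intro x
    exact (Algebra.IsIntegral.isIntegral (R := A) x).tower_top
  -- lift the elements of S
  have hlift : ∀ s ∈ S, ∃ b : B', jmap L b = s := by
    intro s hs
    have h1 : (s : Ω) ∈ L := IntermediateField.subset_adjoin K _ ⟨s, hs, rfl⟩
    have h2 : IsIntegral A (⟨(s : Ω), h1⟩ : L) := by
      have h3 : IsIntegral A (s : Ω) := s.2
      exact (isIntegral_algHom_iff (IsScalarTower.toAlgHom A L Ω) (algebraMap L Ω).injective).1 h3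
    exact ⟨⟨⟨(s : Ω), h1⟩, h2⟩, Subtype.ext rfl⟩
  choose! g hg using hlift
  let S' : Finset B' := S.image g
  let M' : Ideal B' := M.comap (jmap L)
  have hM' : M'.IsPrime := Ideal.comap_isPrime _ _
  have hle : Ideal.span (S' : Set B') ≤ M' := by
    rw [Ideal.span_le]
    intro b hb
    obtain ⟨s, hs, rfl⟩ := Finset.mem_image.1 hb
    show jmap L (g s) ∈ M
    rw [hg s hs]
    exact hS s hs
  obtain ⟨q, hq, hqM⟩ := Ideal.exists_minimalPrimes_le hle
  have hqp : q.IsPrime := hq.1.1
  have hheight : q.height ≤ S'.card := Ideal.height_le_card_of_mem_minimalPrimes_span_finset hq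
  have hcard : (S'.card : ℕ∞) ≤ S.card := by
    exact_mod_cast Finset.card_image_le
  -- lift to P
  have : M.LiesOver M' := ⟨rfl⟩
  obtain ⟨P, hPM, hPp, hPl⟩ := Ideal.exists_ideal_le_liesOver_of_le (R := B') (S := integralClosure A Ω)
    (p := q) (q := M') M hqM
  refine ⟨P, hPp, hPM, ?_, ?_⟩
  · intro s hs
    have h1 : g s ∈ q := by
      apply hq.1.2
      exact Ideal.subset_span (Finset.mem_image_of_mem g hs)
    rw [hPl.over] at h1
    have h2 : jmap L (g s) ∈ P := h1
    rw [hg s hs] at h2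
    exact h2
  · have hover : P.comap (algebraMap A (integralClosure A Ω)) = q.comap (algebraMap A B') := by
      rw [hPl.over]
      ext a
      show algebraMap A (integralClosure A Ω) a ∈ P ↔ algebraMap B' (integralClosure A Ω) (algebraMap A B' a) ∈ P
      rw [← IsScalarTower.algebraMap_apply]
    rw [hover]
    have hlies : q.LiesOver (q.comap (algebraMap A B')) := ⟨rfl⟩
    have hpr : (q.comap (algebraMap A B')).IsPrime := Ideal.comap_isPrime _ _
    have h3 := Ideal.height_eq_height_add_of_liesOver_of_hasGoingDown (R := A) (S := B') (q.comap (algebraMap A B')) q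
    calc (q.comap (algebraMap A B')).height ≤ q.height := by
          rw [h3]; exact le_self_add
      _ ≤ S'.card := hheight
      _ ≤ S.card := hcard

end heights

section poly

variable {n : ℕ}

theorem sub_mem_of (φ : MvPolynomial (Fin n) ℂ →ₐ[ℂ] MvPolynomial (Fin n) ℂ)
    (I : Ideal (MvPolynomial (Fin n) ℂ)) (h : ∀ i, MvPolynomial.X i - φ (MvPolynomial.X i) ∈ I)
    (f : MvPolynomial (Fin n) ℂ) : f - φ f ∈ I := by
  have h1 : (Ideal.Quotient.mkₐ ℂ I) = (Ideal.Quotient.mkₐ ℂ I).comp φ := by
    apply MvPolynomial.algHom_ext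
    intro i
    have := h i
    rw [← Ideal.Quotient.eq_zero_iff_mem, map_sub, sub_eq_zero] at this
    exact this
  have h2 := DFunLike.congr_fun h1 f
  rw [← Ideal.Quotient.eq_zero_iff_mem, map_sub, sub_eq_zero]
  exact h2

theorem ker_le_of (φ : MvPolynomial (Fin n) ℂ →ₐ[ℂ] MvPolynomial (Fin n) ℂ)
    (I : Ideal (MvPolynomial (Fin n) ℂ)) (h : ∀ i, MvPolynomial.X i - φ (MvPolynomial.X i) ∈ I) :
    RingHom.ker φ ≤ I := by
  intro f hf
  have := sub_mem_of φ I h f
  rw [RingHom.mem_ker] at hf
  rw [hf, sub_zero] at this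
  exact this

theorem le_height_of_series {R : Type} [CommRing R] (m : ℕ) (f : Fin (m + 1) → PrimeSpectrum R)
    (hf : StrictMono f) (P : Ideal R) [hP : P.IsPrime] (hle : (f (Fin.last m)).asIdeal ≤ P) :
    (m : ℕ∞) ≤ P.height := by
  rw [(⟨P, hP⟩ : PrimeSpectrum R).height_eq_orderHeight]
  have := Order.length_le_height (p := LTSeries.mk m f hf) (x := (⟨P, hP⟩ : PrimeSpectrum R)) hle
  exact this

/-- the substitution killing the first `j` variables -/
noncomputable def kill (n j : ℕ) : MvPolynomial (Fin n) ℂ →ₐ[ℂ] MvPolynomial (Fin n) ℂ :=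
  MvPolynomial.aeval (fun i => if (i : ℕ) < j then 0 else MvPolynomial.X i)

theorem kill_X (j : ℕ) (i : Fin n) : kill n j (MvPolynomial.X i) = if (i : ℕ) < j then 0 else MvPolynomial.X i := by
  unfold kill
  rw [MvPolynomial.aeval_X]

theorem height_max (P : Ideal (MvPolynomial (Fin n) ℂ)) [hP : P.IsPrime]
    (h : ∀ i, MvPolynomial.X i ∈ P) : (n : ℕ∞) ≤ P.height := by
  have hprime : ∀ j, (RingHom.ker (kill n j)).IsPrime := fun j => RingHom.ker_isPrime _
  apply le_height_of_series n (fun j => ⟨RingHom.ker (kill n j), hprime j⟩)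
  · rw [Fin.strictMono_iff_lt_succ]
    intro i
    rw [← PrimeSpectrum.asIdeal_lt_asIdeal]
    show RingHom.ker (kill n (i : ℕ)) < RingHom.ker (kill n ((i : ℕ) + 1))
    refine lt_of_le_of_ne ?_ ?_
    · apply ker_le_of
      intro k
      rw [kill_X]
      split_ifs with h1
      · rw [sub_zero, RingHom.mem_ker, kill_X, if_pos (by omega)]
      · simp
    · intro heq
      have h1 : MvPolynomial.X i ∈ RingHom.ker (kill n ((i : ℕ) + 1)) := by
        rw [RingHom.mem_ker, kill_X, if_pos (by omega)]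
      rw [← heq, RingHom.mem_ker, kill_X, if_neg (by omega)] at h1
      exact MvPolynomial.X_ne_zero i h1
  · apply ker_le_of
    intro i
    rw [kill_X]
    split_ifs with h1
    · simpa using h i
    · simp

/-- the substitution identifying two variables -/
noncomputable def merge (a b : Fin n) : MvPolynomial (Fin n) ℂ →ₐ[ℂ] MvPolynomial (Fin n) ℂ :=
  MvPolynomial.aeval (fun i => if i = a then MvPolynomial.X b else MvPolynomial.X i)

theorem merge_X (a b i : Fin n) : merge a b (MvPolynomial.X i) = if i = a then MvPolynomial.X b else MvPolynomial.X i := by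
  unfold merge
  rw [MvPolynomial.aeval_X]

theorem height_pair (P : Ideal (MvPolynomial (Fin n) ℂ)) [hP : P.IsPrime] (a b c d : Fin n)
    (hab : a ≠ b) (hcd : c ≠ d) (h1 : MvPolynomial.X a - MvPolynomial.X b ∈ P)
    (h2 : MvPolynomial.X c - MvPolynomial.X d ∈ P) (h3 : ¬ (c = a ∧ d = b)) (h4 : ¬ (c = b ∧ d = a)) :
    (2 : ℕ∞) ≤ P.height := by
  have hprime : (RingHom.ker (merge a b)).IsPrime := RingHom.ker_isPrime _
  have hbot : (⊥ : Ideal (MvPolynomial (Fin n) ℂ)).IsPrime := Ideal.isPrime_bot
  have e1 : (⊥ : Ideal (MvPolynomial (Fin n) ℂ)) < RingHom.ker (merge a b) := by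
    rw [bot_lt_iff_ne_bot, Submodule.ne_bot_iff]
    refine ⟨MvPolynomial.X a - MvPolynomial.X b, ?_, ?_⟩
    · rw [RingHom.mem_ker, map_sub, merge_X, merge_X, if_pos rfl]
      split_ifs <;> simp
    · intro h
      exact hab (MvPolynomial.X_injective (sub_eq_zero.1 h))
  have e2 : RingHom.ker (merge a b) < P := by
    refine lt_of_le_of_ne ?_ ?_
    · apply ker_le_of
      intro i
      rw [merge_X]
      split_ifs with h
      · rw [h]; exact h1
      · simp
    · intro heq
      rw [← heq, RingHom.mem_ker, map_sub, merge_X, merge_X, sub_eq_zero] at h2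
      split_ifs at h2 with h5 h6 h6
      · exact hcd (h5.trans h6.symm)
      · have := MvPolynomial.X_injective h2
        exact h3 ⟨h5, this.symm⟩
      · have := MvPolynomial.X_injective h2
        exact h4 ⟨this, h6⟩
      · exact hcd (MvPolynomial.X_injective h2)
  have := le_height_of_series 2 ![⟨⊥, hbot⟩, ⟨RingHom.ker (merge a b), hprime⟩, ⟨P, hP⟩] (by
    rw [Fin.strictMono_iff_lt_succ]
    intro i
    fin_cases i
    · exact e1
    · exact e2) P le_rfl
  exact this

end poly

section galois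

variable {A K Ω : Type} [CommRing A] [IsDomain A] [IsIntegrallyClosed A]
  [Field K] [Field Ω] [Algebra A K] [IsFractionRing A K] [Algebra K Ω] [Algebra A Ω]
  [IsScalarTower A K Ω] [CharZero K] [IsAlgClosed Ω] [Algebra.IsAlgebraic K Ω]

variable (K) in
include K in
/-- The Galois group is transitive on the primes over a prime. -/
theorem exists_gal (P Q : Ideal (integralClosure A Ω)) [P.IsPrime] [Q.IsPrime]
    (hPQ : P.comap (algebraMap A (integralClosure A Ω)) = Q.comap (algebraMap A (integralClosure A Ω))) :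
    ∃ τ : integralClosure A Ω ≃ₐ[A] integralClosure A Ω, ∀ b, τ b ∈ Q ↔ b ∈ P := by
  have hac : IsAlgClosure K Ω := ⟨inferInstance, inferInstance⟩
  have hgal : IsGalois K Ω := inferInstance
  have hcomm : SMulCommClass Gal(Ω/K) A Ω := by
    constructor
    intro g a x
    show g (a • x) = a • g x
    rw [← IsScalarTower.algebraMap_smul K a x, map_smul, IsScalarTower.algebraMap_smul]
  let τΩ : TopologicalSpace (integralClosure A Ω) := ⊥
  have hdisc : DiscreteTopology (integralClosure A Ω) := ⟨rfl⟩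
  have hcont : ContinuousSMul Gal(Ω/K) (integralClosure A Ω) := by
    rw [continuousSMul_iff_stabilizer_isOpen]
    intro x
    have h1 := stabilizer_isOpen_of_isIntegral (K := K) (L := Ω) (x : Ω)
    convert h1 using 1
    ext g
    simp only [SetLike.mem_coe, MulAction.mem_stabilizer_iff]
    rw [Subtype.ext_iff]
    rfl
  have hinv : Algebra.IsInvariant A (integralClosure A Ω) Gal(Ω/K) := by
    constructor
    intro b hb
    have h1 : (b : Ω) ∈ IntermediateField.fixedField (⊤ : Subgroup Gal(Ω/K)) := by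
      rintro ⟨g, -⟩
      have := congrArg (fun z : integralClosure A Ω => (z : Ω)) (hb g)
      exact this
    have h2 : IntermediateField.fixedField (⊤ : Subgroup Gal(Ω/K)) = ⊥ := by
      exact InfiniteGalois.fixedField_bot
    rw [h2, IntermediateField.mem_bot] at h1
    obtain ⟨k, hk⟩ := h1
    have h3 : IsIntegral A k := by
      have h4 : IsIntegral A (b : Ω) := b.2
      rw [← hk] at h4
      exact (isIntegral_algHom_iff (IsScalarTower.toAlgHom A K Ω) (algebraMap K Ω).injective).1 h4
    obtain ⟨a, rfl⟩ := IsIntegrallyClosed.algebraMap_eq_of_integral h3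
    refine ⟨a, Subtype.ext ?_⟩
    rw [← IsScalarTower.algebraMap_apply] at hk
    exact hk
  obtain ⟨g, hg⟩ := Algebra.IsInvariant.exists_smul_of_under_eq_of_profinite (A := A) (G := Gal(Ω/K)) P Q hPQ
  refine ⟨MulSemiringAction.toAlgEquiv A (integralClosure A Ω) g, ?_⟩
  intro b
  rw [hg]
  show g • b ∈ g • P ↔ b ∈ P
  exact Ideal.smul_mem_pointwise_smul_iff

end galois

section auto

variable {A Ω : Type} [CommRing A] [IsDomain A] [Field Ω] [Algebra A Ω] [FaithfulSMul A Ω]
  [Algebra.IsAlgebraic A Ω] [IsAlgClosed Ω]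

/-- automorphisms extend to the integral closure -/
theorem exists_extend (a : A ≃+* A) : ∃ s : integralClosure A Ω ≃+* integralClosure A Ω,
    ∀ x : A, s (algebraMap A _ x) = algebraMap A _ (a x) := by
  have hac : IsAlgClosure A Ω := ⟨inferInstance, inferInstance⟩
  let s := IsAlgClosure.equivOfEquiv Ω Ω a
  have hs : ∀ x, s (algebraMap A Ω x) = algebraMap A Ω (a x) := IsAlgClosure.equivOfEquiv_algebraMap Ω Ω a
  have hs' : ∀ x, s.symm (algebraMap A Ω x) = algebraMap A Ω (a.symm x) := IsAlgClosure.equivOfEquiv_symm_algebraMap Ω Ω a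
  have key : ∀ (t : Ω ≃+* Ω) (c : A ≃+* A), (∀ x, t (algebraMap A Ω x) = algebraMap A Ω (c x)) →
      ∀ x : Ω, IsIntegral A x → IsIntegral A (t x) := by
    intro t c htc x hx
    obtain ⟨p, hp, hpx⟩ := hx
    refine ⟨p.map (c : A →+* A), hp.map _, ?_⟩
    rw [eval₂_map]
    have h1 : (algebraMap A Ω).comp (c : A →+* A) = (t : Ω →+* Ω).comp (algebraMap A Ω) := by
      ext y
      exact (htc y).symm
    rw [h1]
    have := Polynomial.hom_eval₂ p (algebraMap A Ω) (t : Ω →+* Ω) x
    rw [hpx, map_zero] at this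
    exact this.symm
  refine ⟨{ toFun := fun x => ⟨s x, key s a hs x x.2⟩
            invFun := fun x => ⟨s.symm x, key s.symm a.symm hs' x x.2⟩
            left_inv := fun x => Subtype.ext (s.symm_apply_apply _)
            right_inv := fun x => Subtype.ext (s.apply_symm_apply _)
            map_mul' := fun x y => Subtype.ext (map_mul s _ _)
            map_add' := fun x y => Subtype.ext (map_add s _ _) }, ?_⟩
  intro x
  exact Subtype.ext (hs x)

end auto

section assemble

open Pool.Agent.Helper51.Lin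

theorem univPoly_coeff {n : ℕ} {S : Type} [CommRing S] [Nontrivial S] (p : S[X]) (hp : p.Monic)
    (hd : p.natDegree = n) : univPoly n (fun i : Fin n => p.coeff (n - 1 - (i : ℕ))) = p := by
  unfold univPoly
  conv_rhs => rw [hp.as_sum, hd, Finset.sum_range]
  congr 1
  rw [← Equiv.sum_comp Fin.revPerm]
  apply Finset.sum_congr rfl
  intro i _
  have : n - 1 - ((Fin.revPerm i : Fin n) : ℕ) = i := by
    rw [Fin.revPerm_apply, Fin.val_rev]
    omega
  simp only [this]

theorem natDegree_prod_lin {n : ℕ} {S : Type} [CommRing S] [Nontrivial S] (lam : Fin n → S) :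
    (∏ i, (X - C (lam i))).natDegree = n := by
  rw [Polynomial.natDegree_prod_of_monic _ _ (fun i _ => monic_X_sub_C _)]
  simp

variable {n : ℕ} {B : Type} [CommRing B] [Algebra ℂ B]

/-- the group of admissible automorphisms -/
def admG (ε : B →ₐ[ℂ] ℂ) (lam : Fin n → B) : Subgroup ((B ≃ₐ[ℂ] B) × Equiv.Perm (Fin n)) where
  carrier := {g | (∀ b, ε (g.1 b) = ε b) ∧ ∀ i, g.1 (lam i) = lam (g.2 i)}
  mul_mem' := by
    rintro g h ⟨g1, g2⟩ ⟨h1, h2⟩
    refine ⟨fun b => ?_, fun i => ?_⟩
    · show ε (g.1 (h.1 b)) = ε b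
      rw [g1, h1]
    · show g.1 (h.1 (lam i)) = lam (g.2 (h.2 i))
      rw [h2, g2]
  one_mem' := ⟨fun b => rfl, fun i => rfl⟩
  inv_mem' := by
    rintro g ⟨g1, g2⟩
    refine ⟨fun b => ?_, fun i => ?_⟩
    · show ε (g.1.symm b) = ε b
      rw [← g1 (g.1.symm b), AlgEquiv.apply_symm_apply]
    · show g.1.symm (lam i) = lam (g.2.symm i)
      rw [AlgEquiv.symm_apply_eq, g2, Equiv.apply_symm_apply]

end assemble

section main

open Pool.Agent.Helper51.Lin

variable (n : ℕ) {K Ω : Type} [Field K] [Algebra (MvPolynomial (Fin n) ℂ) K]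
  [IsFractionRing (MvPolynomial (Fin n) ℂ) K] [Field Ω] [Algebra K Ω]
  [Algebra (MvPolynomial (Fin n) ℂ) Ω] [IsScalarTower (MvPolynomial (Fin n) ℂ) K Ω] [CharZero K]
  [IsAlgClosed Ω] [Algebra.IsAlgebraic K Ω] [Algebra ℂ Ω] [IsScalarTower ℂ (MvPolynomial (Fin n) ℂ) Ω]

variable (K Ω) in
include K Ω in
theorem exists_localData_aux (hn : 1 ≤ n) :
    ∃ (B : Type) (_ : CommRing B) (_ : IsDomain B) (_ : Algebra ℂ B) (G : Type) (_ : Group G)
      (_ : MulSemiringAction G B) (_ : SMulCommClass G ℂ B)
      (ε : B →ₐ[ℂ] ℂ) (lam : Fin n → B) (ρ : G →* Equiv.Perm (Fin n)) (z : Fin n → B),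
      (∀ p : B[X], p.Monic → ∃ s : Multiset B, p = (s.map (fun a => X - C a)).prod) ∧
      (∀ (g : G) (b : B), ε (g • b) = ε b) ∧ Function.Injective lam ∧ Function.Surjective ρ ∧
      (∀ g i, g • lam i = lam (ρ g i)) ∧ (∀ i, ε (lam i) = 0) ∧
      (∀ (g : G) i, g • z i = z i) ∧
      (∀ k, k + 2 ≤ n → ∀ d : Fin k → B, ∃ P : Ideal B, P.IsPrime ∧ P ≤ RingHom.ker ε ∧
      (∀ j, d j - algebraMap ℂ B (ε (d j)) ∈ P) ∧ ∃ i i', lam i - lam i' ∉ P) ∧
      (∀ y y' : B, y ≠ y' → ε y = ε y' → ∃ Q : Ideal B, Q.IsPrime ∧ Q ≤ RingHom.ker ε ∧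
      y - y' ∈ Q ∧ ∃ a b : Fin n, ∀ i i', i ≠ i' → lam i - lam i' ∈ Q →
        (i = a ∧ i' = b) ∨ (i = b ∧ i' = a)) ∧
      univPoly n z = ∏ i, (X - C (lam i)) ∧
      (∀ b : B, b ≠ 0 → ∃ φ : B →ₐ[ℂ] ℂ, φ b ≠ 0) := by
  classical
  let A := MvPolynomial (Fin n) ℂ
  let B := integralClosure A Ω
  have hinj : Function.Injective (algebraMap A B) := by
    intro x y h
    have h1 : algebraMap A Ω x = algebraMap A Ω y := congrArg (fun z : B => (z : Ω)) h
    rw [IsScalarTower.algebraMap_apply A K Ω, IsScalarTower.algebraMap_apply A K Ω] at h1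
    exact IsFractionRing.injective A K ((algebraMap K Ω).injective h1)
  have hfaith : FaithfulSMul A Ω := by
    rw [faithfulSMul_iff_algebraMap_injective]
    intro x y h
    rw [IsScalarTower.algebraMap_apply A K Ω, IsScalarTower.algebraMap_apply A K Ω] at h
    exact IsFractionRing.injective A K ((algebraMap K Ω).injective h)
  have halg : Algebra.IsAlgebraic A Ω := (IsFractionRing.comap_isAlgebraic_iff (A := A) (K := K) (C := Ω)).2 inferInstance
  obtain ⟨ε, hε⟩ := exists_point (A := A) (B := B) hinj (MvPolynomial.aeval (fun _ => (0:ℂ)))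
  let lam : Fin n → B := fun i => algebraMap A B (MvPolynomial.X i)
  have hlam : Function.Injective lam := fun i j h => MvPolynomial.X_injective (hinj h)
  have hεlam : ∀ i, ε (lam i) = 0 := by
    intro i
    show ε (algebraMap A B (MvPolynomial.X i)) = 0
    rw [hε, MvPolynomial.aeval_X]
  have hkerp : (RingHom.ker ε).IsPrime := RingHom.ker_isPrime ε
  let z : Fin n → B := fun i => (∏ j, (X - C (lam j))).coeff (n - 1 - (i : ℕ))
  let G := admG ε lam
  let f : G →* (B ≃ₐ[ℂ] B) := (MonoidHom.fst _ _).comp G.subtype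
  let act : MulSemiringAction G B := MulSemiringAction.compHom B f
  have hact : ∀ (g : G) (b : B), g • b = g.1.1 b := fun g b => rfl
  have hcomm : SMulCommClass G ℂ B := ⟨fun g c b => map_smul g.1.1 c b⟩
  refine ⟨B, inferInstance, inferInstance, inferInstance, G, inferInstance, act, hcomm, ε, lam,
    (MonoidHom.snd _ _).comp G.subtype, z, splits_integralClosure, ?_, hlam, ?_, ?_, hεlam, ?_, ?_, ?_, ?_, ?_⟩
  · intro g b
    exact g.2.1 b
  · -- surjectivity
    intro π
    obtain ⟨s, hs⟩ := exists_extend (A := A) (Ω := Ω) (MvPolynomial.renameEquiv ℂ π).toRingEquiv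
    have hsC : ∀ c : ℂ, s (algebraMap ℂ B c) = algebraMap ℂ B c := by
      intro c
      rw [IsScalarTower.algebraMap_apply ℂ A B, hs]
      congr 1
      exact (MvPolynomial.renameEquiv ℂ π).commutes c
    let s' : B ≃ₐ[ℂ] B := { s with commutes' := hsC }
    have hker : (RingHom.ker (ε.comp (s' : B →ₐ[ℂ] B))).IsPrime := RingHom.ker_isPrime _
    have hcomap : (RingHom.ker ε).comap (algebraMap A B) =
        (RingHom.ker (ε.comp (s' : B →ₐ[ℂ] B))).comap (algebraMap A B) := by
      ext a
      show ε (algebraMap A B a) = 0 ↔ ε (s (algebraMap A B a)) = 0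
      rw [hs, hε, hε]
      have : (MvPolynomial.aeval (fun _ => (0:ℂ))) ((MvPolynomial.renameEquiv ℂ π) a) =
          (MvPolynomial.aeval (fun _ : Fin n => (0:ℂ))) a := by
        rw [MvPolynomial.renameEquiv_apply, MvPolynomial.aeval_rename]
        rfl
      rw [show (MvPolynomial.renameEquiv ℂ π).toRingEquiv a = (MvPolynomial.renameEquiv ℂ π) a from rfl, this]
    obtain ⟨τ, hτ⟩ := exists_gal (A := A) K (Ω := Ω) (RingHom.ker ε) (RingHom.ker (ε.comp (s' : B →ₐ[ℂ] B))) hcomap
    let σ : B ≃ₐ[ℂ] B := (τ.restrictScalars ℂ).trans s'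
    have hσker : ∀ b, ε (σ b) = 0 ↔ ε b = 0 := fun b => hτ b
    have hσε : ∀ b, ε (σ b) = ε b := by
      intro b
      have h1 : ε (b - algebraMap ℂ B (ε b)) = 0 := by
        rw [map_sub, AlgHom.commutes]
        simp
      have h2 := (hσker _).2 h1
      rw [map_sub, AlgEquiv.commutes, map_sub, AlgHom.commutes, sub_eq_zero] at h2
      simpa using h2
    have hσlam : ∀ i, σ (lam i) = lam (π i) := by
      intro i
      show s (τ (algebraMap A B (MvPolynomial.X i))) = algebraMap A B (MvPolynomial.X (π i))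
      rw [AlgEquiv.commutes, hs]
      congr 1
      show MvPolynomial.rename π (MvPolynomial.X i) = _
      rw [MvPolynomial.rename_X]
    exact ⟨⟨(σ, π), hσε, hσlam⟩, rfl⟩
  · intro g i
    exact g.2.2 i
  · -- invariance of the coefficients
    intro g i
    rw [hact]
    have h1 : (∏ j, (X - C (lam j))).map (g.1.1 : B →+* B) = ∏ j, (X - C (lam j)) := by
      rw [Polynomial.map_prod]
      rw [← Equiv.prod_comp g.1.2 (fun j => X - C (lam j))]
      apply Finset.prod_congr rfl
      intro j _
      rw [Polynomial.map_sub, Polynomial.map_X, Polynomial.map_C]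
      congr 2
      exact g.2.2 j
    have h2 := congrArg (fun p : B[X] => p.coeff (n - 1 - (i : ℕ))) h1
    simp only [Polynomial.coeff_map] at h2
    exact h2
  · -- K1
    intro k hk d
    let S : Finset B := insert (lam ⟨0, hn⟩) (Finset.univ.image (fun j => d j - algebraMap ℂ B (ε (d j))))
    have hcard : S.card ≤ k + 1 := by
      refine (Finset.card_insert_le _ _).trans ?_
      have := Finset.card_image_le (s := (Finset.univ : Finset (Fin k))) (f := fun j => d j - algebraMap ℂ B (ε (d j)))
      rw [Finset.card_univ, Fintype.card_fin] at this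
      omega
    obtain ⟨P, hP, hPM, hSP, hht⟩ := height_lemma (A := A) K (Ω := Ω) (RingHom.ker ε) S (by
      intro s hs
      rw [Finset.mem_insert, Finset.mem_image] at hs
      rw [RingHom.mem_ker]
      rcases hs with rfl | ⟨j, _, rfl⟩
      · exact hεlam _
      · rw [map_sub, AlgHom.commutes]
        simp)
    refine ⟨P, hP, hPM, fun j => hSP _ (Finset.mem_insert_of_mem (Finset.mem_image_of_mem _ (Finset.mem_univ j))), ?_⟩
    by_contra hcon
    push Not at hcon
    have h0 : lam ⟨0, hn⟩ ∈ P := hSP _ (Finset.mem_insert_self _ _)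
    have hall : ∀ i, lam i ∈ P := by
      intro i
      have := P.add_mem (hcon i ⟨0, hn⟩) h0
      simpa using this
    have hpr : (P.comap (algebraMap A B)).IsPrime := Ideal.comap_isPrime _ _
    have h1 := height_max (P.comap (algebraMap A B)) (fun i => hall i)
    have h2 := h1.trans hht
    have h3 : n ≤ S.card := by exact_mod_cast h2
    omega
  · -- K2
    intro y y' hyy hεy
    obtain ⟨Q, hQ, hQM, hSQ, hht⟩ := height_lemma (A := A) K (Ω := Ω) (RingHom.ker ε) {y - y'} (by
      intro s hs
      rw [Finset.mem_singleton] at hs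
      rw [hs, RingHom.mem_ker, map_sub, hεy, sub_self])
    refine ⟨Q, hQ, hQM, hSQ _ (Finset.mem_singleton_self _), ?_⟩
    have hpr : (Q.comap (algebraMap A B)).IsPrime := Ideal.comap_isPrime _ _
    by_cases hex : ∃ a b : Fin n, a ≠ b ∧ lam a - lam b ∈ Q
    · obtain ⟨a, b, hab, habQ⟩ := hex
      refine ⟨a, b, ?_⟩
      intro i i' hii hiQ
      by_contra hcon
      push Not at hcon
      have h1 := height_pair (Q.comap (algebraMap A B)) a b i i' hab hii (by
          show algebraMap A B _ ∈ Q
          rw [map_sub]; exact habQ) (by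
          show algebraMap A B _ ∈ Q
          rw [map_sub]; exact hiQ) (fun h => hcon.1 h.1 h.2) (fun h => hcon.2 h.1 h.2)
      have h2 := h1.trans hht
      rw [Finset.card_singleton] at h2
      norm_num at h2
    · push Not at hex
      refine ⟨⟨0, hn⟩, ⟨0, hn⟩, fun i i' hii hiQ => absurd hiQ (hex i i' hii)⟩
  · -- the polynomial
    exact univPoly_coeff _ (monic_prod_of_monic _ _ (fun i _ => monic_X_sub_C _)) (natDegree_prod_lin lam)
  · intro b hb
    refine exists_point_ne hinj ?_ b hb
    intro a ha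
    by_contra hcon
    push Not at hcon
    apply ha
    apply MvPolynomial.funext
    intro x
    have := hcon (MvPolynomial.aeval x)
    rw [map_zero, ← MvPolynomial.coe_aeval_eq_eval]
    exact this

end main

section final

open Pool.Agent.Helper51.Lin

theorem exists_localData (n : ℕ) (hn : 1 ≤ n) :
    ∃ (B : Type) (_ : CommRing B) (_ : IsDomain B) (_ : Algebra ℂ B) (G : Type) (_ : Group G)
      (_ : MulSemiringAction G B) (_ : SMulCommClass G ℂ B)
      (ε : B →ₐ[ℂ] ℂ) (lam : Fin n → B) (ρ : G →* Equiv.Perm (Fin n)) (z : Fin n → B),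
      (∀ p : B[X], p.Monic → ∃ s : Multiset B, p = (s.map (fun a => X - C a)).prod) ∧
      (∀ (g : G) (b : B), ε (g • b) = ε b) ∧ Function.Injective lam ∧ Function.Surjective ρ ∧
      (∀ g i, g • lam i = lam (ρ g i)) ∧ (∀ i, ε (lam i) = 0) ∧
      (∀ (g : G) i, g • z i = z i) ∧
      (∀ k, k + 2 ≤ n → ∀ d : Fin k → B, ∃ P : Ideal B, P.IsPrime ∧ P ≤ RingHom.ker ε ∧
      (∀ j, d j - algebraMap ℂ B (ε (d j)) ∈ P) ∧ ∃ i i', lam i - lam i' ∉ P) ∧
      (∀ y y' : B, y ≠ y' → ε y = ε y' → ∃ Q : Ideal B, Q.IsPrime ∧ Q ≤ RingHom.ker ε ∧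
      y - y' ∈ Q ∧ ∃ a b : Fin n, ∀ i i', i ≠ i' → lam i - lam i' ∈ Q →
        (i = a ∧ i' = b) ∨ (i = b ∧ i' = a)) ∧
      univPoly n z = ∏ i, (X - C (lam i)) ∧
      (∀ b : B, b ≠ 0 → ∃ φ : B →ₐ[ℂ] ℂ, φ b ≠ 0) :=
  exists_localData_aux n (FractionRing (MvPolynomial (Fin n) ℂ))
    (AlgebraicClosure (FractionRing (MvPolynomial (Fin n) ℂ))) hn

theorem map_univPoly {n : ℕ} {S T : Type} [CommRing S] [CommRing T] (φ : S →+* T) (z : Fin n → S) :
    (univPoly n z).map φ = univPoly n (fun i => φ (z i)) := by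
  unfold univPoly
  rw [Polynomial.map_add, Polynomial.map_pow, Polynomial.map_X, Polynomial.map_sum]
  congr 1
  apply Finset.sum_congr rfl
  intro i _
  rw [Polynomial.map_mul, Polynomial.map_C, Polynomial.map_pow, Polynomial.map_X]

theorem vals_map {n : ℕ} (t : CTree n) {B : Type} [CommRing B] [Algebra ℂ B] (φ : B →ₐ[ℂ] ℂ)
    (z : Fin n → B) (f : B) (hf : f ∈ t.vals z) : φ f ∈ t.vals (fun i => φ (z i)) := by
  induction t generalizing f with
  | coord i =>
    simp only [CTree.vals, Set.mem_singleton_iff] at hf ⊢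
    rw [hf]
  | node k Φ hΦ hd h D ih =>
    simp only [CTree.vals, Set.mem_ofPred_eq] at hf ⊢
    obtain ⟨g, hg, hroot⟩ := hf
    refine ⟨fun j => φ (g j), fun j => ih j _ (hg j), ?_⟩
    have h1 : (MvPolynomial.aeval (fun j => φ (g j)) : MvPolynomial (Fin k) ℂ →ₐ[ℂ] ℂ) =
        φ.comp (MvPolynomial.aeval g) := by
      apply MvPolynomial.algHom_ext
      intro i
      simp
    rw [h1]
    rw [Polynomial.IsRoot.def, Polynomial.eval_map] at hroot ⊢
    have h2 := Polynomial.hom_eval₂ Φ (MvPolynomial.aeval g : MvPolynomial (Fin k) ℂ →ₐ[ℂ] B).toRingHom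
      (φ : B →+* ℂ) f
    rw [hroot, map_zero] at h2
    exact h2.symm

theorem vals_subset_range_of_forall {n : ℕ} (t : CTree n)
    {B : Type} [CommRing B] [IsDomain B] [Algebra ℂ B]
    (hpt : ∀ b : B, b ≠ 0 → ∃ φ : B →ₐ[ℂ] ℂ, φ b ≠ 0)
    (lam : Fin n → B) (z : Fin n → B) (hlz : univPoly n z = ∏ i, (X - C (lam i)))
    (ht : ∀ z : Fin n → ℂ, ∀ w ∈ t.vals z, (univPoly n z).IsRoot w) :
    t.vals z ⊆ Set.range lam := by
  intro f hf
  by_contra hcon
  have h1 : ∏ i, (f - lam i) ≠ 0 := by
    rw [Finset.prod_ne_zero_iff]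
    intro i _ h
    exact hcon ⟨i, (sub_eq_zero.1 h).symm⟩
  obtain ⟨φ, hφ⟩ := hpt _ h1
  apply hφ
  have h2 := ht _ _ (vals_map t φ z f hf)
  have h3 := map_univPoly (φ : B →+* ℂ) z
  rw [hlz, Polynomial.map_prod] at h3
  change _ = univPoly n (fun i => φ (z i)) at h3
  rw [← h3, Polynomial.IsRoot.def, Polynomial.eval_prod] at h2
  rw [map_prod, ← h2]
  apply Finset.prod_congr rfl
  intro i _
  simp

end final

end Pool.Agent.Helper43.LinB2
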