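import Pool.Agent.Helper57.NS.Base

/-!
Module NS-LOWER of `MP_8fc134_al`: the semigroup attached to a tile, and a lower bound for the
size of its presentations.
-/

namespace NS57

open Finsupp

/-! ### the lower bound lemma for presentations -/

theorem phi_add' (S : AddSubmonoid ℕ) (a b : minGens S →₀ ℕ) :
    phi S (a + b) = phi S a + phi S b := by
  unfold phi
  exact Finsupp.sum_add_index' (fun _ => by simp) (fun _ _ _ => by ring)

theorem phi_single' (S : AddSubmonoid ℕ) (x : minGens S) (k : ℕ) :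
    phi S (single x k) = k * (x : ℕ) := by
  unfold phi
  exact Finsupp.sum_single_index (by simp)

theorem presents_card_le (S : AddSubmonoid ℕ) (P : Finset (minGens S →₀ ℕ))
    (h1 : ∀ p ∈ P, ∃ w, w ∉ P ∧ phi S w = phi S p)
    (h2 : ∀ a u, a + u ∈ P → u ≠ 0 → ∀ b, phi S a = phi S b → a = b)
    (R : Finset ((minGens S →₀ ℕ) × (minGens S →₀ ℕ))) (hR : Presents S R) :
    P.card ≤ R.card := by
  classical
  let F : (minGens S →₀ ℕ) → (P → ℚ) := fun w =>
    if h : w ∈ P then Pi.single (⟨w, h⟩ : P) (1 : ℚ) else 0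
  let T : Finset (P → ℚ) := R.image fun p => F p.1 - F p.2
  let L : Submodule ℚ (P → ℚ) := Submodule.span ℚ (T : Set (P → ℚ))
  have hF0 : ∀ w, w ∉ P → F w = 0 := fun w hw => by simp [F, hw]
  let r : (minGens S →₀ ℕ) → (minGens S →₀ ℕ) → Prop := fun a b =>
    phi S a = phi S b ∧ F a - F b ∈ L
  have hrefl : ∀ a, r a a := fun a => ⟨rfl, by simp⟩
  have hsymm : ∀ {a b}, r a b → r b a := fun {a b} h =>
    ⟨h.1.symm, by have := L.neg_mem h.2; rwa [neg_sub] at this⟩
  have htrans : ∀ {a b c}, r a b → r b c → r a c := fun {a b c} h h' =>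
    ⟨h.1.trans h'.1, by have := L.add_mem h.2 h'.2; rwa [sub_add_sub_cancel] at this⟩
  have hadd1 : ∀ {a b} (u), r a b → r (a + u) (b + u) := by
    intro a b u h
    by_cases hab : a = b
    · subst hab; exact hrefl _
    by_cases hu : u = 0
    · subst hu; simpa using h
    refine ⟨by rw [phi_add', phi_add', h.1], ?_⟩
    have h3 : a + u ∉ P := fun hp => hab (h2 a u hp hu b h.1)
    have h4 : b + u ∉ P := fun hp => hab (h2 b u hp hu a h.1.symm).symm
    rw [hF0 _ h3, hF0 _ h4, sub_zero]
    exact L.zero_mem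
  let C : AddCon (minGens S →₀ ℕ) :=
    { r := r
      iseqv := ⟨hrefl, hsymm, htrans⟩
      add' := by
        intro a b c d hab hcd
        refine htrans (hadd1 c hab) ?_
        rw [add_comm b c, add_comm b d]
        exact hadd1 b hcd }
  have hle : addConGen (fun x y => (x, y) ∈ R) ≤ C := by
    rw [AddCon.addConGen_le]
    intro x y hxy
    refine ⟨(hR x y).1 (AddConGen.Rel.of x y hxy), ?_⟩
    apply Submodule.subset_span
    simp only [T, Finset.coe_image, Set.mem_image, Finset.mem_coe]
    exact ⟨(x, y), hxy, rfl⟩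
  have htop : L = ⊤ := by
    rw [eq_top_iff]
    have hsp : Submodule.span ℚ (Set.range fun p : P => (Pi.single p (1 : ℚ) : P → ℚ)) = ⊤ := by
      have := (Pi.basisFun ℚ P).span_eq
      convert this using 3
      ext1 p
      simp
    rw [← hsp, Submodule.span_le]
    rintro _ ⟨p, rfl⟩
    obtain ⟨w, hw, hwp⟩ := h1 p.1 p.2
    have h5 : r p.1 w := hle ((hR p.1 w).2 hwp.symm)
    have h6 := h5.2
    rw [hF0 w hw, sub_zero] at h6
    simpa [F] using h6
  have h7 : Module.finrank ℚ L ≤ T.card := finrank_span_finset_le_card T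
  rw [htop, finrank_top, Module.finrank_fintype_fun_eq_card, Fintype.card_coe] at h7
  exact h7.trans Finset.card_image_le

/-! ### the semigroup attached to a tile -/

section Tile

variable {e m : ℕ}

theorem cast_sum (g : Fin e → ℕ) (M : Multiset (Fin e)) :
    (M.map fun i => (g i : ZMod m)).sum = ((M.map g).sum : ZMod m) := by
  induction M using Multiset.induction_on with
  | empty => simp
  | cons a s ih =>
    rw [Multiset.map_cons, Multiset.sum_cons, Multiset.map_cons, Multiset.sum_cons, ih,
      Nat.cast_add]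

theorem uniq_fact (hm : 1 ≤ m) (g : Fin e → ℕ)
    (B : Finset (Multiset (Fin e))) (hB : Tile e m B (fun i => (g i : ZMod m)))
    (hmin : ∀ M, M ∉ B → ∃ β ∈ B, ((β.map g).sum : ZMod m) = ((M.map g).sum : ZMod m) ∧
      (β.map g).sum < (M.map g).sum) {β N : Multiset (Fin e)} (hβ : β ∈ B) {a : ℕ}
    (h : a * m + (N.map g).sum = (β.map g).sum) : a = 0 ∧ N = β := by
  have hc : ((N.map g).sum : ZMod m) = ((β.map g).sum : ZMod m) := by
    rw [← h]; simp
  by_cases hN : N ∈ B
  · have hN' : N = β := hB.inj N hN β hβ (by rw [cast_sum, cast_sum, hc])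
    subst hN'
    refine ⟨?_, rfl⟩
    have h0 : a * m = 0 := by omega
    rcases Nat.mul_eq_zero.1 h0 with h0 | h0
    · exact h0
    · omega
  · obtain ⟨β', hβ', h1, h2⟩ := hmin N hN
    have hN' : β' = β := hB.inj β' hβ' β hβ (by rw [cast_sum, cast_sum, h1, hc])
    subst hN'
    exfalso
    have : 0 ≤ a * m := Nat.zero_le _
    omega

/-- the semigroup generated by `m` and the `g i` -/
def tileSemi (m : ℕ) (g : Fin e → ℕ) : AddSubmonoid ℕ where
  carrier := {x | ∃ a : ℕ, ∃ M : Multiset (Fin e), x = a * m + (M.map g).sum}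
  zero_mem' := ⟨0, 0, by simp⟩
  add_mem' := by
    rintro x y ⟨a, M, rfl⟩ ⟨b, N, rfl⟩
    exact ⟨a + b, M + N, by simp; ring⟩

theorem mem_tileSemi {g : Fin e → ℕ} {x : ℕ} :
    x ∈ tileSemi m g ↔ ∃ a : ℕ, ∃ M : Multiset (Fin e), x = a * m + (M.map g).sum := Iff.rfl

theorem m_mem (g : Fin e → ℕ) : m ∈ tileSemi m g :=
  ⟨1, 0, by rw [one_mul, Multiset.map_zero, Multiset.sum_zero, add_zero]⟩

theorem g_mem (g : Fin e → ℕ) (i : Fin e) : g i ∈ tileSemi m g := ⟨0, {i}, by simp⟩

theorem v_mem (g : Fin e → ℕ) (M : Multiset (Fin e)) : (M.map g).sum ∈ tileSemi m g :=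
  ⟨0, M, by simp⟩

theorem lt_sum {g : Fin e → ℕ} (hg : ∀ i, m < g i) {M : Multiset (Fin e)} (hM : M ≠ 0) :
    m < (M.map g).sum := by
  obtain ⟨i, hi⟩ := Multiset.exists_mem_of_ne_zero hM
  obtain ⟨N, rfl⟩ := Multiset.exists_cons_of_mem hi
  rw [Multiset.map_cons, Multiset.sum_cons]
  have := hg i
  omega

theorem le_of_mem {g : Fin e → ℕ} (hg : ∀ i, m < g i) {x : ℕ} (hx : x ∈ tileSemi m g)
    (hx0 : x ≠ 0) : m ≤ x := by
  obtain ⟨a, M, rfl⟩ := hx
  by_cases hM : M = 0
  · subst hM
    rcases Nat.eq_zero_or_pos a with h | h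
    · subst h; simp at hx0
    · have : 1 * m ≤ a * m := Nat.mul_le_mul_right m h
      omega
  · have := lt_sum hg hM
    omega

theorem minGens_tileSemi (hm : 1 ≤ m) (g : Fin e → ℕ) (hg : ∀ i, m < g i)
    (B : Finset (Multiset (Fin e))) (hB : Tile e m B (fun i => (g i : ZMod m)))
    (hmin : ∀ M, M ∉ B → ∃ β ∈ B, ((β.map g).sum : ZMod m) = ((M.map g).sum : ZMod m) ∧
      (β.map g).sum < (M.map g).sum) :
    minGens (tileSemi m g) = insert m (Set.range g) := by
  ext x
  constructor
  · rintro ⟨hx, hx0, hx1⟩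
    obtain ⟨a, M, rfl⟩ := hx
    rcases Nat.eq_zero_or_pos a with h | h
    · subst h
      right
      have hM : M ≠ 0 := by rintro rfl; simp at hx0
      obtain ⟨i, hi⟩ := Multiset.exists_mem_of_ne_zero hM
      obtain ⟨N, rfl⟩ := Multiset.exists_cons_of_mem hi
      rcases hx1 (g i) (g_mem g i) ((N.map g).sum) (v_mem g N) (by simp) with h | h
      · have := hg i; omega
      · exact ⟨i, by simp [h]⟩
    · left
      obtain ⟨a, rfl⟩ : ∃ b, a = b + 1 := ⟨a - 1, by omega⟩
      rcases hx1 m (m_mem g) (a * m + (M.map g).sum) ⟨a, M, rfl⟩ (by ring) with h | h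
      · omega
      · rw [Nat.add_mul, one_mul]; omega
  · rintro (rfl | ⟨i, rfl⟩)
    · refine ⟨m_mem g, by omega, fun a ha b hb hab => ?_⟩
      by_contra hcon
      push Not at hcon
      have h1 := le_of_mem hg ha hcon.1
      have h2 := le_of_mem hg hb hcon.2
      omega
    · refine ⟨g_mem g i, by have := hg i; omega, ?_⟩
      rintro _ ⟨a, M, rfl⟩ _ ⟨b, N, rfl⟩ hab
      have h1 : (a + b) * m + ((M + N).map g).sum = (({i} : Multiset (Fin e)).map g).sum := by
        rw [Multiset.map_add, Multiset.sum_add, Multiset.map_singleton, Multiset.sum_singleton,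
          ← hab]
        ring
      obtain ⟨h2, h3⟩ := uniq_fact hm g B hB hmin (hB.one i) h1
      have ha : a = 0 := by omega
      have hb : b = 0 := by omega
      have h4 : M.card + N.card = 1 := by
        rw [← Multiset.card_add, h3]; simp
      rcases Nat.eq_zero_or_pos M.card with h5 | h5
      · left
        rw [Multiset.card_eq_zero] at h5
        simp [ha, h5]
      · right
        have h6 : N.card = 0 := by omega
        rw [Multiset.card_eq_zero] at h6
        simp [hb, h6]

theorem g_inj (hm : 1 ≤ m) (g : Fin e → ℕ)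
    (B : Finset (Multiset (Fin e))) (hB : Tile e m B (fun i => (g i : ZMod m)))
    (hmin : ∀ M, M ∉ B → ∃ β ∈ B, ((β.map g).sum : ZMod m) = ((M.map g).sum : ZMod m) ∧
      (β.map g).sum < (M.map g).sum) : Function.Injective g := by
  intro i j hij
  have h1 : 0 * m + (({i} : Multiset (Fin e)).map g).sum =
      (({j} : Multiset (Fin e)).map g).sum := by
    simp [hij]
  have h2 := (uniq_fact hm g B hB hmin (hB.one j) h1).2
  simpa using h2

theorem cofinite_tileSemi (hm : 1 ≤ m) (g : Fin e → ℕ)
    (B : Finset (Multiset (Fin e))) (hB : Tile e m B (fun i => (g i : ZMod m))) :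
    ((tileSemi m g : AddSubmonoid ℕ) : Set ℕ)ᶜ.Finite := by
  classical
  have : NeZero m := ⟨by omega⟩
  let f : B → ZMod m := fun β => ((β.1.map g).sum : ZMod m)
  have hf : Function.Injective f := by
    intro β γ h
    apply Subtype.ext
    exact hB.inj β.1 β.2 γ.1 γ.2 (by rw [cast_sum, cast_sum]; exact h)
  have hbij : Function.Bijective f := by
    rw [Fintype.bijective_iff_injective_and_card]
    exact ⟨hf, by simp [hB.card, ZMod.card]⟩
  refine (Set.finite_Iio (B.sup fun β => (β.map g).sum)).subset ?_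
  intro x hx
  simp only [Set.mem_Iio]
  by_contra hlt
  push Not at hlt
  apply hx
  obtain ⟨β, hβ⟩ := hbij.2 (x : ZMod m)
  have h1 : (β.1.map g).sum ≤ x :=
    (Finset.le_sup (f := fun β : Multiset (Fin e) => (β.map g).sum) β.2).trans hlt
  have h2 : (β.1.map g).sum ≡ x [MOD m] := by
    rw [← ZMod.natCast_eq_natCast_iff]
    exact hβ
  have h3 : m ∣ x - (β.1.map g).sum := (Nat.modEq_iff_dvd' h1).1 h2
  obtain ⟨k, hk⟩ := h3
  exact ⟨k, β.1, by rw [mul_comm k m, ← hk]; omega⟩

theorem lower (hm : 1 ≤ m) (g : Fin e → ℕ) (hg : ∀ i, m < g i)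
    (B : Finset (Multiset (Fin e))) (hB : Tile e m B (fun i => (g i : ZMod m)))
    (hmin : ∀ M, M ∉ B → ∃ β ∈ B, ((β.map g).sum : ZMod m) = ((M.map g).sum : ZMod m) ∧
      (β.map g).sum < (M.map g).sum) :
    ∃ S : AddSubmonoid ℕ, (S : Set ℕ)ᶜ.Finite ∧ (minGens S).ncard = e + 1 ∧
      IsLeast {x | x ∈ S ∧ x ≠ 0} m ∧ ∀ R, Presents S R → (minNon B).card ≤ R.card := by
  classical
  have hgens := minGens_tileSemi hm g hg B hB hmin
  have hinj := g_inj hm g B hB hmin
  refine ⟨tileSemi m g, cofinite_tileSemi hm g B hB, ?_, ?_, ?_⟩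
  · rw [hgens, Set.ncard_insert_of_notMem, ← Set.image_univ, Set.ncard_image_of_injective _ hinj,
      Set.ncard_univ, Nat.card_eq_fintype_card, Fintype.card_fin]
    rintro ⟨i, hi⟩
    have := hg i
    omega
  · refine ⟨⟨m_mem g, by omega⟩, ?_⟩
    rintro x ⟨hx, hx0⟩
    exact le_of_mem hg hx hx0
  · set S := tileSemi m g with hS
    intro R hR
    let c : minGens S := ⟨m, by rw [hgens]; exact Set.mem_insert _ _⟩
    let σ : Fin e → minGens S := fun i => ⟨g i, by rw [hgens]; exact Or.inr ⟨i, rfl⟩⟩
    have hσinj : Function.Injective σ := fun i j h => hinj (congrArg Subtype.val h)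
    have hσc : ∀ i, σ i ≠ c := fun i h => by
      have h1 : g i = m := congrArg Subtype.val h
      have := hg i
      omega
    have hcases : ∀ x : minGens S, x = c ∨ ∃ i, x = σ i := by
      rintro ⟨x, hx⟩
      have hx' := hx
      rw [hgens] at hx'
      rcases hx' with h | ⟨i, h⟩
      · left; exact Subtype.ext h
      · right; exact ⟨i, Subtype.ext h.symm⟩
    let X : Multiset (Fin e) →+ (minGens S →₀ ℕ) :=
      (Finsupp.mapDomain.addMonoidHom σ).comp Multiset.toFinsupp.toAddMonoidHom
    have hXapp : ∀ M, X M = Finsupp.mapDomain σ (Multiset.toFinsupp M) := fun M => rfl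
    have hXinj : Function.Injective X := by
      intro M N h
      rw [hXapp, hXapp] at h
      exact Multiset.toFinsupp.injective (Finsupp.mapDomain_injective hσinj h)
    have hXc : ∀ M, X M c = 0 := by
      intro M
      rw [hXapp]
      apply Finsupp.mapDomain_of_notMem_range
      rintro ⟨i, hi⟩
      exact hσc i hi
    have hphiX : ∀ M, phi S (X M) = (M.map g).sum := by
      intro M
      induction M using Multiset.induction_on with
      | empty => simp [phi]
      | cons i M ih =>
        rw [← Multiset.singleton_add, map_add, phi_add', ih, Multiset.map_add, Multiset.sum_add,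
          Multiset.map_singleton, Multiset.sum_singleton, hXapp, Multiset.toFinsupp_singleton,
          Finsupp.mapDomain_single, phi_single', one_mul]
    have hdec : ∀ w : minGens S →₀ ℕ, ∃ k : ℕ, ∃ N : Multiset (Fin e),
        w = single c k + X N := by
      intro w
      refine ⟨w c, Finsupp.toMultiset (Finsupp.comapDomain σ w hσinj.injOn), ?_⟩
      rw [hXapp, Finsupp.toMultiset_toFinsupp]
      ext x
      rcases hcases x with rfl | ⟨i, rfl⟩
      · rw [Finsupp.add_apply, Finsupp.single_eq_same, Finsupp.mapDomain_of_notMem_range]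
        · simp
        · rintro ⟨i, hi⟩
          exact hσc i hi
      · rw [Finsupp.add_apply, Finsupp.single_eq_of_ne (hσc i), Finsupp.mapDomain_apply hσinj,
          Finsupp.comapDomain_apply, zero_add]
    have huniq : ∀ (k k' : ℕ) (N N' : Multiset (Fin e)),
        single c k + X N = single c k' + X N' → k = k' ∧ N = N' := by
      intro k k' N N' h
      have h1 := DFunLike.congr_fun h c
      simp only [Finsupp.add_apply, hXc, Finsupp.single_eq_same, add_zero] at h1
      subst h1
      exact ⟨rfl, hXinj (add_left_cancel h)⟩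
    have hminNon : ∀ M ∈ minNon B, M ∉ B ∧ ∀ x ∈ M, M.erase x ∈ B := by
      intro M hM
      unfold minNon at hM
      exact (Finset.mem_filter.1 hM).2
    have key := presents_card_le S ((minNon B).image X) ?_ ?_ R hR
    · rwa [Finset.card_image_of_injective _ hXinj] at key
    · -- (i)
      intro p hp
      obtain ⟨M, hM, rfl⟩ := Finset.mem_image.1 hp
      obtain ⟨hMB, hMe⟩ := hminNon M hM
      obtain ⟨β, hβ, h1, h2⟩ := hmin M hMB
      have h3 : (β.map g).sum ≡ (M.map g).sum [MOD m] := by
        rw [← ZMod.natCast_eq_natCast_iff]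
        exact h1
      obtain ⟨k, hk⟩ := (Nat.modEq_iff_dvd' h2.le).1 h3
      have hk1 : k ≠ 0 := by
        rintro rfl
        rw [mul_zero] at hk
        omega
      refine ⟨single c k + X β, ?_, ?_⟩
      · intro hmem
        obtain ⟨N, hN, h4⟩ := Finset.mem_image.1 hmem
        have h5 := huniq 0 k N β (by rw [Finsupp.single_zero, zero_add]; exact h4)
        exact hk1 h5.1.symm
      · rw [phi_add', phi_single', hphiX, hphiX]
        change k * m + (β.map g).sum = (M.map g).sum
        rw [mul_comm k m, ← hk]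
        omega
    · -- (ii)
      intro a u hau hu b hab
      obtain ⟨M, hM, h1⟩ := Finset.mem_image.1 hau
      obtain ⟨hMB, hMe⟩ := hminNon M hM
      obtain ⟨k, N, rfl⟩ := hdec a
      obtain ⟨k', N', rfl⟩ := hdec u
      obtain ⟨l, K, rfl⟩ := hdec b
      have h2 : single c 0 + X M = single c (k + k') + X (N + N') := by
        rw [Finsupp.single_zero, zero_add, h1, Finsupp.single_add, map_add]
        abel
      obtain ⟨h3, h4⟩ := huniq _ _ _ _ h2
      have hk : k = 0 := by omega
      have hk' : k' = 0 := by omega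
      subst hk hk'
      have hN' : N' ≠ 0 := by
        rintro rfl
        apply hu
        simp
      obtain ⟨x, hx⟩ := Multiset.exists_mem_of_ne_zero hN'
      have hxM : x ∈ M := by rw [h4]; exact Multiset.mem_add.2 (Or.inr hx)
      have hNle : N ≤ M.erase x := by
        rw [h4, Multiset.erase_add_right_pos _ hx]
        exact Multiset.le_add_right _ _
      have hNB : N ∈ B := hB.down _ (hMe x hxM) _ hNle
      rw [phi_add', phi_add', phi_single', phi_single', hphiX, hphiX, zero_mul, zero_add] at hab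
      obtain ⟨h5, h6⟩ := uniq_fact hm g B hB hmin hNB (a := l) (N := K) hab.symm
      rw [h5, h6]

end Tile

end NS57
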