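import Mathlib

set_option autoImplicit false

open Set
open scoped ContDiff

namespace Pool.Agent.Helper43.Roll

/-- Points and tangent vectors of a manifold covered by one global chart with values `ℝ^m`. -/
abbrev E (m : ℕ) := EuclideanSpace ℝ (Fin m)

/-- A field of scalar products on `ℝ^m`: `G x v w` is the product of the tangent vectors `v`, `w`
at the point `x`. -/
abbrev RMetric (m : ℕ) := E m → E m → E m → ℝ

/-- A connection on `ℝ^m` given by its Christoffel map `Γ`: `∇_u V = DV(u) + Γ(u,V)`. -/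
abbrev Conn (m : ℕ) := E m → E m → E m → E m

/-- The scalar product `⟨v, w⟩` of two tangent vectors at `x`. -/
def ip {m : ℕ} (G : RMetric m) (x v w : E m) : ℝ := G x v w

/-- The value `Γ(v,w)` of the Christoffel map at `x`. -/
def ap {m : ℕ} (Γ : Conn m) (x v w : E m) : E m := Γ x v w

/-- `G` is a smooth Riemannian metric on the manifold `ℝ^m` (in a global chart): linear in the
second tangent vector, symmetric, positive definite, with smooth coefficients. -/
structure IsMetric {m : ℕ} (G : RMetric m) : Prop where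
  linear : ∀ x v, IsLinearMap ℝ (ip G x v)
  symm : ∀ x v w, ip G x v w = ip G x w v
  pos : ∀ x v, v ≠ 0 → 0 < ip G x v v
  smooth : ∀ v w, ContDiff ℝ ∞ (fun x => ip G x v w)

/-- Directional derivative of a function at `x` in the direction `u`. -/
noncomputable def dR {m : ℕ} (f : E m → ℝ) (x u : E m) : ℝ := fderiv ℝ f x u

/-- Directional derivative of a vector valued function at `x` in the direction `u`. -/
noncomputable def dE {m : ℕ} (f : E m → E m) (x u : E m) : E m := fderiv ℝ f x u

/-- `Γ` is the Christoffel map of the Levi-Civita connection of `G` (Koszul formula). -/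
def IsChristoffel {m : ℕ} (G : RMetric m) (Γ : Conn m) : Prop :=
  ∀ x u v w, 2 * ip G x (ap Γ x u v) w =
    dR (fun y => ip G y v w) x u + dR (fun y => ip G y u w) x v - dR (fun y => ip G y u v) x w

/-- The curvature tensor `R(u,v)w = ∇_u ∇_v w - ∇_v ∇_u w` (coordinate-constant fields). -/
noncomputable def curv {m : ℕ} (Γ : Conn m) (x u v w : E m) : E m :=
  dE (fun y => ap Γ y v w) x u - dE (fun y => ap Γ y u w) x v
    + ap Γ x u (ap Γ x v w) - ap Γ x v (ap Γ x u w)

/-- All sectional curvatures are at most `c`. -/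
def SecLE {m : ℕ} (G : RMetric m) (Γ : Conn m) (c : ℝ) : Prop :=
  ∀ x u v, ip G x (curv Γ x u v v) u ≤ c * (ip G x u u * ip G x v v - ip G x u v ^ 2)

/-- Geodesics (defined on the whole line, parametrised proportionally to arc length). -/
def IsGeodesic {m : ℕ} (Γ : Conn m) (γ : ℝ → E m) : Prop :=
  ContDiff ℝ 2 γ ∧ ∀ t, deriv (deriv γ) t = - ap Γ (γ t) (deriv γ t) (deriv γ t)

/-- Completeness of the manifold (every geodesic extends to the whole line). -/
def IsComplete {m : ℕ} (Γ : Conn m) : Prop :=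
  ∀ p v, ∃ γ, IsGeodesic Γ γ ∧ γ 0 = p ∧ deriv γ 0 = v

/-- Length of a curve parametrised by `[0,1]`. -/
noncomputable def len {m : ℕ} (G : RMetric m) (η : ℝ → E m) : ℝ :=
  ∫ t in (0:ℝ)..1, Real.sqrt (ip G (η t) (deriv η t) (deriv η t))

/-- The Riemannian distance: infimum of the lengths of the `C^1` curves joining two points. -/
noncomputable def rdist {m : ℕ} (G : RMetric m) (p q : E m) : ℝ :=
  sInf {L | ∃ η : ℝ → E m, ContDiff ℝ 1 η ∧ η 0 = p ∧ η 1 = q ∧ L = len G η}

/-- The injectivity radius is at least `ρ`: no geodesic of unit speed meets its cut point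
before the time `ρ`. -/
def InjRadGE {m : ℕ} (G : RMetric m) (Γ : Conn m) (ρ : ℝ) : Prop :=
  ∀ γ, IsGeodesic Γ γ → ip G (γ 0) (deriv γ 0) (deriv γ 0) = 1 →
    ∀ t, 0 ≤ t → t < ρ → rdist G (γ 0) (γ t) = t

/-- Convexity: any two points of `D` are joined by a minimizing geodesic contained in `D`. -/
def IsGConvex {m : ℕ} (G : RMetric m) (Γ : Conn m) (D : Set (E m)) : Prop :=
  ∀ p ∈ D, ∀ q ∈ D, ∃ γ, IsGeodesic Γ γ ∧ γ 0 = p ∧ γ 1 = q ∧ len G γ = rdist G p q ∧
    ∀ t ∈ Icc (0:ℝ) 1, γ t ∈ D

/-- `D = {f ≤ 0}` is a compact domain with connected smooth boundary `{f = 0}`,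
`f` being a regular defining function. -/
structure IsDomain {m : ℕ} (D : Set (E m)) (f : E m → ℝ) : Prop where
  smooth : ContDiff ℝ ∞ f
  eq : D = {x | f x ≤ 0}
  frontier_eq : frontier D = {x | f x = 0}
  regular : ∀ x, f x = 0 → fderiv ℝ f x ≠ 0
  connected : IsConnected (frontier D)
  compact : IsCompact D
  interior : (interior D).Nonempty

/-- `ν` is the inward unit normal of `{f = 0}` at `s`. -/
def IsInwardNormal {m : ℕ} (G : RMetric m) (f : E m → ℝ) (s ν : E m) : Prop :=
  ip G s ν ν = 1 ∧ (∀ v, dR f s v = 0 → ip G s ν v = 0) ∧ dR f s ν < 0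

/-- `k` is the normal curvature `⟨∇_v v, ν⟩ / ⟨v, v⟩` of the boundary of `D` at `s` in the direction
of the nonzero tangent vector `v`, with respect to the normal vector `ν`; it is computed with a
curve `γ` in the boundary with `γ 0 = s` and `γ' 0 = v`. -/
def HasNormalCurvature {m : ℕ} (G : RMetric m) (Γ : Conn m) (D : Set (E m))
    (s ν v : E m) (k : ℝ) : Prop :=
  v ≠ 0 ∧ ∃ γ : ℝ → E m, ContDiff ℝ 2 γ ∧ (∀ t, γ t ∈ frontier D) ∧ γ 0 = s ∧ deriv γ 0 = v ∧
    k = ip G s (deriv (deriv γ) 0 + ap Γ s v v) ν / ip G s v v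

/-- The function `ct_c = sn_c' / sn_c`. -/
noncomputable def ct (c R : ℝ) : ℝ :=
  if 0 < c then Real.sqrt c * Real.cos (R * Real.sqrt c) / Real.sin (R * Real.sqrt c)
  else if c = 0 then 1 / R
  else Real.sqrt (-c) * Real.cosh (R * Real.sqrt (-c)) / Real.sinh (R * Real.sqrt (-c))

/-- `R` is the radius `R_lam` : a geodesic sphere of radius `R` in the model space of curvature `c`
has normal curvature `lam`. -/
def IsRadius (c lam R : ℝ) : Prop :=
  0 < R ∧ (0 < c → R * Real.sqrt c < Real.pi) ∧ ct c R = lam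

/-- A ball of radius `R` rolls freely inside `D`. -/
def Rolls {m : ℕ} (G : RMetric m) (Γ : Conn m) (D : Set (E m)) (f : E m → ℝ)
    (R : ℝ) : Prop :=
  ∀ s ∈ frontier D, ∀ ν, IsInwardNormal G f s ν → ∀ γ, IsGeodesic Γ γ → γ 0 = s → deriv γ 0 = ν →
    ∀ q, rdist G (γ R) q ≤ R → q ∈ D

/-- All normal curvatures of the boundary (with respect to the inward normal) are at most `lam`. -/
def CurvLE {m : ℕ} (G : RMetric m) (Γ : Conn m) (D : Set (E m)) (f : E m → ℝ) (lam : ℝ) : Prop :=
  ∀ s ν v k, s ∈ frontier D → IsInwardNormal G f s ν → HasNormalCurvature G Γ D s ν v k → k ≤ lam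

/-- All normal curvatures of the boundary (with respect to the inward normal) are at least `mu`. -/
def CurvGE {m : ℕ} (G : RMetric m) (Γ : Conn m) (D : Set (E m)) (f : E m → ℝ) (mu : ℝ) : Prop :=
  ∀ s ν v k, s ∈ frontier D → IsInwardNormal G f s ν → HasNormalCurvature G Γ D s ν v k → mu ≤ k

/-- `D` lies in a geodesic ball whose radius is at most half of the injectivity radius. -/
def InHalfInjBall {m : ℕ} (G : RMetric m) (Γ : Conn m) (D : Set (E m)) : Prop :=
  ∃ ρ : ℝ, 0 < ρ ∧ InjRadGE G Γ (2 * ρ) ∧ ∃ p, ∀ q ∈ D, rdist G p q < ρ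

/-- `(ℝ^m, G)` is a complete Riemannian manifold with Levi-Civita connection `Γ` and sectional curvature at
most `c`. -/
def Ambient {m : ℕ} (G : RMetric m) (Γ : Conn m) (c : ℝ) : Prop :=
  IsMetric G ∧ IsChristoffel G Γ ∧ IsComplete Γ ∧ SecLE G Γ c

/-- `D` is a domain as in the question: compact, convex, with smooth connected boundary, with
normal curvatures at most `lam`, and at least the square root of `-c` if `c < 0`, contained in a
ball of radius half the injectivity radius. -/
def Admissible {m : ℕ} (G : RMetric m) (Γ : Conn m) (D : Set (E m)) (f : E m → ℝ) (c lam : ℝ) : Prop :=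
  IsDomain D f ∧ IsGConvex G Γ D ∧ CurvLE G Γ D f lam ∧
    (c < 0 → CurvGE G Γ D f (Real.sqrt (-c))) ∧ InHalfInjBall G Γ D

/-- The statement of the question for the curvature bound `c` and the constant `lam` (which is
assumed to satisfy the sphere constraints), for manifolds with a global chart. -/
def RollingStatement (c lam : ℝ) : Prop :=
  0 < lam → (c < 0 → Real.sqrt (-c) < lam) →
  ∀ (m : ℕ), 2 ≤ m → ∀ (G : RMetric m) (Γ : Conn m), Ambient G Γ c →
    ∀ (D : Set (E m)) (f : E m → ℝ), Admissible G Γ D f c lam →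
    ∀ R : ℝ, IsRadius c lam R → Rolls G Γ D f R

end Pool.Agent.Helper43.Roll
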