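import Mathlib
import Pool.Agent.Helper43.RollDefs

set_option autoImplicit false

open Set
open scoped ContDiff

namespace Pool.Agent.Helper43.Roll

variable {m : ℕ}

/-- the hyperbolic scalar product in the orthographic chart of the hyperboloid -/
noncomputable def hh (x v w : E m) : ℝ :=
  inner ℝ v w - inner ℝ x v * inner ℝ x w / (1 + ‖x‖ ^ 2)

theorem one_add_pos (x : E m) : 0 < 1 + ‖x‖ ^ 2 := by positivity

theorem hh_symm (x v w : E m) : hh x v w = hh x w v := by
  unfold hh
  rw [real_inner_comm v w]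
  ring

theorem hh_add_right (x v w w' : E m) : hh x v (w + w') = hh x v w + hh x v w' := by
  unfold hh
  rw [inner_add_right, inner_add_right]
  ring

theorem hh_smul_right (x v w : E m) (a : ℝ) : hh x v (a • w) = a * hh x v w := by
  unfold hh
  rw [real_inner_smul_right, real_inner_smul_right]
  ring

theorem hh_add_left (x v v' w : E m) : hh x (v + v') w = hh x v w + hh x v' w := by
  rw [hh_symm, hh_add_right, hh_symm x w v, hh_symm x w v']

theorem hh_smul_left (x v w : E m) (a : ℝ) : hh x (a • v) w = a * hh x v w := by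
  rw [hh_symm, hh_smul_right, hh_symm]

theorem hh_neg_left (x v w : E m) : hh x (-v) w = - hh x v w := by
  rw [← neg_one_smul ℝ v, hh_smul_left]; ring

theorem hh_neg_right (x v w : E m) : hh x v (-w) = - hh x v w := by
  rw [hh_symm, hh_neg_left, hh_symm]

/-- positivity, quantitative -/
theorem hh_ge (x v : E m) : ‖v‖ ^ 2 / (1 + ‖x‖ ^ 2) ≤ hh x v v := by
  unfold hh
  have h1 := one_add_pos x
  rw [real_inner_self_eq_norm_sq, div_le_iff₀ h1, sub_mul]
  rw [div_mul_cancel₀ _ h1.ne']
  have h2 : inner ℝ x v * inner ℝ x v ≤ (‖x‖ * ‖v‖) * (‖x‖ * ‖v‖) := by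
    have := abs_real_inner_le_norm x v
    rw [← abs_mul_abs_self]
    exact mul_self_le_mul_self (abs_nonneg _) this
  nlinarith

theorem hh_nonneg (x v : E m) : 0 ≤ hh x v v :=
  le_trans (by positivity) (hh_ge x v)

theorem hh_pos (x v : E m) (hv : v ≠ 0) : 0 < hh x v v := by
  refine lt_of_lt_of_le ?_ (hh_ge x v)
  have : 0 < ‖v‖ := norm_pos_iff.2 hv
  have h1 := one_add_pos x
  positivity

theorem hh_cauchy (x v w : E m) : hh x v w ^ 2 ≤ hh x v v * hh x w w := by
  rcases eq_or_ne w 0 with rfl | hw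
  · have : hh x v 0 = 0 := by
      have := hh_smul_right x v 0 0
      simpa using this
    rw [this]
    have h2 : hh x (0 : E m) 0 = 0 := by
      have := hh_smul_right x (0 : E m) 0 0
      simpa using this
    rw [h2]; simp
  · have hpos := hh_pos x w hw
    have h := hh_nonneg x (v + (-(hh x v w / hh x w w)) • w)
    rw [hh_add_left, hh_add_right, hh_add_right, hh_smul_left, hh_smul_left, hh_smul_right,
      hh_smul_right, hh_symm x w v] at h
    have h2 : 0 ≤ (hh x v v + -(hh x v w / hh x w w) * hh x v w +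
        (-(hh x v w / hh x w w) * hh x v w +
          -(hh x v w / hh x w w) * (-(hh x v w / hh x w w) * hh x w w))) * hh x w w := by
      apply mul_nonneg _ hpos.le
      linarith
    have h3 : (hh x v v + -(hh x v w / hh x w w) * hh x v w +
        (-(hh x v w / hh x w w) * hh x v w +
          -(hh x v w / hh x w w) * (-(hh x v w / hh x w w) * hh x w w))) * hh x w w
        = hh x v v * hh x w w - hh x v w ^ 2 := by
      field_simp
      ring
    rw [h3] at h2
    linarith

/-- The hyperbolic metric of curvature `-1/κ`. -/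
noncomputable def hypM (m : ℕ) (κ : ℝ) (_hκ : 0 < κ) : RMetric m :=
  fun x v w => κ * hh x v w

theorem hypM_apply (κ : ℝ) (hκ : 0 < κ) (x v w : E m) :
    ip (hypM m κ hκ) x v w = κ * hh x v w := rfl

theorem hypM_isMetric (κ : ℝ) (hκ : 0 < κ) : IsMetric (hypM m κ hκ) where
  linear := by
    intro x v
    constructor
    · intro w w'; simp only [hypM_apply, hh_add_right]; ring
    · intro a w; simp only [hypM_apply, hh_smul_right, smul_eq_mul]; ring
  symm := by
    intro x v w
    simp only [hypM_apply]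
    rw [hh_symm]
  pos := by
    intro x v hv
    simp only [hypM_apply]
    have := hh_pos x v hv
    positivity
  smooth := by
    intro v w
    simp only [hypM_apply]
    unfold hh
    apply ContDiff.mul contDiff_const
    apply ContDiff.sub contDiff_const
    apply ContDiff.div
    · apply ContDiff.mul
      · exact contDiff_id.inner ℝ contDiff_const
      · exact contDiff_id.inner ℝ contDiff_const
    · exact contDiff_const.add (contDiff_norm_sq ℝ)
    · intro x
      exact (one_add_pos x).ne'

/-- The Christoffel map of the hyperbolic metric. -/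
noncomputable def hypG (m : ℕ) : Conn m := fun x v w => -(hh x v w) • x

theorem hypG_apply (x v w : E m) : ap (hypG m) x v w = -(hh x v w) • x := rfl

theorem contDiff_hh (v w : E m) : ContDiff ℝ ∞ (fun x => hh x v w) := by
  unfold hh
  apply ContDiff.sub contDiff_const
  apply ContDiff.div
  · apply ContDiff.mul
    · exact contDiff_id.inner ℝ contDiff_const
    · exact contDiff_id.inner ℝ contDiff_const
  · exact contDiff_const.add (contDiff_norm_sq ℝ)
  · intro x
    exact (one_add_pos x).ne'

/-- derivative of the metric coefficients -/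
theorem fderiv_hh (x v w u : E m) :
    fderiv ℝ (fun y => hh y v w) x u =
      -(inner ℝ u v * inner ℝ x w + inner ℝ x v * inner ℝ u w) / (1 + ‖x‖ ^ 2)
        + 2 * inner ℝ x u * inner ℝ x v * inner ℝ x w / (1 + ‖x‖ ^ 2) ^ 2 := by
  have hd : DifferentiableAt ℝ (fun y => hh y v w) x :=
    ((contDiff_hh v w).differentiable (by simp)).differentiableAt
  have h1 : HasDerivAt (fun t : ℝ => hh (x + t • u) v w) (fderiv ℝ (fun y => hh y v w) x u) 0 := by
    have h2 : HasDerivAt (fun t : ℝ => x + t • u) u 0 := by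
      simpa using ((hasDerivAt_id (0:ℝ)).smul_const u).const_add x
    have h3 : HasFDerivAt (fun y => hh y v w) (fderiv ℝ (fun y => hh y v w) x) (x + (0:ℝ) • u) := by
      simpa using hd.hasFDerivAt
    exact h3.comp_hasDerivAt (0:ℝ) h2
  have hfun : (fun t : ℝ => hh (x + t • u) v w) = fun t : ℝ =>
      inner ℝ v w - (inner ℝ x v + t * inner ℝ u v) * (inner ℝ x w + t * inner ℝ u w) /
        (1 + (‖x‖ ^ 2 + 2 * t * inner ℝ x u + t ^ 2 * ‖u‖ ^ 2)) := by
    funext t
    unfold hh
    rw [inner_add_left, inner_add_left, real_inner_smul_left, real_inner_smul_left,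
      norm_add_sq_real, norm_smul, real_inner_smul_right, mul_pow, Real.norm_eq_abs, sq_abs]
    ring
  rw [hfun] at h1
  have hpos := (one_add_pos x).ne'
  have h2 : HasDerivAt (fun t : ℝ =>
      inner ℝ v w - (inner ℝ x v + t * inner ℝ u v) * (inner ℝ x w + t * inner ℝ u w) /
        (1 + (‖x‖ ^ 2 + 2 * t * inner ℝ x u + t ^ 2 * ‖u‖ ^ 2)))
      (-(inner ℝ u v * inner ℝ x w + inner ℝ x v * inner ℝ u w) / (1 + ‖x‖ ^ 2)
        + 2 * inner ℝ x u * inner ℝ x v * inner ℝ x w / (1 + ‖x‖ ^ 2) ^ 2) 0 := by
    have ha : HasDerivAt (fun t : ℝ => inner ℝ x v + t * inner ℝ u v) (inner ℝ u v) 0 := by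
      simpa using ((hasDerivAt_id (0:ℝ)).mul_const (inner ℝ u v)).const_add (inner ℝ x v)
    have hb : HasDerivAt (fun t : ℝ => inner ℝ x w + t * inner ℝ u w) (inner ℝ u w) 0 := by
      simpa using ((hasDerivAt_id (0:ℝ)).mul_const (inner ℝ u w)).const_add (inner ℝ x w)
    have hc : HasDerivAt (fun t : ℝ => 1 + (‖x‖ ^ 2 + 2 * t * inner ℝ x u + t ^ 2 * ‖u‖ ^ 2))
        (2 * inner ℝ x u) 0 := by
      have e1 : HasDerivAt (fun t : ℝ => 2 * t * inner ℝ x u) (2 * inner ℝ x u) 0 := by
        simpa using ((hasDerivAt_id (0:ℝ)).const_mul 2).mul_const (inner ℝ x u)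
      have e2 : HasDerivAt (fun t : ℝ => t ^ 2 * ‖u‖ ^ 2) 0 0 := by
        simpa using ((hasDerivAt_pow 2 (0:ℝ))).mul_const (‖u‖ ^ 2)
      simpa using (((e1.const_add (‖x‖ ^ 2)).add e2)).const_add 1
    have hq := ((ha.mul hb).div hc (by simpa using hpos)).const_sub (inner ℝ v w)
    refine hq.congr_deriv ?_
    simp only [Pi.mul_apply, zero_mul, mul_zero, add_zero, zero_pow, ne_eq, OfNat.ofNat_ne_zero,
      not_false_eq_true]
    field_simp
    ring
  exact h1.unique h2

theorem hypG_christoffel (κ : ℝ) (hκ : 0 < κ) : IsChristoffel (hypM m κ hκ) (hypG m) := by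
  intro x u v w
  unfold dR
  simp only [hypM_apply, hypG_apply]
  have hdiff : ∀ v w : E m, DifferentiableAt ℝ (fun y => hh y v w) x := fun v w =>
    ((contDiff_hh v w).differentiable (by simp)).differentiableAt
  rw [fderiv_const_mul (hdiff v w), fderiv_const_mul (hdiff u w), fderiv_const_mul (hdiff u v)]
  simp only [_root_.smul_apply, smul_eq_mul, fderiv_hh, hh_smul_left]
  unfold hh
  have hpos := (one_add_pos x).ne'
  rw [real_inner_self_eq_norm_sq, real_inner_comm u v, real_inner_comm u w, real_inner_comm v w]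
  field_simp
  ring

theorem fderiv_hypG (x v w u : E m) :
    dE (fun y => ap (hypG m) y v w) x u = -(fderiv ℝ (fun y => hh y v w) x u) • x
      - hh x v w • u := by
  unfold dE
  have hd : DifferentiableAt ℝ (fun y => hh y v w) x :=
    ((contDiff_hh v w).differentiable (by simp)).differentiableAt
  simp only [hypG_apply]
  have h1 : HasFDerivAt (fun y => -(hh y v w) • y)
      ((-(hh x v w)) • ContinuousLinearMap.id ℝ (E m) +
        (-(fderiv ℝ (fun y => hh y v w) x)).smulRight x) x :=
    (hd.hasFDerivAt.neg).smul (hasFDerivAt_id x)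
  rw [h1.fderiv]
  simp
  module

theorem hyp_curv (x u v w : E m) :
    curv (hypG m) x u v w = hh x u w • v - hh x v w • u := by
  unfold curv
  rw [fderiv_hypG, fderiv_hypG, fderiv_hh, fderiv_hh]
  simp only [hypG_apply, hh_smul_right]
  have hpos := (one_add_pos x).ne'
  have e : (-(-(inner ℝ u v * inner ℝ x w + inner ℝ x v * inner ℝ u w) / (1 + ‖x‖ ^ 2)
        + 2 * inner ℝ x u * inner ℝ x v * inner ℝ x w / (1 + ‖x‖ ^ 2) ^ 2))
      - (-(-(inner ℝ v u * inner ℝ x w + inner ℝ x u * inner ℝ v w) / (1 + ‖x‖ ^ 2)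
        + 2 * inner ℝ x v * inner ℝ x u * inner ℝ x w / (1 + ‖x‖ ^ 2) ^ 2))
      + (- (-(hh x v w) * hh x u x)) - (-(-(hh x u w) * hh x v x)) = 0 := by
    unfold hh
    rw [real_inner_self_eq_norm_sq, real_inner_comm u v, real_inner_comm u x,
      real_inner_comm v x]
    field_simp
    ring
  have e2 := congrArg (fun r : ℝ => r • x) e
  simp only [zero_smul] at e2
  rw [← sub_eq_zero]
  rw [← e2]
  module

theorem hyp_sec (κ : ℝ) (hκ : 0 < κ) (c : ℝ) (hc : -(1 / κ) ≤ c) :
    SecLE (hypM m κ hκ) (hypG m) c := by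
  intro x u v
  rw [hyp_curv]
  simp only [hypM_apply]
  have e1 : hh x (hh x u v • v - hh x v v • u) u = hh x u v * hh x u v - hh x v v * hh x u u := by
    rw [sub_eq_add_neg, ← neg_smul, hh_add_left, hh_smul_left, hh_smul_left, hh_symm x v u]
    ring
  rw [e1]
  have h2 := hh_cauchy x u v
  have h3 : κ * (hh x u v * hh x u v - hh x v v * hh x u u)
      = -(1 / κ) * (κ * hh x u u * (κ * hh x v v) - (κ * hh x u v) ^ 2) := by
    field_simp
    ring
  rw [h3]
  apply mul_le_mul_of_nonneg_right hc
  have h4 : κ * hh x u u * (κ * hh x v v) - (κ * hh x u v) ^ 2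
      = κ ^ 2 * (hh x u u * hh x v v - hh x u v ^ 2) := by ring
  rw [h4]
  apply mul_nonneg (by positivity)
  linarith

end Pool.Agent.Helper43.Roll
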