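import Mathlib
import Pool.Agent.Helper43.RollHyp

set_option autoImplicit false

open Set
open scoped ContDiff

namespace Pool.Agent.Helper43.Roll

variable {m : ℕ}

/-- the time coordinate on the hyperboloid -/
noncomputable def zz (x : E m) : ℝ := Real.sqrt (1 + ‖x‖ ^ 2)

theorem zz_pos (x : E m) : 0 < zz x := Real.sqrt_pos.2 (one_add_pos x)

theorem zz_sq (x : E m) : zz x ^ 2 = 1 + ‖x‖ ^ 2 := Real.sq_sqrt (one_add_pos x).le

theorem zz_gt (x : E m) : ‖x‖ < zz x := by
  apply lt_of_pow_lt_pow_left₀ 2 (zz_pos x).le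
  rw [zz_sq]
  linarith

theorem bus_arg_pos (n x : E m) (hn : n ≠ 0) : 0 < ‖n‖ * zz x - inner ℝ n x := by
  have h1 : inner ℝ n x ≤ ‖n‖ * ‖x‖ := real_inner_le_norm n x
  have h2 : ‖n‖ * ‖x‖ < ‖n‖ * zz x := mul_lt_mul_of_pos_left (zz_gt x) (norm_pos_iff.2 hn)
  linarith

/-- Busemann function -/
noncomputable def bus (n x : E m) : ℝ := Real.log (‖n‖ * zz x - inner ℝ n x)

theorem zz_hasDerivAt (η : ℝ → E m) (η' : E m) (t : ℝ) (h : HasDerivAt η η' t) :
    HasDerivAt (fun s => zz (η s)) (inner ℝ (η t) η' / zz (η t)) t := by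
  unfold zz
  have h1 : HasDerivAt (fun s => 1 + ‖η s‖ ^ 2) (2 * inner ℝ (η t) η') t := by
    have := h.norm_sq
    simpa using this.const_add 1
  have h2 := h1.sqrt (one_add_pos (η t)).ne'
  convert h2 using 1
  have := (Real.sqrt_pos.2 (one_add_pos (η t))).ne'
  field_simp

theorem bus_hasDerivAt (n : E m) (hn : n ≠ 0) (η : ℝ → E m) (η' : E m) (t : ℝ)
    (h : HasDerivAt η η' t) :
    HasDerivAt (fun s => bus n (η s))
      ((‖n‖ * (inner ℝ (η t) η' / zz (η t)) - inner ℝ n η') / (‖n‖ * zz (η t) - inner ℝ n (η t))) t := by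
  unfold bus
  apply HasDerivAt.log
  · apply HasDerivAt.sub
    · exact (zz_hasDerivAt η η' t h).const_mul _
    · have := (hasDerivAt_const t n).inner ℝ h
      simpa using this
  · exact (bus_arg_pos n (η t) hn).ne'

theorem bus_deriv_bound (n x v : E m) (hn : n ≠ 0) :
    ((‖n‖ * (inner ℝ x v / zz x) - inner ℝ n v) / (‖n‖ * zz x - inner ℝ n x)) ^ 2
      ≤ hh x v v := by
  have ha := bus_arg_pos n x hn
  have hz := zz_pos x
  have hzs := zz_sq x
  set a := ‖n‖ * zz x - inner ℝ n x with hadef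
  have e1 : hh x v (n + (-a) • x) = inner ℝ n v - ‖n‖ * (inner ℝ x v / zz x) := by
    unfold hh
    rw [← hzs, inner_add_right, inner_add_right, real_inner_smul_right, real_inner_smul_right,
      real_inner_self_eq_norm_sq, real_inner_comm n v, real_inner_comm x v, real_inner_comm n x]
    have h3 : ‖x‖ ^ 2 = zz x ^ 2 - 1 := by linarith
    rw [h3, hadef]
    field_simp
    ring
  have e2 : hh x (n + (-a) • x) (n + (-a) • x) = a ^ 2 := by
    unfold hh
    rw [← hzs, real_inner_self_eq_norm_sq, norm_add_sq_real, norm_smul, real_inner_smul_right,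
      inner_add_right, real_inner_smul_right, real_inner_self_eq_norm_sq, real_inner_comm n x,
      Real.norm_eq_abs, mul_pow, sq_abs]
    have h3 : ‖x‖ ^ 2 = zz x ^ 2 - 1 := by linarith
    rw [h3, hadef]
    field_simp
    ring
  have h := hh_cauchy x v (n + (-a) • x)
  rw [e1, e2] at h
  rw [div_pow, div_le_iff₀ (by positivity)]
  calc _ = (inner ℝ n v - ‖n‖ * (inner ℝ x v / zz x)) ^ 2 := by ring
    _ ≤ _ := h

theorem continuous_speed (η : ℝ → E m) (hη : ContDiff ℝ 1 η) :
    Continuous (fun t => hh (η t) (deriv η t) (deriv η t)) := by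
  have h1 : Continuous η := hη.continuous
  have h2 : Continuous (deriv η) := hη.continuous_deriv (le_refl _)
  unfold hh
  apply Continuous.sub
  · exact h2.inner h2
  · apply Continuous.div
    · exact (h1.inner h2).mul (h1.inner h2)
    · exact continuous_const.add ((h1.norm).pow 2)
    · intro t
      exact (one_add_pos _).ne'

theorem len_eq (κ : ℝ) (hκ : 0 < κ) (η : ℝ → E m) :
    len (hypM m κ hκ) η = Real.sqrt κ * ∫ t in (0:ℝ)..1, Real.sqrt (hh (η t) (deriv η t) (deriv η t)) := by
  unfold len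
  rw [← intervalIntegral.integral_const_mul]
  congr 1
  funext t
  rw [hypM_apply, Real.sqrt_mul hκ.le]

theorem len_ge (κ : ℝ) (hκ : 0 < κ) (n : E m) (hn : n ≠ 0) (η : ℝ → E m) (hη : ContDiff ℝ 1 η) :
    Real.sqrt κ * (bus n (η 0) - bus n (η 1)) ≤ len (hypM m κ hκ) η := by
  rw [len_eq]
  apply mul_le_mul_of_nonneg_left _ (Real.sqrt_nonneg κ)
  set F : ℝ → ℝ := fun t => (‖n‖ * (inner ℝ (η t) (deriv η t) / zz (η t)) - inner ℝ n (deriv η t)) /
    (‖n‖ * zz (η t) - inner ℝ n (η t)) with hF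
  have hder : ∀ t, HasDerivAt (fun s => bus n (η s)) (F t) t := by
    intro t
    apply bus_hasDerivAt n hn
    exact ((hη.differentiable (by norm_num)) t).hasDerivAt
  have h1 : Continuous η := hη.continuous
  have h2 : Continuous (deriv η) := hη.continuous_deriv (le_refl _)
  have hzc : Continuous (fun t => zz (η t)) := by
    unfold zz
    exact Real.continuous_sqrt.comp (continuous_const.add ((h1.norm).pow 2))
  have hFc : Continuous F := by
    rw [hF]
    apply Continuous.div
    · exact (continuous_const.mul ((h1.inner h2).div hzc (fun t => (zz_pos _).ne'))).sub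
        (continuous_const.inner h2)
    · exact (continuous_const.mul hzc).sub (continuous_const.inner h1)
    · intro t
      exact (bus_arg_pos n (η t) hn).ne'
  have hint : ∫ t in (0:ℝ)..1, F t = bus n (η 1) - bus n (η 0) :=
    intervalIntegral.integral_eq_sub_of_hasDerivAt (f := fun s => bus n (η s))
      (fun t _ => hder t) (hFc.intervalIntegrable _ _)
  have hsc : Continuous (fun t => Real.sqrt (hh (η t) (deriv η t) (deriv η t))) :=
    Real.continuous_sqrt.comp (continuous_speed η hη)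
  have hle : ∫ t in (0:ℝ)..1, -F t ≤ ∫ t in (0:ℝ)..1, Real.sqrt (hh (η t) (deriv η t) (deriv η t)) := by
    apply intervalIntegral.integral_mono_on (by norm_num)
    · exact hFc.neg.intervalIntegrable _ _
    · exact hsc.intervalIntegrable _ _
    · intro t _
      have hb := bus_deriv_bound n (η t) (deriv η t) hn
      have : |F t| ≤ Real.sqrt (hh (η t) (deriv η t) (deriv η t)) := Real.abs_le_sqrt hb
      exact (neg_le_abs _).trans this
  rw [intervalIntegral.integral_neg, hint] at hle
  linarith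


/-- squared norm in terms of hyperbolic data -/
theorem norm_sq_eq_hh (p v : E m) : ‖v‖ ^ 2 = hh p v v + (inner ℝ p v / zz p) ^ 2 := by
  unfold hh
  rw [real_inner_self_eq_norm_sq, div_pow, zz_sq]
  ring

theorem lin_norm (p v : E m) (C S : ℝ) (hCS : C ^ 2 - hh p v v * S ^ 2 = 1) :
    1 + ‖C • p + S • v‖ ^ 2 = (C * zz p + S * (inner ℝ p v / zz p)) ^ 2 := by
  have hz := zz_pos p
  have hzs := zz_sq p
  have hv := norm_sq_eq_hh p v
  rw [norm_add_sq_real, norm_smul, norm_smul, real_inner_smul_left, real_inner_smul_right,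
    mul_pow, mul_pow, Real.norm_eq_abs, Real.norm_eq_abs, sq_abs, sq_abs, hv]
  have h3 : ‖p‖ ^ 2 = zz p ^ 2 - 1 := by linarith
  have h4 : inner ℝ p v = zz p * (inner ℝ p v / zz p) := by field_simp
  rw [h3]
  set τ := inner ℝ p v / zz p with hτ
  rw [h4]
  linear_combination -hCS

theorem tau_lt (p v : E m) (om : ℝ) (hom : 0 ≤ om) (hom2 : om ^ 2 = hh p v v) :
    |inner ℝ p v / zz p| ≤ om * ‖p‖ := by
  apply abs_le_of_sq_le_sq _ (by positivity)
  have hz := zz_pos p
  have hzs := zz_sq p
  have hv := norm_sq_eq_hh p v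
  have h1 : (inner ℝ p v) ^ 2 ≤ ‖p‖ ^ 2 * ‖v‖ ^ 2 := by
    rw [← mul_pow, ← sq_abs]
    exact pow_le_pow_left₀ (abs_nonneg _) (abs_real_inner_le_norm p v) 2
  have h4 : inner ℝ p v = zz p * (inner ℝ p v / zz p) := by field_simp
  set τ := inner ℝ p v / zz p with hτ
  rw [h4, hv, ← hom2] at h1
  have h3 : ‖p‖ ^ 2 = zz p ^ 2 - 1 := by linarith
  rw [mul_pow, h3]
  rw [h3] at h1
  nlinarith

theorem lin_zz (p v : E m) (C S om : ℝ) (hom : 0 ≤ om) (hom2 : om ^ 2 = hh p v v)
    (hCS : C ^ 2 - om ^ 2 * S ^ 2 = 1) (hC : 0 < C) :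
    zz (C • p + S • v) = C * zz p + S * (inner ℝ p v / zz p) := by
  have h1 := lin_norm p v C S (by rw [← hom2]; exact hCS)
  unfold zz at *
  rw [h1]
  apply Real.sqrt_sq
  have h2 := tau_lt p v om hom hom2
  unfold zz at h2
  have h3 := zz_gt p
  unfold zz at h3
  have h4 : |S * (inner ℝ p v / Real.sqrt (1 + ‖p‖ ^ 2))| ≤ (om * |S|) * ‖p‖ := by
    rw [abs_mul]
    calc |S| * |inner ℝ p v / Real.sqrt (1 + ‖p‖ ^ 2)| ≤ |S| * (om * ‖p‖) :=
          mul_le_mul_of_nonneg_left h2 (abs_nonneg _)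
      _ = _ := by ring
  have h5 : om * |S| ≤ C := by
    refine le_trans (le_abs_self _) (abs_le_of_sq_le_sq ?_ hC.le)
    rw [mul_pow, sq_abs]
    linarith
  have h6 := neg_abs_le (S * (inner ℝ p v / Real.sqrt (1 + ‖p‖ ^ 2)))
  have h7 : (om * |S|) * ‖p‖ ≤ C * ‖p‖ := mul_le_mul_of_nonneg_right h5 (norm_nonneg _)
  have h8 : C * ‖p‖ ≤ C * Real.sqrt (1 + ‖p‖ ^ 2) := mul_le_mul_of_nonneg_left h3.le hC.le
  linarith

theorem lin_speed (p v : E m) (C S om : ℝ) (hom : 0 ≤ om) (hom2 : om ^ 2 = hh p v v)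
    (hCS : C ^ 2 - om ^ 2 * S ^ 2 = 1) (hC : 0 < C) :
    hh (C • p + S • v) ((om ^ 2 * S) • p + C • v) ((om ^ 2 * S) • p + C • v) = om ^ 2 := by
  have hz := zz_pos p
  have hzs := zz_sq p
  have hv := norm_sq_eq_hh p v
  have hq := lin_zz p v C S om hom hom2 hCS hC
  have hq0 := zz_pos (C • p + S • v)
  have h4 : inner ℝ p v = zz p * (inner ℝ p v / zz p) := by field_simp
  have h3 : ‖p‖ ^ 2 = zz p ^ 2 - 1 := by linarith
  have e1 : inner ℝ (C • p + S • v) ((om ^ 2 * S) • p + C • v)
      = (C * zz p + S * (inner ℝ p v / zz p)) * (om ^ 2 * S * zz p + C * (inner ℝ p v / zz p)) := by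
    simp only [inner_add_left, inner_add_right, real_inner_smul_left, real_inner_smul_right]
    rw [real_inner_self_eq_norm_sq, real_inner_self_eq_norm_sq, real_inner_comm p v, hv, h3, ← hom2]
    set τ := inner ℝ p v / zz p with hτ
    rw [h4]
    ring
  have e2 : inner ℝ ((om ^ 2 * S) • p + C • v) ((om ^ 2 * S) • p + C • v)
      = om ^ 2 + (om ^ 2 * S * zz p + C * (inner ℝ p v / zz p)) ^ 2 := by
    simp only [inner_add_left, inner_add_right, real_inner_smul_left, real_inner_smul_right]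
    rw [real_inner_self_eq_norm_sq, real_inner_self_eq_norm_sq, real_inner_comm p v, hv, h3, ← hom2]
    set τ := inner ℝ p v / zz p with hτ
    rw [h4]
    linear_combination om ^ 2 * hCS
  unfold hh
  rw [e1, e2, ← zz_sq, hq]
  rw [hq] at hq0
  generalize C * zz p + S * (inner ℝ p v / zz p) = T at *
  generalize om ^ 2 * S * zz p + C * (inner ℝ p v / zz p) = A
  have hT : T ≠ 0 := hq0.ne'
  have : T * A * (T * A) / T ^ 2 = A ^ 2 := by
    field_simp
  rw [this]
  ring

/-- explicit geodesics -/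
noncomputable def geo (p v : E m) (t : ℝ) : E m :=
  Real.cosh (Real.sqrt (hh p v v) * t) • p +
    (Real.sinh (Real.sqrt (hh p v v) * t) / Real.sqrt (hh p v v)) • v

theorem hh_eq_zero (p v : E m) (h : Real.sqrt (hh p v v) = 0) : v = 0 := by
  by_contra hv
  have := Real.sqrt_pos.2 (hh_pos p v hv)
  linarith

theorem geo_hasDerivAt (p v : E m) (t : ℝ) :
    HasDerivAt (geo p v) ((Real.sqrt (hh p v v) * Real.sinh (Real.sqrt (hh p v v) * t)) • p +
      Real.cosh (Real.sqrt (hh p v v) * t) • v) t := by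
  unfold geo
  set om := Real.sqrt (hh p v v) with hom
  have h1 : HasDerivAt (fun t : ℝ => om * t) om t := by
    simpa using (hasDerivAt_id t).const_mul om
  have h2 := h1.cosh.smul_const p
  have h3 := (h1.sinh.div_const om).smul_const v
  rcases eq_or_ne om 0 with h0 | h0
  · have hv := hh_eq_zero p v (by rw [← hom]; exact h0)
    subst hv
    simp only [smul_zero, add_zero]
    refine h2.congr_deriv ?_
    rw [mul_comm]
  · refine (h2.fun_add h3).congr_deriv ?_
    rw [mul_comm om (Real.sinh (om * t)), mul_div_assoc, div_self h0, mul_one]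

theorem geo_deriv (p v : E m) (t : ℝ) :
    deriv (geo p v) t = (Real.sqrt (hh p v v) * Real.sinh (Real.sqrt (hh p v v) * t)) • p +
      Real.cosh (Real.sqrt (hh p v v) * t) • v := (geo_hasDerivAt p v t).deriv

theorem geo_deriv_hasDerivAt (p v : E m) (t : ℝ) :
    HasDerivAt (deriv (geo p v)) (hh p v v • geo p v t) t := by
  have hfun : deriv (geo p v) = fun t =>
      (Real.sqrt (hh p v v) * Real.sinh (Real.sqrt (hh p v v) * t)) • p +
      Real.cosh (Real.sqrt (hh p v v) * t) • v := by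
    funext t
    exact geo_deriv p v t
  rw [hfun]
  unfold geo
  have hs : Real.sqrt (hh p v v) ^ 2 = hh p v v := Real.sq_sqrt (hh_nonneg p v)
  rw [← hs, Real.sqrt_sq (Real.sqrt_nonneg _)]
  set om := Real.sqrt (hh p v v) with hom
  have h1 : HasDerivAt (fun t : ℝ => om * t) om t := by
    simpa using (hasDerivAt_id t).const_mul om
  have h2 := (h1.sinh.const_mul om).smul_const p
  have h3 := (h1.cosh).smul_const v
  refine (h2.fun_add h3).congr_deriv ?_
  rcases eq_or_ne om 0 with h0 | h0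
  · rw [h0]
    simp
  · rw [smul_add, smul_smul, smul_smul]
    congr 1
    · congr 1
      ring
    · congr 1
      field_simp

theorem cosh_sinh_rel (om t : ℝ) : Real.cosh (om * t) ^ 2 - om ^ 2 * (Real.sinh (om * t) / om) ^ 2 = 1 := by
  rcases eq_or_ne om 0 with h0 | h0
  · rw [h0]; simp
  · rw [div_pow, mul_div_cancel₀ _ (pow_ne_zero 2 h0)]
    exact Real.cosh_sq_sub_sinh_sq _

theorem geo_speed (p v : E m) (t : ℝ) :
    hh (geo p v t) (deriv (geo p v) t) (deriv (geo p v) t) = hh p v v := by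
  have hs : Real.sqrt (hh p v v) ^ 2 = hh p v v := Real.sq_sqrt (hh_nonneg p v)
  have h := lin_speed p v (Real.cosh (Real.sqrt (hh p v v) * t))
    (Real.sinh (Real.sqrt (hh p v v) * t) / Real.sqrt (hh p v v)) (Real.sqrt (hh p v v))
    (Real.sqrt_nonneg _) hs (cosh_sinh_rel _ _) (Real.cosh_pos _)
  rw [geo_deriv]
  have e : Real.sqrt (hh p v v) ^ 2 *
      (Real.sinh (Real.sqrt (hh p v v) * t) / Real.sqrt (hh p v v)) =
      Real.sqrt (hh p v v) * Real.sinh (Real.sqrt (hh p v v) * t) := by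
    rcases eq_or_ne (Real.sqrt (hh p v v)) 0 with h0 | h0
    · rw [h0]; simp
    · field_simp
  rw [e, hs] at h
  exact h

theorem geo_contDiff (p v : E m) (n : WithTop ℕ∞) : ContDiff ℝ n (geo p v) := by
  unfold geo
  apply ContDiff.add
  · apply ContDiff.fun_smul _ contDiff_const
    exact Real.contDiff_cosh.comp (contDiff_const.mul contDiff_id)
  · apply ContDiff.fun_smul _ contDiff_const
    exact (Real.contDiff_sinh.comp (contDiff_const.mul contDiff_id)).div_const _

theorem geo_isGeodesic (p v : E m) : IsGeodesic (hypG m) (geo p v) := by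
  refine ⟨geo_contDiff p v 2, ?_⟩
  intro t
  rw [(geo_deriv_hasDerivAt p v t).deriv, hypG_apply, geo_speed]
  module

theorem geo_zero (p v : E m) : geo p v 0 = p := by
  unfold geo
  simp

theorem geo_deriv_zero (p v : E m) : deriv (geo p v) 0 = v := by
  rw [geo_deriv]
  simp

theorem hyp_complete : IsComplete (hypG m) := fun p v =>
  ⟨geo p v, geo_isGeodesic p v, geo_zero p v, geo_deriv_zero p v⟩


theorem cosh_sinh_one (s : ℝ) : Real.cosh s ^ 2 - 1 ^ 2 * Real.sinh s ^ 2 = 1 := by
  rw [one_pow, one_mul]; exact Real.cosh_sq_sub_sinh_sq _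

theorem norm_add_unit (p e : E m) (he : hh p e e = 1) :
    ‖p + e‖ = zz p + inner ℝ p e / zz p ∧ 0 < zz p + inner ℝ p e / zz p := by
  have hz := zz_pos p
  have hzs := zz_sq p
  have hv := norm_sq_eq_hh p e
  have h4 : inner ℝ p e = zz p * (inner ℝ p e / zz p) := by field_simp
  have h3 : ‖p‖ ^ 2 = zz p ^ 2 - 1 := by linarith
  have h2 := tau_lt p e 1 (by norm_num) (by rw [he]; norm_num)
  have h5 := zz_gt p
  have h6 := neg_abs_le (inner ℝ p e / zz p)
  have hpos : 0 < zz p + inner ℝ p e / zz p := by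
    rw [one_mul] at h2
    linarith
  refine ⟨?_, hpos⟩
  have h7 : ‖p + e‖ ^ 2 = (zz p + inner ℝ p e / zz p) ^ 2 := by
    rw [norm_add_sq_real, hv, he, h3]
    set τ := inner ℝ p e / zz p with hτ
    rw [h4]
    ring
  exact (pow_left_inj₀ (norm_nonneg _) hpos.le (by norm_num)).1 h7

theorem bus_geo (p e : E m) (he : hh p e e = 1) (s : ℝ) :
    bus (p + e) (Real.cosh s • p + Real.sinh s • e) = -s := by
  have hz := zz_pos p
  have hzs := zz_sq p
  have hv := norm_sq_eq_hh p e
  have h4 : inner ℝ p e = zz p * (inner ℝ p e / zz p) := by field_simp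
  have h3 : ‖p‖ ^ 2 = zz p ^ 2 - 1 := by linarith
  unfold bus
  rw [(norm_add_unit p e he).1]
  rw [lin_zz p e (Real.cosh s) (Real.sinh s) 1 (by norm_num) (by rw [he]; norm_num)
    (cosh_sinh_one s) (Real.cosh_pos s)]
  have : (zz p + inner ℝ p e / zz p) * (Real.cosh s * zz p + Real.sinh s * (inner ℝ p e / zz p)) -
      inner ℝ (p + e) (Real.cosh s • p + Real.sinh s • e) = Real.exp (-s) := by
    simp only [inner_add_left, inner_add_right, real_inner_smul_right]
    rw [real_inner_self_eq_norm_sq, real_inner_self_eq_norm_sq, real_inner_comm p e, hv, he, h3]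
    rw [← Real.cosh_sub_sinh]
    set τ := inner ℝ p e / zz p with hτ
    rw [h4]
    ring
  rw [this, Real.log_exp]

theorem add_unit_ne (p e : E m) (he : hh p e e = 1) : p + e ≠ 0 := by
  intro h
  have h1 := norm_add_unit p e he
  rw [h, norm_zero] at h1
  linarith [h1.1, h1.2]

theorem geo_unit (p v : E m) (hv : v ≠ 0) (t : ℝ) :
    geo p v t = Real.cosh (Real.sqrt (hh p v v) * t) • p +
      Real.sinh (Real.sqrt (hh p v v) * t) • ((Real.sqrt (hh p v v))⁻¹ • v) := by
  unfold geo
  rw [smul_smul, div_eq_mul_inv]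

theorem hh_unit (p v : E m) (hv : v ≠ 0) :
    hh p ((Real.sqrt (hh p v v))⁻¹ • v) ((Real.sqrt (hh p v v))⁻¹ • v) = 1 := by
  have h1 := hh_pos p v hv
  have h2 := Real.sqrt_pos.2 h1
  have h3 := Real.sq_sqrt h1.le
  rw [hh_smul_left, hh_smul_right]
  set o := Real.sqrt (hh p v v) with ho
  rw [← h3]
  field_simp

theorem len_geo (κ : ℝ) (hκ : 0 < κ) (p v : E m) :
    len (hypM m κ hκ) (geo p v) = Real.sqrt κ * Real.sqrt (hh p v v) := by
  rw [len_eq]
  congr 1
  simp only [geo_speed]
  simp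

theorem rdist_geo (κ : ℝ) (hκ : 0 < κ) (p v : E m) :
    rdist (hypM m κ hκ) p (geo p v 1) = Real.sqrt κ * Real.sqrt (hh p v v) := by
  unfold rdist
  apply le_antisymm
  · apply csInf_le
    · refine ⟨0, ?_⟩
      rintro L ⟨η, hη, -, -, rfl⟩
      unfold len
      apply intervalIntegral.integral_nonneg (by norm_num)
      intro t _
      exact Real.sqrt_nonneg _
    · exact ⟨geo p v, geo_contDiff p v 1, geo_zero p v, rfl, (len_geo κ hκ p v).symm⟩
  · apply le_csInf
    · exact ⟨_, geo p v, geo_contDiff p v 1, geo_zero p v, rfl, rfl⟩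
    · rintro L ⟨η, hη, h0, h1, rfl⟩
      rcases eq_or_ne v 0 with rfl | hv
      · have : hh p (0 : E m) 0 = 0 := by
          have := hh_smul_right p (0 : E m) 0 0
          simpa using this
        rw [this, Real.sqrt_zero, mul_zero]
        unfold len
        apply intervalIntegral.integral_nonneg (by norm_num)
        intro t _
        exact Real.sqrt_nonneg _
      · have he := hh_unit p v hv
        set e := (Real.sqrt (hh p v v))⁻¹ • v with hedef
        have h2 := len_ge κ hκ (p + e) (add_unit_ne p e he) η hη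
        rw [h0, h1, geo_unit p v hv, ← hedef, bus_geo p e he] at h2
        have h3 : bus (p + e) p = 0 := by
          have := bus_geo p e he 0
          simpa using this
        rw [h3] at h2
        simpa using h2

/-- linear ODE uniqueness -/
theorem lin_ode_zero (f : ℝ → E m) (c : ℝ) (h : ∀ t, HasDerivAt f (c • f t) t) (h0 : f 0 = 0) :
    ∀ t, f t = 0 := by
  have h1 : ∀ t, HasDerivAt (fun t => Real.exp (-(c * t)) • f t) 0 t := by
    intro t
    have h2 : HasDerivAt (fun t : ℝ => Real.exp (-(c * t))) (Real.exp (-(c * t)) * (-c)) t := by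
      have h3 : HasDerivAt (fun t : ℝ => -(c * t)) (-c) t := by
        simpa using ((hasDerivAt_id t).const_mul c).fun_neg
      exact h3.exp
    refine (h2.fun_smul (h t)).congr_deriv ?_
    module
  have h2 : ∀ t, Real.exp (-(c * t)) • f t = Real.exp (-(c * 0)) • f 0 := by
    intro t
    exact is_const_of_deriv_eq_zero (fun t => (h1 t).differentiableAt) (fun t => (h1 t).deriv) t 0
  intro t
  have h3 := h2 t
  rw [h0, smul_zero, smul_eq_zero] at h3
  exact h3.resolve_left (Real.exp_ne_zero _)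

theorem speed_const (γ : ℝ → E m) (h : IsGeodesic (hypG m) γ) :
    ∀ t, hh (γ t) (deriv γ t) (deriv γ t) = hh (γ 0) (deriv γ 0) (deriv γ 0) := by
  obtain ⟨hc, hode⟩ := h
  have hd1 : ∀ t, HasDerivAt γ (deriv γ t) t := fun t =>
    ((hc.differentiable (by norm_num)) t).hasDerivAt
  have hc1 : ContDiff ℝ 1 (deriv γ) := by
    have : ContDiff ℝ (1 + 1) γ := by
      have e : (1 + 1 : WithTop ℕ∞) = 2 := by norm_num
      rw [e]; exact hc
    exact (contDiff_succ_iff_deriv.1 this).2.2
  have hd2 : ∀ t, HasDerivAt (deriv γ) (hh (γ t) (deriv γ t) (deriv γ t) • γ t) t := by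
    intro t
    have h1 := ((hc1.differentiable (by norm_num)) t).hasDerivAt
    rw [hode t, hypG_apply] at h1
    refine h1.congr_deriv ?_
    module
  have hder : ∀ t, HasDerivAt (fun t => hh (γ t) (deriv γ t) (deriv γ t)) 0 t := by
    intro t
    have e1 := (hd2 t).inner ℝ (hd2 t)
    have e2 := (hd1 t).inner ℝ (hd2 t)
    have e3 : HasDerivAt (fun s => 1 + ‖γ s‖ ^ 2) (2 * inner ℝ (γ t) (deriv γ t)) t := by
      simpa using ((hd1 t).norm_sq).const_add 1
    have hpos := (one_add_pos (γ t)).ne'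
    have e4 := e1.fun_sub ((e2.fun_mul e2).fun_div e3 hpos)
    unfold hh at e4 ⊢
    refine e4.congr_deriv ?_
    simp only [real_inner_smul_right, real_inner_smul_left]
    rw [real_inner_comm (γ t) (deriv γ t), real_inner_self_eq_norm_sq (γ t)]
    field_simp
    ring
  intro t
  exact is_const_of_deriv_eq_zero (fun t => (hder t).differentiableAt) (fun t => (hder t).deriv) t 0

theorem geodesic_unique (γ : ℝ → E m) (h : IsGeodesic (hypG m) γ) :
    ∀ t, γ t = geo (γ 0) (deriv γ 0) t := by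
  have hs := speed_const γ h
  obtain ⟨hc, hode⟩ := h
  have hd1 : ∀ t, HasDerivAt γ (deriv γ t) t := fun t =>
    ((hc.differentiable (by norm_num)) t).hasDerivAt
  have hc1 : ContDiff ℝ 1 (deriv γ) := by
    have : ContDiff ℝ (1 + 1) γ := by
      have e : (1 + 1 : WithTop ℕ∞) = 2 := by norm_num
      rw [e]; exact hc
    exact (contDiff_succ_iff_deriv.1 this).2.2
  set q := hh (γ 0) (deriv γ 0) (deriv γ 0) with hq
  have hq0 : 0 ≤ q := hh_nonneg _ _
  have hd2 : ∀ t, HasDerivAt (deriv γ) (q • γ t) t := by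
    intro t
    have h1 := ((hc1.differentiable (by norm_num)) t).hasDerivAt
    rw [hode t, hypG_apply, hs t] at h1
    refine h1.congr_deriv ?_
    module
  set p := γ 0 with hp
  set v := deriv γ 0 with hv
  set o := Real.sqrt q with ho
  have ho2 : o ^ 2 = q := Real.sq_sqrt hq0
  have g1 : ∀ t, HasDerivAt (geo p v) (deriv (geo p v) t) t := fun t =>
    (geo_hasDerivAt p v t).differentiableAt.hasDerivAt
  have g2 : ∀ t, HasDerivAt (deriv (geo p v)) (q • geo p v t) t := fun t =>
    geo_deriv_hasDerivAt p v t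
  -- first order factor
  have ha : ∀ t, (deriv γ t - deriv (geo p v) t) + o • (γ t - geo p v t) = 0 := by
    apply lin_ode_zero _ o
    · intro t
      refine (((hd2 t).fun_sub (g2 t)).fun_add (((hd1 t).fun_sub (g1 t)).fun_const_smul o)).congr_deriv ?_
      rw [← ho2]
      module
    · rw [geo_deriv_zero, geo_zero]
      simp [hp, hv]
  have hb : ∀ t, γ t - geo p v t = 0 := by
    apply lin_ode_zero _ (-o)
    · intro t
      refine ((hd1 t).fun_sub (g1 t)).congr_deriv ?_
      have := ha t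
      rw [neg_smul]
      exact eq_neg_of_add_eq_zero_left this
    · rw [geo_zero]
      simp [hp]
  intro t
  exact sub_eq_zero.1 (hb t)

theorem geo_smul (p v : E m) (t : ℝ) (ht : 0 ≤ t) : geo p (t • v) 1 = geo p v t := by
  unfold geo
  have h1 : Real.sqrt (hh p (t • v) (t • v)) = t * Real.sqrt (hh p v v) := by
    rw [hh_smul_left, hh_smul_right, ← mul_assoc, ← sq, Real.sqrt_mul (by positivity),
      Real.sqrt_sq ht]
  rw [h1, mul_one, mul_comm t, smul_smul]
  rcases eq_or_lt_of_le ht with h0 | h0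
  · rw [← h0]; simp
  · congr 2
    rw [mul_comm (Real.sqrt (hh p v v)) t, div_mul_eq_mul_div, mul_comm t (Real.sqrt _), mul_div_mul_right _ _ h0.ne']

theorem hyp_inj (κ : ℝ) (hκ : 0 < κ) (ρ : ℝ) : InjRadGE (hypM m κ hκ) (hypG m) ρ := by
  intro γ hγ hunit t ht _
  rw [geodesic_unique γ hγ t, ← geo_smul _ _ t ht, rdist_geo]
  rw [hypM_apply] at hunit
  rw [hh_smul_left, hh_smul_right, ← mul_assoc, ← sq, Real.sqrt_mul (by positivity),
      Real.sqrt_sq ht]
  have h1 : Real.sqrt κ * Real.sqrt (hh (γ 0) (deriv γ 0) (deriv γ 0)) = 1 := by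
    rw [← Real.sqrt_mul hκ.le, hunit, Real.sqrt_one]
  linear_combination t * h1

/-- two distinct points are joined by a geodesic -/
theorem exists_geo (p q : E m) (hpq : p ≠ q) : ∃ (v : E m) (d : ℝ), 0 < d ∧
    Real.sqrt (hh p v v) = d ∧ geo p v 1 = q ∧
    ∀ t, geo p v t = (Real.sinh (d * (1 - t)) / Real.sinh d) • p + (Real.sinh (d * t) / Real.sinh d) • q := by
  have hz := zz_pos p
  have hzs := zz_sq p
  have hz' := zz_pos q
  have hzs' := zz_sq q
  have h3 : ‖p‖ ^ 2 = zz p ^ 2 - 1 := by linarith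
  have h3' : ‖q‖ ^ 2 = zz q ^ 2 - 1 := by linarith
  set C := zz p * zz q - inner ℝ p q with hC
  have hpq2 : inner ℝ p q = zz p * zz q - C := by rw [hC]; ring
  have e1 : hh p (q + (-C) • p) (q + (-C) • p) = C ^ 2 - 1 := by
    unfold hh
    rw [← hzs, real_inner_self_eq_norm_sq, norm_add_sq_real, norm_smul, real_inner_smul_right,
      inner_add_right, real_inner_smul_right, real_inner_self_eq_norm_sq, real_inner_comm p q,
      Real.norm_eq_abs, mul_pow, sq_abs, h3, h3', hpq2]
    field_simp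
    ring
  -- C > 1
  have hC1 : 1 < C := by
    have hC0 : 0 < C := by
      have h1 : inner ℝ p q ≤ ‖p‖ * ‖q‖ := real_inner_le_norm p q
      have h2 : ‖p‖ * ‖q‖ < zz p * zz q := by
        apply mul_lt_mul'' (zz_gt p) (zz_gt q) (norm_nonneg _) (norm_nonneg _)
      rw [hC]; linarith
    have hne : q + (-C) • p ≠ 0 := by
      intro h0
      have h4 : q = C • p := by
        rw [neg_smul, ← sub_eq_add_neg, sub_eq_zero] at h0
        exact h0
      have h5 : C ^ 2 - 1 = 0 := by
        rw [← e1, h0]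
        have := hh_smul_right p (0 : E m) 0 0
        simpa using this
      have h6 : C = 1 := by nlinarith
      rw [h6, one_smul] at h4
      exact hpq h4.symm
    have h7 := hh_pos p _ hne
    rw [e1] at h7
    nlinarith
  set S := Real.sqrt (C ^ 2 - 1) with hS
  have hS2 : S ^ 2 = C ^ 2 - 1 := Real.sq_sqrt (by nlinarith)
  have hSpos : 0 < S := Real.sqrt_pos.2 (by nlinarith)
  set d := Real.arsinh S with hd
  have hsd : Real.sinh d = S := Real.sinh_arsinh S
  have hcd : Real.cosh d = C := by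
    have h1 := Real.cosh_sq d
    rw [hsd, hS2] at h1
    have h2 : Real.cosh d ^ 2 = C ^ 2 := by linarith
    exact (pow_left_inj₀ (Real.cosh_pos d).le (by linarith) (by norm_num)).1 h2
  have hdpos : 0 < d := Real.arsinh_pos_iff.2 hSpos
  set e := S⁻¹ • (q + (-C) • p) with he
  have hee : hh p e e = 1 := by
    rw [he, hh_smul_left, hh_smul_right, e1, ← hS2]
    field_simp
  have hsq : Real.sqrt (hh p (d • e) (d • e)) = d := by
    rw [hh_smul_left, hh_smul_right, hee, mul_one, ← sq]
    exact Real.sqrt_sq hdpos.le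
  have hform : ∀ t, geo p (d • e) t = (Real.sinh (d * (1 - t)) / Real.sinh d) • p +
      (Real.sinh (d * t) / Real.sinh d) • q := by
    intro t
    unfold geo
    rw [hsq, smul_smul, div_mul_cancel₀ _ hdpos.ne', he, smul_smul, smul_add, smul_smul, hsd]
    have h1 : Real.sinh (d * (1 - t)) = S * Real.cosh (d * t) - C * Real.sinh (d * t) := by
      rw [mul_sub, mul_one, Real.sinh_sub, hsd, hcd]
    rw [h1, add_comm ((Real.sinh (d * t) * S⁻¹) • q), ← add_assoc, ← add_smul]
    congr 2
    field_simp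
    ring
  refine ⟨d • e, d, hdpos, hsq, ?_, hform⟩
  rw [hform 1]
  simp
  rw [hsd, div_self hSpos.ne', one_smul]

theorem zz_comb (p q : E m) (hpq : p ≠ q) (v : E m) (d : ℝ) (hd : 0 < d)
    (hv : Real.sqrt (hh p v v) = d) (hq : geo p v 1 = q) (t : ℝ) :
    zz (geo p v t) = (Real.sinh (d * (1 - t)) / Real.sinh d) * zz p +
      (Real.sinh (d * t) / Real.sinh d) * zz q := by
  have hs : d ^ 2 = hh p v v := by
    rw [← hv]; exact Real.sq_sqrt (hh_nonneg p v)
  have key : ∀ t, zz (geo p v t) = Real.cosh (d * t) * zz p +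
      (Real.sinh (d * t) / d) * (inner ℝ p v / zz p) := by
    intro t
    unfold geo
    rw [hv]
    exact lin_zz p v _ _ d hd.le hs (cosh_sinh_rel d t) (Real.cosh_pos _)
  have h1 := key 1
  rw [hq, mul_one] at h1
  rw [key t, h1]
  have hsd : Real.sinh d ≠ 0 := (Real.sinh_pos_iff.2 hd).ne'
  rw [mul_sub, mul_one, Real.sinh_sub]
  field_simp
  ring

end Pool.Agent.Helper43.Roll
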