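import Mathlib
import Pool.Agent.Helper43.RollGeo

set_option autoImplicit false

open Set
open scoped ContDiff

namespace Pool.Agent.Helper43.Roll

/-- the defining polynomial in coordinates -/
noncomputable def FF (ε a b : ℝ) : ℝ :=
  (1 + b ^ 2) ^ 2 - (1 + b ^ 2) - ε * (1 + a ^ 2 + b ^ 2) * (1 + b ^ 2)
    + ε ^ 2 * (1 + a ^ 2 + b ^ 2) ^ 2

/-- first partial derivatives -/
noncomputable def FA (ε a b : ℝ) : ℝ := 2 * a * (-ε * (1 + b ^ 2) + 2 * ε ^ 2 * (1 + a ^ 2 + b ^ 2))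

noncomputable def FB (ε a b : ℝ) : ℝ :=
  2 * b * (2 * (1 + b ^ 2) - 1 - ε * (1 + a ^ 2 + b ^ 2)
    + (-ε * (1 + b ^ 2) + 2 * ε ^ 2 * (1 + a ^ 2 + b ^ 2)))

noncomputable def FAA (ε a b : ℝ) : ℝ :=
  2 * (-ε * (1 + b ^ 2) + 2 * ε ^ 2 * (1 + a ^ 2 + b ^ 2)) + 8 * ε ^ 2 * a ^ 2

noncomputable def FAB (ε a b : ℝ) : ℝ := 4 * a * b * (2 * ε ^ 2 - ε)

noncomputable def FBB (ε a b : ℝ) : ℝ :=
  2 * (2 * (1 + b ^ 2) - 1 - ε * (1 + a ^ 2 + b ^ 2)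
    + (-ε * (1 + b ^ 2) + 2 * ε ^ 2 * (1 + a ^ 2 + b ^ 2))) + 4 * b ^ 2 * (2 - 2 * ε + 2 * ε ^ 2)

theorem FF_hasDerivAt (ε : ℝ) (a b : ℝ → ℝ) (a' b' t : ℝ) (ha : HasDerivAt a a' t)
    (hb : HasDerivAt b b' t) :
    HasDerivAt (fun s => FF ε (a s) (b s)) (FA ε (a t) (b t) * a' + FB ε (a t) (b t) * b') t := by
  have hY : HasDerivAt (fun s => 1 + b s ^ 2) (2 * b t * b') t := by
    have := (hb.fun_pow 2).const_add 1
    refine this.congr_deriv ?_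
    norm_num
  have hA : HasDerivAt (fun s => 1 + a s ^ 2 + b s ^ 2) (2 * a t * a' + 2 * b t * b') t := by
    have := ((ha.fun_pow 2).const_add 1).fun_add (hb.fun_pow 2)
    refine this.congr_deriv ?_
    norm_num
  have h := (((hY.fun_pow 2).fun_sub hY).fun_sub ((hA.const_mul ε).fun_mul hY)).fun_add
    ((hA.fun_pow 2).const_mul (ε ^ 2))
  unfold FF
  refine h.congr_deriv ?_
  unfold FA FB
  norm_num
  ring

theorem FA_hasDerivAt (ε : ℝ) (a b : ℝ → ℝ) (a' b' t : ℝ) (ha : HasDerivAt a a' t)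
    (hb : HasDerivAt b b' t) :
    HasDerivAt (fun s => FA ε (a s) (b s)) (FAA ε (a t) (b t) * a' + FAB ε (a t) (b t) * b') t := by
  have hY : HasDerivAt (fun s => 1 + b s ^ 2) (2 * b t * b') t := by
    have := (hb.fun_pow 2).const_add 1
    refine this.congr_deriv ?_
    norm_num
  have hA : HasDerivAt (fun s => 1 + a s ^ 2 + b s ^ 2) (2 * a t * a' + 2 * b t * b') t := by
    have := ((ha.fun_pow 2).const_add 1).fun_add (hb.fun_pow 2)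
    refine this.congr_deriv ?_
    norm_num
  have h := (ha.const_mul 2).fun_mul ((hY.const_mul (-ε)).fun_add (hA.const_mul (2 * ε ^ 2)))
  unfold FA
  refine h.congr_deriv ?_
  unfold FAA FAB
  ring

theorem FB_hasDerivAt (ε : ℝ) (a b : ℝ → ℝ) (a' b' t : ℝ) (ha : HasDerivAt a a' t)
    (hb : HasDerivAt b b' t) :
    HasDerivAt (fun s => FB ε (a s) (b s)) (FAB ε (a t) (b t) * a' + FBB ε (a t) (b t) * b') t := by
  have hY : HasDerivAt (fun s => 1 + b s ^ 2) (2 * b t * b') t := by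
    have := (hb.fun_pow 2).const_add 1
    refine this.congr_deriv ?_
    norm_num
  have hA : HasDerivAt (fun s => 1 + a s ^ 2 + b s ^ 2) (2 * a t * a' + 2 * b t * b') t := by
    have := ((ha.fun_pow 2).const_add 1).fun_add (hb.fun_pow 2)
    refine this.congr_deriv ?_
    norm_num
  have h := (hb.const_mul 2).fun_mul ((((hY.const_mul 2).sub_const 1).fun_sub (hA.const_mul ε)).fun_add
    ((hY.const_mul (-ε)).fun_add (hA.const_mul (2 * ε ^ 2))))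
  unfold FB
  refine h.congr_deriv ?_
  unfold FBB FAB
  ring

/-- squared length of the gradient -/
noncomputable def G2 (ε a b : ℝ) : ℝ :=
  FA ε a b ^ 2 + FB ε a b ^ 2 + (a * FA ε a b + b * FB ε a b) ^ 2

/-- numerator of the curvature -/
noncomputable def NN (ε a b : ℝ) : ℝ :=
  (1 + a ^ 2 + b ^ 2) * (FAA ε a b * FB ε a b ^ 2 - 2 * FAB ε a b * FA ε a b * FB ε a b
    + FBB ε a b * FA ε a b ^ 2) + G2 ε a b * (a * FA ε a b + b * FB ε a b)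

/-- The parameter on the boundary. -/
theorem param (ε a b : ℝ) (hε : 0 < ε) (hF : FF ε a b = 0) :
    ∃ p Y : ℝ, ε ≤ p ∧ p ≤ 1 ∧ 1 ≤ Y ∧ Y * (1 - p + p ^ 2) = 1 ∧ Y = 1 + b ^ 2 ∧
      1 + a ^ 2 + b ^ 2 = p * Y / ε ∧ a ^ 2 = Y * (p - ε) / ε ∧ b ^ 2 = Y * p * (1 - p) := by
  set Y := 1 + b ^ 2 with hY
  set A := 1 + a ^ 2 + b ^ 2 with hA
  have hY1 : 1 ≤ Y := by rw [hY]; nlinarith [sq_nonneg b]
  have hAY : Y ≤ A := by rw [hY, hA]; nlinarith [sq_nonneg a]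
  have hYpos : 0 < Y := by linarith
  have hF' : Y ^ 2 - Y - ε * A * Y + ε ^ 2 * A ^ 2 = 0 := hF
  have hp : ε * A / Y * Y = ε * A := by field_simp
  set p := ε * A / Y with hpdef
  have h1 : Y * (1 - p + p ^ 2) = 1 := by
    have h2 : Y * (Y * (1 - p + p ^ 2) - 1) = 0 := by
      have : Y * (Y * (1 - p + p ^ 2) - 1) = Y ^ 2 - Y - (p * Y) * Y + (p * Y) ^ 2 := by ring
      rw [this, hp]
      linarith
    rcases mul_eq_zero.1 h2 with h3 | h3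
    · linarith
    · linarith
  have hεp : ε ≤ p := by
    rw [hpdef, le_div_iff₀ hYpos]
    exact mul_le_mul_of_nonneg_left hAY hε.le
  have hp1 : p ≤ 1 := by
    by_contra h
    rw [not_le] at h
    have h2 : 1 < 1 - p + p ^ 2 := by nlinarith
    nlinarith
  refine ⟨p, Y, hεp, hp1, hY1, h1, rfl, ?_, ?_, ?_⟩
  · rw [hp]; field_simp
  · have : a ^ 2 = A - Y := by rw [hA, hY]; ring
    rw [this, eq_div_iff hε.ne']
    linear_combination -hp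
  · have : b ^ 2 = Y - 1 := by rw [hY]; ring
    rw [this]
    linear_combination h1

theorem G2_eq (ε a b p Y : ℝ) (hε : 0 < ε) (hY : Y * (1 - p + p ^ 2) = 1) (hYb : Y = 1 + b ^ 2)
    (hA : 1 + a ^ 2 + b ^ 2 = p * Y / ε) (ha : a ^ 2 = Y * (p - ε) / ε) (hb : b ^ 2 = Y * p * (1 - p)) :
    G2 ε a b = 4 * Y ^ 3 * ((p - ε) * (p ^ 3 * (1 - p + p ^ 2) + (1 - p) * (1 - p ^ 2) ^ 2)
      + ε * (1 - p) * (1 - p + p ^ 2)) := by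
  have e1 : G2 ε a b = 4 * a ^ 2 * (-ε * (1 + b ^ 2) + 2 * ε ^ 2 * (1 + a ^ 2 + b ^ 2)) ^ 2
      + 4 * b ^ 2 * (2 * (1 + b ^ 2) - 1 - ε * (1 + a ^ 2 + b ^ 2)
    + (-ε * (1 + b ^ 2) + 2 * ε ^ 2 * (1 + a ^ 2 + b ^ 2))) ^ 2
      + (2 * a ^ 2 * (-ε * (1 + b ^ 2) + 2 * ε ^ 2 * (1 + a ^ 2 + b ^ 2)) +
        2 * b ^ 2 * (2 * (1 + b ^ 2) - 1 - ε * (1 + a ^ 2 + b ^ 2)
    + (-ε * (1 + b ^ 2) + 2 * ε ^ 2 * (1 + a ^ 2 + b ^ 2)))) ^ 2 := by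
    unfold G2 FA FB
    ring
  rw [e1, hA, ← hYb, ha, hb]
  have hq : 1 - p + p ^ 2 ≠ 0 := by
    intro h; rw [h] at hY; simp at hY
  have hY2 : Y = 1 / (1 - p + p ^ 2) := by
    field_simp
    linarith
  rw [hY2]
  field_simp
  ring

theorem NN_eq (ε a b p Y : ℝ) (hε : 0 < ε) (hY : Y * (1 - p + p ^ 2) = 1) (hYb : Y = 1 + b ^ 2)
    (hA : 1 + a ^ 2 + b ^ 2 = p * Y / ε) (ha : a ^ 2 = Y * (p - ε) / ε) (hb : b ^ 2 = Y * p * (1 - p)) :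
    NN ε a b = 8 * p ^ 2 * Y ^ 3 * (ε * (1 - p) + (p - ε) * (4 - 3 * p)) := by
  have hG := G2_eq ε a b p Y hε hY hYb hA ha hb
  have e1 : NN ε a b = (1 + a ^ 2 + b ^ 2) * (
      (2 * (-ε * (1 + b ^ 2) + 2 * ε ^ 2 * (1 + a ^ 2 + b ^ 2)) + 8 * ε ^ 2 * a ^ 2) *
        (4 * b ^ 2 * (2 * (1 + b ^ 2) - 1 - ε * (1 + a ^ 2 + b ^ 2)
    + (-ε * (1 + b ^ 2) + 2 * ε ^ 2 * (1 + a ^ 2 + b ^ 2))) ^ 2)
      - 32 * a ^ 2 * b ^ 2 * (2 * ε ^ 2 - ε) * (-ε * (1 + b ^ 2) + 2 * ε ^ 2 * (1 + a ^ 2 + b ^ 2)) *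
        (2 * (1 + b ^ 2) - 1 - ε * (1 + a ^ 2 + b ^ 2)
    + (-ε * (1 + b ^ 2) + 2 * ε ^ 2 * (1 + a ^ 2 + b ^ 2)))
      + (2 * (2 * (1 + b ^ 2) - 1 - ε * (1 + a ^ 2 + b ^ 2)
    + (-ε * (1 + b ^ 2) + 2 * ε ^ 2 * (1 + a ^ 2 + b ^ 2))) + 4 * b ^ 2 * (2 - 2 * ε + 2 * ε ^ 2)) *
        (4 * a ^ 2 * (-ε * (1 + b ^ 2) + 2 * ε ^ 2 * (1 + a ^ 2 + b ^ 2)) ^ 2))
      + G2 ε a b * (2 * a ^ 2 * (-ε * (1 + b ^ 2) + 2 * ε ^ 2 * (1 + a ^ 2 + b ^ 2)) +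
        2 * b ^ 2 * (2 * (1 + b ^ 2) - 1 - ε * (1 + a ^ 2 + b ^ 2)
    + (-ε * (1 + b ^ 2) + 2 * ε ^ 2 * (1 + a ^ 2 + b ^ 2)))) := by
    unfold NN FA FB FAA FAB FBB
    ring
  rw [e1, hG, hA, ← hYb, ha, hb]
  have hq : 1 - p + p ^ 2 ≠ 0 := by
    intro h; rw [h] at hY; simp at hY
  have hY2 : Y = 1 / (1 - p + p ^ 2) := by
    field_simp
    linarith
  rw [hY2]
  field_simp
  ring


/-- auxiliary lower bound -/
theorem W_lower (ε p : ℝ) (hε : 0 < ε) (hε1 : ε ≤ 1 / 1000000) (hp : ε ≤ p) (hp1 : p ≤ 1) :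
    3 / 64 * p ≤ (p - ε) * (p ^ 3 * (1 - p + p ^ 2) + (1 - p) * (1 - p ^ 2) ^ 2)
      + ε * (1 - p) * (1 - p + p ^ 2) := by
  have hp0 : 0 < p := by linarith
  have hq : 3 / 4 ≤ 1 - p + p ^ 2 := by nlinarith [sq_nonneg (p - 1 / 2)]
  rcases le_total p (1 / 2) with h | h
  · have h1 : 9 / 16 ≤ (1 - p ^ 2) ^ 2 := by
      have : 3 / 4 ≤ 1 - p ^ 2 := by nlinarith
      nlinarith
    have h2 : 9 / 32 ≤ (1 - p) * (1 - p ^ 2) ^ 2 := by nlinarith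
    have h3 : 0 ≤ p ^ 3 * (1 - p + p ^ 2) := by positivity
    have h4 : (p - ε) * (9 / 32) ≤ (p - ε) * (p ^ 3 * (1 - p + p ^ 2) + (1 - p) * (1 - p ^ 2) ^ 2) :=
      mul_le_mul_of_nonneg_left (by linarith) (by linarith)
    have h5 : 9 / 32 ≤ (1 - p) * (1 - p + p ^ 2) := by nlinarith
    have h6 : ε * (9 / 32) ≤ ε * ((1 - p) * (1 - p + p ^ 2)) :=
      mul_le_mul_of_nonneg_left h5 hε.le
    nlinarith
  · have h1 : 1 / 8 ≤ p ^ 3 := by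
      have : (1/2:ℝ) ^ 3 ≤ p ^ 3 := pow_le_pow_left₀ (by norm_num) h 3
      linarith
    have h2 : 3 / 32 ≤ p ^ 3 * (1 - p + p ^ 2) := by
      calc (3/32 : ℝ) = 1 / 8 * (3 / 4) := by norm_num
        _ ≤ _ := mul_le_mul h1 hq (by norm_num) (by positivity)
    have h3 : 0 ≤ (1 - p) * (1 - p ^ 2) ^ 2 := mul_nonneg (by linarith) (by positivity)
    have h4 : (p - ε) * (3 / 32) ≤ (p - ε) * (p ^ 3 * (1 - p + p ^ 2) + (1 - p) * (1 - p ^ 2) ^ 2) :=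
      mul_le_mul_of_nonneg_left (by linarith) (by linarith)
    have h5 : 0 ≤ ε * (1 - p) * (1 - p + p ^ 2) :=
      mul_nonneg (mul_nonneg hε.le (by linarith)) (by linarith)
    nlinarith

theorem W_upper (ε p : ℝ) (hε : 0 < ε) (hε1 : ε ≤ 1 / 1000000) (hp : ε ≤ p) (hp1 : p ≤ 1) :
    (p - ε) * (p ^ 3 * (1 - p + p ^ 2) + (1 - p) * (1 - p ^ 2) ^ 2)
      + ε * (1 - p) * (1 - p + p ^ 2) ≤ 2 * p := by
  have hp0 : 0 < p := by linarith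
  have hq : 1 - p + p ^ 2 ≤ 1 := by nlinarith
  have hq0 : 0 ≤ 1 - p + p ^ 2 := by nlinarith [sq_nonneg (p - 1 / 2)]
  have h1 : p ^ 3 * (1 - p + p ^ 2) ≤ 1 := by
    have : p ^ 3 ≤ 1 := pow_le_one₀ hp0.le hp1
    calc p ^ 3 * (1 - p + p ^ 2) ≤ 1 * 1 := mul_le_mul this hq hq0 (by norm_num)
      _ = 1 := by norm_num
  have h2 : (1 - p) * (1 - p ^ 2) ^ 2 ≤ 1 := by
    have h3 : (1 - p ^ 2) ^ 2 ≤ 1 := by
      apply pow_le_one₀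
      · nlinarith
      · nlinarith
    calc (1 - p) * (1 - p ^ 2) ^ 2 ≤ 1 * 1 := mul_le_mul (by linarith) h3 (by positivity) (by norm_num)
      _ = 1 := by norm_num
  have h4 : (p - ε) * (p ^ 3 * (1 - p + p ^ 2) + (1 - p) * (1 - p ^ 2) ^ 2) ≤ (p - ε) * 2 :=
    mul_le_mul_of_nonneg_left (by linarith) (by linarith)
  have h5 : (1 - p) * (1 - p + p ^ 2) ≤ 1 := by
    calc (1 - p) * (1 - p + p ^ 2) ≤ 1 * 1 := mul_le_mul (by linarith) hq hq0 (by norm_num)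
      _ = 1 := by norm_num
  have h6 : ε * ((1 - p) * (1 - p + p ^ 2)) ≤ ε * 1 := mul_le_mul_of_nonneg_left h5 hε.le
  nlinarith

theorem upper_alg (p Y W M : ℝ) (hp0 : 0 < p) (hp1 : p ≤ 1) (hY1 : 1 ≤ Y) (hW1 : 3 / 64 * p ≤ W)
    (hM2 : M ≤ 2) (hMpos : 0 < M) :
    (8 * p ^ 2 * Y ^ 3 * M) ^ 2 ≤ 200 ^ 2 * (4 * Y ^ 3 * W) ^ 3 := by
  have hYpos : 0 < Y := by linarith
  have hWpos : 0 < W := by linarith
  have h4 : (3 / 64 * p) ^ 3 ≤ W ^ 3 := pow_le_pow_left₀ (by positivity) hW1 3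
  have h5 : (1:ℝ) ≤ Y ^ 3 := one_le_pow₀ hY1
  have h6 : M ^ 2 ≤ 4 := by nlinarith
  have hp3 : 0 < p ^ 3 := by positivity
  have h7 : p ^ 4 ≤ p ^ 3 := by
    have h8 : p ^ 4 = p * p ^ 3 := by ring
    rw [h8]
    have := mul_le_mul_of_nonneg_right hp1 hp3.le
    linarith
  have h9 : p ^ 4 * M ^ 2 ≤ p ^ 3 * 4 := mul_le_mul h7 h6 (by positivity) hp3.le
  have h10 : 4 * p ^ 3 ≤ 200 ^ 2 * (3 / 64 * p) ^ 3 := by
    have h11 : (200:ℝ) ^ 2 * (3 / 64 * p) ^ 3 = (200 ^ 2 * (3 / 64) ^ 3) * p ^ 3 := by ring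
    rw [h11]
    exact mul_le_mul_of_nonneg_right (by norm_num) hp3.le
  have h12 : (200:ℝ) ^ 2 * (3 / 64 * p) ^ 3 ≤ 200 ^ 2 * W ^ 3 :=
    mul_le_mul_of_nonneg_left h4 (by norm_num)
  have h13 : 200 ^ 2 * W ^ 3 ≤ Y ^ 3 * (200 ^ 2 * W ^ 3) := by
    have h14 : 0 ≤ 200 ^ 2 * W ^ 3 := by positivity
    have := mul_le_mul_of_nonneg_right h5 h14
    linarith
  have h15 : p ^ 4 * M ^ 2 ≤ Y ^ 3 * (200 ^ 2 * W ^ 3) := by linarith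
  have h16 : 0 ≤ 64 * Y ^ 6 := by positivity
  have h17 := mul_le_mul_of_nonneg_left h15 h16
  calc (8 * p ^ 2 * Y ^ 3 * M) ^ 2 = 64 * Y ^ 6 * (p ^ 4 * M ^ 2) := by ring
    _ ≤ 64 * Y ^ 6 * (Y ^ 3 * (200 ^ 2 * W ^ 3)) := h17
    _ = _ := by ring

theorem lower_alg (ε p Y W M : ℝ) (hε : 0 < ε) (hε1 : ε ≤ 1 / 1000000) (hp : ε ≤ p)
    (hY1 : 1 ≤ Y) (hYle : Y ≤ 4 / 3) (hWpos : 0 < W)
    (hW2 : W ≤ 2 * p) (hM1 : p * (1 - ε) ≤ M) :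
    (ε ^ 2 / 16) ^ 2 * (4 * Y ^ 3 * W) ^ 3 ≤ (8 * p ^ 2 * Y ^ 3 * M) ^ 2 := by
  have hp0 : 0 < p := by linarith
  have hYpos : 0 < Y := by linarith
  have h4 : W ^ 3 ≤ (2 * p) ^ 3 := pow_le_pow_left₀ hWpos.le hW2 3
  have h5 : Y ^ 3 ≤ (4 / 3) ^ 3 := pow_le_pow_left₀ hYpos.le hYle 3
  have h55 : p / 2 ≤ M := by nlinarith
  have h6 : (p / 2) ^ 2 ≤ M ^ 2 := pow_le_pow_left₀ (by positivity) h55 2
  have h8 : ε ^ 3 ≤ p ^ 3 := pow_le_pow_left₀ hε.le hp 3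
  have h9 : ε ^ 4 ≤ ε ^ 3 := pow_le_pow_of_le_one hε.le (by linarith) (by norm_num)
  have h7 : ε ^ 4 ≤ p ^ 3 := by linarith
  have hp3 : 0 < p ^ 3 := by positivity
  have h10 : Y ^ 3 * W ^ 3 ≤ (4 / 3) ^ 3 * (2 * p) ^ 3 :=
    mul_le_mul h5 h4 (by positivity) (by norm_num)
  have h11 : ε ^ 4 * (Y ^ 3 * W ^ 3) ≤ p ^ 3 * ((4 / 3) ^ 3 * (2 * p) ^ 3) :=
    mul_le_mul h7 h10 (by positivity) hp3.le
  have h12 : p ^ 4 * (p / 2) ^ 2 ≤ p ^ 4 * M ^ 2 := mul_le_mul_of_nonneg_left h6 (by positivity)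
  have h13 : (1 / 256) * (ε ^ 4 * (Y ^ 3 * W ^ 3)) ≤ p ^ 4 * M ^ 2 := by
    have h14 : (1 / 256) * (p ^ 3 * ((4 / 3) ^ 3 * (2 * p) ^ 3)) ≤ p ^ 4 * (p / 2) ^ 2 := by
      have h15 : 0 ≤ p ^ 6 := by positivity
      have e1 : (1 / 256) * (p ^ 3 * ((4 / 3) ^ 3 * (2 * p) ^ 3)) = (2 / 27) * p ^ 6 := by ring
      have e2 : p ^ 4 * (p / 2) ^ 2 = (1 / 4) * p ^ 6 := by ring
      rw [e1, e2]
      linarith
    linarith
  have h16 : 0 ≤ 64 * Y ^ 6 := by positivity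
  have h17 := mul_le_mul_of_nonneg_left h13 h16
  calc (ε ^ 2 / 16) ^ 2 * (4 * Y ^ 3 * W) ^ 3
      = 64 * Y ^ 6 * ((1 / 256) * (ε ^ 4 * (Y ^ 3 * W ^ 3))) := by ring
    _ ≤ 64 * Y ^ 6 * (p ^ 4 * M ^ 2) := h17
    _ = _ := by ring

/-- The two curvature bounds on the boundary. -/
theorem bounds (ε a b : ℝ) (hε : 0 < ε) (hε1 : ε ≤ 1 / 1000000) (hF : FF ε a b = 0) :
    0 < G2 ε a b ∧ 0 < NN ε a b ∧ NN ε a b ^ 2 ≤ 200 ^ 2 * G2 ε a b ^ 3 ∧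
      (ε ^ 2 / 16) ^ 2 * G2 ε a b ^ 3 ≤ NN ε a b ^ 2 := by
  obtain ⟨p, Y, hp, hp1, hY1, hY, hYb, hA, ha, hb⟩ := param ε a b hε hF
  rw [NN_eq ε a b p Y hε hY hYb hA ha hb, G2_eq ε a b p Y hε hY hYb hA ha hb]
  have hW1 := W_lower ε p hε hε1 hp hp1
  have hW2 := W_upper ε p hε hε1 hp hp1
  have hp0 : 0 < p := by linarith
  have hYpos : 0 < Y := by linarith
  have hYle : Y ≤ 4 / 3 := by
    have hq : 3 / 4 ≤ 1 - p + p ^ 2 := by nlinarith [sq_nonneg (p - 1 / 2)]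
    nlinarith
  have hM1 : p * (1 - ε) ≤ ε * (1 - p) + (p - ε) * (4 - 3 * p) := by
    have h1 : (p - ε) * 1 ≤ (p - ε) * (4 - 3 * p) := mul_le_mul_of_nonneg_left (by linarith) (by linarith)
    linarith
  have hM2 : ε * (1 - p) + (p - ε) * (4 - 3 * p) ≤ 2 := by
    have h1 : (p - ε) * (4 - 3 * p) ≤ p * (4 - 3 * p) := mul_le_mul_of_nonneg_right (by linarith) (by linarith)
    have h2 : p * (4 - 3 * p) ≤ 4 / 3 := by nlinarith [sq_nonneg (p - 2 / 3)]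
    have h3 : ε * (1 - p) ≤ ε * 1 := mul_le_mul_of_nonneg_left (by linarith) hε.le
    linarith
  generalize (p - ε) * (p ^ 3 * (1 - p + p ^ 2) + (1 - p) * (1 - p ^ 2) ^ 2)
      + ε * (1 - p) * (1 - p + p ^ 2) = W at *
  generalize ε * (1 - p) + (p - ε) * (4 - 3 * p) = M at *
  have hWpos : 0 < W := by linarith
  have hMpos : 0 < M := by
    have : 0 < p * (1 - ε) := mul_pos hp0 (by linarith)
    linarith
  exact ⟨by positivity, by positivity, upper_alg p Y W M hp0 hp1 hY1 hW1 hM2 hMpos,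
    lower_alg ε p Y W M hε hε1 hp hY1 hYle hWpos hW2 hM1⟩

end Pool.Agent.Helper43.Roll
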