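import Mathlib
import Pool.Agent.Helper43.RollDom

set_option autoImplicit false

open Set
open scoped ContDiff

namespace Pool.Agent.Helper43.Roll

theorem inner_two (v w : E 2) : inner ℝ v w = v 0 * w 0 + v 1 * w 1 := by
  rw [PiLp.inner_apply, Fin.sum_univ_two]
  simp
  ring

theorem norm_sq_two (v : E 2) : ‖v‖ ^ 2 = v 0 ^ 2 + v 1 ^ 2 := by
  rw [← real_inner_self_eq_norm_sq, inner_two]
  ring

theorem hh_two (x v w : E 2) : hh x v w = v 0 * w 0 + v 1 * w 1 -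
    (x 0 * v 0 + x 1 * v 1) * (x 0 * w 0 + x 1 * w 1) / (1 + x 0 ^ 2 + x 1 ^ 2) := by
  unfold hh
  rw [inner_two, inner_two, inner_two, norm_sq_two]
  ring

/-- defining function of the domain -/
noncomputable def ff (ε : ℝ) (x : E 2) : ℝ := FF ε (x 0) (x 1)

theorem contDiff_coord (i : Fin 2) (n : WithTop ℕ∞) : ContDiff ℝ n (fun x : E 2 => x i) :=
  (EuclideanSpace.proj (𝕜 := ℝ) i).contDiff

theorem contDiff_ff (ε : ℝ) : ContDiff ℝ ∞ (ff ε) := by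
  unfold ff FF
  have h0 := contDiff_coord 0 ∞
  have h1 := contDiff_coord 1 ∞
  have hY : ContDiff ℝ ∞ (fun x : E 2 => 1 + x 1 ^ 2) := contDiff_const.add (h1.pow 2)
  have hA : ContDiff ℝ ∞ (fun x : E 2 => 1 + x 0 ^ 2 + x 1 ^ 2) :=
    (contDiff_const.add (h0.pow 2)).add (h1.pow 2)
  exact (((hY.pow 2).sub hY).sub ((contDiff_const.mul hA).mul hY)).add
    (contDiff_const.mul (hA.pow 2))

theorem hasDerivAt_coord (γ : ℝ → E 2) (γ' : E 2) (t : ℝ) (h : HasDerivAt γ γ' t) (i : Fin 2) :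
    HasDerivAt (fun s => γ s i) (γ' i) t :=
  ((EuclideanSpace.proj (𝕜 := ℝ) i).hasFDerivAt.comp_hasDerivAt t h)

theorem fderiv_ff (ε : ℝ) (x v : E 2) :
    fderiv ℝ (ff ε) x v = FA ε (x 0) (x 1) * v 0 + FB ε (x 0) (x 1) * v 1 := by
  have hd : DifferentiableAt ℝ (ff ε) x :=
    ((contDiff_ff ε).differentiable (by simp)).differentiableAt
  have h2 : HasDerivAt (fun t : ℝ => x + t • v) v 0 := by
    simpa using ((hasDerivAt_id (0:ℝ)).smul_const v).const_add x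
  have h3 : HasFDerivAt (ff ε) (fderiv ℝ (ff ε) x) (x + (0:ℝ) • v) := by
    simpa using hd.hasFDerivAt
  have h4 := h3.comp_hasDerivAt (0:ℝ) h2
  have h5 := FF_hasDerivAt ε (fun t : ℝ => (x + t • v) 0) (fun t : ℝ => (x + t • v) 1) (v 0) (v 1) 0
    (hasDerivAt_coord _ _ _ h2 0) (hasDerivAt_coord _ _ _ h2 1)
  have h6 := h4.unique h5
  rw [h6]
  simp

/-- the domain -/
noncomputable def DD (ε : ℝ) : Set (E 2) := {x | ff ε x ≤ 0}

theorem regular_ff (ε : ℝ) (hε : 0 < ε) (hε1 : ε ≤ 1 / 1000000) (x : E 2) (hx : ff ε x = 0) :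
    FA ε (x 0) (x 1) ≠ 0 ∨ FB ε (x 0) (x 1) ≠ 0 := by
  by_contra h
  push Not at h
  have := (bounds ε (x 0) (x 1) hε hε1 hx).1
  unfold G2 at this
  rw [h.1, h.2] at this
  norm_num at this

theorem fderiv_ne (ε : ℝ) (hε : 0 < ε) (hε1 : ε ≤ 1 / 1000000) (x : E 2) (hx : ff ε x = 0) :
    fderiv ℝ (ff ε) x ≠ 0 := by
  intro h
  have h1 := fderiv_ff ε x (EuclideanSpace.single 0 1)
  have h2 := fderiv_ff ε x (EuclideanSpace.single 1 1)
  rw [h] at h1 h2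
  simp at h1 h2
  rcases regular_ff ε hε hε1 x hx with h3 | h3
  · exact h3 h1.symm
  · exact h3 h2.symm

/-- on the domain the coordinates are bounded -/
theorem DD_bound (ε : ℝ) (hε : 0 < ε) (hε1 : ε ≤ 1 / 1000000) (x : E 2) (hx : x ∈ DD ε) :
    1 + x 1 ^ 2 ≤ 4 / 3 ∧ ε * (1 + x 0 ^ 2 + x 1 ^ 2) ≤ 1 + x 1 ^ 2 := by
  have hF : FF ε (x 0) (x 1) ≤ 0 := hx
  unfold FF at hF
  set Y := 1 + x 1 ^ 2 with hY
  set A := 1 + x 0 ^ 2 + x 1 ^ 2 with hA
  have hY1 : 1 ≤ Y := by rw [hY]; nlinarith [sq_nonneg (x 1)]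
  have h1 : (ε * A - Y / 2) ^ 2 + 3 / 4 * Y ^ 2 - Y ≤ 0 := by nlinarith
  have h2 : 3 / 4 * Y ^ 2 - Y ≤ 0 := by nlinarith [sq_nonneg (ε * A - Y / 2)]
  have h3 : Y ≤ 4 / 3 := by nlinarith
  refine ⟨h3, ?_⟩
  by_contra h4
  rw [not_le] at h4
  nlinarith

theorem continuous_ff (ε : ℝ) : Continuous (ff ε) := (contDiff_ff ε).continuous

theorem DD_closed (ε : ℝ) : IsClosed (DD ε) := isClosed_le (continuous_ff ε) continuous_const

theorem DD_norm (ε : ℝ) (hε : 0 < ε) (hε1 : ε ≤ 1 / 1000000) (x : E 2) (hx : x ∈ DD ε) :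
    ‖x‖ ≤ 4 / (3 * ε) := by
  obtain ⟨h1, h2⟩ := DD_bound ε hε hε1 x hx
  have h3 : ‖x‖ ^ 2 ≤ 4 / (3 * ε) := by
    rw [norm_sq_two, le_div_iff₀ (by positivity)]
    nlinarith
  have h4 : 1 ≤ 4 / (3 * ε) := by
    rw [le_div_iff₀ (by positivity)]
    linarith
  by_contra h
  rw [not_le] at h
  nlinarith [norm_nonneg x]

theorem DD_compact (ε : ℝ) (hε : 0 < ε) (hε1 : ε ≤ 1 / 1000000) : IsCompact (DD ε) := by
  apply Metric.isCompact_of_isClosed_isBounded (DD_closed ε)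
  rw [isBounded_iff_forall_norm_le]
  exact ⟨_, fun x hx => DD_norm ε hε hε1 x hx⟩

theorem frontier_DD (ε : ℝ) (hε : 0 < ε) (hε1 : ε ≤ 1 / 1000000) :
    frontier (DD ε) = {x | ff ε x = 0} := by
  apply Subset.antisymm
  · exact frontier_le_subset_eq (continuous_ff ε) continuous_const
  · intro x hx
    have hx' : ff ε x = 0 := hx
    rw [frontier, (DD_closed ε).closure_eq]
    refine ⟨le_of_eq hx', ?_⟩
    intro hint
    have hmax : IsLocalMax (ff ε) x := by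
      filter_upwards [mem_interior_iff_mem_nhds.1 hint] with y hy
      rw [hx']
      exact hy
    exact fderiv_ne ε hε hε1 x hx' hmax.fderiv_eq_zero

theorem interior_DD (ε : ℝ) (hε : 0 < ε) (hε1 : ε ≤ 1 / 1000000) : (interior (DD ε)).Nonempty := by
  refine ⟨0, ?_⟩
  rw [mem_interior]
  refine ⟨{x | ff ε x < 0}, fun x (hx : ff ε x < 0) => (le_of_lt hx : ff ε x ≤ 0),
    isOpen_lt (continuous_ff ε) continuous_const, ?_⟩
  show ff ε 0 < 0
  unfold ff FF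
  simp
  nlinarith

/-- The boundary curve. -/
noncomputable def bd (ε : ℝ) (σ : ℝ) (c : ℝ) : E 2 :=
  !₂[c * Real.sqrt (1 / (1 - ε * (1 + c ^ 2) + (ε * (1 + c ^ 2)) ^ 2)),
    σ * Real.sqrt (1 / (1 - ε * (1 + c ^ 2) + (ε * (1 + c ^ 2)) ^ 2) *
      (ε * (1 + c ^ 2)) * (1 - ε * (1 + c ^ 2)))]

theorem quad_pos (p : ℝ) : 0 < 1 - p + p ^ 2 := by nlinarith [sq_nonneg (p - 1 / 2)]

theorem bd_continuous (ε σ : ℝ) : Continuous (bd ε σ) := by
  unfold bd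
  have h1 : Continuous (fun c : ℝ => 1 / (1 - ε * (1 + c ^ 2) + (ε * (1 + c ^ 2)) ^ 2)) := by
    apply Continuous.div continuous_const (by fun_prop)
    intro c
    exact (quad_pos _).ne'
  have h2 : Continuous (fun c : ℝ => Real.sqrt (1 / (1 - ε * (1 + c ^ 2) + (ε * (1 + c ^ 2)) ^ 2))) :=
    Real.continuous_sqrt.comp h1
  have h3 : Continuous (fun c : ℝ => Real.sqrt (1 / (1 - ε * (1 + c ^ 2) + (ε * (1 + c ^ 2)) ^ 2) *
      (ε * (1 + c ^ 2)) * (1 - ε * (1 + c ^ 2)))) := by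
    apply Real.continuous_sqrt.comp
    exact (h1.mul (by fun_prop)).mul (by fun_prop)
  have h4 : Continuous (fun c : ℝ => ![c * Real.sqrt (1 / (1 - ε * (1 + c ^ 2) + (ε * (1 + c ^ 2)) ^ 2)),
    σ * Real.sqrt (1 / (1 - ε * (1 + c ^ 2) + (ε * (1 + c ^ 2)) ^ 2) *
      (ε * (1 + c ^ 2)) * (1 - ε * (1 + c ^ 2)))]) := by
    apply continuous_pi
    intro i
    fin_cases i
    · exact continuous_id.mul h2
    · exact continuous_const.mul h3
  exact (PiLp.continuous_toLp 2 _).comp h4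

theorem bd_mem (ε σ c : ℝ) (hε : 0 < ε) (hσ : σ ^ 2 = 1) (hc : ε * (1 + c ^ 2) ≤ 1) :
    ff ε (bd ε σ c) = 0 := by
  unfold ff bd FF
  simp only [Matrix.cons_val_zero, Matrix.cons_val_one]
  have hp0 : 0 ≤ ε * (1 + c ^ 2) := by positivity
  set p := ε * (1 + c ^ 2) with hp
  have hq := quad_pos p
  have h1 : Real.sqrt (1 / (1 - p + p ^ 2)) ^ 2 = 1 / (1 - p + p ^ 2) :=
    Real.sq_sqrt (by positivity)
  have h2 : Real.sqrt (1 / (1 - p + p ^ 2) * p * (1 - p)) ^ 2 = 1 / (1 - p + p ^ 2) * p * (1 - p) := by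
    apply Real.sq_sqrt
    apply mul_nonneg (by positivity) (by linarith)
  have hc2 : c ^ 2 = (p - ε) / ε := by
    rw [hp]; field_simp; ring
  generalize Real.sqrt (1 / (1 - p + p ^ 2)) = s1 at *
  generalize Real.sqrt (1 / (1 - p + p ^ 2) * p * (1 - p)) = s2 at *
  have e1 : (c * s1) ^ 2 = (p - ε) / ε * (1 / (1 - p + p ^ 2)) := by
    rw [mul_pow, h1, hc2]
  have e2 : (σ * s2) ^ 2 = 1 / (1 - p + p ^ 2) * p * (1 - p) := by
    rw [mul_pow, h2, hσ, one_mul]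
  rw [e1, e2]
  field_simp
  ring

theorem bd_surj (ε : ℝ) (hε : 0 < ε) (x : E 2) (hx : ff ε x = 0) :
    ∃ σ c : ℝ, (σ = 1 ∨ σ = -1) ∧ ε * (1 + c ^ 2) ≤ 1 ∧ bd ε σ c = x := by
  obtain ⟨p, Y, hp, hp1, hY1, hY, hYb, hA, ha, hb⟩ := param ε (x 0) (x 1) hε hx
  have hYpos : 0 < Y := by linarith
  have hsY : Real.sqrt Y ^ 2 = Y := Real.sq_sqrt hYpos.le
  have hsYpos : 0 < Real.sqrt Y := Real.sqrt_pos.2 hYpos
  have hYq : 1 / (1 - p + p ^ 2) = Y := by
    have := quad_pos p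
    field_simp
    linarith
  have hc : ε * (1 + (x 0 / Real.sqrt Y) ^ 2) = p := by
    rw [div_pow, hsY, ha]
    field_simp
    ring
  have hx1 : ∃ σ : ℝ, (σ = 1 ∨ σ = -1) ∧ x 1 = σ * Real.sqrt (Y * p * (1 - p)) := by
    rw [← hb, Real.sqrt_sq_eq_abs]
    rcases abs_choice (x 1) with h | h
    · exact ⟨1, Or.inl rfl, by rw [h]; ring⟩
    · exact ⟨-1, Or.inr rfl, by rw [h]; ring⟩
  obtain ⟨σ, hσ, hx1⟩ := hx1
  refine ⟨σ, x 0 / Real.sqrt Y, hσ, by rw [hc]; exact hp1, ?_⟩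
  unfold bd
  rw [hc, hYq]
  ext i
  fin_cases i
  · simp
    field_simp
  · simp
    exact hx1.symm

theorem connected_frontier (ε : ℝ) (hε : 0 < ε) (hε1 : ε ≤ 1 / 1000000) :
    IsConnected (frontier (DD ε)) := by
  rw [frontier_DD ε hε hε1]
  set C : ℝ := Real.sqrt (1 / ε - 1) with hC
  have hC2 : C ^ 2 = 1 / ε - 1 := by
    apply Real.sq_sqrt
    rw [sub_nonneg, le_div_iff₀ hε]
    linarith
  have hC0 : 0 ≤ C := Real.sqrt_nonneg _
  have hεC : ε * (1 + C ^ 2) = 1 := by rw [hC2]; field_simp; ring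
  have hset : {x | ff ε x = 0} = bd ε 1 '' Icc (-C) C ∪ bd ε (-1) '' Icc (-C) C := by
    apply Subset.antisymm
    · intro x hx
      obtain ⟨σ, c, hσ, hc, rfl⟩ := bd_surj ε hε x hx
      have hcC : c ∈ Icc (-C) C := by
        rw [mem_Icc, ← abs_le]
        apply abs_le_of_sq_le_sq _ hC0
        have : ε * (1 + c ^ 2) ≤ ε * (1 + C ^ 2) := by rw [hεC]; exact hc
        have := le_of_mul_le_mul_left this hε
        linarith
      rcases hσ with rfl | rfl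
      · left; exact ⟨c, hcC, rfl⟩
      · right; exact ⟨c, hcC, rfl⟩
    · have hbound : ∀ c ∈ Icc (-C) C, ε * (1 + c ^ 2) ≤ 1 := by
        intro c hc
        rw [← hεC]
        apply mul_le_mul_of_nonneg_left _ hε.le
        have : c ^ 2 ≤ C ^ 2 := sq_le_sq' hc.1 hc.2
        linarith
      rintro x (⟨c, hc, rfl⟩ | ⟨c, hc, rfl⟩)
      · exact bd_mem ε 1 c hε (by norm_num) (hbound c hc)
      · exact bd_mem ε (-1) c hε (by norm_num) (hbound c hc)
  rw [hset]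
  have hIcc : IsConnected (Icc (-C) C) := isConnected_Icc (by linarith)
  apply IsConnected.union
  · -- common point
    refine ⟨bd ε 1 C, ⟨C, ⟨by linarith, le_refl _⟩, rfl⟩, ⟨C, ⟨by linarith, le_refl _⟩, ?_⟩⟩
    unfold bd
    rw [hεC]
    simp
  · exact hIcc.image _ (bd_continuous ε 1).continuousOn
  · exact hIcc.image _ (bd_continuous ε (-1)).continuousOn

theorem isDomain_DD (ε : ℝ) (hε : 0 < ε) (hε1 : ε ≤ 1 / 1000000) : IsDomain (DD ε) (ff ε) where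
  smooth := contDiff_ff ε
  eq := rfl
  frontier_eq := frontier_DD ε hε hε1
  regular := fun x hx => fderiv_ne ε hε hε1 x hx
  connected := connected_frontier ε hε hε1
  compact := DD_compact ε hε hε1
  interior := interior_DD ε hε hε1

end Pool.Agent.Helper43.Roll
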