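import Mathlib
import Pool.Agent.Helper43.RollDom2

set_option autoImplicit false

open Set
open scoped ContDiff

namespace Pool.Agent.Helper43.Roll

/-- the profile function in the projective chart -/
noncomputable def prof (ε u : ℝ) : ℝ := Real.sqrt (1 - ε / (1 - u ^ 2))

theorem inv_conv (s t P Q T : ℝ) (hs : 0 ≤ s) (ht : 0 ≤ t) (hst : s + t = 1) (hP : 0 < P) (hQ : 0 < Q)
    (hT : s * P + t * Q ≤ T) : 1 / T ≤ s * (1 / P) + t * (1 / Q) := by
  have h0 : 0 < s * P + t * Q := by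
    rcases eq_or_lt_of_le hs with h | h
    · have : t = 1 := by linarith
      rw [← h, this]; linarith
    · have : 0 ≤ t * Q := mul_nonneg ht hQ.le
      have : 0 < s * P := mul_pos h hP
      linarith
  have h1 : 1 / T ≤ 1 / (s * P + t * Q) := one_div_le_one_div_of_le h0 hT
  have h2 : 1 / (s * P + t * Q) ≤ s * (1 / P) + t * (1 / Q) := by
    rw [div_le_iff₀ h0]
    have h3 : (s * (1 / P) + t * (1 / Q)) * (s * P + t * Q)
        = (s + t) ^ 2 + s * t * ((P - Q) ^ 2 / (P * Q)) := by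
      field_simp
      ring
    rw [h3, hst]
    have : 0 ≤ s * t * ((P - Q) ^ 2 / (P * Q)) := by positivity
    linarith
  linarith

theorem prof_conc (ε u w s t : ℝ) (hε : 0 < ε) (hs : 0 ≤ s) (ht : 0 ≤ t) (hst : s + t = 1)
    (hu : ε ≤ 1 - u ^ 2) (hw : ε ≤ 1 - w ^ 2) :
    ε ≤ 1 - (s * u + t * w) ^ 2 ∧ s * prof ε u + t * prof ε w ≤ prof ε (s * u + t * w) := by
  have hP : 0 < 1 - u ^ 2 := by linarith
  have hQ : 0 < 1 - w ^ 2 := by linarith
  have hT : s * (1 - u ^ 2) + t * (1 - w ^ 2) ≤ 1 - (s * u + t * w) ^ 2 := by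
    have h1 : t = 1 - s := by linarith
    subst h1
    nlinarith [mul_nonneg hs ht, sq_nonneg (u - w), mul_nonneg (mul_nonneg hs ht) (sq_nonneg (u - w))]
  have hT2 : ε ≤ s * (1 - u ^ 2) + t * (1 - w ^ 2) := by
    have h1 : ε = s * ε + t * ε := by rw [← add_mul, hst, one_mul]
    rw [h1]
    exact add_le_add (mul_le_mul_of_nonneg_left hu hs) (mul_le_mul_of_nonneg_left hw ht)
  refine ⟨by linarith, ?_⟩
  have h3 := inv_conv s t (1 - u ^ 2) (1 - w ^ 2) _ hs ht hst hP hQ hT
  have hA0 : 0 ≤ 1 - ε / (1 - u ^ 2) := by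
    rw [sub_nonneg, div_le_one hP]; exact hu
  have hB0 : 0 ≤ 1 - ε / (1 - w ^ 2) := by
    rw [sub_nonneg, div_le_one hQ]; exact hw
  have h4 : s * (1 - ε / (1 - u ^ 2)) + t * (1 - ε / (1 - w ^ 2)) ≤ 1 - ε / (1 - (s * u + t * w) ^ 2) := by
    have h5 := mul_le_mul_of_nonneg_left h3 hε.le
    have e1 : s * (1 - ε / (1 - u ^ 2)) + t * (1 - ε / (1 - w ^ 2))
        = (s + t) - ε * (s * (1 / (1 - u ^ 2)) + t * (1 / (1 - w ^ 2))) := by ring
    have e2 : ε / (1 - (s * u + t * w) ^ 2) = ε * (1 / (1 - (s * u + t * w) ^ 2)) := by ring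
    rw [e1, e2, hst]
    linarith
  unfold prof
  generalize 1 - ε / (1 - u ^ 2) = A at *
  generalize 1 - ε / (1 - w ^ 2) = B at *
  apply Real.le_sqrt_of_sq_le
  have hA := Real.sq_sqrt hA0
  have hB := Real.sq_sqrt hB0
  set a := Real.sqrt A with ha
  set b := Real.sqrt B with hb
  have h1 : t = 1 - s := by linarith
  subst h1
  nlinarith [mul_nonneg (mul_nonneg hs ht) (sq_nonneg (a - b))]

theorem zz_two (x : E 2) : zz x ^ 2 = 1 + x 0 ^ 2 + x 1 ^ 2 := by
  rw [zz_sq, norm_sq_two]; ring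

/-- membership in the projective chart -/
theorem mem_DD_iff (ε : ℝ) (hε : 0 < ε) (hε1 : ε ≤ 1 / 1000000) (x : E 2) :
    x ∈ DD ε ↔ ε ≤ 1 - (x 0 / zz x) ^ 2 ∧ |x 1| ≤ Real.sqrt ε * (zz x * prof ε (x 0 / zz x)) := by
  have hz := zz_pos x
  have hz2 := zz_two x
  have hY : 0 < 1 + x 1 ^ 2 := by positivity
  have hu : 1 - (x 0 / zz x) ^ 2 = (1 + x 1 ^ 2) / zz x ^ 2 := by
    rw [div_pow]
    field_simp
    linarith
  have hcond : ε ≤ 1 - (x 0 / zz x) ^ 2 ↔ ε * (1 + x 0 ^ 2 + x 1 ^ 2) ≤ 1 + x 1 ^ 2 := by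
    rw [hu, le_div_iff₀ (by positivity), hz2]
  have key : ε ≤ 1 - (x 0 / zz x) ^ 2 → (|x 1| ≤ Real.sqrt ε * (zz x * prof ε (x 0 / zz x)) ↔
      ff ε x ≤ 0) := by
    intro hc
    have hc' := hcond.1 hc
    have hA0 : 0 ≤ 1 - ε / (1 - (x 0 / zz x) ^ 2) := by
      rw [sub_nonneg, div_le_one (by linarith)]; exact hc
    have hsq : (Real.sqrt ε * (zz x * prof ε (x 0 / zz x))) ^ 2 =
        ε * zz x ^ 2 * (1 - ε * zz x ^ 2 / (1 + x 1 ^ 2)) := by
      unfold prof
      rw [mul_pow, mul_pow, Real.sq_sqrt hε.le, Real.sq_sqrt hA0, hu]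
      field_simp
    have hnn : 0 ≤ Real.sqrt ε * (zz x * prof ε (x 0 / zz x)) := by
      unfold prof; positivity
    rw [← abs_of_nonneg hnn, ← sq_le_sq, hsq, hz2]
    unfold ff FF
    set Y := 1 + x 1 ^ 2 with hYdef
    set A := 1 + x 0 ^ 2 + x 1 ^ 2 with hA
    have e1 : x 1 ^ 2 = Y - 1 := by rw [hYdef]; ring
    rw [e1]
    have e2 : ε * A * (1 - ε * A / Y) = (ε * A * Y - ε ^ 2 * A ^ 2) / Y := by
      field_simp
    rw [e2, le_div_iff₀ hY]
    constructor
    · intro h; linarith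
    · intro h; linarith
  constructor
  · intro hx
    have h1 := (DD_bound ε hε hε1 x hx).2
    have h2 := hcond.2 h1
    exact ⟨h2, (key h2).2 hx⟩
  · rintro ⟨h1, h2⟩
    exact (key h1).1 h2

theorem convex_DD (ε κ : ℝ) (hε : 0 < ε) (hε1 : ε ≤ 1 / 1000000) (hκ : 0 < κ) :
    IsGConvex (hypM 2 κ hκ) (hypG 2) (DD ε) := by
  intro p hp q hq
  rcases eq_or_ne p q with rfl | hpq
  · have h0 : hh p (0 : E 2) 0 = 0 := by
      have := hh_smul_right p (0 : E 2) 0 0
      simpa using this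
    have hg : ∀ t, geo p 0 t = p := by
      intro t
      unfold geo
      rw [h0]
      simp
    refine ⟨geo p 0, geo_isGeodesic p 0, geo_zero p 0, hg 1, ?_, ?_⟩
    · rw [len_geo]
      have := rdist_geo κ hκ p 0
      rw [hg 1] at this
      exact this.symm
    · intro t _
      rw [hg t]
      exact hp
  · obtain ⟨v, d, hd, hv, hq1, hform⟩ := exists_geo p q hpq
    refine ⟨geo p v, geo_isGeodesic p v, geo_zero p v, hq1, ?_, ?_⟩
    · rw [len_geo]
      have := rdist_geo κ hκ p v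
      rw [hq1] at this
      exact this.symm
    · intro t ht
      have hz := zz_comb p q hpq v d hd hv hq1 t
      have hx := hform t
      have hsd : 0 < Real.sinh d := Real.sinh_pos_iff.2 hd
      have hα : 0 ≤ Real.sinh (d * (1 - t)) / Real.sinh d := by
        apply div_nonneg _ hsd.le
        apply Real.sinh_nonneg_iff.2
        exact mul_nonneg hd.le (by linarith [ht.2])
      have hβ : 0 ≤ Real.sinh (d * t) / Real.sinh d := by
        apply div_nonneg _ hsd.le
        apply Real.sinh_nonneg_iff.2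
        exact mul_nonneg hd.le ht.1
      set α := Real.sinh (d * (1 - t)) / Real.sinh d with hαdef
      set β := Real.sinh (d * t) / Real.sinh d with hβdef
      set r := geo p v t with hr
      have hr0 : r 0 = α * p 0 + β * q 0 := by rw [hx]; simp
      have hr1 : r 1 = α * p 1 + β * q 1 := by rw [hx]; simp
      have hzp := zz_pos p
      have hzq := zz_pos q
      have hzr := zz_pos r
      rw [mem_DD_iff ε hε hε1] at hp hq ⊢
      set s := α * zz p / zz r with hs
      set s' := β * zz q / zz r with hs'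
      have hs0 : 0 ≤ s := by positivity
      have hs'0 : 0 ≤ s' := by positivity
      have hss : s + s' = 1 := by
        rw [hs, hs', ← add_div, ← hz, div_self hzr.ne']
      have hur : r 0 / zz r = s * (p 0 / zz p) + s' * (q 0 / zz q) := by
        rw [hr0, hs, hs']
        field_simp
      obtain ⟨h1, h2⟩ := prof_conc ε (p 0 / zz p) (q 0 / zz q) s s' hε hs0 hs'0 hss hp.1 hq.1
      rw [← hur] at h1 h2
      refine ⟨h1, ?_⟩
      calc |r 1| ≤ α * |p 1| + β * |q 1| := by
            rw [hr1]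
            refine (abs_add_le _ _).trans ?_
            rw [abs_mul, abs_mul, abs_of_nonneg hα, abs_of_nonneg hβ]
        _ ≤ α * (Real.sqrt ε * (zz p * prof ε (p 0 / zz p))) +
            β * (Real.sqrt ε * (zz q * prof ε (q 0 / zz q))) :=
            add_le_add (mul_le_mul_of_nonneg_left hp.2 hα) (mul_le_mul_of_nonneg_left hq.2 hβ)
        _ = Real.sqrt ε * (zz r * (s * prof ε (p 0 / zz p) + s' * prof ε (q 0 / zz q))) := by
            rw [hs, hs']
            field_simp
        _ ≤ Real.sqrt ε * (zz r * prof ε (r 0 / zz r)) := by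
            apply mul_le_mul_of_nonneg_left _ (Real.sqrt_nonneg _)
            exact mul_le_mul_of_nonneg_left h2 hzr.le

end Pool.Agent.Helper43.Roll
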