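import Mathlib
import Pool.Agent.Helper43.RollConv

set_option autoImplicit false

open Set
open scoped ContDiff

namespace Pool.Agent.Helper43.Roll

/-- the gradient of the defining function for the metric `hh` -/
noncomputable def grad (ε : ℝ) (x : E 2) : E 2 :=
  !₂[FA ε (x 0) (x 1) + x 0 * (x 0 * FA ε (x 0) (x 1) + x 1 * FB ε (x 0) (x 1)),
    FB ε (x 0) (x 1) + x 1 * (x 0 * FA ε (x 0) (x 1) + x 1 * FB ε (x 0) (x 1))]

theorem hh_grad (ε : ℝ) (x w : E 2) : hh x (grad ε x) w = fderiv ℝ (ff ε) x w := by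
  rw [fderiv_ff, hh_two]
  unfold grad
  simp only [Matrix.cons_val_zero, Matrix.cons_val_one]
  have hA : 1 + x 0 ^ 2 + x 1 ^ 2 ≠ 0 := by positivity
  generalize x 0 = a at *
  generalize x 1 = b at *
  generalize FA ε a b = p
  generalize FB ε a b = q
  field_simp
  ring

theorem fderiv_grad (ε : ℝ) (x : E 2) : fderiv ℝ (ff ε) x (grad ε x) = G2 ε (x 0) (x 1) := by
  rw [fderiv_ff]
  unfold grad G2
  simp only [Matrix.cons_val_zero, Matrix.cons_val_one]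
  ring

theorem normal_formula (ε κ : ℝ) (hκ : 0 < κ) (s ν : E 2)
    (hν : IsInwardNormal (hypM 2 κ hκ) (ff ε) s ν) (w : E 2) :
    κ * hh s ν w * fderiv ℝ (ff ε) s ν = fderiv ℝ (ff ε) s w := by
  obtain ⟨h1, h2, h3⟩ := hν
  rw [hypM_apply] at h1
  have h4 := h2 (fderiv ℝ (ff ε) s ν • w - fderiv ℝ (ff ε) s w • ν) (by
    unfold dR
    rw [map_sub, map_smul, map_smul, smul_eq_mul, smul_eq_mul]
    ring)
  rw [hypM_apply, sub_eq_add_neg, hh_add_right, hh_neg_right, hh_smul_right, hh_smul_right] at h4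
  linear_combination h4 + fderiv ℝ (ff ε) s w * h1

theorem normal_sq (ε κ : ℝ) (hκ : 0 < κ) (s ν : E 2)
    (hν : IsInwardNormal (hypM 2 κ hκ) (ff ε) s ν) :
    κ * (fderiv ℝ (ff ε) s ν) ^ 2 = G2 ε (s 0) (s 1) := by
  have h := normal_formula ε κ hκ s ν hν (grad ε s)
  rw [hh_symm, hh_grad, fderiv_grad] at h
  rw [← h]
  ring

theorem second_deriv (ε : ℝ) (γ : ℝ → E 2) (hγ : ContDiff ℝ 2 γ) (h : ∀ t, ff ε (γ t) = 0) :
    fderiv ℝ (ff ε) (γ 0) (deriv γ 0) = 0 ∧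
    FA ε (γ 0 0) (γ 0 1) * deriv (deriv γ) 0 0 + FB ε (γ 0 0) (γ 0 1) * deriv (deriv γ) 0 1
      + (FAA ε (γ 0 0) (γ 0 1) * deriv γ 0 0 ^ 2 + 2 * FAB ε (γ 0 0) (γ 0 1) * deriv γ 0 0 * deriv γ 0 1
        + FBB ε (γ 0 0) (γ 0 1) * deriv γ 0 1 ^ 2) = 0 := by
  have hd1 : ∀ t, HasDerivAt γ (deriv γ t) t := fun t =>
    ((hγ.differentiable (by norm_num)).differentiableAt).hasDerivAt
  have hc1 : ContDiff ℝ 1 (deriv γ) := by
    have : ContDiff ℝ (1 + 1) γ := by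
      norm_num
      exact hγ
    exact (contDiff_succ_iff_deriv.1 this).2.2
  have hd2 : ∀ t, HasDerivAt (deriv γ) (deriv (deriv γ) t) t := fun t =>
    ((hc1.differentiable (by norm_num)).differentiableAt).hasDerivAt
  have h1 : ∀ t, FA ε (γ t 0) (γ t 1) * deriv γ t 0 + FB ε (γ t 0) (γ t 1) * deriv γ t 1 = 0 := by
    intro t
    have h2 := FF_hasDerivAt ε (fun s => γ s 0) (fun s => γ s 1) _ _ t
      (hasDerivAt_coord γ _ t (hd1 t) 0) (hasDerivAt_coord γ _ t (hd1 t) 1)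
    have h3 : (fun s => FF ε (γ s 0) (γ s 1)) = fun _ => 0 := funext fun s => h s
    rw [h3] at h2
    exact h2.unique (hasDerivAt_const t (0:ℝ))
  constructor
  · rw [fderiv_ff]
    exact h1 0
  · have ha := FA_hasDerivAt ε (fun s => γ s 0) (fun s => γ s 1) _ _ 0
      (hasDerivAt_coord γ _ 0 (hd1 0) 0) (hasDerivAt_coord γ _ 0 (hd1 0) 1)
    have hb := FB_hasDerivAt ε (fun s => γ s 0) (fun s => γ s 1) _ _ 0
      (hasDerivAt_coord γ _ 0 (hd1 0) 0) (hasDerivAt_coord γ _ 0 (hd1 0) 1)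
    have h2 := (ha.fun_mul (hasDerivAt_coord _ _ 0 (hd2 0) 0)).fun_add
      (hb.fun_mul (hasDerivAt_coord _ _ 0 (hd2 0) 1))
    have h3 : (fun s => FA ε (γ s 0) (γ s 1) * deriv γ s 0 + FB ε (γ s 0) (γ s 1) * deriv γ s 1)
        = fun _ => 0 := funext fun s => h1 s
    rw [h3] at h2
    have h4 := h2.unique (hasDerivAt_const (0:ℝ) (0:ℝ))
    linear_combination h4

theorem curv_formula (ε κ : ℝ) (hε : 0 < ε) (hε1 : ε ≤ 1 / 1000000) (hκ : 0 < κ) (s ν v : E 2) (k : ℝ)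
    (hs : s ∈ frontier (DD ε)) (hν : IsInwardNormal (hypM 2 κ hκ) (ff ε) s ν)
    (hk : HasNormalCurvature (hypM 2 κ hκ) (hypG 2) (DD ε) s ν v k) :
    k * (κ * G2 ε (s 0) (s 1) * (-fderiv ℝ (ff ε) s ν)) = NN ε (s 0) (s 1) := by
  obtain ⟨hv, γ, hγ, hf, h0, hv0, hk⟩ := hk
  rw [frontier_DD ε hε hε1] at hs hf
  obtain ⟨h1, h2⟩ := second_deriv ε γ hγ hf
  rw [h0, hv0] at h1 h2
  have h3 := normal_formula ε κ hκ s ν hν (deriv (deriv γ) 0 + ap (hypG 2) s v v)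
  have hlt : fderiv ℝ (ff ε) s ν < 0 := hν.2.2
  have hreg := regular_ff ε hε hε1 s hs
  rw [hypM_apply, hypM_apply, hh_symm] at hk
  have hvv := hh_pos s v hv
  have hk' : k * (κ * hh s v v) * fderiv ℝ (ff ε) s ν
      = fderiv ℝ (ff ε) s (deriv (deriv γ) 0 + ap (hypG 2) s v v) := by
    rw [← h3, hk]
    have : κ * hh s v v ≠ 0 := (mul_pos hκ hvv).ne'
    field_simp
  rw [map_add, hypG_apply, map_smul, smul_eq_mul, fderiv_ff ε s (deriv (deriv γ) 0), fderiv_ff ε s s] at hk'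
  rw [fderiv_ff] at h1
  -- the tangent vector
  obtain ⟨τ, hτ0, hτ1⟩ : ∃ τ : ℝ, v 0 = -τ * FB ε (s 0) (s 1) ∧ v 1 = τ * FA ε (s 0) (s 1) := by
    rcases hreg with hr | hr
    · refine ⟨v 1 / FA ε (s 0) (s 1), ?_, ?_⟩
      · field_simp
        linarith
      · field_simp
    · refine ⟨-v 0 / FB ε (s 0) (s 1), ?_, ?_⟩
      · field_simp
      · field_simp
        linarith
  have hτ : τ ≠ 0 := by
    rintro rfl
    apply hv
    ext i
    fin_cases i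
    · simpa using hτ0
    · simpa using hτ1
  have hA : 0 < 1 + s 0 ^ 2 + s 1 ^ 2 := by positivity
  have hhv : hh s v v * (1 + s 0 ^ 2 + s 1 ^ 2) = τ ^ 2 * G2 ε (s 0) (s 1) := by
    rw [hh_two, hτ0, hτ1]
    unfold G2
    field_simp
    ring
  rw [hτ0, hτ1] at h2
  have h5 : τ ^ 2 * (k * (κ * G2 ε (s 0) (s 1) * (-fderiv ℝ (ff ε) s ν))) = τ ^ 2 * NN ε (s 0) (s 1) := by
    unfold NN
    linear_combination (-(1 + s 0 ^ 2 + s 1 ^ 2)) * hk' - (1 + s 0 ^ 2 + s 1 ^ 2) * h2 +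
      (s 0 * FA ε (s 0) (s 1) + s 1 * FB ε (s 0) (s 1) + k * κ * fderiv ℝ (ff ε) s ν) * hhv
  exact mul_left_cancel₀ (pow_ne_zero 2 hτ) h5

theorem curv_bounds (ε κ : ℝ) (hε : 0 < ε) (hε1 : ε ≤ 1 / 1000000) (hκ : 0 < κ) (s ν v : E 2) (k : ℝ)
    (hs : s ∈ frontier (DD ε)) (hν : IsInwardNormal (hypM 2 κ hκ) (ff ε) s ν)
    (hk : HasNormalCurvature (hypM 2 κ hκ) (hypG 2) (DD ε) s ν v k) :
    ε ^ 2 / 16 ≤ Real.sqrt κ * k ∧ Real.sqrt κ * k ≤ 200 := by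
  have h1 := curv_formula ε κ hε hε1 hκ s ν v k hs hν hk
  have h2 := normal_sq ε κ hκ s ν hν
  have hs' := hs
  rw [frontier_DD ε hε hε1] at hs'
  obtain ⟨hG, hN, hup, hlo⟩ := bounds ε (s 0) (s 1) hε hε1 hs'
  have hlt : fderiv ℝ (ff ε) s ν < 0 := hν.2.2
  set g := G2 ε (s 0) (s 1)
  set n := NN ε (s 0) (s 1)
  set d := -fderiv ℝ (ff ε) s ν with hd
  have hd0 : 0 < d := by rw [hd]; linarith
  have h2' : κ * d ^ 2 = g := by rw [← h2, hd]; ring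
  have hk0 : 0 < k := by
    have : 0 < k * (κ * g * d) := by rw [h1]; exact hN
    exact pos_of_mul_pos_left this (by positivity)
  have hsq : (Real.sqrt κ * k) ^ 2 * g ^ 3 = n ^ 2 := by
    rw [mul_pow, Real.sq_sqrt hκ.le, ← h1]
    have : g ^ 3 = g ^ 2 * (κ * d ^ 2) := by rw [h2']; ring
    rw [this]; ring
  have hkk : 0 < Real.sqrt κ * k := mul_pos (Real.sqrt_pos.2 hκ) hk0
  have hg3 : 0 < g ^ 3 := by positivity
  constructor
  · rw [← hsq] at hlo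
    have := le_of_mul_le_mul_right hlo hg3
    exact (sq_le_sq₀ (by positivity) hkk.le).1 this
  · rw [← hsq] at hup
    have := le_of_mul_le_mul_right hup hg3
    exact (sq_le_sq₀ hkk.le (by norm_num)).1 this

end Pool.Agent.Helper43.Roll
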