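import Mathlib
import Pool.Agent.Helper43.RollCurv

set_option autoImplicit false

open Set
open scoped ContDiff

namespace Pool.Agent.Helper43.Roll

theorem hh_le (x v : E 2) : hh x v v ≤ ‖v‖ ^ 2 := by
  rw [hh_two, norm_sq_two]
  have h1 : 0 ≤ (x 0 * v 0 + x 1 * v 1) * (x 0 * v 0 + x 1 * v 1) / (1 + x 0 ^ 2 + x 1 ^ 2) :=
    div_nonneg (mul_self_nonneg _) (by positivity)
  nlinarith

theorem rdist_zero_le (κ : ℝ) (hκ : 0 < κ) (q : E 2) :
    rdist (hypM 2 κ hκ) 0 q ≤ Real.sqrt κ * ‖q‖ := by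
  have hη : ContDiff ℝ 1 (fun t : ℝ => t • q) := contDiff_id.smul contDiff_const
  have hd : deriv (fun t : ℝ => t • q) = fun _ => q := by
    funext t
    have := (hasDerivAt_id t).smul_const q
    simpa using this.deriv
  have h1 : rdist (hypM 2 κ hκ) 0 q ≤ len (hypM 2 κ hκ) (fun t : ℝ => t • q) := by
    unfold rdist
    apply csInf_le
    · refine ⟨0, ?_⟩
      rintro L ⟨η, hη, -, -, rfl⟩
      unfold len
      apply intervalIntegral.integral_nonneg (by norm_num)
      intro t _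
      exact Real.sqrt_nonneg _
    · exact ⟨_, hη, by simp, by simp, rfl⟩
  refine h1.trans ?_
  rw [len_eq]
  apply mul_le_mul_of_nonneg_left _ (Real.sqrt_nonneg κ)
  have hc := continuous_speed _ hη
  rw [hd]
  have h2 : ∫ t in (0:ℝ)..1, Real.sqrt (hh (t • q) q q) ≤ ∫ t in (0:ℝ)..1, ‖q‖ := by
    apply intervalIntegral.integral_mono_on (by norm_num)
    · apply Continuous.intervalIntegrable
      rw [hd] at hc
      exact Real.continuous_sqrt.comp hc
    · exact continuous_const.intervalIntegrable _ _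
    · intro t _
      rw [Real.sqrt_le_left (norm_nonneg q)]
      exact hh_le _ _
  simpa using h2

/-- shifting a geodesic -/
theorem geodesic_shift (γ : ℝ → E 2) (h : IsGeodesic (hypG 2) γ) (R : ℝ) :
    IsGeodesic (hypG 2) (fun t => γ (R + t)) := by
  obtain ⟨h1, h2⟩ := h
  have hd : deriv (fun t => γ (R + t)) = fun t => deriv γ (R + t) := by
    funext t
    exact deriv_comp_const_add γ R t
  refine ⟨h1.comp (contDiff_const.add contDiff_id), ?_⟩
  intro t
  rw [hd]
  have := deriv_comp_const_add (deriv γ) R t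
  rw [this]
  exact h2 (R + t)

theorem not_rolls (ε κ R : ℝ) (hε : 0 < ε) (hε1 : ε ≤ 1 / 1000000) (hκ : 0 < κ)
    (hR0 : 0 < R) (hR : 8 * ε * κ ≤ R ^ 2) :
    ¬ Rolls (hypM 2 κ hκ) (hypG 2) (DD ε) (ff ε) R := by
  intro hroll
  have hsκ : 0 < Real.sqrt κ := Real.sqrt_pos.2 hκ
  have hsκ2 : Real.sqrt κ ^ 2 = κ := Real.sq_sqrt hκ.le
  have hq : 0 < 1 - ε + ε ^ 2 := quad_pos ε
  set Y : ℝ := 1 / (1 - ε + ε ^ 2) with hY
  have hYq : Y * (1 - ε + ε ^ 2) = 1 := by rw [hY]; field_simp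
  have hY1 : 1 < Y := by
    rw [hY, lt_div_iff₀ hq]
    nlinarith
  have hYpos : 0 < Y := by linarith
  set b : ℝ := Real.sqrt (Y - 1) with hb
  have hb2 : b ^ 2 = Y - 1 := Real.sq_sqrt (by linarith)
  have hbpos : 0 < b := Real.sqrt_pos.2 (by linarith)
  have hY2 : Y ≤ 1 + 2 * ε := by
    rw [hY, div_le_iff₀ hq]
    nlinarith [pow_pos hε 3, pow_pos hε 2]
  have hbsmall : b ≤ 1 / 500 := by
    have : b ^ 2 ≤ (1 / 500) ^ 2 := by rw [hb2]; linarith
    exact (sq_le_sq₀ hbpos.le (by norm_num)).1 this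
  set w : ℝ := Real.sqrt Y with hw
  have hw2 : w ^ 2 = Y := Real.sq_sqrt hYpos.le
  have hwpos : 0 < w := Real.sqrt_pos.2 hYpos
  have hw1 : 1 ≤ w := by
    rw [hw]
    exact Real.one_le_sqrt.2 hY1.le
  set s : E 2 := !₂[0, b] with hs
  set ν : E 2 := !₂[0, -(w / Real.sqrt κ)] with hν
  have hs0 : s 0 = 0 := by simp [hs]
  have hs1 : s 1 = b := by simp [hs]
  have hν0 : ν 0 = 0 := by simp [hν]
  have hν1 : ν 1 = -(w / Real.sqrt κ) := by simp [hν]
  have hff : ff ε s = 0 := by
    unfold ff FF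
    rw [hs0, hs1, hb2]
    linear_combination Y * hYq
  have hFA : FA ε (s 0) (s 1) = 0 := by
    rw [hs0]
    unfold FA
    ring
  have hFB : FB ε (s 0) (s 1) = 2 * b := by
    rw [hs0, hs1]
    unfold FB
    rw [hb2]
    linear_combination 4 * b * hYq
  have hhν : hh s ν ν = 1 / κ := by
    rw [hh_two, hs0, hs1, hν0, hν1]
    have e1 : 1 + (0:ℝ) ^ 2 + b ^ 2 = w ^ 2 := by rw [hb2, hw2]; ring
    have e2 : (0:ℝ) * 0 + -(w / Real.sqrt κ) * -(w / Real.sqrt κ) - (0 * 0 + b * -(w / Real.sqrt κ)) *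
        (0 * 0 + b * -(w / Real.sqrt κ)) / (w ^ 2) = (w ^ 2 - b ^ 2) / (Real.sqrt κ ^ 2) := by
      field_simp
      ring
    rw [e1, e2, hsκ2, hw2, hb2]
    ring
  have hinw : IsInwardNormal (hypM 2 κ hκ) (ff ε) s ν := by
    refine ⟨?_, ?_, ?_⟩
    · rw [hypM_apply, hhν]
      field_simp
    · intro v hv
      unfold dR at hv
      rw [fderiv_ff, hFA, hFB] at hv
      have hv1 : v 1 = 0 := by
        have : 2 * b * v 1 = 0 := by linarith
        rcases mul_eq_zero.1 this with h | h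
        · linarith
        · exact h
      rw [hypM_apply, hh_two, hs0, hν0, hv1]
      ring
    · unfold dR
      rw [fderiv_ff, hFA, hFB, hν0, hν1]
      have : 0 < 2 * b * (w / Real.sqrt κ) := by positivity
      linarith
  have hsf : s ∈ frontier (DD ε) := by
    rw [frontier_DD ε hε hε1]
    exact hff
  have hgeo := geo_isGeodesic s ν
  have hroll' := hroll s hsf ν hinw (geo s ν) hgeo (geo_zero s ν) (geo_deriv_zero s ν)
    (geo s ν (R + R))
  -- distance
  have hshift := geodesic_shift (geo s ν) hgeo R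
  have hdist : rdist (hypM 2 κ hκ) (geo s ν R) (geo s ν (R + R)) = R := by
    have h1 := hyp_inj (m := 2) κ hκ (R + 1) (fun t => geo s ν (R + t)) hshift (by
      rw [hypM_apply]
      have h2 := speed_const _ hshift 0
      have hd : deriv (fun t => geo s ν (R + t)) 0 = deriv (geo s ν) (R + 0) :=
        deriv_comp_const_add (geo s ν) R 0
      rw [hd]
      have h3 := speed_const _ hgeo (R + 0)
      rw [h3, geo_zero, geo_deriv_zero, hhν]
      field_simp) R hR0.le (by linarith)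
    simpa using h1
  have hmem := hroll' hdist.le
  -- the point is outside
  have hom : Real.sqrt (hh s ν ν) = 1 / Real.sqrt κ := by
    rw [hhν, one_div, Real.sqrt_inv, one_div]
  set τ := 1 / Real.sqrt κ * R with hτ
  have hτ0 : 0 < τ := by rw [hτ]; positivity
  have hτ1 : 2 * b ≤ τ := by
    have hτ2 : τ ^ 2 * Real.sqrt κ ^ 2 = R ^ 2 := by
      rw [hτ]
      field_simp
    rw [hsκ2] at hτ2
    have h1 : (2 * b) ^ 2 ≤ τ ^ 2 := by
      have h2 : (2 * b) ^ 2 * κ ≤ τ ^ 2 * κ := by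
        rw [hτ2, mul_pow, hb2]
        nlinarith
      exact le_of_mul_le_mul_right h2 hκ
    exact (sq_le_sq₀ (by positivity) hτ0.le).1 h1
  have harg : 1 / Real.sqrt κ * (R + R) = 2 * τ := by rw [hτ]; ring
  have hx0 : geo s ν (R + R) 0 = 0 := by
    unfold geo
    simp [hs0, hν0]
  have hx1 : geo s ν (R + R) 1 = Real.cosh (2 * τ) * b - Real.sinh (2 * τ) * w := by
    unfold geo
    rw [hom, harg]
    simp only [PiLp.add_apply, PiLp.smul_apply, smul_eq_mul, hs1, hν1]
    field_simp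
    ring
  have hmem' : FF ε (geo s ν (R + R) 0) (geo s ν (R + R) 1) ≤ 0 := hmem
  rw [hx0, hx1] at hmem'
  set y := Real.cosh (2 * τ) * b - Real.sinh (2 * τ) * w with hy
  have hylt : y < -b := by
    have hsh : τ ≤ Real.sinh τ := Real.self_le_sinh_iff.2 (by linarith)
    have hch : Real.cosh τ ≤ 1 + Real.sinh τ := by
      have h1 := Real.cosh_sub_sinh τ
      have h2 : Real.exp (-τ) ≤ 1 := Real.exp_le_one_iff.2 (by linarith)
      linarith
    have hchpos := Real.cosh_pos τ
    have h3 : b * Real.cosh τ < Real.sinh τ * w := by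
      have h4 : b * Real.cosh τ ≤ b * (1 + Real.sinh τ) :=
        mul_le_mul_of_nonneg_left hch hbpos.le
      have h4' : b * Real.sinh τ ≤ 1 / 500 * Real.sinh τ :=
        mul_le_mul_of_nonneg_right hbsmall (by linarith)
      have h5 : Real.sinh τ * 1 ≤ Real.sinh τ * w :=
        mul_le_mul_of_nonneg_left hw1 (by linarith)
      linarith
    rw [hy, Real.cosh_two_mul, Real.sinh_two_mul]
    have h6 : Real.cosh τ ^ 2 - Real.sinh τ ^ 2 = 1 := Real.cosh_sq_sub_sinh_sq τ
    have h7 := mul_lt_mul_of_pos_left h3 hchpos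
    have h8 : (Real.cosh τ ^ 2 + Real.sinh τ ^ 2) * b = 2 * Real.cosh τ ^ 2 * b - b := by
      linear_combination (-b) * h6
    rw [h8]
    linarith
  have hysq : Y - 1 < y ^ 2 := by
    rw [← hb2]
    nlinarith
  unfold FF at hmem'
  have hfac : (1 + y ^ 2) ^ 2 - (1 + y ^ 2) - ε * (1 + (0:ℝ) ^ 2 + y ^ 2) * (1 + y ^ 2)
    + ε ^ 2 * (1 + (0:ℝ) ^ 2 + y ^ 2) ^ 2 = (1 + y ^ 2) * ((1 + y ^ 2) * (1 - ε + ε ^ 2) - 1) := by ring
  rw [hfac] at hmem'
  have h9 : 0 < (1 + y ^ 2) * (1 - ε + ε ^ 2) - 1 := by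
    have : Y * (1 - ε + ε ^ 2) < (1 + y ^ 2) * (1 - ε + ε ^ 2) :=
      mul_lt_mul_of_pos_right (by linarith) hq
    linarith
  have h10 : 0 < (1 + y ^ 2) * ((1 + y ^ 2) * (1 - ε + ε ^ 2) - 1) := mul_pos (by positivity) h9
  linarith

theorem main_counter (c lam R ε : ℝ) (hε0 : 0 < ε) (hε1 : ε ≤ 1 / 1000000) (hlam0 : 0 < lam)
    (h1 : -(lam / 200) ^ 2 ≤ c)
    (hlow : c < 0 → Real.sqrt (-c) * 200 / lam ≤ ε ^ 2 / 16)
    (hR : IsRadius c lam R) (hR1 : 8 * ε * (200 / lam) ^ 2 ≤ R ^ 2) : ¬ RollingStatement c lam := by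
  intro h
  have hκ : 0 < (200 / lam) ^ 2 := by positivity
  have hsκ : Real.sqrt ((200 / lam) ^ 2) = 200 / lam := Real.sqrt_sq (by positivity)
  have hb : 0 < 4 / (3 * ε) := by positivity
  apply not_rolls ε ((200 / lam) ^ 2) R hε0 hε1 hκ hR.1 hR1
  apply h hlam0 ?_ 2 le_rfl (hypM 2 _ hκ) (hypG 2) ⟨hypM_isMetric _ hκ, hypG_christoffel _ hκ, hyp_complete,
    hyp_sec _ hκ c ?_⟩ (DD ε) (ff ε) ⟨isDomain_DD ε hε0 hε1, convex_DD ε _ hε0 hε1 hκ, ?_, ?_, ?_⟩ R hR
  · intro hc
    have h2 := hlow hc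
    rw [div_le_iff₀ hlam0] at h2
    have h3 : ε ^ 2 / 16 ≤ 1 := by nlinarith
    have h4 : ε ^ 2 / 16 * lam ≤ 1 * lam := mul_le_mul_of_nonneg_right h3 hlam0.le
    have h5 : 0 < Real.sqrt (-c) := Real.sqrt_pos.2 (by linarith)
    linarith
  · refine le_trans (le_of_eq ?_) h1
    field_simp
  · intro s ν v k hs hν hk
    have h2 := (curv_bounds ε _ hε0 hε1 hκ s ν v k hs hν hk).2
    rw [hsκ, div_mul_eq_mul_div, div_le_iff₀ hlam0] at h2
    linarith
  · intro hc s ν v k hs hν hk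
    have h2 := (curv_bounds ε _ hε0 hε1 hκ s ν v k hs hν hk).1
    have h3 := (hlow hc).trans h2
    rw [hsκ, div_mul_eq_mul_div, div_le_div_iff_of_pos_right hlam0] at h3
    linarith
  · refine ⟨Real.sqrt ((200 / lam) ^ 2) * (4 / (3 * ε)) + 1, by positivity, hyp_inj _ hκ _, 0, ?_⟩
    intro q hq
    have h2 := rdist_zero_le _ hκ q
    have h3 := mul_le_mul_of_nonneg_left (DD_norm ε hε0 hε1 q hq) (Real.sqrt_nonneg ((200 / lam) ^ 2))
    linarith

/-- The radius exists when `c` is positive. -/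
theorem exists_radius_pos (c lam : ℝ) (hc : 0 < c) (hlam : 0 < lam) : ∃ R, IsRadius c lam R := by
  have hsc : 0 < Real.sqrt c := Real.sqrt_pos.2 hc
  set x : ℝ := Real.sqrt c / lam with hx
  have hx0 : 0 < x := by positivity
  set r : ℝ := Real.arctan x with hr
  have hr0 : 0 < r := Real.arctan_pos.2 hx0
  have hrpi : r < Real.pi / 2 := Real.arctan_lt_pi_div_two _
  have hsin : Real.sin r = x / Real.sqrt (1 + x ^ 2) := Real.sin_arctan _
  have hcos : Real.cos r = 1 / Real.sqrt (1 + x ^ 2) := Real.cos_arctan _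
  have hq : 0 < Real.sqrt (1 + x ^ 2) := Real.sqrt_pos.2 (by positivity)
  have this : r / Real.sqrt c * Real.sqrt c = r := by field_simp
  refine ⟨r / Real.sqrt c, by positivity, fun _ => ?_, ?_⟩
  · rw [this]
    linarith [Real.pi_pos]
  · unfold ct
    rw [if_pos hc, this, hsin, hcos, hx]
    field_simp

/-- The radius exists when `c` is negative, and it is at least `1 / lam / 2`. -/
theorem exists_radius_neg (c lam : ℝ) (hc : c < 0) (hlam : Real.sqrt (-c) < lam) :
    ∃ R, IsRadius c lam R ∧ 1 / (2 * lam) ≤ R := by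
  have hsc : 0 < Real.sqrt (-c) := Real.sqrt_pos.2 (by linarith)
  have hlam0 : 0 < lam := by linarith
  set x : ℝ := Real.sqrt (-c) / lam with hx
  have hx0 : 0 < x := by positivity
  have hx1 : x < 1 := by rw [hx, div_lt_one hlam0]; exact hlam
  set r : ℝ := Real.log ((1 + x) / (1 - x)) / 2 with hr
  have h1x : 0 < 1 - x := by linarith
  have hpos : 0 < (1 + x) / (1 - x) := by positivity
  have hrlow : x / 2 ≤ r := by
    have h1 := Real.one_sub_inv_le_log_of_pos hpos
    have h2 : 1 - ((1 + x) / (1 - x))⁻¹ = 2 * x / (1 + x) := by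
      field_simp
      ring
    rw [h2] at h1
    have h3 : x ≤ 2 * x / (1 + x) := by
      rw [le_div_iff₀ (by linarith)]
      nlinarith
    rw [hr]
    linarith
  have hr0 : 0 < r := by linarith
  have hexp : Real.exp r ^ 2 = (1 + x) / (1 - x) := by
    rw [← Real.exp_nat_mul, hr]
    have : ((2:ℕ):ℝ) * (Real.log ((1 + x) / (1 - x)) / 2) = Real.log ((1 + x) / (1 - x)) := by
      push_cast; ring
    rw [this, Real.exp_log hpos]
  have hcs : Real.cosh r * x = Real.sinh r := by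
    rw [Real.cosh_eq, Real.sinh_eq, Real.exp_neg]
    have he := Real.exp_pos r
    field_simp
    rw [hexp]
    field_simp
    ring
  have this : r / Real.sqrt (-c) * Real.sqrt (-c) = r := by field_simp
  refine ⟨r / Real.sqrt (-c), ⟨by positivity, fun h => absurd h (by linarith), ?_⟩, ?_⟩
  · unfold ct
    rw [if_neg (by linarith), if_neg (by linarith), this, ← hcs, hx]
    have hcosh := Real.cosh_pos r
    field_simp
  · rw [le_div_iff₀ hsc]
    refine le_trans (le_of_eq ?_) hrlow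
    rw [hx]
    field_simp

/-- no rolling for nonnegative `c` -/
theorem no_rolling_nonneg (c lam : ℝ) (hc : 0 ≤ c) (hlam : 0 < lam) : ¬ RollingStatement c lam := by
  obtain ⟨R, hR⟩ : ∃ R, IsRadius c lam R := by
    rcases eq_or_lt_of_le hc with h | h
    · subst h
      refine ⟨1 / lam, by positivity, fun h => absurd h (lt_irrefl _), ?_⟩
      unfold ct
      rw [if_neg (lt_irrefl _), if_pos rfl, one_div_one_div]
    · exact exists_radius_pos c lam h hlam
  have hR0 := hR.1
  set ε : ℝ := min (1 / 1000000) ((R * lam) ^ 2 / 320000) with hε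
  have hε0 : 0 < ε := lt_min (by norm_num) (by positivity)
  have hε2 : ε ≤ (R * lam) ^ 2 / 320000 := min_le_right _ _
  apply main_counter c lam R ε hε0 (min_le_left _ _) hlam
  · nlinarith [sq_nonneg (lam / 200)]
  · intro h; exact absurd h (by linarith)
  · exact hR
  · rw [div_pow, mul_div_assoc', div_le_iff₀ (by positivity)]
    nlinarith

/-- no rolling for negative `c` and `lam` large compared with the square root of `-c` -/
theorem no_rolling_neg (c lam : ℝ) (hc : c < 0) (hlam : 3200 * 10000000 ^ 2 * Real.sqrt (-c) ≤ lam) :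
    ¬ RollingStatement c lam := by
  have hsc : 0 < Real.sqrt (-c) := Real.sqrt_pos.2 (by linarith)
  have hsc2 : Real.sqrt (-c) ^ 2 = -c := Real.sq_sqrt (by linarith)
  have hlam1 : Real.sqrt (-c) < lam := by linarith
  have hlam0 : 0 < lam := by linarith
  obtain ⟨R, hR, hR2⟩ := exists_radius_neg c lam hc hlam1
  apply main_counter c lam R (1 / 10000000) (by norm_num) (by norm_num) hlam0
  · have : Real.sqrt (-c) ≤ lam / 200 := by linarith
    have := pow_le_pow_left₀ hsc.le this 2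
    linarith
  · intro _
    rw [div_le_iff₀ hlam0]
    linarith
  · exact hR
  · have h1 : (1 / (2 * lam)) ^ 2 ≤ R ^ 2 := pow_le_pow_left₀ (by positivity) hR2 2
    refine le_trans ?_ h1
    rw [div_pow, div_pow, mul_div_assoc', div_le_div_iff₀ (by positivity) (by positivity)]
    nlinarith [pow_pos hlam0 2]

end Pool.Agent.Helper43.Roll
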