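import Pool.Agent.Helper9.STP.ProbLib

/-!
# Module O: the outer lemma for the spanning tree polytope lower bound (`MP_3cffc3_co`)
-/

namespace Pool.Agent.Helper43.STPOuter

open Finset
open Pool.Agent.Helper9.SpTree
open scoped Classical

section basic

variable {X : Type} [Fintype X]

theorem Pr_eq_sum_mul (p : ℝ) (D : (X → Bool) → Prop) :
    Pr p D = ∑ B : X → Bool, bw p B * (if D B then 1 else 0) := by
  unfold Pr
  exact Finset.sum_congr rfl fun B _ => by split_ifs <;> simp

theorem Pr_nonneg {p : ℝ} (h0 : 0 ≤ p) (h1 : p ≤ 1) (D : (X → Bool) → Prop) : 0 ≤ Pr p D := by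
  unfold Pr
  refine Finset.sum_nonneg fun B _ => ?_
  split_ifs
  · exact bw_nonneg h0 h1 B
  · exact le_refl _

theorem Pr_mono {p : ℝ} (h0 : 0 ≤ p) (h1 : p ≤ 1) {D D' : (X → Bool) → Prop}
    (h : ∀ B, D B → D' B) : Pr p D ≤ Pr p D' := by
  unfold Pr
  refine Finset.sum_le_sum fun B _ => ?_
  by_cases hD : D B
  · rw [if_pos hD, if_pos (h B hD)]
  · rw [if_neg hD]
    split_ifs
    · exact bw_nonneg h0 h1 B
    · exact le_refl _

theorem Pr_le_one {p : ℝ} (h0 : 0 ≤ p) (h1 : p ≤ 1) (D : (X → Bool) → Prop) : Pr p D ≤ 1 := by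
  calc Pr p D ≤ Pr p (fun _ : X → Bool => True) := Pr_mono h0 h1 fun _ _ => trivial
    _ = 1 := by
      unfold Pr
      simp only [if_true]
      exact sum_bw p

theorem Pr_or_le {p : ℝ} (h0 : 0 ≤ p) (h1 : p ≤ 1) (D D' : (X → Bool) → Prop) :
    Pr p (fun B => D B ∨ D' B) ≤ Pr p D + Pr p D' := by
  unfold Pr
  rw [← Finset.sum_add_distrib]
  refine Finset.sum_le_sum fun B _ => ?_
  have := bw_nonneg h0 h1 B
  by_cases hD : D B <;> by_cases hD' : D' B <;> simp only [hD, hD', or_true, or_false,
    if_true, if_false] <;> linarith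

theorem Pr_exists_le {p : ℝ} (h0 : 0 ≤ p) (h1 : p ≤ 1) {ι : Type*} (s : Finset ι)
    (D : ι → (X → Bool) → Prop) :
    Pr p (fun B => ∃ i ∈ s, D i B) ≤ ∑ i ∈ s, Pr p (D i) := by
  induction s using Finset.induction_on with
  | empty =>
    simp [Pr]
  | insert a s ha ih =>
    rw [Finset.sum_insert ha]
    refine le_trans ?_ (add_le_add_right ih _)
    refine le_trans (Pr_mono h0 h1 ?_) (Pr_or_le h0 h1 _ _)
    intro B hB
    simpa [Finset.mem_insert] using hB

theorem Pr_and_true (p : ℝ) (x : X) (D : (X → Bool) → Prop) :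
    Pr p (fun B => D B ∧ B x = true) = p * Pr p (fun B => D (Function.update B x true)) := by
  rw [Pr_eq_sum_mul, sum_bw_update p x, Pr_eq_sum_mul]
  simp

theorem Pr_and_false (p : ℝ) (x : X) (D : (X → Bool) → Prop) :
    Pr p (fun B => D B ∧ B x = false) =
      (1 - p) * Pr p (fun B => D (Function.update B x false)) := by
  rw [Pr_eq_sum_mul, sum_bw_update p x, Pr_eq_sum_mul]
  simp

theorem Pr_all_true (p : ℝ) (S : Finset X) :
    Pr p (fun B : X → Bool => ∀ x ∈ S, B x = true) = p ^ S.card := by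
  induction S using Finset.induction_on with
  | empty =>
    simp only [Finset.notMem_empty, IsEmpty.forall_iff, implies_true, Finset.card_empty, pow_zero]
    unfold Pr
    simp only [if_true]
    exact sum_bw p
  | insert a S ha ih =>
    have h1 : Pr p (fun B : X → Bool => ∀ x ∈ insert a S, B x = true) =
        Pr p (fun B : X → Bool => (∀ x ∈ S, B x = true) ∧ B a = true) := by
      congr 1
      funext B
      simp only [Finset.mem_insert, forall_eq_or_imp, eq_iff_iff]
      tauto
    rw [h1, Pr_and_true, Finset.card_insert_of_notMem ha, pow_succ']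
    congr 1
    rw [← ih]
    congr 1
    funext B
    simp only [eq_iff_iff]
    refine forall_congr' fun x => ?_
    refine forall_congr' fun hx => ?_
    rw [Function.update_of_ne (by rintro rfl; exact ha hx)]

theorem Pr_all_false (p : ℝ) (S : Finset X) :
    Pr p (fun B : X → Bool => ∀ x ∈ S, B x = false) = (1 - p) ^ S.card := by
  induction S using Finset.induction_on with
  | empty =>
    simp only [Finset.notMem_empty, IsEmpty.forall_iff, implies_true, Finset.card_empty, pow_zero]
    unfold Pr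
    simp only [if_true]
    exact sum_bw p
  | insert a S ha ih =>
    have h1 : Pr p (fun B : X → Bool => ∀ x ∈ insert a S, B x = false) =
        Pr p (fun B : X → Bool => (∀ x ∈ S, B x = false) ∧ B a = false) := by
      congr 1
      funext B
      simp only [Finset.mem_insert, forall_eq_or_imp, eq_iff_iff]
      tauto
    rw [h1, Pr_and_false, Finset.card_insert_of_notMem ha, pow_succ']
    congr 1
    rw [← ih]
    congr 1
    funext B
    simp only [eq_iff_iff]
    refine forall_congr' fun x => ?_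
    refine forall_congr' fun hx => ?_
    rw [Function.update_of_ne (by rintro rfl; exact ha hx)]

/-- probability of an event for the pair -/
noncomputable def Pr2 (ρ : ℝ) (E : (X → Bool) → (X → Bool) → Prop) : ℝ :=
  ∑ B : X → Bool, ∑ Y : X → Bool, qw ρ B Y * (if E B Y then 1 else 0)

theorem Pr2_mono {ρ : ℝ} (h0 : 0 ≤ ρ) (h1 : ρ ≤ 1 / 2) {E E' : (X → Bool) → (X → Bool) → Prop}
    (h : ∀ B Y, E B Y → E' B Y) : Pr2 ρ E ≤ Pr2 ρ E' := by
  unfold Pr2
  refine Finset.sum_le_sum fun B _ => Finset.sum_le_sum fun Y _ => ?_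
  refine mul_le_mul_of_nonneg_left ?_ (qw_nonneg h0 h1 B Y)
  by_cases hE : E B Y
  · rw [if_pos hE, if_pos (h B Y hE)]
  · rw [if_neg hE]
    split_ifs <;> norm_num

theorem Pr2_or_le {ρ : ℝ} (h0 : 0 ≤ ρ) (h1 : ρ ≤ 1 / 2) (E E' : (X → Bool) → (X → Bool) → Prop) :
    Pr2 ρ (fun B Y => E B Y ∨ E' B Y) ≤ Pr2 ρ E + Pr2 ρ E' := by
  unfold Pr2
  rw [← Finset.sum_add_distrib]
  refine Finset.sum_le_sum fun B _ => ?_
  rw [← Finset.sum_add_distrib]
  refine Finset.sum_le_sum fun Y _ => ?_
  rw [← mul_add]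
  refine mul_le_mul_of_nonneg_left ?_ (qw_nonneg h0 h1 B Y)
  by_cases hD : E B Y <;> by_cases hD' : E' B Y <;> simp [hD, hD']

theorem Pr2_left (ρ : ℝ) (D : (X → Bool) → Prop) : Pr2 ρ (fun B _ => D B) = Pr ρ D := by
  unfold Pr2
  rw [Pr_eq_sum_mul]
  refine Finset.sum_congr rfl fun B _ => ?_
  rw [← Finset.sum_mul, sum_qw_right]

theorem Pr2_right (ρ : ℝ) (D : (X → Bool) → Prop) : Pr2 ρ (fun _ Y => D Y) = Pr (1 / 2) D := by
  unfold Pr2
  rw [Pr_eq_sum_mul, Finset.sum_comm]
  refine Finset.sum_congr rfl fun Y _ => ?_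
  rw [← Finset.sum_mul, sum_qw_left]

theorem Pr2_exists_le {ρ : ℝ} (h0 : 0 ≤ ρ) (h1 : ρ ≤ 1 / 2) {ι : Type*} (s : Finset ι)
    (E : ι → (X → Bool) → (X → Bool) → Prop) :
    Pr2 ρ (fun B Y => ∃ i ∈ s, E i B Y) ≤ ∑ i ∈ s, Pr2 ρ (E i) := by
  induction s using Finset.induction_on with
  | empty => simp [Pr2]
  | insert a s ha ih =>
    rw [Finset.sum_insert ha]
    refine le_trans ?_ (add_le_add_right ih _)
    refine le_trans (Pr2_mono h0 h1 ?_) (Pr2_or_le h0 h1 _ _)
    intro B Y hB
    simpa [Finset.mem_insert] using hB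

end basic

section numeric

theorem bernoulli_inv {a δ : ℝ} {J : ℕ} (ha0 : 0 ≤ a) (ha1 : a ≤ 1) (hδ : δ ≤ (1 - a) ^ J)
    (hδ0 : 0 ≤ δ) : δ * (J * a) ≤ 1 := by
  have h1 : 1 + (J : ℝ) * a ≤ (1 + a) ^ J := one_add_mul_le_pow (by linarith) J
  have h2 : (1 - a) ^ J * (1 + a) ^ J ≤ 1 := by
    rw [← mul_pow]
    refine pow_le_one₀ (by nlinarith) (by nlinarith)
  have h3 : δ * (1 + J * a) ≤ 1 := by
    calc δ * (1 + J * a) ≤ (1 - a) ^ J * (1 + a) ^ J := by
          apply mul_le_mul hδ h1 (by positivity)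
          exact pow_nonneg (by linarith) _
      _ ≤ 1 := h2
  nlinarith

theorem nat_ineq (e : ℕ) (he : 10 ≤ e) : 11 * e + 1 < 2 ^ (6 * e - 2) := by
  induction e, he using Nat.le_induction with
  | base => norm_num
  | succ e he ih =>
    have h1 : 6 * (e + 1) - 2 = (6 * e - 2) + 6 := by omega
    rw [h1, pow_add]
    omega

theorem q_small (e : ℕ) (he : 10 ≤ e) :
    (1 - (1 / 2 : ℝ) ^ e / 4) ^ (2 ^ (7 * e)) < ((1 / 2 : ℝ) ^ e) ^ 11 / 2 := by
  have ht1 : (1 / 2 : ℝ) ^ e ≤ 1 := pow_le_one₀ (by norm_num) (by norm_num)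
  have h1 : 1 - (1 / 2 : ℝ) ^ e / 4 ≤ Real.exp (-((1 / 2 : ℝ) ^ e / 4)) := by
    have := Real.add_one_le_exp (-((1 / 2 : ℝ) ^ e / 4))
    linarith
  have h2 : (1 - (1 / 2 : ℝ) ^ e / 4) ^ (2 ^ (7 * e)) ≤
      Real.exp (-((1 / 2 : ℝ) ^ e / 4)) ^ (2 ^ (7 * e)) :=
    pow_le_pow_left₀ (by linarith) h1 _
  have h3 : Real.exp (-((1 / 2 : ℝ) ^ e / 4)) ^ (2 ^ (7 * e)) =
      Real.exp (-1) ^ (2 ^ (6 * e - 2)) := by
    rw [← Real.exp_nat_mul, ← Real.exp_nat_mul]
    congr 1
    have h4 : (2 : ℝ) ^ (7 * e) = 2 ^ (6 * e - 2) * (2 ^ e * 4) := by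
      have : 7 * e = (6 * e - 2) + (e + 2) := by omega
      rw [this, pow_add, pow_add]
      norm_num
    push_cast
    rw [h4, one_div, inv_pow]
    have : (2 : ℝ) ^ e ≠ 0 := by positivity
    field_simp
  have h5 : Real.exp (-1) ≤ 1 / 2 := by
    rw [Real.exp_neg, one_div]
    apply inv_anti₀ (by norm_num)
    have := Real.add_one_le_exp (1 : ℝ)
    linarith
  have h6 : Real.exp (-1) ^ (2 ^ (6 * e - 2)) ≤ (1 / 2 : ℝ) ^ (2 ^ (6 * e - 2)) :=
    pow_le_pow_left₀ (Real.exp_pos _).le h5 _
  have h7 : (1 / 2 : ℝ) ^ (2 ^ (6 * e - 2)) < (1 / 2 : ℝ) ^ (11 * e + 1) :=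
    pow_lt_pow_right_of_lt_one₀ (by norm_num) (by norm_num) (nat_ineq e he)
  have h8 : (1 / 2 : ℝ) ^ (11 * e + 1) = ((1 / 2 : ℝ) ^ e) ^ 11 / 2 := by
    rw [pow_succ, ← pow_mul, mul_comm e 11]
    ring
  rw [← h8]
  calc _ ≤ _ := h2
    _ = _ := h3
    _ ≤ _ := h6
    _ < _ := h7

theorem add_five_le (e : ℕ) (he : 10 ≤ e) : ((e : ℝ) + 5) * (1 / 2 : ℝ) ^ e ≤ 1 := by
  have h : e + 5 ≤ 2 ^ e := by
    induction e, he using Nat.le_induction with
    | base => norm_num
    | succ e he ih => rw [pow_succ]; omega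
  have h' : (e : ℝ) + 5 ≤ 2 ^ e := by exact_mod_cast h
  rw [one_div, inv_pow]
  have : (0 : ℝ) < 2 ^ e := by positivity
  rw [← div_eq_mul_inv, div_le_one this]
  exact h'

theorem t_small (e : ℕ) (he : 10 ≤ e) : (1 / 2 : ℝ) ^ e ≤ 1 / 1024 := by
  calc (1 / 2 : ℝ) ^ e ≤ (1 / 2 : ℝ) ^ 10 := pow_le_pow_of_le_one (by norm_num) (by norm_num) he
    _ = 1 / 1024 := by norm_num

end numeric

section main

variable {W X : Type} [Fintype W] [Fintype X]

/-- Steps 2 and 3a: few bad coordinates. -/
theorem few_bad {p : ℝ} (h0 : 0 ≤ p) (h1 : p ≤ 1) (D : (X → Bool) → Prop) (b : Bool) (S : Finset X)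
    {m : ℕ} (hm : m ≤ S.card) {η A : ℝ}
    (hb : ∀ S' : Finset X, Pr p (fun B : X → Bool => ∀ x ∈ S', B x = !b) = A ^ S'.card)
    (hS : ∀ c ∈ S, Pr p (fun Y => D Y ∧ Y c = b) ≤ η) :
    Pr p D ≤ A ^ m + m * η := by
  obtain ⟨S', hS', hcard⟩ := Finset.exists_subset_card_eq hm
  have h2 : Pr p D ≤ Pr p (fun B : X → Bool => (∀ x ∈ S', B x = !b) ∨
      ∃ c ∈ S', D B ∧ B c = b) := by
    refine Pr_mono h0 h1 fun B hB => ?_
    by_cases h : ∀ x ∈ S', B x = !b
    · exact Or.inl h
    · right
      push Not at h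
      obtain ⟨x, hx, hne⟩ := h
      refine ⟨x, hx, hB, ?_⟩
      cases hBx : B x <;> cases b <;> simp_all
  refine h2.trans ((Pr_or_le h0 h1 _ _).trans ?_)
  rw [hb, hcard]
  refine add_le_add_right ?_ _
  refine (Pr_exists_le h0 h1 S' _).trans ?_
  calc ∑ i ∈ S', Pr p (fun B => D B ∧ B i = b) ≤ ∑ _i ∈ S', η :=
        Finset.sum_le_sum fun c hc => hS c (hS' hc)
    _ = m * η := by rw [Finset.sum_const, hcard, nsmul_eq_mul]

theorem outer_aux (e : ℕ) (he : 10 ≤ e)
    (hX : Fintype.card X = 2 ^ (10 * e)) (hW : Fintype.card W = 2 ^ (10 * e))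
    (V : W → (X → Bool) → Prop) (T : W → X → (X → Bool) → Prop)
    (E2 : ∀ v v' c A Y, V v' A → T v c Y → v' ≠ v → A c = true → A ≤ Y → False)
    (E3 : ∀ v c A Y, V v A → T v c Y → (∀ x, A x = true → Y x = false) → False) :
    ∑ c : X, Pr2 (rho (2 ^ (7 * e))) (fun B Y =>
        ∃ v, V v (Function.update B c true) ∧ T v c (Function.update Y c true))
      ≤ (1 / 2 : ℝ) ^ e * Fintype.card X := by
  set J : ℕ := 2 ^ (7 * e) with hJdef
  have hJ : 0 < J := by positivity
  have r0 := rho_nonneg J hJ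
  have r1 := rho_le_half J hJ
  have r1' : rho J ≤ 1 := by linarith
  have hh0 : (0 : ℝ) ≤ 1 / 2 := by norm_num
  have hh1 : (1 / 2 : ℝ) ≤ 1 := by norm_num
  set t : ℝ := (1 / 2 : ℝ) ^ e with ht
  have ht0 : 0 < t := by positivity
  have htS : t ≤ 1 / 1024 := t_small e he
  have hmt : ((e : ℝ) + 5) * t ≤ 1 := add_five_le e he
  set q : ℝ := (1 - t / 4) ^ J with hq
  have hqs : q < t ^ 11 / 2 := q_small e he
  have hq0 : 0 ≤ q := pow_nonneg (by linarith) _
  -- sizes in terms of `t`
  have hn : (Fintype.card X : ℝ) * t ^ 10 = 1 := by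
    rw [hX, ht]
    push_cast
    rw [← pow_mul, mul_comm e 10, ← mul_pow]
    norm_num
  have hnW : (Fintype.card W : ℝ) * t ^ 10 = 1 := by
    rw [hW, ht]
    push_cast
    rw [← pow_mul, mul_comm e 10, ← mul_pow]
    norm_num
  have hJt : (J : ℝ) * t ^ 7 = 1 := by
    rw [hJdef, ht]
    push_cast
    rw [← pow_mul, mul_comm e 7, ← mul_pow]
    norm_num
  set n : ℝ := (Fintype.card X : ℝ) with hndef
  have hn0 : 0 < n := by
    by_contra h
    have : n * t ^ 10 ≤ 0 := mul_nonpos_of_nonpos_of_nonneg (by linarith) (by positivity)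
    linarith
  have hJ0 : (0 : ℝ) < J := by exact_mod_cast hJ
  have hWne : Nonempty W := by
    rw [← Fintype.card_pos_iff, hW]; positivity
  -- the inner probabilities
  set ev : X → ℝ := fun c => Pr2 (rho J) (fun B Y =>
        ∃ v, V v (Function.update B c true) ∧ T v c (Function.update Y c true)) with hev
  by_contra hcon
  push Not at hcon
  have ev_le : ∀ c, ev c ≤ 1 := fun c => by
    calc ev c ≤ Pr2 (rho J) (fun (_ : X → Bool) (_ : X → Bool) => True) :=
          Pr2_mono r0 r1 fun _ _ _ => trivial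
      _ = Pr (rho J) (fun _ : X → Bool => True) := Pr2_left (rho J) (fun _ => True)
      _ ≤ 1 := Pr_le_one r0 r1' _
  let act : Finset X := univ.filter fun c => t / 2 ≤ ev c
  have hact : t / 2 * n < act.card := by
    have h1 : ∑ c, ev c ≤ ∑ c : X, (t / 2 + if c ∈ act then (1 : ℝ) else 0) := by
      refine Finset.sum_le_sum fun c _ => ?_
      by_cases hc : t / 2 ≤ ev c
      · have : c ∈ act := Finset.mem_filter.2 ⟨Finset.mem_univ _, hc⟩
        rw [if_pos this]
        have := ev_le c
        linarith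
      · have : c ∉ act := fun h => hc (Finset.mem_filter.1 h).2
        rw [if_neg this]
        linarith
    rw [Finset.sum_add_distrib, Finset.sum_const, Finset.sum_ite_mem, Finset.univ_inter,
      Finset.sum_const, nsmul_eq_mul, nsmul_eq_mul, mul_one, Finset.card_univ] at h1
    change _ ≤ n * (t / 2) + _ at h1
    have h2 : t * n < ∑ c, ev c := hcon
    linarith
  -- Step 1
  have step1 : ∀ c ∈ act, ∃ v, t / 4 ≤ Pr (rho J) (fun B => V v (Function.update B c true)) ∧
      t / 4 ≤ Pr (1 / 2) (fun Y => T v c (Function.update Y c true)) := by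
    intro c hc
    have hce : t / 2 ≤ ev c := (Finset.mem_filter.1 hc).2
    have h1 : ev c ≤ ∑ v : W, Pr (1 / 2) (fun Y => T v c (Function.update Y c true)) := by
      calc ev c ≤ Pr2 (rho J) (fun _ Y => ∃ v ∈ (univ : Finset W),
              T v c (Function.update Y c true)) := by
            refine Pr2_mono r0 r1 fun B Y h => ?_
            obtain ⟨v, _, hv⟩ := h
            exact ⟨v, Finset.mem_univ _, hv⟩
        _ ≤ ∑ v : W, Pr2 (rho J) (fun _ Y => T v c (Function.update Y c true)) :=
            Pr2_exists_le r0 r1 _ _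
        _ = _ := Finset.sum_congr rfl fun v _ => Pr2_right _ _
    obtain ⟨v, hv⟩ : ∃ v : W, t ^ 11 / 2 ≤
        Pr (1 / 2) (fun Y => T v c (Function.update Y c true)) := by
      by_contra hno
      push Not at hno
      have h2 : ∑ v : W, Pr (1 / 2) (fun Y => T v c (Function.update Y c true)) <
          ∑ _v : W, t ^ 11 / 2 :=
        Finset.sum_lt_sum_of_nonempty Finset.univ_nonempty fun v _ => hno v
      rw [Finset.sum_const, nsmul_eq_mul, Finset.card_univ] at h2
      have h3 : (Fintype.card W : ℝ) * (t ^ 11 / 2) = t / 2 := by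
        calc (Fintype.card W : ℝ) * (t ^ 11 / 2) = ((Fintype.card W : ℝ) * t ^ 10) * (t / 2) := by
              ring
          _ = t / 2 := by rw [hnW, one_mul]
      linarith
    -- the event of another label
    let D : (X → Bool) → Prop := fun B => ∃ v', v' ≠ v ∧ V v' (Function.update B c true)
    have h4 : Pr (1 / 2) (fun Y => T v c (Function.update Y c true)) ≤ (1 - Pr (rho J) D) ^ J := by
      refine bb1 J hJ D _ ?_
      rintro B C hBC hT ⟨v', hv', hV⟩
      refine E2 v v' c _ _ hV hT hv' (by simp) ?_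
      intro x
      by_cases hx : x = c
      · subst hx
        rw [Function.update_self, Function.update_self]
      · rw [Function.update_of_ne hx, Function.update_of_ne hx]
        exact hBC x
    have hD : Pr (rho J) D ≤ t / 4 := by
      by_contra hno
      push Not at hno
      have h5 : (1 - Pr (rho J) D) ^ J ≤ q :=
        pow_le_pow_left₀ (by linarith [Pr_le_one r0 r1' D]) (by linarith) _
      linarith
    have h6 : ev c ≤ Pr (rho J) D + Pr (rho J) (fun B => V v (Function.update B c true)) := by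
      rw [← Pr2_left, ← Pr2_left (rho J) (fun B => V v (Function.update B c true))]
      refine le_trans (Pr2_mono r0 r1 ?_) (Pr2_or_le r0 r1 _ _)
      rintro B Y ⟨v', hV, hT⟩
      by_cases hvv : v' = v
      · subst hvv; exact Or.inr hV
      · exact Or.inl ⟨v', hvv, hV⟩
    have h7 : ev c ≤ Pr (rho J) D + Pr (1 / 2) (fun Y => T v c (Function.update Y c true)) := by
      rw [← Pr2_left, ← Pr2_right (rho J) (fun Y => T v c (Function.update Y c true))]
      refine le_trans (Pr2_mono r0 r1 ?_) (Pr2_or_le r0 r1 _ _)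
      rintro B Y ⟨v', hV, hT⟩
      by_cases hvv : v' = v
      · subst hvv; exact Or.inr hT
      · exact Or.inl ⟨v', hvv, hV⟩
    exact ⟨v, by linarith, by linarith⟩
  choose! lab hlab using step1
  -- Step 2
  have step2 : ∀ c ∈ act, ∀ c' ∈ act, c ≠ c' → lab c = lab c' →
      Pr (1 / 2) (fun Y => T (lab c') c' (Function.update Y c' true) ∧ Y c = false) ≤ 2 * q := by
    intro c hc c' hc' hne hl
    set v := lab c' with hv
    have h1 : Pr (1 / 2) (fun Y => (T v c' (Function.update Y c' true) ∧ Y c = false) ∧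
        Y c' = true) = 1 / 2 * Pr (1 / 2)
          (fun Y => T v c' (Function.update Y c' true) ∧ Y c = false) := by
      rw [Pr_and_true]
      congr 2
      funext Y
      rw [Function.update_idem, Function.update_of_ne hne]
    have h2 : Pr (1 / 2) (fun Y => (T v c' (Function.update Y c' true) ∧ Y c = false) ∧
        Y c' = true) ≤ q := by
      rw [← Pr_compl]
      refine le_trans (bb1 J hJ (fun B => V v (Function.update B c true)) _ ?_) ?_
      · rintro B C hBC ⟨⟨hT, hYc⟩, hYc'⟩ hV
        refine E3 v c' _ _ hV hT ?_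
        intro x hx
        simp only [Bool.not_eq_false', Bool.not_eq_true'] at hYc hYc'
        by_cases hxc : x = c
        · subst hxc
          rw [Function.update_of_ne hne, hYc]
          rfl
        · rw [Function.update_of_ne hxc] at hx
          have hCx : C x = true := by
            have := hBC x
            rw [hx] at this
            exact Bool.eq_true_of_true_le this
          have hxc' : x ≠ c' := by
            rintro rfl
            rw [hCx] at hYc'
            exact absurd hYc' (by decide)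
          rw [Function.update_of_ne hxc', hCx]
          rfl
      · refine pow_le_pow_left₀ ?_ ?_ _
        · linarith [Pr_le_one r0 r1' (fun B => V v (Function.update B c true))]
        · have := (hlab c hc).1
          rw [hl] at this
          linarith
    rw [h1] at h2
    linarith
  set m : ℕ := e + 5 with hm
  have hmr : (m : ℝ) = e + 5 := by rw [hm]; push_cast; ring
  have hhalf : (1 / 2 : ℝ) ^ m = t / 32 := by
    rw [hm, pow_add, ← ht]; norm_num; ring
  have hm0 : (0 : ℝ) < m := by rw [hmr]; positivity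
  have step2b : ∀ c' ∈ act, (act.filter fun c => c ≠ c' ∧ lab c = lab c').card < m := by
    intro c' hc'
    by_contra hno
    push Not at hno
    have h1 := few_bad hh0 hh1 (fun Y => T (lab c') c' (Function.update Y c' true)) false _ hno
      (η := 2 * q) (A := 1 / 2) (fun S' => by simpa using Pr_all_true (1 / 2 : ℝ) S')
      (fun c hc => by
        have hc2 := Finset.mem_filter.1 hc
        exact step2 c hc2.1 c' hc' hc2.2.1 hc2.2.2)
    have h2 := (hlab c' hc').2
    rw [hhalf] at h1
    have h3 : (m : ℝ) * (2 * q) ≤ t ^ 10 := by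
      calc (m : ℝ) * (2 * q) ≤ m * (t ^ 11) := by
            apply mul_le_mul_of_nonneg_left _ hm0.le
            linarith
        _ = ((e + 5) * t) * t ^ 10 := by rw [hmr]; ring
        _ ≤ 1 * t ^ 10 := mul_le_mul_of_nonneg_right hmt (by positivity)
        _ = t ^ 10 := one_mul _
    have h4 : t ^ 10 ≤ t / 32 := by
      have h5 : t ^ 9 ≤ 1 / 32 := by
        calc t ^ 9 ≤ t ^ 1 := pow_le_pow_of_le_one ht0.le (by linarith) (by norm_num)
          _ ≤ 1 / 32 := by rw [pow_one]; linarith
      calc t ^ 10 = t * t ^ 9 := by ring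
        _ ≤ t * (1 / 32) := mul_le_mul_of_nonneg_left h5 ht0.le
        _ = t / 32 := by ring
    linarith
  -- Step 3
  set δ : ℝ := t / (16 * m) with hδ
  have hδ0 : 0 < δ := by positivity
  have hmδ : (m : ℝ) * δ = t / 16 := by
    rw [hδ]; field_simp
  let Bl : X → Finset X := fun c' => act.filter fun c => c ≠ c' ∧
    Pr (1 / 2) (fun Y => T (lab c') c' (Function.update Y c' true) ∧ Y c = true) < δ
  have step3a : ∀ c' ∈ act, (Bl c').card < m := by
    intro c' hc'
    by_contra hno
    push Not at hno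
    have h1 := few_bad hh0 hh1 (fun Y => T (lab c') c' (Function.update Y c' true)) true _ hno
      (η := δ) (A := 1 - 1 / 2) (fun S' => by simpa using Pr_all_false (1 / 2 : ℝ) S')
      (fun c hc => by
        have hc2 := Finset.mem_filter.1 hc
        exact hc2.2.2.le)
    have h2 := (hlab c' hc').2
    have h3 : (1 - 1 / 2 : ℝ) ^ m = t / 32 := by rw [← hhalf]; norm_num
    rw [h3, hmδ] at h1
    linarith
  have hactne : act.Nonempty := by
    rw [← Finset.card_pos]
    have : (0 : ℝ) < act.card := lt_trans (by positivity) hact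
    exact_mod_cast this
  obtain ⟨c, hc, hcB⟩ : ∃ c ∈ act, (act.filter fun c' => c ∈ Bl c').card < m := by
    by_contra hno
    push Not at hno
    have h1 : ∑ c ∈ act, (act.filter fun c' => c ∈ Bl c').card =
        ∑ c' ∈ act, (act.filter fun c => c ∈ Bl c').card := by
      simp only [Finset.card_filter]
      exact Finset.sum_comm
    have h2 : ∑ c' ∈ act, (act.filter fun c => c ∈ Bl c').card < ∑ _c' ∈ act, m := by
      refine Finset.sum_lt_sum_of_nonempty hactne fun c' hc' => ?_
      refine lt_of_le_of_lt (Finset.card_le_card ?_) (step3a c' hc')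
      intro x hx
      exact (Finset.mem_filter.1 hx).2
    have h3 : ∑ _c ∈ act, m ≤ ∑ c ∈ act, (act.filter fun c' => c ∈ Bl c').card :=
      Finset.sum_le_sum fun c hc => hno c hc
    omega
  let G : Finset X := act.filter fun c' => c' ≠ c ∧ lab c' ≠ lab c ∧ c ∉ Bl c'
  have hG : act.card ≤ G.card + 2 * m := by
    have h1 : act ⊆ ((G ∪ {c}) ∪ (act.filter fun c' => c' ≠ c ∧ lab c' = lab c)) ∪
        (act.filter fun c' => c ∈ Bl c') := by
      intro x hx
      by_cases h1 : x = c
      · simp [h1]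
      by_cases h2 : lab x = lab c
      · simp [h1, h2, hx]
      by_cases h3 : c ∈ Bl x
      · simp [hx, h3]
      · have : x ∈ G := Finset.mem_filter.2 ⟨hx, h1, h2, h3⟩
        simp [this]
    have h2 := Finset.card_le_card h1
    have h3 := step2b c hc
    have h4 := Finset.card_union_le ((G ∪ {c}) ∪ (act.filter fun c' => c' ≠ c ∧ lab c' = lab c))
      (act.filter fun c' => c ∈ Bl c')
    have h5 := Finset.card_union_le (G ∪ {c}) (act.filter fun c' => c' ≠ c ∧ lab c' = lab c)
    have h6 := Finset.card_union_le G {c}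
    rw [Finset.card_singleton] at h6
    omega
  have step3d : ∀ c' ∈ G, Pr (rho J) (fun B => V (lab c) (Function.update B c true) ∧
      B c' = true) ≤ 1 / (δ * J ^ 2) := by
    intro c' hc'
    obtain ⟨hc'a, hne, hl, hnB⟩ := Finset.mem_filter.1 hc'
    set a := Pr (rho J) (fun B => V (lab c)
      (Function.update (Function.update B c' true) c true)) with ha
    have ha0 : 0 ≤ a := Pr_nonneg r0 r1' _
    have ha1 : a ≤ 1 := Pr_le_one r0 r1' _
    have h1 : δ ≤ Pr (1 / 2) (fun Y => T (lab c') c' (Function.update Y c' true) ∧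
        Y c = true) := by
      by_contra hno
      push Not at hno
      exact hnB (Finset.mem_filter.2 ⟨hc, fun h => hne h.symm, hno⟩)
    have h2 : Pr (1 / 2) (fun Y => T (lab c') c' (Function.update Y c' true) ∧
        Y c = true) ≤ (1 - a) ^ J := by
      refine bb1 J hJ _ _ ?_
      rintro B C hBC ⟨hT, hCc⟩ hV
      refine E2 (lab c') (lab c) c' _ _ hV hT (fun h => hl h.symm) ?_ ?_
      · rw [Function.update_of_ne hne, Function.update_self]
      · intro x
        by_cases hx1 : x = c
        · subst hx1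
          rw [Function.update_self, Function.update_of_ne (fun h => hne h.symm), hCc]
        · rw [Function.update_of_ne hx1]
          by_cases hx2 : x = c'
          · subst hx2
            rw [Function.update_self, Function.update_self]
          · rw [Function.update_of_ne hx2, Function.update_of_ne hx2]
            exact hBC x
    have h3 : δ * (J * a) ≤ 1 := bernoulli_inv ha0 ha1 (h1.trans h2) hδ0.le
    rw [Pr_and_true, ← ha]
    have h4 : rho J ≤ 1 / J := by
      rw [le_div_iff₀ hJ0]
      have := rho_upper J hJ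
      linarith
    have h5 : a ≤ 1 / (δ * J) := by
      rw [le_div_iff₀ (by positivity)]
      linarith
    calc rho J * a ≤ (1 / J) * (1 / (δ * J)) :=
          mul_le_mul h4 h5 ha0 (by positivity)
      _ = 1 / (δ * J ^ 2) := by
          rw [one_div_mul_one_div]
          congr 1
          ring
  -- the contradiction
  have h1 : Pr (rho J) (fun B => V (lab c) (Function.update B c true)) ≤
      (1 - rho J) ^ G.card + G.card * (1 / (δ * J ^ 2)) :=
    few_bad r0 r1' _ true G le_rfl (fun S' => by simpa using Pr_all_false (rho J) S') step3d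
  have h2 := (hlab c hc).1
  have hGn : (G.card : ℝ) ≤ n := by
    have := Finset.card_le_univ G
    rw [hndef]
    exact_mod_cast this
  have hT1 : (G.card : ℝ) * (1 / (δ * J ^ 2)) < t / 8 := by
    have h3 : n * (1 / (δ * J ^ 2)) = 16 * (((e : ℝ) + 5) * t) * t ^ 2 := by
      have hne : δ * J ^ 2 ≠ 0 := by positivity
      rw [mul_one_div, div_eq_iff hne, hδ]
      have e1 : n = n * t ^ 10 / t ^ 10 := by field_simp
      have e2 : (J : ℝ) = 1 / t ^ 7 := by
        rw [eq_div_iff (by positivity)]; exact hJt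
      rw [e1, hn, e2, hmr]
      have : (e : ℝ) + 5 ≠ 0 := by positivity
      field_simp
    have h4 : 16 * (((e : ℝ) + 5) * t) * t ^ 2 ≤ 16 * 1 * t ^ 2 := by
      apply mul_le_mul_of_nonneg_right _ (by positivity)
      linarith
    have h5 : 16 * 1 * t ^ 2 < t / 8 := by nlinarith
    calc (G.card : ℝ) * (1 / (δ * J ^ 2)) ≤ n * (1 / (δ * J ^ 2)) :=
          mul_le_mul_of_nonneg_right hGn (by positivity)
      _ < t / 8 := by linarith
  have hT2 : (1 - rho J) ^ G.card ≤ t / 8 := by
    have h3 : J * (e + 3) ≤ G.card := by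
      have h4 : (act.card : ℝ) ≤ G.card + 2 * m := by exact_mod_cast hG
      have h5 : (J : ℝ) * (e + 3) ≤ G.card := by
        have e2 : (J : ℝ) = 1 / t ^ 7 := by
          rw [eq_div_iff (by positivity)]; exact hJt
        have e1 : n = 1 / t ^ 10 := by
          rw [eq_div_iff (by positivity)]; exact hn
        have e3 : (J : ℝ) * (e + 3) ≤ 1 / t ^ 8 := by
          rw [e2, one_div_mul_eq_div, div_le_div_iff₀ (by positivity) (by positivity)]
          have : ((e : ℝ) + 3) * t ≤ 1 := by
            have : ((e : ℝ) + 3) * t ≤ (e + 5) * t := by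
              apply mul_le_mul_of_nonneg_right _ ht0.le
              linarith
            linarith
          calc ((e : ℝ) + 3) * t ^ 8 = ((e + 3) * t) * t ^ 7 := by ring
            _ ≤ 1 * t ^ 7 := mul_le_mul_of_nonneg_right this (by positivity)
        have e4 : 2 * (m : ℝ) ≤ 2 / t := by
          rw [le_div_iff₀ ht0, hmr]
          linarith
        have e5 : t / 2 * n = 1 / (2 * t ^ 9) := by
          rw [e1]; field_simp
        have e6 : 1 / t ^ 8 + 2 / t ≤ 1 / (2 * t ^ 9) := by
          rw [div_add_div _ _ (by positivity) (by positivity),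
            div_le_div_iff₀ (by positivity) (by positivity)]
          have g1 : t ^ 9 ≤ t ^ 1 * 1 := by
            rw [mul_one]
            exact pow_le_pow_of_le_one ht0.le (by linarith) (by norm_num)
          have g2 : t ^ 8 ≤ 1 := pow_le_one₀ ht0.le (by linarith)
          have g3 : t ^ 17 ≤ t ^ 10 := pow_le_pow_of_le_one ht0.le (by linarith) (by norm_num)
          have g4 : t ^ 10 ≤ t ^ 9 / 1024 := by
            calc t ^ 10 = t ^ 9 * t := by ring
              _ ≤ t ^ 9 * (1 / 1024) := mul_le_mul_of_nonneg_left htS (by positivity)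
              _ = t ^ 9 / 1024 := by ring
          have g5 : 0 < t ^ 9 := by positivity
          calc (1 * t + t ^ 8 * 2) * (2 * t ^ 9) = 2 * t ^ 10 + 4 * t ^ 17 := by ring
            _ ≤ 2 * t ^ 10 + 4 * t ^ 10 := by linarith
            _ ≤ t ^ 9 := by linarith
            _ = 1 * (t ^ 8 * t) := by ring
        linarith
      exact_mod_cast h5
    calc (1 - rho J) ^ G.card ≤ (1 - rho J) ^ (J * (e + 3)) :=
          pow_le_pow_of_le_one (by linarith) (by linarith) h3
      _ = t / 8 := by
          rw [pow_mul, rho_pow J hJ, pow_add, ← ht]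
          ring
  linarith

theorem outer (e : ℕ) (he : 10 ≤ e)
    (hX : Fintype.card X = 2 ^ (10 * e)) (hW : Fintype.card W = 2 ^ (10 * e))
    (V : W → (X → Bool) → Prop) (T : W → X → (X → Bool) → Prop)
    (E2 : ∀ v v' c A Y, V v' A → T v c Y → v' ≠ v → A c = true → A ≤ Y → False)
    (E3 : ∀ v c A Y, V v A → T v c Y → (∀ x, A x = true → Y x = false) → False) :
    ∑ c : X, ∑ B : X → Bool, ∑ Y : X → Bool, qw (rho (2 ^ (7 * e))) B Y *
        (if ∃ v, V v (Function.update B c true) ∧ T v c (Function.update Y c true) then 1 else 0)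
      ≤ (1 / 2 : ℝ) ^ e * Fintype.card X := by
  have h := outer_aux e he hX hW V T E2 E3
  refine le_trans (le_of_eq ?_) h
  unfold Pr2
  refine Finset.sum_congr rfl fun c _ => Finset.sum_congr rfl fun B _ =>
    Finset.sum_congr rfl fun Y _ => ?_
  congr 1
  by_cases hh : ∃ v, V v (Function.update B c true) ∧ T v c (Function.update Y c true)
  · rw [if_pos hh, if_pos hh]
  · rw [if_neg hh, if_neg hh]

end main

end Pool.Agent.Helper43.STPOuter
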