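import Pool.Agent.Helper10.Sub.Hasse

/-!
# Subspace theorem project, module AUX, part 1: counting exponents, algebraic coefficients
-/

set_option autoImplicit false

namespace Pool.Agent.Helper43.Sub

open Pool.Agent.Helper10.Sub
open MvPolynomial Finset

/-! ### (A) second moment over a product of finite sets -/

section count

variable {b : ℕ} {α : Type*} [DecidableEq α]

/-- Mean zero functions on the factors of a product: second moment of the sum. -/
theorem second_moment (A : Fin b → Finset α) (Y : Fin b → α → ℝ)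
    (h0 : ∀ h, ∑ x ∈ A h, Y h x = 0) (h1 : ∀ h, ∀ x ∈ A h, |Y h x| ≤ 1) :
    ∑ J ∈ Fintype.piFinset A, (∑ h, Y h (J h)) ^ 2 ≤ b * (Fintype.piFinset A).card := by
  have hcross : ∀ h h' : Fin b, h ≠ h' →
      ∑ J ∈ Fintype.piFinset A, Y h (J h) * Y h' (J h') = 0 := by
    intro h h' hne
    have e1 : ∀ J : Fin b → α, Y h (J h) * Y h' (J h') =
        ∏ k, (if k = h then Y h (J k) else if k = h' then Y h' (J k) else 1) := by
      intro J
      rw [Finset.prod_eq_mul h h' hne]
      · simp [hne.symm]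
      · intro c _ hc
        simp [hc.1, hc.2]
      · intro hh; exact absurd (Finset.mem_univ _) hh
      · intro hh; exact absurd (Finset.mem_univ _) hh
    rw [Finset.sum_congr rfl fun J _ => e1 J]
    have e2 := Finset.prod_univ_sum A (fun (k : Fin b) (x : α) =>
      (if k = h then Y h x else if k = h' then Y h' x else 1))
    rw [← e2]
    apply Finset.prod_eq_zero (Finset.mem_univ h)
    simpa using h0 h
  have e3 : ∀ J : Fin b → α, (∑ h, Y h (J h)) ^ 2 = ∑ h, ∑ h', Y h (J h) * Y h' (J h') := by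
    intro J
    rw [sq, Finset.sum_mul_sum]
  rw [Finset.sum_congr rfl fun J _ => e3 J, Finset.sum_comm]
  have e4 : ∀ h : Fin b, ∑ J ∈ Fintype.piFinset A, ∑ h', Y h (J h) * Y h' (J h') ≤
      (Fintype.piFinset A).card := by
    intro h
    rw [Finset.sum_comm, Finset.sum_eq_single h]
    · calc ∑ J ∈ Fintype.piFinset A, Y h (J h) * Y h (J h) ≤
            ∑ _J ∈ Fintype.piFinset A, (1 : ℝ) := by
            refine Finset.sum_le_sum fun J hJ => ?_
            have := h1 h (J h) (Fintype.mem_piFinset.1 hJ h)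
            rw [← sq, ← sq_abs]
            nlinarith [abs_nonneg (Y h (J h))]
        _ = _ := by simp
    · intro h' _ hne
      exact hcross h h' hne.symm
    · intro hh; exact absurd (Finset.mem_univ _) hh
  calc _ ≤ ∑ _h : Fin b, ((Fintype.piFinset A).card : ℝ) := Finset.sum_le_sum fun h _ => e4 h
    _ = _ := by simp

/-- Chebyshev's inequality for such sums. -/
theorem chebyshev (A : Fin b → Finset α) (Y : Fin b → α → ℝ)
    (h0 : ∀ h, ∑ x ∈ A h, Y h x = 0) (h1 : ∀ h, ∀ x ∈ A h, |Y h x| ≤ 1) {δ : ℝ} (hδ : 0 < δ) :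
    (((Fintype.piFinset A).filter fun J => δ * b < |∑ h, Y h (J h)|).card : ℝ) * (δ ^ 2 * b) ≤
      (Fintype.piFinset A).card := by
  rcases Nat.eq_zero_or_pos b with hb | hb
  · subst hb
    simp
  have hbr : (0 : ℝ) < b := by exact_mod_cast hb
  have h2 := second_moment A Y h0 h1
  have h3 : (((Fintype.piFinset A).filter fun J => δ * b < |∑ h, Y h (J h)|).card : ℝ) *
      (δ * b) ^ 2 ≤ ∑ J ∈ Fintype.piFinset A, (∑ h, Y h (J h)) ^ 2 := by
    calc _ = ∑ _J ∈ (Fintype.piFinset A).filter (fun J => δ * b < |∑ h, Y h (J h)|),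
          (δ * b) ^ 2 := by rw [Finset.sum_const, nsmul_eq_mul]
      _ ≤ ∑ J ∈ (Fintype.piFinset A).filter (fun J => δ * b < |∑ h, Y h (J h)|),
          (∑ h, Y h (J h)) ^ 2 := by
          refine Finset.sum_le_sum fun J hJ => ?_
          rw [← sq_abs (∑ h, Y h (J h))]
          exact pow_le_pow_left₀ (by positivity) (Finset.mem_filter.1 hJ).2.le 2
      _ ≤ _ := Finset.sum_le_sum_of_subset_of_nonneg (Finset.filter_subset _ _)
          fun _ _ _ => sq_nonneg _
  have h4 : (((Fintype.piFinset A).filter fun J => δ * b < |∑ h, Y h (J h)|).card : ℝ) *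
      (δ ^ 2 * b) * b ≤ (Fintype.piFinset A).card * b := by
    calc _ = (((Fintype.piFinset A).filter fun J => δ * b < |∑ h, Y h (J h)|).card : ℝ) *
        (δ * b) ^ 2 := by ring
      _ ≤ _ := h3
      _ ≤ _ := h2
      _ = _ := by ring
  exact le_of_mul_le_mul_right h4 hbr

end count

section exps

variable {ι : Type} [Fintype ι] [DecidableEq ι]

/-- All functions `ι → ℕ` with sum `r`. -/
def blk (ι : Type) [Fintype ι] [DecidableEq ι] (r : ℕ) : Finset (ι → ℕ) :=
  Finset.piAntidiag Finset.univ r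

theorem mem_blk {r : ℕ} {f : ι → ℕ} : f ∈ blk ι r ↔ ∑ i, f i = r := by
  unfold blk
  rw [Finset.mem_piAntidiag]
  simp

theorem le_of_mem_blk {r : ℕ} {f : ι → ℕ} (hf : f ∈ blk ι r) (i : ι) : f i ≤ r := by
  rw [← mem_blk.1 hf]
  exact Finset.single_le_sum (fun _ _ => Nat.zero_le _) (Finset.mem_univ i)

theorem sum_blk_eq (r : ℕ) (i j : ι) : ∑ f ∈ blk ι r, (f i : ℝ) = ∑ f ∈ blk ι r, (f j : ℝ) := by
  refine Finset.sum_nbij' (fun f => f ∘ Equiv.swap i j) (fun f => f ∘ Equiv.swap i j) ?_ ?_ ?_ ?_ ?_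
  · intro f hf
    rw [mem_blk] at hf ⊢
    rw [← hf]
    exact Equiv.sum_comp (Equiv.swap i j) f
  · intro f hf
    rw [mem_blk] at hf ⊢
    rw [← hf]
    exact Equiv.sum_comp (Equiv.swap i j) f
  · intro f _
    funext k
    simp
  · intro f _
    funext k
    simp
  · intro f _
    simp

theorem mean_blk (r : ℕ) (hr : 1 ≤ r) (i : ι) :
    ∑ f ∈ blk ι r, ((f i : ℝ) / r - 1 / Fintype.card ι) = 0 := by
  have hn : 0 < Fintype.card ι := Fintype.card_pos_iff.2 ⟨i⟩
  have hn' : (Fintype.card ι : ℝ) ≠ 0 := by exact_mod_cast hn.ne'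
  have hr' : (r : ℝ) ≠ 0 := by exact_mod_cast (show r ≠ 0 by omega)
  have h1 : (Fintype.card ι : ℝ) * ∑ f ∈ blk ι r, (f i : ℝ) = r * (blk ι r).card := by
    calc (Fintype.card ι : ℝ) * ∑ f ∈ blk ι r, (f i : ℝ) =
          ∑ j : ι, ∑ f ∈ blk ι r, (f j : ℝ) := by
          rw [Finset.sum_congr rfl fun j _ => sum_blk_eq r j i, Finset.sum_const, nsmul_eq_mul,
            Finset.card_univ]
      _ = ∑ f ∈ blk ι r, ∑ j : ι, (f j : ℝ) := Finset.sum_comm
      _ = ∑ _f ∈ blk ι r, (r : ℝ) := by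
          refine Finset.sum_congr rfl fun f hf => ?_
          rw [← Nat.cast_sum, mem_blk.1 hf]
      _ = r * (blk ι r).card := by rw [Finset.sum_const, nsmul_eq_mul, mul_comm]
  rw [Finset.sum_sub_distrib, Finset.sum_const, nsmul_eq_mul, ← Finset.sum_div]
  field_simp
  linarith

theorem abs_blk_le (r : ℕ) (hr : 1 ≤ r) (i : ι) {f : ι → ℕ} (hf : f ∈ blk ι r) :
    |(f i : ℝ) / r - 1 / Fintype.card ι| ≤ 1 := by
  have hn : 0 < Fintype.card ι := Fintype.card_pos_iff.2 ⟨i⟩
  have hn' : (1 : ℝ) ≤ Fintype.card ι := by exact_mod_cast hn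
  have hr' : (0 : ℝ) < r := by exact_mod_cast hr
  have h1 : (f i : ℝ) / r ≤ 1 := by
    rw [div_le_one hr']
    exact_mod_cast le_of_mem_blk hf i
  have h2 : 0 ≤ (f i : ℝ) / r := by positivity
  have h3 : (1 : ℝ) / Fintype.card ι ≤ 1 := by
    rw [div_le_one (by linarith)]
    exact hn'
  have h4 : (0 : ℝ) ≤ 1 / Fintype.card ι := by positivity
  rw [abs_le]
  constructor <;> linarith

/-- the multihomogeneous exponents, as functions -/
def exps (ι : Type) [Fintype ι] [DecidableEq ι] {b : ℕ} (r : Fin b → ℕ) :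
    Finset (Fin b → ι → ℕ) :=
  Fintype.piFinset fun h => blk ι (r h)

theorem mem_exps {b : ℕ} {r : Fin b → ℕ} {J : Fin b → ι → ℕ} :
    J ∈ exps ι r ↔ ∀ h, ∑ i, J h i = r h := by
  unfold exps
  rw [Fintype.mem_piFinset]
  exact forall_congr' fun h => mem_blk

open Classical in
/-- the exponents which are not balanced -/
noncomputable def badExps (ι : Type) [Fintype ι] [DecidableEq ι] {b : ℕ} (r : Fin b → ℕ)
    (ε : ℝ) : Finset (Fin b → ι → ℕ) :=
  (exps ι r).filter fun J =>
    ∃ i, ε * b < |(∑ h, (J h i : ℝ) / r h) - b / Fintype.card ι|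

theorem card_badExps {b : ℕ} (r : Fin b → ℕ) (hr : ∀ h, 1 ≤ r h) {ε : ℝ} (hε : 0 < ε) :
    ((badExps ι r ε).card : ℝ) * (ε ^ 2 * b) ≤ Fintype.card ι * (exps ι r).card := by
  classical
  have h1 : badExps ι r ε ⊆ Finset.univ.biUnion fun i : ι => (exps ι r).filter fun J =>
      ε * b < |∑ h, ((J h i : ℝ) / r h - 1 / Fintype.card ι)| := by
    intro J hJ
    obtain ⟨hJ1, i, hi⟩ := Finset.mem_filter.1 hJ
    rw [Finset.mem_biUnion]
    refine ⟨i, Finset.mem_univ _, Finset.mem_filter.2 ⟨hJ1, ?_⟩⟩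
    rw [Finset.sum_sub_distrib, Finset.sum_const, Finset.card_univ, Fintype.card_fin, nsmul_eq_mul,
      mul_one_div]
    exact hi
  have h2 : ∀ i : ι, (((exps ι r).filter fun J =>
      ε * b < |∑ h, ((J h i : ℝ) / r h - 1 / Fintype.card ι)|).card : ℝ) * (ε ^ 2 * b) ≤
      (exps ι r).card := by
    intro i
    exact chebyshev (fun h => blk ι (r h)) (fun h f => (f i : ℝ) / r h - 1 / Fintype.card ι)
      (fun h => mean_blk (r h) (hr h) i) (fun h f hf => abs_blk_le (r h) (hr h) i hf) hε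
  calc ((badExps ι r ε).card : ℝ) * (ε ^ 2 * b) ≤
        (∑ i : ι, (((exps ι r).filter fun J =>
      ε * b < |∑ h, ((J h i : ℝ) / r h - 1 / Fintype.card ι)|).card : ℝ)) * (ε ^ 2 * b) := by
        refine mul_le_mul_of_nonneg_right ?_ (by positivity)
        have := (Finset.card_le_card h1).trans Finset.card_biUnion_le
        exact_mod_cast this
    _ = ∑ i : ι, (((exps ι r).filter fun J =>
      ε * b < |∑ h, ((J h i : ℝ) / r h - 1 / Fintype.card ι)|).card : ℝ) * (ε ^ 2 * b) := by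
        rw [Finset.sum_mul]
    _ ≤ ∑ _i : ι, ((exps ι r).card : ℝ) := Finset.sum_le_sum fun i _ => h2 i
    _ = _ := by rw [Finset.sum_const, nsmul_eq_mul, Finset.card_univ]

theorem card_exps_le {b : ℕ} (r : Fin b → ℕ) :
    (exps ι r).card ≤ (2 ^ Fintype.card ι) ^ (∑ h, r h) := by
  have h1 : ∀ r : ℕ, (blk ι r).card ≤ (2 ^ Fintype.card ι) ^ r := by
    intro r
    have h2 : blk ι r ⊆ Fintype.piFinset fun _ : ι => Finset.range (r + 1) := by
      intro f hf
      rw [Fintype.mem_piFinset]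
      intro i
      rw [Finset.mem_range]
      have := le_of_mem_blk hf i
      omega
    have h3 := Finset.card_le_card h2
    rw [Fintype.card_piFinset, Finset.prod_const, Finset.card_range, Finset.card_univ] at h3
    refine h3.trans ?_
    rw [← pow_mul, mul_comm (Fintype.card ι) r, pow_mul]
    exact Nat.pow_le_pow_left (Nat.lt_two_pow_self) _
  unfold exps
  rw [Fintype.card_piFinset, ← Finset.prod_pow_eq_pow_sum]
  exact Finset.prod_le_prod' fun h _ => h1 (r h)

theorem exps_nonempty {b : ℕ} (r : Fin b → ℕ) (hι : 1 ≤ Fintype.card ι) : (exps ι r).Nonempty := by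
  obtain ⟨i⟩ : Nonempty ι := Fintype.card_pos_iff.1 hι
  refine ⟨fun h => Pi.single i (r h), mem_exps.2 fun h => ?_⟩
  rw [Finset.sum_pi_single']
  simp

end exps

end Pool.Agent.Helper43.Sub
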