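import Pool.Agent.Helper43.SubAUX1

/-!
# Subspace theorem project, module AUX, part 2: monomials in algebraic numbers
-/

set_option autoImplicit false

namespace Pool.Agent.Helper43.Sub

open Pool.Agent.Helper10.Sub
open MvPolynomial Finset

/-! ### (B) algebraic coefficients -/

/-- a common denominator of finitely many rational numbers -/
theorem common_den {α : Type*} [Finite α] (q : α → ℚ) :
    ∃ N : ℕ, 0 < N ∧ ∀ a, ∃ z : ℤ, (N : ℚ) * q a = z := by
  classical
  have := Fintype.ofFinite α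
  refine ⟨∏ a, (q a).den, Finset.prod_pos fun a _ => (q a).den_pos, fun a => ?_⟩
  obtain ⟨k, hk⟩ : (q a).den ∣ ∏ a, (q a).den := Finset.dvd_prod_of_mem _ (Finset.mem_univ a)
  refine ⟨k * (q a).num, ?_⟩
  rw [hk]
  push_cast
  have h := Rat.den_mul_eq_num (q a)
  calc ((q a).den : ℚ) * k * q a = k * ((q a).den * q a) := by ring
    _ = k * (q a).num := by rw [h]

section rep

variable {F : Type*} [Field F] {D : ℕ}

/-- `x` is an integer combination of the `v t` with coefficients bounded by `B` -/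
def Rep (v : Fin D → F) (B : ℕ) (x : F) : Prop :=
  ∃ z : Fin D → ℤ, x = ∑ t, (z t : F) * v t ∧ ∀ t, |z t| ≤ B

theorem Rep.zero (v : Fin D → F) (B : ℕ) : Rep v B 0 :=
  ⟨0, by simp, fun t => by simp⟩

theorem Rep.mono {v : Fin D → F} {B B' : ℕ} (h : B ≤ B') {x : F} (hx : Rep v B x) : Rep v B' x := by
  obtain ⟨z, h1, h2⟩ := hx
  exact ⟨z, h1, fun t => (h2 t).trans (by exact_mod_cast h)⟩

theorem Rep.add {v : Fin D → F} {B B' : ℕ} {x y : F} (hx : Rep v B x) (hy : Rep v B' y) :
    Rep v (B + B') (x + y) := by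
  obtain ⟨z, h1, h2⟩ := hx
  obtain ⟨w, h3, h4⟩ := hy
  refine ⟨z + w, ?_, fun t => ?_⟩
  · rw [h1, h3, ← Finset.sum_add_distrib]
    refine Finset.sum_congr rfl fun t _ => ?_
    simp only [Pi.add_apply]
    push_cast
    ring
  · have := h2 t
    have := h4 t
    simp only [Pi.add_apply]
    push_cast
    exact (abs_add_le _ _).trans (by linarith)

theorem Rep.sum {v : Fin D → F} {B : ℕ} {κ : Type*} (s : Finset κ) (x : κ → F)
    (hx : ∀ k ∈ s, Rep v B (x k)) : Rep v (s.card * B) (∑ k ∈ s, x k) := by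
  classical
  induction s using Finset.induction_on with
  | empty => simpa using Rep.zero v 0
  | insert a s ha ih =>
    rw [Finset.sum_insert ha, Finset.card_insert_of_notMem ha]
    refine ((hx a (Finset.mem_insert_self _ _)).add
      (ih fun k hk => hx k (Finset.mem_insert_of_mem hk))).mono ?_
    rw [Nat.add_mul, one_mul, add_comm]

theorem Rep.zsmul {v : Fin D → F} {B : ℕ} {x : F} (hx : Rep v B x) (a : ℤ) {A : ℕ}
    (ha : |a| ≤ A) : Rep v (A * B) ((a : F) * x) := by
  obtain ⟨z, h1, h2⟩ := hx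
  refine ⟨fun t => a * z t, ?_, fun t => ?_⟩
  · rw [h1, Finset.mul_sum]
    refine Finset.sum_congr rfl fun t _ => ?_
    push_cast
    ring
  · rw [abs_mul]
    push_cast
    exact mul_le_mul ha (h2 t) (abs_nonneg _) (by positivity)

/-- multiplication by an element which maps each `v s` to an integer combination -/
theorem Rep.mul {v : Fin D → F} {C : ℕ} {β : F} (hβ : ∀ s, Rep v C (β * v s)) {B : ℕ} {x : F}
    (hx : Rep v B x) : Rep v (D * (B * C)) (β * x) := by
  obtain ⟨z, h1, h2⟩ := hx
  have h3 : β * x = ∑ s, (z s : F) * (β * v s) := by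
    rw [h1, Finset.mul_sum]
    refine Finset.sum_congr rfl fun t _ => ?_
    ring
  rw [h3]
  have := Rep.sum (B := B * C) Finset.univ (fun s => (z s : F) * (β * v s))
    (fun s _ => (hβ s).zsmul (z s) (h2 s))
  simpa using this

end rep

/-- Structure constants for finitely many algebraic elements. -/
theorem alg_struct {F : Type*} [Field F] [Algebra ℚ F] {κ : Type*} [Finite κ] (β : κ → F)
    (hβ : ∀ k, IsAlgebraic ℚ (β k)) :
    ∃ (D : ℕ) (v : Fin D → F) (D0 : ℕ) (C : ℕ), 0 < D0 ∧ 1 ≤ C ∧ 1 ≤ D ∧ Rep v C 1 ∧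
      ∀ k s, Rep v C ((D0 : F) * β k * v s) := by
  classical
  have := Fintype.ofFinite κ
  have hchar : CharZero F := algebraRat.charZero F
  let A := Algebra.adjoin ℚ (Set.range β)
  have hA : (Subalgebra.toSubmodule A).FG := by
    apply fg_adjoin_of_finite (Set.finite_range β)
    rintro _ ⟨k, rfl⟩
    exact (hβ k).isIntegral
  obtain ⟨G, hG⟩ := hA
  let D := G.card
  let u : Fin D → F := fun s => (G.equivFin.symm s : F)
  have hu : Submodule.span ℚ (Set.range u) = Subalgebra.toSubmodule A := by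
    rw [← hG]
    congr 1
    ext x
    constructor
    · rintro ⟨s, rfl⟩
      exact (G.equivFin.symm s).2
    · intro hx
      exact ⟨G.equivFin ⟨x, hx⟩, by simp [u]⟩
  have hrep : ∀ x ∈ A, ∃ q : Fin D → ℚ, ∑ t, q t • u t = x := by
    intro x hx
    have : x ∈ Submodule.span ℚ (Set.range u) := by rw [hu]; exact hx
    exact (Submodule.mem_span_range_iff_exists_fun ℚ).1 this
  have huA : ∀ s, u s ∈ A := by
    intro s
    have : u s ∈ Submodule.span ℚ (Set.range u) := Submodule.subset_span ⟨s, rfl⟩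
    rw [hu] at this
    exact this
  -- the unit
  obtain ⟨q1, hq1⟩ := hrep 1 A.one_mem
  obtain ⟨N1, hN1, hz1⟩ := common_den q1
  choose z1 hz1 using hz1
  -- the products
  have h2 : ∀ ks : κ × Fin D, ∃ q : Fin D → ℚ, ∑ t, q t • u t = β ks.1 * u ks.2 := fun ks =>
    hrep _ (A.mul_mem (Algebra.subset_adjoin ⟨ks.1, rfl⟩) (huA ks.2))
  choose q2 hq2 using h2
  obtain ⟨N2, hN2, hz2⟩ := common_den (fun x : (κ × Fin D) × Fin D => q2 x.1 x.2)
  choose z2 hz2 using hz2
  have hN1' : (N1 : F) ≠ 0 := by exact_mod_cast hN1.ne'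
  let v : Fin D → F := fun s => (N1 : F)⁻¹ * u s
  let C : ℕ := 1 + ∑ t, (z1 t).natAbs + ∑ x, (z2 x).natAbs
  have hC1 : ∀ t, |z1 t| ≤ C := by
    intro t
    have : (z1 t).natAbs ≤ ∑ t, (z1 t).natAbs :=
      Finset.single_le_sum (f := fun t => (z1 t).natAbs) (fun _ _ => Nat.zero_le _)
        (Finset.mem_univ t)
    have h : (z1 t).natAbs ≤ C := by omega
    rw [Int.abs_eq_natAbs]
    exact_mod_cast h
  have hC2 : ∀ x, |z2 x| ≤ C := by
    intro x
    have : (z2 x).natAbs ≤ ∑ x, (z2 x).natAbs :=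
      Finset.single_le_sum (f := fun x => (z2 x).natAbs) (fun _ _ => Nat.zero_le _)
        (Finset.mem_univ x)
    have h : (z2 x).natAbs ≤ C := by omega
    rw [Int.abs_eq_natAbs]
    exact_mod_cast h
  have hone : Rep v C (1 : F) := by
    refine ⟨z1, ?_, hC1⟩
    rw [← hq1]
    refine Finset.sum_congr rfl fun t _ => ?_
    have h3 : (z1 t : F) = (N1 : F) * (algebraMap ℚ F (q1 t)) := by
      have := congrArg (algebraMap ℚ F) (hz1 t)
      rw [map_mul, map_natCast, map_intCast] at this
      exact this.symm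
    rw [Algebra.smul_def, h3]
    simp only [v]
    field_simp
  refine ⟨D, v, N2, C, hN2, by omega, ?_, hone, ?_⟩
  · by_contra hD
    have hD0 : D = 0 := by omega
    obtain ⟨z, hz, _⟩ := hone
    have : IsEmpty (Fin D) := by rw [hD0]; infer_instance
    rw [Finset.univ_eq_empty, Finset.sum_empty] at hz
    exact one_ne_zero hz
  · intro k s
    refine ⟨fun t => z2 ((k, s), t), ?_, fun t => hC2 _⟩
    have h3 : ∀ t, (z2 ((k, s), t) : F) = (N2 : F) * (algebraMap ℚ F (q2 (k, s) t)) := by
      intro t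
      have := congrArg (algebraMap ℚ F) (hz2 ((k, s), t))
      rw [map_mul, map_natCast, map_intCast] at this
      exact this.symm
    calc (N2 : F) * β k * v s = (N1 : F)⁻¹ * ((N2 : F) * (β k * u s)) := by simp only [v]; ring
      _ = (N1 : F)⁻¹ * ((N2 : F) * ∑ t, q2 (k, s) t • u t) := by rw [hq2 (k, s)]
      _ = ∑ t, (z2 ((k, s), t) : F) * v t := by
          rw [Finset.mul_sum, Finset.mul_sum]
          refine Finset.sum_congr rfl fun t _ => ?_
          rw [h3, Algebra.smul_def]
          simp only [v]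
          ring

/-! ### (C) the coefficients of a product of linear forms -/

section forms

variable {ι : Type} [Fintype ι] [DecidableEq ι] {F : Type*} [Field F] {b : ℕ}

/-- the linear form substituted for the variable `q` -/
noncomputable def lf (M : Matrix ι ι F) (q : Fin b × ι) : MvPolynomial (Fin b × ι) F :=
  ∑ j, C (M q.2 j) * X (q.1, j)

theorem coeff_lf_mul (M : Matrix ι ι F) (q : Fin b × ι) (G : MvPolynomial (Fin b × ι) F)
    (J : (Fin b × ι) →₀ ℕ) :
    coeff J (lf M q * G) = ∑ j, M q.2 j * coeff J (X (q.1, j) * G) := by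
  unfold lf
  rw [Finset.sum_mul, coeff_sum]
  refine Finset.sum_congr rfl fun j _ => ?_
  rw [mul_assoc, coeff_C_mul]

/-- levels -/
def Lev {D : ℕ} (v : Fin D → F) (D0 B s : ℕ) (d : Fin b → ℕ) (G : MvPolynomial (Fin b × ι) F) :
    Prop :=
  (∀ J, Rep v B ((D0 : F) ^ s * coeff J G)) ∧ ∀ J, coeff J G ≠ 0 → ∀ h, ∑ i, J (h, i) = d h

theorem Lev.mul {D : ℕ} {v : Fin D → F} {D0 C : ℕ} (M : Matrix ι ι F)
    (hM : ∀ i j s, Rep v C ((D0 : F) * M i j * v s)) {B s : ℕ} {d : Fin b → ℕ}
    {G : MvPolynomial (Fin b × ι) F} (hG : Lev v D0 B s d G) (q : Fin b × ι) :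
    Lev v D0 (Fintype.card ι * (D * (B * C))) (s + 1) (d + Pi.single q.1 1) (lf M q * G) := by
  constructor
  · intro J
    rw [coeff_lf_mul, Finset.mul_sum]
    have h1 : ∀ j ∈ (Finset.univ : Finset ι), Rep v (D * (B * C))
        ((D0 : F) ^ (s + 1) * (M q.2 j * coeff J (X (q.1, j) * G))) := by
      intro j _
      rw [coeff_X_mul']
      split_ifs with hj
      · have h2 := Rep.mul (fun s => hM q.2 j s) (hG.1 (J - Finsupp.single (q.1, j) 1))
        convert h2 using 1
        ring
      · rw [mul_zero, mul_zero]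
        exact Rep.zero v _
    have h2 := Rep.sum Finset.univ _ h1
    rwa [Finset.card_univ] at h2
  · intro J hJ h
    rw [coeff_lf_mul] at hJ
    obtain ⟨j, _, hj⟩ := Finset.exists_ne_zero_of_sum_ne_zero hJ
    have hj2 := right_ne_zero_of_mul hj
    rw [coeff_X_mul'] at hj2
    split_ifs at hj2 with hmem
    · have h3 := hG.2 _ hj2 h
      have hJ1 : 1 ≤ J (q.1, j) := by
        rw [Finsupp.mem_support_iff] at hmem
        omega
      have h4 : ∑ i, J (h, i) = ∑ i, ((J - Finsupp.single (q.1, j) 1 : (Fin b × ι) →₀ ℕ) (h, i) +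
          (Finsupp.single (q.1, j) 1 : (Fin b × ι) →₀ ℕ) (h, i)) := by
        refine Finset.sum_congr rfl fun i _ => ?_
        have h5 : (Finsupp.single (q.1, j) 1 : (Fin b × ι) →₀ ℕ) (h, i) ≤ J (h, i) := by
          rw [Finsupp.single_apply]
          split_ifs with he
          · rw [← he]; exact hJ1
          · exact Nat.zero_le _
        simp only [Finsupp.coe_tsub, Pi.sub_apply]
        omega
      rw [h4, Finset.sum_add_distrib, h3, Pi.add_apply]
      congr 1
      by_cases hq : q.1 = h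
      · subst hq
        rw [Pi.single_eq_same, Finset.sum_eq_single j]
        · simp
        · intro i _ hi
          rw [Finsupp.single_apply, if_neg]
          intro he
          exact hi (Prod.ext_iff.1 he).2.symm
        · intro hh; exact absurd (Finset.mem_univ _) hh
      · rw [Pi.single_eq_of_ne (fun h => hq h.symm)]
        apply Finset.sum_eq_zero
        intro i _
        rw [Finsupp.single_apply, if_neg]
        intro he
        exact hq (Prod.ext_iff.1 he).1
    · exact absurd rfl hj2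

theorem Lev.pow_mul {D : ℕ} {v : Fin D → F} {D0 C : ℕ} (M : Matrix ι ι F)
    (hM : ∀ i j s, Rep v C ((D0 : F) * M i j * v s)) (q : Fin b × ι) (k : ℕ) :
    ∀ {B s : ℕ} {d : Fin b → ℕ} {G : MvPolynomial (Fin b × ι) F}, Lev v D0 B s d G →
      Lev v D0 ((Fintype.card ι * D * C) ^ k * B) (s + k) (d + Pi.single q.1 k)
        (lf M q ^ k * G) := by
  induction k with
  | zero =>
    intro B s d G hG
    simpa using hG
  | succ k ih =>
    intro B s d G hG
    have h1 := ih (hG.mul M hM q)
    have e1 : lf M q ^ (k + 1) * G = lf M q ^ k * (lf M q * G) := by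
      rw [pow_succ, mul_assoc]
    have e2 : (Fintype.card ι * D * C) ^ (k + 1) * B =
        (Fintype.card ι * D * C) ^ k * (Fintype.card ι * (D * (B * C))) := by
      rw [pow_succ]; ring
    have e3 : s + (k + 1) = s + 1 + k := by ring
    have e4 : d + Pi.single q.1 (k + 1) = d + Pi.single q.1 1 + Pi.single q.1 k := by
      rw [add_assoc, ← Pi.single_add, add_comm 1 k]
    rw [e1, e2, e3, e4]
    exact h1

theorem Lev.prod {D : ℕ} {v : Fin D → F} {D0 C B0 : ℕ} (M : Matrix ι ι F)
    (hM : ∀ i j s, Rep v C ((D0 : F) * M i j * v s)) (h1 : Rep v B0 (1 : F))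
    (e : Fin b × ι → ℕ) (Q : Finset (Fin b × ι)) :
    Lev v D0 ((Fintype.card ι * D * C) ^ (∑ q ∈ Q, e q) * B0) (∑ q ∈ Q, e q)
      (∑ q ∈ Q, Pi.single q.1 (e q)) (∏ q ∈ Q, lf M q ^ e q) := by
  induction Q using Finset.induction_on with
  | empty =>
    simp only [Finset.sum_empty, pow_zero, one_mul, Finset.prod_empty]
    constructor
    · intro J
      rw [pow_zero, one_mul, coeff_one]
      split_ifs
      · exact h1
      · exact Rep.zero v _
    · intro J hJ h
      rw [coeff_one] at hJ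
      split_ifs at hJ with h0
      · rw [← h0]; simp
      · exact absurd rfl hJ
  | insert a Q ha ih =>
    rw [Finset.sum_insert ha, Finset.prod_insert ha, Finset.sum_insert ha]
    have h2 := Lev.pow_mul M hM a (e a) ih
    have e2 : (Fintype.card ι * D * C) ^ (e a + ∑ q ∈ Q, e q) * B0 =
        (Fintype.card ι * D * C) ^ (e a) * ((Fintype.card ι * D * C) ^ (∑ q ∈ Q, e q) * B0) := by
      rw [pow_add]; ring
    rw [e2, add_comm (e a), add_comm (Pi.single a.1 (e a) : Fin b → ℕ)]
    exact h2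

end forms

end Pool.Agent.Helper43.Sub
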